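import Mathlib

/-!
# Evaluation of a Čech cocycle at the elements of a fiber functor
-/

namespace TameSite

universe v v' u w w'

open CategoryTheory Opposite

variable {C : Type u} [Category.{v} C] (F : C ⥤ Type w)

/-- The elements of the fiber functor over `v₀`, in a member of the sieve `T`. -/
structure Pt {V : C} (T : Sieve V) (v₀ : F.obj V) where
  W : C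
  g : W ⟶ V
  hg : T g
  φ : F.obj W
  h : F.map g φ = v₀

variable {F} [IsCofiltered F.Elements]

lemma exists_common₂ {V W₁ W₂ : C} (g₁ : W₁ ⟶ V) (g₂ : W₂ ⟶ V) (φ₁ : F.obj W₁) (φ₂ : F.obj W₂)
    (h : F.map g₁ φ₁ = F.map g₂ φ₂) :
    ∃ (W : C) (a₁ : W ⟶ W₁) (a₂ : W ⟶ W₂) (φ : F.obj W), a₁ ≫ g₁ = a₂ ≫ g₂ ∧
      F.map a₁ φ = φ₁ ∧ F.map a₂ φ = φ₂ := by
  let α₁ : F.elementsMk _ φ₁ ⟶ F.elementsMk _ (F.map g₂ φ₂) := ⟨g₁, h⟩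
  let α₂ : F.elementsMk _ φ₂ ⟶ F.elementsMk _ (F.map g₂ φ₂) := ⟨g₂, rfl⟩
  obtain ⟨z, q₁, q₂, fac⟩ := IsCofiltered.cospan α₁ α₂
  rw [Subtype.ext_iff] at fac
  exact ⟨z.1, q₁.1, q₂.1, z.2, fac, CategoryOfElements.map_snd q₁, CategoryOfElements.map_snd q₂⟩

lemma exists_common₄ {W₁ W₂ W W' : C} (a₁ : W ⟶ W₁) (a₂ : W ⟶ W₂) (a₁' : W' ⟶ W₁)
    (a₂' : W' ⟶ W₂) (φ : F.obj W) (φ' : F.obj W') (h₁ : F.map a₁ φ = F.map a₁' φ')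
    (h₂ : F.map a₂ φ = F.map a₂' φ') :
    ∃ (W'' : C) (b : W'' ⟶ W) (b' : W'' ⟶ W') (φ'' : F.obj W''), b ≫ a₁ = b' ≫ a₁' ∧
      b ≫ a₂ = b' ≫ a₂' ∧ F.map b φ'' = φ ∧ F.map b' φ'' = φ' := by
  obtain ⟨Z, c, c', ψ, e, e₁, e₂⟩ := exists_common₂ a₁ a₁' φ φ' h₁
  let β₁ : F.elementsMk _ ψ ⟶ F.elementsMk _ (F.map a₂ φ) := ⟨c ≫ a₂, by
    simp [F.map_comp, e₁]⟩
  let β₂ : F.elementsMk _ ψ ⟶ F.elementsMk _ (F.map a₂ φ) := ⟨c' ≫ a₂', by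
    simp [F.map_comp, e₂, h₂]⟩
  let q := IsCofiltered.eqHom β₁ β₂
  have hq := IsCofiltered.eq_condition β₁ β₂
  rw [Subtype.ext_iff] at hq
  have hψ : F.map q.1 (IsCofiltered.eq β₁ β₂).2 = ψ := CategoryOfElements.map_snd q
  refine ⟨_, q.1 ≫ c, q.1 ≫ c', (IsCofiltered.eq β₁ β₂).2, ?_, ?_, ?_, ?_⟩
  · simp [e]
  · simpa using hq
  · simp [F.map_comp, hψ, e₁]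
  · simp [F.map_comp, hψ, e₂]

variable {O : Cᵒᵖ ⥤ AddCommGrpCat.{w'}} {A : Type*} [AddCommGroup A]
  (ev : ∀ {W : C}, F.obj W → (O.obj (op W)) → A)
  (hadd : ∀ {W : C} (φ : F.obj W) (a b : O.obj (op W)), ev φ (a + b) = ev φ a + ev φ b)
  (hev : ∀ {W W' : C} (b : W' ⟶ W) (φ : F.obj W') (a : O.obj (op W)),
    ev φ (O.map b.op a) = ev (F.map b φ) a)

include hadd hev in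
/-- Evaluation of Čech data. -/
theorem exists_cocycle {V : C} (T : Sieve V) (v₀ : F.obj V)
    (c : ∀ ⦃W₁ W₂ W : C⦄ (g₁ : W₁ ⟶ V) (_ : T g₁) (g₂ : W₂ ⟶ V) (_ : T g₂)
          (a₁ : W ⟶ W₁) (a₂ : W ⟶ W₂), a₁ ≫ g₁ = a₂ ≫ g₂ → O.obj (op W))
    (hc : ∀ ⦃W₁ W₂ W₃ W : C⦄ (g₁ : W₁ ⟶ V) (h₁ : T g₁) (g₂ : W₂ ⟶ V) (h₂ : T g₂)
          (g₃ : W₃ ⟶ V) (h₃ : T g₃) (a₁ : W ⟶ W₁) (a₂ : W ⟶ W₂) (a₃ : W ⟶ W₃)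
          (e₁₂ : a₁ ≫ g₁ = a₂ ≫ g₂) (e₂₃ : a₂ ≫ g₂ = a₃ ≫ g₃) (e₁₃ : a₁ ≫ g₁ = a₃ ≫ g₃),
          c g₁ h₁ g₂ h₂ a₁ a₂ e₁₂ + c g₂ h₂ g₃ h₃ a₂ a₃ e₂₃ = c g₁ h₁ g₃ h₃ a₁ a₃ e₁₃)
    (hn : ∀ ⦃W₁ W₂ W W' : C⦄ (g₁ : W₁ ⟶ V) (h₁ : T g₁) (g₂ : W₂ ⟶ V) (h₂ : T g₂)
          (a₁ : W ⟶ W₁) (a₂ : W ⟶ W₂) (e : a₁ ≫ g₁ = a₂ ≫ g₂) (b : W' ⟶ W)
          (e' : (b ≫ a₁) ≫ g₁ = (b ≫ a₂) ≫ g₂),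
          c g₁ h₁ g₂ h₂ (b ≫ a₁) (b ≫ a₂) e' = O.map b.op (c g₁ h₁ g₂ h₂ a₁ a₂ e)) :
    ∃ c' : Pt F T v₀ → Pt F T v₀ → A,
      (∀ (p₁ p₂ : Pt F T v₀) (W : C) (a₁ : W ⟶ p₁.W) (a₂ : W ⟶ p₂.W)
        (e : a₁ ≫ p₁.g = a₂ ≫ p₂.g) (φ : F.obj W), F.map a₁ φ = p₁.φ → F.map a₂ φ = p₂.φ →
          c' p₁ p₂ = ev φ (c p₁.g p₁.hg p₂.g p₂.hg a₁ a₂ e)) ∧
      ∀ p₁ p₂ p₃, c' p₁ p₂ + c' p₂ p₃ = c' p₁ p₃ := by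
  have hex : ∀ p₁ p₂ : Pt F T v₀, ∃ (W : C) (a₁ : W ⟶ p₁.W) (a₂ : W ⟶ p₂.W) (φ : F.obj W),
      a₁ ≫ p₁.g = a₂ ≫ p₂.g ∧ F.map a₁ φ = p₁.φ ∧ F.map a₂ φ = p₂.φ := fun p₁ p₂ =>
    exists_common₂ p₁.g p₂.g p₁.φ p₂.φ (by rw [p₁.h, p₂.h])
  choose W a₁ a₂ φ e h₁ h₂ using hex
  have key : ∀ (p₁ p₂ : Pt F T v₀) (W' : C) (b₁ : W' ⟶ p₁.W) (b₂ : W' ⟶ p₂.W)
        (e' : b₁ ≫ p₁.g = b₂ ≫ p₂.g) (φ' : F.obj W'), F.map b₁ φ' = p₁.φ → F.map b₂ φ' = p₂.φ →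
          ev (φ p₁ p₂) (c p₁.g p₁.hg p₂.g p₂.hg (a₁ p₁ p₂) (a₂ p₁ p₂) (e p₁ p₂)) =
            ev φ' (c p₁.g p₁.hg p₂.g p₂.hg b₁ b₂ e') := by
    intro p₁ p₂ W' b₁ b₂ e' φ' k₁ k₂
    obtain ⟨Z, d, d', ψ, l₁, l₂, m₁, m₂⟩ := exists_common₄ (a₁ p₁ p₂) (a₂ p₁ p₂) b₁ b₂
      (φ p₁ p₂) φ' (by rw [h₁, k₁]) (by rw [h₂, k₂])
    have n₁ := hn p₁.g p₁.hg p₂.g p₂.hg (a₁ p₁ p₂) (a₂ p₁ p₂) (e p₁ p₂) d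
      (by simp [e p₁ p₂])
    have n₂ := hn p₁.g p₁.hg p₂.g p₂.hg b₁ b₂ e' d' (by simp [e'])
    have n₃ : c p₁.g p₁.hg p₂.g p₂.hg (d ≫ a₁ p₁ p₂) (d ≫ a₂ p₁ p₂) (by simp [e p₁ p₂]) =
        c p₁.g p₁.hg p₂.g p₂.hg (d' ≫ b₁) (d' ≫ b₂) (by simp [e']) := by
      congr 1
    rw [← m₁, ← hev, ← n₁, n₃, n₂, hev, m₂]
  refine ⟨fun p₁ p₂ => ev (φ p₁ p₂) (c p₁.g p₁.hg p₂.g p₂.hg (a₁ p₁ p₂) (a₂ p₁ p₂) (e p₁ p₂)),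
    fun p₁ p₂ W' b₁ b₂ e' φ' k₁ k₂ => key p₁ p₂ W' b₁ b₂ e' φ' k₁ k₂, fun p₁ p₂ p₃ => ?_⟩
  obtain ⟨Z, d, d', ψ, l, m₁, m₂⟩ := exists_common₂ (a₁ p₁ p₂ ≫ p₁.g) p₃.g (φ p₁ p₂) p₃.φ (by
    rw [F.map_comp, p₃.h]
    show F.map p₁.g (F.map (a₁ p₁ p₂) (φ p₁ p₂)) = v₀
    rw [h₁, p₁.h])
  have r₁ : F.map (d ≫ a₁ p₁ p₂) ψ = p₁.φ := by
    rw [F.map_comp]
    show F.map (a₁ p₁ p₂) (F.map d ψ) = _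
    rw [m₁, h₁]
  have r₂ : F.map (d ≫ a₂ p₁ p₂) ψ = p₂.φ := by
    rw [F.map_comp]
    show F.map (a₂ p₁ p₂) (F.map d ψ) = _
    rw [m₁, h₂]
  have e₁₂ : (d ≫ a₁ p₁ p₂) ≫ p₁.g = (d ≫ a₂ p₁ p₂) ≫ p₂.g := by simp [e p₁ p₂]
  have e₁₃ : (d ≫ a₁ p₁ p₂) ≫ p₁.g = d' ≫ p₃.g := by simpa using l
  have e₂₃ : (d ≫ a₂ p₁ p₂) ≫ p₂.g = d' ≫ p₃.g := by rw [← e₁₂, e₁₃]
  show ev _ _ + ev _ _ = ev _ _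
  rw [key p₁ p₂ Z _ _ e₁₂ ψ r₁ r₂, key p₂ p₃ Z _ _ e₂₃ ψ r₂ m₂, key p₁ p₃ Z _ _ e₁₃ ψ r₁ m₂,
    ← hadd, hc]

end TameSite
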