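import Pool.Agent.Lib_helper87.Tame.Point
import Pool.Agent.Lib_helper87.Tame.CechPt

/-!
# The action of the Galois group on geometric points
-/

namespace TameSite

universe u

open CategoryTheory AlgebraicGeometry Limits Opposite

variable {X : Scheme.{u}} {Ω : Type u} [Field Ω] [IsSepClosed Ω] (s : Spec (.of Ω) ⟶ X)

/-- The fiber functor of a geometric point. -/
noncomputable abbrev Fib : X.Etale ⥤ Type u := (Scheme.pointSmallEtale s).fiber

variable {s}

/-- The underlying geometric point. -/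
noncomputable def Fib.pt {W : X.Etale} (φ : (Fib s).obj W) : Spec (.of Ω) ⟶ W.left :=
  (φ : Over.mk s ⟶ (Scheme.Etale.forget X).obj W).left

lemma Fib.pt_hom {W : X.Etale} (φ : (Fib s).obj W) : Fib.pt φ ≫ W.hom = s :=
  Over.w (φ : Over.mk s ⟶ (Scheme.Etale.forget X).obj W)

/-- Constructor for geometric points. -/
noncomputable def Fib.mk {W : X.Etale} (ψ : Spec (.of Ω) ⟶ W.left) (h : ψ ≫ W.hom = s) :
    (Fib s).obj W :=
  (Over.homMk ψ h : Over.mk s ⟶ (Scheme.Etale.forget X).obj W)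

@[simp]
lemma Fib.pt_mk {W : X.Etale} (ψ : Spec (.of Ω) ⟶ W.left) (h : ψ ≫ W.hom = s) :
    Fib.pt (Fib.mk ψ h) = ψ := rfl

@[ext]
lemma Fib.ext {W : X.Etale} {φ φ' : (Fib s).obj W} (h : Fib.pt φ = Fib.pt φ') : φ = φ' :=
  Over.OverMorphism.ext h

@[simp]
lemma Fib.pt_map {W W' : X.Etale} (g : W ⟶ W') (φ : (Fib s).obj W) :
    Fib.pt ((Fib s).map g φ) = Fib.pt φ ≫ g.left := rfl

instance : IsCofiltered (Fib s).Elements :=
  inferInstanceAs (IsCofiltered (Scheme.Etale.forget X ⋙ coyoneda.obj (op (Over.mk s))).Elements)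

/-- The morphism of spectra given by a field automorphism. -/
noncomputable abbrev specAut (σ : Ω ≃+* Ω) : Spec (.of Ω) ⟶ Spec (.of Ω) :=
  Spec.map (CommRingCat.ofHom (σ : Ω →+* Ω))

variable {κ : Type u} [Field κ] [Algebra κ Ω]

/-- The action of the Galois group on the geometric points of the members of a sieve. -/
@[implicit_reducible]
noncomputable def ptAction (hs : ∀ σ : Ω ≃ₐ[κ] Ω, specAut (σ : Ω ≃+* Ω) ≫ s = s) {V : X.Etale}
    (T : Sieve V) (v₀ : (Fib s).obj V)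
    (hv : ∀ σ : Ω ≃ₐ[κ] Ω, specAut (σ : Ω ≃+* Ω) ≫ Fib.pt v₀ = Fib.pt v₀) :
    MulAction (Ω ≃ₐ[κ] Ω) (Pt (Fib s) T v₀) where
  smul σ p :=
    { W := p.W
      g := p.g
      hg := p.hg
      φ := Fib.mk (specAut (σ : Ω ≃+* Ω) ≫ Fib.pt p.φ) (by
        rw [Category.assoc, Fib.pt_hom, hs])
      h := by
        have h1 := congrArg Fib.pt p.h
        rw [Fib.pt_map] at h1
        apply Fib.ext
        rw [Fib.pt_map, Fib.pt_mk, Category.assoc, h1, hv] }
  one_smul p := by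
    obtain ⟨W, g, hg, φ, h⟩ := p
    show Pt.mk W g hg _ _ = Pt.mk W g hg φ h
    congr 1
    apply Fib.ext
    rw [Fib.pt_mk]
    have : specAut ((1 : Ω ≃ₐ[κ] Ω) : Ω ≃+* Ω) = 𝟙 _ := by
      rw [← Spec.map_id]
      rfl
    rw [this, Category.id_comp]
  mul_smul σ τ p := by
    obtain ⟨W, g, hg, φ, h⟩ := p
    show Pt.mk W g hg _ _ = Pt.mk W g hg _ _
    congr 1
    apply Fib.ext
    show specAut ((σ * τ : Ω ≃ₐ[κ] Ω) : Ω ≃+* Ω) ≫ Fib.pt φ =
      specAut (σ : Ω ≃+* Ω) ≫ (specAut (τ : Ω ≃+* Ω) ≫ Fib.pt φ)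
    rw [← Category.assoc, ← Spec.map_comp]
    rfl

end TameSite
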