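import Pool.Agent.Lib_helper87.Tame.Defs

/-!
# Artin-Schreier equations solved by elements fixed by the ramification group
-/

namespace TameSite

/-- The Artin-Schreier equation `z ^ 2 + z = a` has a solution fixed by the ramification group
of `W` over `K`. -/
def Unr (K : Type*) {Ω : Type*} [Field K] [Field Ω] [Algebra K Ω] (W : ValuationSubring Ω)
    (a : Ω) : Prop :=
  ∃ z : Ω, z ^ 2 + z = a ∧ ∀ σ : Ω ≃ₐ[K] Ω, Wild W (σ : Ω ≃+* Ω) → σ z = z

end TameSite
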