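import Pool.Agent.Lib_helper87.Tame.Defs

/-!
# Base change of étale schemes
-/

namespace TameSite

universe u

open CategoryTheory AlgebraicGeometry Limits

set_option backward.isDefEq.respectTransparency.types false in
instance {X Y : Scheme.{u}} (g : Y ⟶ X) :
    MorphismProperty.HasPullbacksAlong (@Etale) g := inferInstance

set_option backward.isDefEq.respectTransparency.types false in
instance {X Y : Scheme.{u}} (g : Y ⟶ X) :
    MorphismProperty.IsStableUnderBaseChangeAlong (@Etale) g := inferInstance

/-- Base change of étale schemes: `U ↦ U ×_X Y`. -/
noncomputable def baseChange {X Y : Scheme.{u}} (g : Y ⟶ X) : X.Etale ⥤ Y.Etale :=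
  MorphismProperty.Over.pullback @Etale ⊤ g

end TameSite
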