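import Pool.Agent.Lib_helper87.Tame.SiteCompare
import Pool.Agent.Lib_helper87.Tame.BaseChangeDef

/-!
# Base change of étale schemes
-/

namespace TameSite

universe u
open CategoryTheory AlgebraicGeometry Limits

lemma etale_left_hom {X : Scheme.{u}} {U V : X.Etale} (h : U ⟶ V) : h.left ≫ V.hom = U.hom :=
  MorphismProperty.Over.w h

/-- The base change of a morphism of étale schemes. -/
noncomputable def baseChangeMap {X Y : Scheme.{u}} (g : Y ⟶ X) {U V : X.Etale} (h : U ⟶ V) :
    pullback U.hom g ⟶ pullback V.hom g :=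
  pullback.lift (pullback.fst U.hom g ≫ h.left) (pullback.snd U.hom g)
    ((Category.assoc _ _ _).trans ((congrArg (pullback.fst U.hom g ≫ ·) (etale_left_hom h)).trans
      pullback.condition))

lemma baseChangeMap_fst {X Y : Scheme.{u}} (g : Y ⟶ X) {U V : X.Etale} (h : U ⟶ V) :
    baseChangeMap g h ≫ pullback.fst V.hom g = pullback.fst U.hom g ≫ h.left :=
  pullback.lift_fst _ _ _

lemma baseChangeMap_snd {X Y : Scheme.{u}} (g : Y ⟶ X) {U V : X.Etale} (h : U ⟶ V) :
    baseChangeMap g h ≫ pullback.snd V.hom g = pullback.snd U.hom g :=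
  pullback.lift_snd _ _ _

lemma baseChange_map_left {X Y : Scheme.{u}} (g : Y ⟶ X) {U V : X.Etale} (h : U ⟶ V) :
    ((baseChange g).map h).left = baseChangeMap g h := rfl

end TameSite
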