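import Pool.Agent.Lib_helper87.Tame.BaseChange

/-!
# Base change of étale schemes preserves finite limits
-/

namespace TameSite

universe u

open CategoryTheory AlgebraicGeometry Limits

/-- Base change of étale schemes is compatible with base change of schemes. -/
noncomputable def baseChangeForgetIso {X Y : Scheme.{u}} (g : Y ⟶ X) :
    baseChange g ⋙ Scheme.Etale.forget Y ≅ Scheme.Etale.forget X ⋙ Over.pullback g :=
  NatIso.ofComponents (fun U => Iso.refl _) (fun {U V} h => by
    apply Over.OverMorphism.ext
    exact (Category.comp_id (baseChangeMap g h)).trans (Category.id_comp (baseChangeMap g h)).symm)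

theorem baseChange_preservesFiniteLimits {X Y : Scheme.{u}} (g : Y ⟶ X) :
    PreservesFiniteLimits (baseChange g) := by
  have : PreservesFiniteLimits (Scheme.Etale.forget X ⋙ Over.pullback g) :=
    comp_preservesFiniteLimits _ _
  have : PreservesFiniteLimits (baseChange g ⋙ Scheme.Etale.forget Y) :=
    preservesFiniteLimits_of_natIso (baseChangeForgetIso g).symm
  refine ⟨fun J _ _ => ?_⟩
  exact preservesLimitsOfShape_of_reflects_of_preserves (baseChange g) (Scheme.Etale.forget Y)

end TameSite
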