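import Pool.Agent.Lib_helper87.Tame.TameGen

/-!
# Base change of tame coverings
-/

namespace TameSite

universe u

open CategoryTheory AlgebraicGeometry Limits Opposite

/-- The image of an `S`-valuation. -/
theorem isSValuation_image {V U S : Scheme.{u}} (g : V ⟶ U) (h : U ⟶ S)
    (y : V) (w : ValuationSubring (V.residueField y)) (H : IsSValuation (g ≫ h) y w) :
    IsSValuation h (g y) (w.comap (g.residueFieldMap y).hom) := by
  obtain ⟨g0, hg0⟩ := H
  refine t4_descend (S := S) (g.residueFieldMap y).hom w g0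
    (U.fromSpecResidueField (g y) ≫ h) ?_
  refine Eq.trans ?_ hg0.symm
  calc _ = (Spec.map (g.residueFieldMap y) ≫ U.fromSpecResidueField (g y)) ≫ h :=
        (Category.assoc _ _ _).symm
    _ = (V.fromSpecResidueField y ≫ g) ≫ h :=
          congrArg (· ≫ h) (Scheme.Hom.SpecMap_residueFieldMap_fromSpecResidueField g y)
    _ = _ := Category.assoc _ _ _

theorem baseChangeMap_isPullback {X Y : Scheme.{u}} (g : Y ⟶ X) {U V : X.Etale} (k : V ⟶ U) :
    IsPullback (pullback.fst V.hom g) (baseChangeMap g k) k.left (pullback.fst U.hom g) := by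
  have h1 : IsPullback (pullback.snd U.hom g) (pullback.fst U.hom g) g U.hom :=
    (IsPullback.of_hasPullback U.hom g).flip
  have h2 : IsPullback (baseChangeMap g k ≫ pullback.snd U.hom g) (pullback.fst V.hom g) g
      (k.left ≫ U.hom) := by
    have h3 := (IsPullback.of_hasPullback V.hom g).flip
    rw [baseChangeMap_snd]
    have h4 : k.left ≫ U.hom = V.hom := etale_left_hom k
    rw [h4]
    exact h3
  exact (IsPullback.of_right h2 (baseChangeMap_fst g k) h1).flip

theorem baseChange_tame {X Y S : Scheme.{u}} (g : Y ⟶ X) (f : X ⟶ S) {U : X.Etale}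
    (R : Presieve U) (hR : R ∈ (tamePrecoverage f).coverings U) :
    (Sieve.generate R).functorPushforward (baseChange g) ∈
      tameTopology (g ≫ f) ((baseChange g).obj U) := by
  rw [← Sieve.generate_map_eq_functorPushforward]
  refine Precoverage.generate_mem_toGrothendieck ?_
  refine mem_tame_iff.2 ⟨fun u' => ?_, fun u' v' hv' => ?_⟩
  · obtain ⟨V, k, hk, y, hy⟩ := (mem_tame_iff.1 hR).1 (pullback.fst U.hom g u')
    have hp := baseChangeMap_isPullback g k
    obtain ⟨z, hz1, hz2⟩ := Scheme.Pullback.exists_preimage_pullback (f := k.left)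
      (g := pullback.fst U.hom g) y u' hy
    refine ⟨(baseChange g).obj V, (baseChange g).map k, Presieve.map_map hk,
      hp.isoPullback.inv z, ?_⟩
    show baseChangeMap g k (hp.isoPullback.inv z) = u'
    rw [← hz2, ← Scheme.Hom.comp_apply, hp.isoPullback_inv_snd]
  · have e1 : pullback.snd U.hom g ≫ (g ≫ f) = pullback.fst U.hom g ≫ (U.hom ≫ f) := by
      calc _ = (pullback.snd U.hom g ≫ g) ≫ f := (Category.assoc _ _ _).symm
        _ = (pullback.fst U.hom g ≫ U.hom) ≫ f := by rw [← pullback.condition]
        _ = _ := Category.assoc _ _ _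
    have hv1 : IsSValuation (pullback.fst U.hom g ≫ (U.hom ≫ f)) u' v' := by
      rw [← e1]
      exact hv'
    have hv2 := isSValuation_image (pullback.fst U.hom g) (U.hom ≫ f) u' v' hv1
    obtain ⟨V, k, hk, y, w, hw1, hw2, hw3⟩ := (mem_tame_iff.1 hR).2 _ _ hv2
    obtain ⟨y', w', h1, h2⟩ := exists_pullback_valuation (pullback.fst V.hom g)
      (baseChangeMap g k) k.left (pullback.fst U.hom g) (baseChangeMap_isPullback g k) u' v' y w
      hw2 hw3
    refine ⟨(baseChange g).obj V, (baseChange g).map k, Presieve.map_map hk, y', w', ?_, h1, h2⟩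
    refine t3_isSValuation_comap (g ≫ f) ((baseChange g).map k) y' w' ?_
    let P : (Σ u : ↑(pullback U.hom g), ValuationSubring ((pullback U.hom g).residueField u)) →
      Prop := fun t => IsSValuation (pullback.snd U.hom g ≫ (g ≫ f)) t.1 t.2
    have h3 : P ⟨u', v'⟩ := hv'
    rw [← h1] at h3
    exact h3

end TameSite
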