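import Pool.Agent.Lib_helper87.Tame.Resol

/-!
# Čech data from the vanishing of the second derived functor
-/

namespace TameSite

universe u

open CategoryTheory Limits Opposite

section

variable {C : Type (u + 1)} [Category.{u} C] {J : GrothendieckTopology C}

/-- Value of a morphism on a section. -/
def ap {F G : Sheaf J AddCommGrpCat.{u + 1}} (f : F ⟶ G) {U : C} (x : F.obj.obj (op U)) :
    G.obj.obj (op U) := f.hom.app (op U) x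

/-- Restriction of a section. -/
def rs {F : Sheaf J AddCommGrpCat.{u + 1}} {U V : C} (g : V ⟶ U) (x : F.obj.obj (op U)) :
    F.obj.obj (op V) := F.obj.map g.op x

variable {F G H : Sheaf J AddCommGrpCat.{u + 1}} (f : F ⟶ G) (f' : G ⟶ H) {U V W : C}

lemma ap_add (x y : F.obj.obj (op U)) : ap f (x + y) = ap f x + ap f y :=
  map_add (f.hom.app (op U)).hom x y

lemma ap_sub (x y : F.obj.obj (op U)) : ap f (x - y) = ap f x - ap f y :=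
  map_sub (f.hom.app (op U)).hom x y

lemma ap_zero : ap f (0 : F.obj.obj (op U)) = 0 := map_zero (f.hom.app (op U)).hom

lemma rs_add (g : V ⟶ U) (x y : F.obj.obj (op U)) : rs g (x + y) = rs g x + rs g y :=
  map_add (F.obj.map g.op).hom x y

lemma rs_sub (g : V ⟶ U) (x y : F.obj.obj (op U)) : rs g (x - y) = rs g x - rs g y :=
  map_sub (F.obj.map g.op).hom x y

lemma rs_zero (g : V ⟶ U) : rs g (0 : F.obj.obj (op U)) = 0 := map_zero (F.obj.map g.op).hom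

lemma rs_comp (g : V ⟶ U) (g' : W ⟶ V) (x : F.obj.obj (op U)) : rs g' (rs g x) = rs (g' ≫ g) x :=
  (map_comp_app g g' x).symm

lemma ap_rs (g : V ⟶ U) (x : F.obj.obj (op U)) : ap f (rs g x) = rs g (ap f x) := hom_map f g x

lemma ap_ap (x : F.obj.obj (op U)) : ap f' (ap f x) = ap (f ≫ f') x := rfl

lemma ap_zero' (x : F.obj.obj (op U)) : ap (0 : F ⟶ G) x = 0 := rfl

lemma ap_inj [Mono f] {x y : F.obj.obj (op U)} (h : ap f x = ap f y) : x = y := by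
  rw [← sub_eq_zero]
  refine sections_injective f U _ ?_
  show ap f (x - y) = 0
  rw [ap_sub, h, sub_self]

lemma exists_ker (x : F.obj.obj (op U)) (hx : ap f x = 0) :
    ∃ y : (kernel f).obj.obj (op U), ap (kernel.ι f) y = x :=
  sections_exact (ShortComplex.mk (kernel.ι f) f (kernel.condition _))
    (ShortComplex.exact_kernel f) U x hx

lemma eq_of_loc {x y : F.obj.obj (op U)}
    (T : Sieve U) (hT : T ∈ J U) (h : ∀ ⦃V : C⦄ (g : V ⟶ U), T g → rs g x = rs g y) :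
    x = y := by
  rw [← sub_eq_zero]
  refine eq_zero_of_loc F _ T hT fun V g hg => ?_
  show rs g (x - y) = 0
  rw [rs_sub, h g hg, sub_self]

end

section

variable {C : Type (u + 1)} [Category.{u} C] {J : GrothendieckTopology C}
  {A A4 I0 I1 : Sheaf J AddCommGrpCat.{u + 1}} {j : A ⟶ A4} {q : A4 ⟶ A} {η : A ⟶ I0}
  {d0 : I0 ⟶ I1} {φ : A4 ⟶ I0} {φ' : A ⟶ I1} [Mono j] [Epi q] [Mono η] (hjq : j ≫ q = 0)
  (hex : (ShortComplex.mk j q hjq).Exact) (h0 : η ≫ d0 = 0)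
  (hex0 : (ShortComplex.mk η d0 h0).Exact) (hφ : j ≫ φ = η) (hφ' : q ≫ φ' = φ ≫ d0)

include hex hφ in
omit [Epi q] in
lemma pb_unique {U : C} (c c' : A4.obj.obj (op U)) (h1 : ap q c = ap q c')
    (h2 : ap φ c = ap φ c') : c = c' := by
  obtain ⟨c0, hc0⟩ : ∃ c0 : A.obj.obj (op U), ap j c0 = c - c' :=
    sections_exact _ hex U (c - c') (by
      show ap q (c - c') = 0
      rw [ap_sub, h1, sub_self])
  have h3 : c0 = 0 := by
    apply ap_inj η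
    rw [ap_zero, ← hφ, ← ap_ap, hc0, ap_sub, h2, sub_self]
  rw [h3, ap_zero] at hc0
  exact (sub_eq_zero.1 hc0.symm)

include hex hex0 hφ hφ' in
lemma pb_exists {U : C} (a : A.obj.obj (op U)) (s : I0.obj.obj (op U))
    (h : ap φ' a = ap d0 s) : ∃ c : A4.obj.obj (op U), ap q c = a ∧ ap φ c = s := by
  let T : Sieve U :=
    { arrows := fun V g => ∃ c : A4.obj.obj (op V), ap q c = rs g a ∧ ap φ c = rs g s
      downward_closed := by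
        rintro V W g ⟨c, h1, h2⟩ k
        exact ⟨rs k c, by rw [ap_rs, h1, rs_comp], by rw [ap_rs, h2, rs_comp]⟩ }
  have hT : T ∈ J U := by
    obtain ⟨T', hT', h'⟩ := loc_surj q U a
    refine J.superset_covering (fun V g hg => ?_) hT'
    obtain ⟨y, hy⟩ := h' g hg
    have hy' : ap q y = rs g a := hy
    obtain ⟨c0, hc0⟩ : ∃ c0 : A.obj.obj (op V), ap η c0 = ap φ y - rs g s :=
      sections_exact _ hex0 V (ap φ y - rs g s) (by
        show ap d0 (ap φ y - rs g s) = 0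
        rw [ap_sub, ap_ap, ← hφ', ← ap_ap, hy', ap_rs, ap_rs, h, sub_self])
    refine ⟨y - ap j c0, ?_, ?_⟩
    · rw [ap_sub, ap_ap, hjq, ap_zero', sub_zero, hy']
    · rw [ap_sub, ap_ap, hφ, hc0, sub_sub_cancel]
  choose c h1 h2 using fun (V : C) (g : V ⟶ U) (hg : T g) => hg
  obtain ⟨x, hx⟩ := exists_glue A4 T hT (fun V g hg => c V g hg) (by
    intro V W g hg k hk
    apply pb_unique hjq hex hφ
    · refine (ap_rs q k (c V g hg)).trans ?_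
      rw [h1, rs_comp, h1]
    · refine (ap_rs φ k (c V g hg)).trans ?_
      rw [h2, rs_comp, h2])
  have hx' : ∀ ⦃V : C⦄ (g : V ⟶ U) (hg : T g), rs g x = c V g hg := hx
  refine ⟨x, eq_of_loc T hT fun V g hg => ?_, eq_of_loc T hT fun V g hg => ?_⟩
  · rw [← ap_rs, hx' g hg, h1]
  · rw [← ap_rs, hx' g hg, h2]

end

/-- The abstract argument with an injective resolution. -/
theorem cech_data {C : Type (u + 1)} [Category.{u} C] {J K : GrothendieckTopology C}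
    [IsGrothendieckAbelian.{u + 1} (Sheaf J AddCommGrpCat.{u + 1})] (hKJ : K ≤ J)
    (O : Sheaf J AddCommGrpCat.{u + 1}) (p : O ⟶ O)
    (ha : ∀ (U : C) (a : O.obj.obj (op U)), p.hom.app _ a = 0 →
      ∃ T ∈ J U, ∀ ⦃V : C⦄ (g : V ⟶ U), T g →
        ∃ b : O.obj.obj (op V), p.hom.app _ b = O.obj.map g.op a)
    (X : C) (x : O.obj.obj (op X))
    (hx : ∃ T ∈ J X, ∀ ⦃V : C⦄ (g : V ⟶ X), T g →
        ∃ b : O.obj.obj (op V), p.hom.app _ b = O.obj.map g.op x)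
    (hzero : IsZero (((pushforwardLE hKJ).rightDerived 2).obj (kernel p))) :
    ∃ R ∈ K X, ∀ ⦃V : C⦄ (f : V ⟶ X), R f → ∃ T ∈ J V,
      ∃ (z : ∀ ⦃W : C⦄ (g : W ⟶ V), T g → O.obj.obj (op W))
        (c : ∀ ⦃W₁ W₂ W : C⦄ (g₁ : W₁ ⟶ V) (_ : T g₁) (g₂ : W₂ ⟶ V) (_ : T g₂)
          (a₁ : W ⟶ W₁) (a₂ : W ⟶ W₂), a₁ ≫ g₁ = a₂ ≫ g₂ → O.obj.obj (op W)),
        (∀ ⦃W : C⦄ (g : W ⟶ V) (hg : T g), p.hom.app _ (z g hg) = O.obj.map (g ≫ f).op x) ∧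
        (∀ ⦃W₁ W₂ W : C⦄ (g₁ : W₁ ⟶ V) (h₁ : T g₁) (g₂ : W₂ ⟶ V) (h₂ : T g₂)
          (a₁ : W ⟶ W₁) (a₂ : W ⟶ W₂) (e : a₁ ≫ g₁ = a₂ ≫ g₂),
          p.hom.app _ (c g₁ h₁ g₂ h₂ a₁ a₂ e) =
            O.obj.map a₁.op (z g₁ h₁) - O.obj.map a₂.op (z g₂ h₂)) ∧
        (∀ ⦃W₁ W₂ W₃ W : C⦄ (g₁ : W₁ ⟶ V) (h₁ : T g₁) (g₂ : W₂ ⟶ V) (h₂ : T g₂)
          (g₃ : W₃ ⟶ V) (h₃ : T g₃) (a₁ : W ⟶ W₁) (a₂ : W ⟶ W₂) (a₃ : W ⟶ W₃)
          (e₁₂ : a₁ ≫ g₁ = a₂ ≫ g₂) (e₂₃ : a₂ ≫ g₂ = a₃ ≫ g₃) (e₁₃ : a₁ ≫ g₁ = a₃ ≫ g₃),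
          c g₁ h₁ g₂ h₂ a₁ a₂ e₁₂ + c g₂ h₂ g₃ h₃ a₂ a₃ e₂₃ = c g₁ h₁ g₃ h₃ a₁ a₃ e₁₃) ∧
        (∀ ⦃W₁ W₂ W W' : C⦄ (g₁ : W₁ ⟶ V) (h₁ : T g₁) (g₂ : W₂ ⟶ V) (h₂ : T g₂)
          (a₁ : W ⟶ W₁) (a₂ : W ⟶ W₂) (e : a₁ ≫ g₁ = a₂ ≫ g₂) (b : W' ⟶ W)
          (e' : (b ≫ a₁) ≫ g₁ = (b ≫ a₂) ≫ g₂),
          c g₁ h₁ g₂ h₂ (b ≫ a₁) (b ≫ a₂) e' = O.obj.map b.op (c g₁ h₁ g₂ h₂ a₁ a₂ e)) := by
  let A := kernel p
  let ι : A ⟶ O := kernel.ι p
  let A4 := kernel (p ≫ p)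
  let ι4 : A4 ⟶ O := kernel.ι (p ≫ p)
  have hι : ι ≫ p = 0 := kernel.condition p
  have hι4 : ι4 ≫ p ≫ p = 0 := kernel.condition (p ≫ p)
  let j : A ⟶ A4 := kernel.lift (p ≫ p) ι (by rw [← Category.assoc, hι, zero_comp])
  have hj : j ≫ ι4 = ι := kernel.lift_ι _ _ _
  let q : A4 ⟶ A := kernel.lift p (ι4 ≫ p) (by rw [Category.assoc, hι4])
  have hq : q ≫ ι = ι4 ≫ p := kernel.lift_ι _ _ _
  have : Mono j := mono_of_mono_fac hj
  have hjq : j ≫ q = 0 := by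
    rw [← cancel_mono ι, Category.assoc, hq, ← Category.assoc, hj, hι, zero_comp]
  have hepi : Epi q := by
    rw [← Sheaf.isLocallySurjective_iff_epi']
    refine ⟨fun {U} s => ?_⟩
    obtain ⟨T, hT, h⟩ := ha U (ap ι s) (by
      show ap p (ap ι s) = 0
      rw [ap_ap, hι, ap_zero'])
    refine J.superset_covering (fun V g hg => ?_) hT
    obtain ⟨b, hb⟩ := h g hg
    have hb' : ap p b = rs g (ap ι s) := hb
    obtain ⟨b', hb''⟩ := exists_ker (p ≫ p) b (by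
      rw [← ap_ap, hb', ← ap_rs, ap_ap, hι, ap_zero'])
    refine ⟨b', ?_⟩
    show ap q b' = rs g s
    apply ap_inj ι
    rw [ap_ap, hq, ← ap_ap, ap_rs, ← hb', ← hb'']
  have hex : (ShortComplex.mk j q hjq).Exact := by
    refine ShortComplex.exact_of_f_is_kernel _ (KernelFork.IsLimit.ofι j hjq
      (fun {Z} g hg => kernel.lift p (g ≫ ι4) (by
        rw [Category.assoc, ← hq, ← Category.assoc, hg, zero_comp])) ?_ ?_)
    · intro Z g hg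
      rw [← cancel_mono ι4, Category.assoc, hj]
      exact kernel.lift_ι _ _ _
    · intro Z g hg m hm
      rw [← cancel_mono ι]
      refine Eq.trans ?_ (kernel.lift_ι _ _ _).symm
      rw [← hm, Category.assoc, hj]
  obtain ⟨I0, I1, I2, I3, η, d0, d1, d2, h0, h1, h2, h2', inj0, inj1, hη, hex0, hex1, hex2⟩ :=
    exists_resolution A (pushforwardLE hKJ) hzero
  let φ : A4 ⟶ I0 := Injective.factorThru η j
  have hφ : j ≫ φ = η := Injective.comp_factorThru _ _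
  let φ' : A ⟶ I1 := hex.desc (φ ≫ d0) (by
    show j ≫ φ ≫ d0 = 0
    rw [← Category.assoc, hφ, h0])
  have hφ' : q ≫ φ' = φ ≫ d0 := hex.g_desc _ _
  let θ : O ⟶ I1 := Injective.factorThru φ' ι
  have hθ : ι ≫ θ = φ' := Injective.comp_factorThru _ _
  have hφ'd : φ' ≫ d1 = 0 := by
    rw [← cancel_epi q, ← Category.assoc, hφ', Category.assoc, h1, comp_zero, comp_zero]
  have hker : ∀ (V : C) (z z' : O.obj.obj (op V)), ap p z = ap p z' →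
      ap d1 (ap θ z) = ap d1 (ap θ z') := by
    intro V z z' hz
    obtain ⟨a0, ha0⟩ := exists_ker p (z - z') (by rw [ap_sub, hz, sub_self])
    rw [← sub_eq_zero, ← ap_sub, ← ap_sub, ← ha0]
    show ap d1 (ap θ (ap ι a0)) = 0
    rw [ap_ap ι θ, hθ, ap_ap, hφ'd, ap_zero']
  let T0 : Sieve X :=
    { arrows := fun V g => ∃ b : O.obj.obj (op V), ap p b = rs g x
      downward_closed := by
        rintro V W g ⟨b, hb⟩ k
        exact ⟨rs k b, by rw [ap_rs, hb, rs_comp]⟩ }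
  have hT0 : T0 ∈ J X := by
    obtain ⟨T, hT, h⟩ := hx
    exact J.superset_covering (fun V g hg => h g hg) hT
  choose b hb using fun (V : C) (g : V ⟶ X) (hg : T0 g) => hg
  obtain ⟨a, ha'⟩ := exists_glue I2 T0 hT0 (fun V g hg => ap d1 (ap θ (b V g hg))) (by
    intro V W g hg k hk
    show rs k (ap d1 (ap θ (b V g hg))) = _
    rw [← ap_rs, ← ap_rs]
    apply hker
    rw [ap_rs, hb, rs_comp, hb])
  have haz : ∀ (V : C) (g : V ⟶ X) (z : O.obj.obj (op V)), ap p z = rs g x →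
      rs g a = ap d1 (ap θ z) := by
    intro V g z hz
    have hg : T0 g := ⟨z, hz⟩
    refine (ha' g hg).trans (hker V _ _ ?_)
    rw [hb, hz]
  have hda : ap d2 a = 0 := by
    refine eq_of_loc T0 hT0 fun V g hg => ?_
    rw [← ap_rs, haz V g (b V g hg) (hb V g hg), ap_ap, h2, ap_zero', rs_zero]
  obtain ⟨R, hR, hRt⟩ := loc_exact _ hex2 X a hda
  refine ⟨R, hR, fun V f hf => ?_⟩
  obtain ⟨t, ht⟩ : ∃ t : I1.obj.obj (op V), ap d1 t = rs f a := hRt f hf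
  let T : Sieve V :=
    { arrows := fun W g => ∃ (z : O.obj.obj (op W)) (s : I0.obj.obj (op W)),
        ap p z = rs (g ≫ f) x ∧ ap d0 s = ap θ z - rs g t
      downward_closed := by
        rintro W W' g ⟨z, s, h1, h2⟩ k
        exact ⟨rs k z, rs k s, by rw [ap_rs, h1, rs_comp, Category.assoc],
          by rw [ap_rs, h2, rs_sub, rs_comp, ap_rs]⟩ }
  have hT : T ∈ J V := by
    refine J.transitive (J.pullback_stable f hT0) T fun W g hg => ?_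
    obtain ⟨z, hz⟩ : ∃ z : O.obj.obj (op W), ap p z = rs (g ≫ f) x := hg
    obtain ⟨T2, hT2, h2⟩ := loc_exact _ hex1 W (ap θ z - rs g t) (by
      show ap d1 (ap θ z - rs g t) = 0
      rw [ap_sub, ap_rs, ht, rs_comp, haz W (g ≫ f) z hz, sub_self])
    refine J.superset_covering (fun W' g' hg' => ?_) hT2
    obtain ⟨s, hs⟩ := h2 g' hg'
    have hs' : ap d0 s = rs g' (ap θ z - rs g t) := hs
    refine ⟨rs g' z, s, ?_, ?_⟩
    · rw [ap_rs, hz, rs_comp, Category.assoc]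
    · rw [hs', rs_sub, rs_comp, ap_rs]
  choose z s hz hs using fun (W : C) (g : W ⟶ V) (hg : T g) => hg
  have hcc : ∀ (W₁ W₂ W : C) (g₁ : W₁ ⟶ V) (h₁ : T g₁) (g₂ : W₂ ⟶ V) (h₂ : T g₂)
      (a₁ : W ⟶ W₁) (a₂ : W ⟶ W₂) (_ : a₁ ≫ g₁ = a₂ ≫ g₂), ∃ c : A4.obj.obj (op W),
      ap ι (ap q c) = rs a₁ (z W₁ g₁ h₁) - rs a₂ (z W₂ g₂ h₂) ∧
      ap φ c = rs a₁ (s W₁ g₁ h₁) - rs a₂ (s W₂ g₂ h₂) := by
    intro W₁ W₂ W g₁ k₁ g₂ k₂ a₁ a₂ e
    obtain ⟨a0, ha0⟩ := exists_ker p (rs a₁ (z W₁ g₁ k₁) - rs a₂ (z W₂ g₂ k₂)) (by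
      rw [ap_sub, ap_rs, ap_rs, hz, hz, rs_comp, rs_comp, ← Category.assoc, ← Category.assoc, e,
        sub_self])
    have ha0' : ap ι a0 = rs a₁ (z W₁ g₁ k₁) - rs a₂ (z W₂ g₂ k₂) := ha0
    obtain ⟨c, hc1, hc2⟩ := pb_exists hjq hex h0 hex0 hφ hφ' a0
      (rs a₁ (s W₁ g₁ k₁) - rs a₂ (s W₂ g₂ k₂)) (by
        rw [← hθ, ← ap_ap, ha0', ap_sub, ap_sub, ap_rs, ap_rs, ap_rs, ap_rs, hs, hs, rs_sub,
          rs_sub, rs_comp, rs_comp, e]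
        abel)
    exact ⟨c, by rw [hc1, ha0'], hc2⟩
  choose cc hcc1 hcc2 using hcc
  have huniq : ∀ (W : C) (c c' : A4.obj.obj (op W)), ap ι (ap q c) = ap ι (ap q c') →
      ap φ c = ap φ c' → c = c' := fun W c c' k1 k2 =>
    pb_unique hjq hex hφ c c' (ap_inj ι k1) k2
  refine ⟨T, hT, fun W g hg => z W g hg, fun W₁ W₂ W g₁ k₁ g₂ k₂ a₁ a₂ e =>
    ap ι4 (cc W₁ W₂ W g₁ k₁ g₂ k₂ a₁ a₂ e), ?_, ?_, ?_, ?_⟩
  · intro W g hg
    exact hz W g hg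
  · intro W₁ W₂ W g₁ k₁ g₂ k₂ a₁ a₂ e
    show ap p (ap ι4 _) = rs a₁ _ - rs a₂ _
    rw [ap_ap, ← hq, ← ap_ap, hcc1]
  · intro W₁ W₂ W₃ W g₁ k₁ g₂ k₂ g₃ k₃ a₁ a₂ a₃ e₁₂ e₂₃ e₁₃
    show ap ι4 _ + ap ι4 _ = ap ι4 _
    rw [← ap_add]
    congr 1
    apply huniq
    · rw [ap_add, ap_add, hcc1, hcc1, hcc1, sub_add_sub_cancel]
    · rw [ap_add, hcc2, hcc2, hcc2, sub_add_sub_cancel]
  · intro W₁ W₂ W W' g₁ k₁ g₂ k₂ a₁ a₂ e b e'
    show ap ι4 _ = rs b (ap ι4 _)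
    rw [← ap_rs]
    congr 1
    apply huniq
    · rw [hcc1, ap_rs, ap_rs, hcc1, rs_sub, rs_comp, rs_comp]
    · rw [hcc2, ap_rs, hcc2, rs_sub, rs_comp, rs_comp]

end TameSite
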