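import Pool.Agent.Lib_helper87.Tame.ConstKernel
import Pool.Agent.Lib_helper87.Tame.Cech
import Pool.Agent.Lib_helper87.Tame.BaseChange

/-!
# The étale constant sheaf is the constant sheaf for coarser topologies
-/

namespace TameSite

universe u

open CategoryTheory AlgebraicGeometry Limits Opposite

lemma etale_surj {X : Scheme.{u}} {U : X.Etale} (R : Sieve U) (hR : R ∈ X.smallEtaleTopology U)
    (u : U.left) : ∃ (V : X.Etale) (g : V ⟶ U) (_ : R g) (y : V.left), g.left y = u := by
  obtain ⟨ι, Z, f, rfl⟩ := R.exists_eq_ofArrows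
  rw [Scheme.ofArrows_mem_smallEtaleTopology_iff] at hR
  have h1 : u ∈ ⋃ i, Set.range (f i).left := by rw [hR]; trivial
  obtain ⟨i, y, hy⟩ := Set.mem_iUnion.1 h1
  exact ⟨Z i, f i, Sieve.ofArrows_mk _ _ i, y, hy⟩

section

variable {U V : Scheme.{u}} (g : V ⟶ U) [Etale g]

/-- The image of an étale morphism, as an open subset. -/
noncomputable def imOpen : U.Opens := ⟨Set.range g, g.isOpenMap.isOpen_range⟩

/-- The factorization of an étale morphism through its image. -/
noncomputable def toIm : V ⟶ (imOpen g : Scheme.{u}) :=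
  IsOpenImmersion.lift (imOpen g).ι g (by
    rintro _ ⟨y, rfl⟩
    rw [Scheme.Opens.range_ι]
    exact ⟨y, rfl⟩)

lemma toIm_comp : toIm g ≫ (imOpen g).ι = g := IsOpenImmersion.lift_fac _ _ _

lemma toIm_surj (z : (imOpen g : Scheme.{u})) : ∃ y : V, toIm g y = z := by
  obtain ⟨y, hy⟩ : ∃ y : V, g y = (imOpen g).ι z := z.2
  refine ⟨y, ?_⟩
  apply (imOpen g).ι.isOpenEmbedding.injective
  rw [← hy, ← Scheme.Hom.comp_apply, toIm_comp]

end

lemma etale_left {X : Scheme.{u}} {U V : X.Etale} (g : V ⟶ U) : Etale g.left := inferInstance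

/-- The factorization of an étale morphism through its image. -/
noncomputable def toImage {X : Scheme.{u}} {U V : X.Etale} (g : V ⟶ U) :
    V ⟶ openSub U (imOpen g.left) :=
  MorphismProperty.Over.homMk (toIm g.left) (by
    show toIm g.left ≫ ((imOpen g.left).ι ≫ U.hom) = V.hom
    rw [← Category.assoc, toIm_comp]
    exact etale_left_hom g) trivial

lemma toImage_comp {X : Scheme.{u}} {U V : X.Etale} (g : V ⟶ U) :
    toImage g ≫ openSubι U (imOpen g.left) = g := by
  apply MorphismProperty.Over.Hom.ext
  exact toIm_comp g.left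

section

variable {X : Scheme.{u}} (M : AddCommGrpCat.{u + 1})

/-- The map from the constant presheaf to the étale constant sheaf. -/
noncomputable abbrev constUnit : (Functor.const X.Etaleᵒᵖ).obj M ⟶
    ((constantSheaf X.smallEtaleTopology AddCommGrpCat.{u + 1}).obj M).obj :=
  toSheafify X.smallEtaleTopology ((Functor.const X.Etaleᵒᵖ).obj M)

lemma constUnit_locInj {J : GrothendieckTopology X.Etale} (hN : nisnevichTopology X ≤ J) :
    Presheaf.IsLocallyInjective J (constUnit (X := X) M) where
  equalizerSieve_mem {U} a b h := by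
    obtain ⟨U⟩ := U
    apply hN
    apply mem_nisnevich_of_forall
    intro u
    have h1 : Presheaf.IsLocallyInjective X.smallEtaleTopology
      (toSheafify X.smallEtaleTopology ((Functor.const X.Etaleᵒᵖ).obj M)) := inferInstance
    obtain ⟨V, g, hg, y, hy⟩ := etale_surj _ (h1.equalizerSieve_mem a b h) u
    have hab : a = b := hg
    refine ⟨U, 𝟙 U, ?_, u, rfl, ?_⟩
    · rw [hab]
      simp
    · exact residueFieldMap_bijective_of_isOpenImmersion (𝟙 U.left) _

lemma constUnit_locSurj {J : GrothendieckTopology X.Etale} (hN : nisnevichTopology X ≤ J) :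
    Presheaf.IsLocallySurjective J (constUnit (X := X) M) where
  imageSieve_mem {U} s := by
    apply hN
    apply mem_nisnevich_of_forall
    intro u
    have h1 : Presheaf.IsLocallySurjective X.smallEtaleTopology
      (toSheafify X.smallEtaleTopology ((Functor.const X.Etaleᵒᵖ).obj M)) := inferInstance
    obtain ⟨V, g, ⟨m, hm⟩, y, hy⟩ := etale_surj _ (h1.imageSieve_mem s) u
    refine ⟨openSub U (imOpen g.left), openSubι U (imOpen g.left), ?_, ⟨u, ⟨y, hy⟩⟩, rfl, ?_⟩
    · refine ⟨m, ?_⟩
      let F : Sheaf X.smallEtaleTopology AddCommGrpCat.{u + 1} :=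
        (constantSheaf X.smallEtaleTopology AddCommGrpCat.{u + 1}).obj M
      refine eq_of_loc (F := F) (Sieve.ofArrows (fun _ : Unit => V) (fun _ => toImage g)) ?_ ?_
      · rw [Scheme.ofArrows_mem_smallEtaleTopology_iff]
        ext z
        simp only [Set.mem_iUnion, Set.mem_range, Set.mem_univ, iff_true]
        obtain ⟨y, hy⟩ := toIm_surj g.left z
        exact ⟨(), y, hy⟩
      · intro W k hk
        obtain ⟨Z, a, b, ⟨i⟩, hab⟩ := hk
        have h2 : rs (F := F) (toImage g) (rs (F := F) (openSubι U (imOpen g.left)) s) =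
            rs (F := F) g s := by
          rw [rs_comp, toImage_comp]
        have h3 : rs (F := F) g s = (constUnit M).app (op V) m := hm.symm
        have h4 : rs (F := F) (toImage g) ((constUnit (X := X) M).app
            (op (openSub U (imOpen g.left))) m) = (constUnit M).app (op V) m :=
          (NatTrans.naturality_apply (constUnit (X := X) M) (toImage g).op m).symm
        have h5 : rs (F := F) (toImage g) ((constUnit (X := X) M).app
            (op (openSub U (imOpen g.left))) m) =
            rs (F := F) (toImage g) (rs (F := F) (openSubι U (imOpen g.left)) s) := by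
          rw [h4, h2, h3]
        rw [← hab, ← rs_comp, ← rs_comp]
        exact congrArg (rs (F := F) a) h5
    · exact residueFieldMap_bijective_of_isOpenImmersion (imOpen g.left).ι _

end

/-- The direct image of the étale constant sheaf is the constant sheaf. -/
theorem constantSheaf_iso_pushforward {X : Scheme.{u}} {J : GrothendieckTopology X.Etale}
    (hJ : J ≤ X.smallEtaleTopology) (hN : nisnevichTopology X ≤ J) (M : AddCommGrpCat.{u + 1}) :
    Nonempty ((constantSheaf J AddCommGrpCat.{u + 1}).obj M ≅
      (pushforwardLE hJ).obj ((constantSheaf X.smallEtaleTopology AddCommGrpCat.{u + 1}).obj M)) := by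
  have h1 := constUnit_locInj M hN
  have h3 := constUnit_locSurj M hN
  have h4 : J.W (constUnit (X := X) M) := J.W_of_isLocallyBijective _
  have h5 : IsIso ((presheafToSheaf J AddCommGrpCat.{u + 1}).map (constUnit (X := X) M)) :=
    (J.W_iff _).1 h4
  have i1 := asIso ((presheafToSheaf J AddCommGrpCat.{u + 1}).map (constUnit (X := X) M))
  have i2 := asIso ((sheafificationAdjunction J AddCommGrpCat.{u + 1}).counit.app
    ((pushforwardLE hJ).obj
      ((constantSheaf X.smallEtaleTopology AddCommGrpCat.{u + 1}).obj M)))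
  exact ⟨i1 ≪≫ i2⟩

end TameSite
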