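import Pool.Agent.Lib_helper87.Tame.Defs

/-!
# Covering presieves
-/

namespace TameSite

universe u

open CategoryTheory AlgebraicGeometry Limits

lemma exists_ofArrows {C : Type (u + 1)} [Category.{u} C] {U : C} (R : Presieve U) :
    R = Presieve.ofArrows (fun i : (Σ V : C, {g : V ⟶ U // R g}) => i.1) (fun i => i.2.1) := by
  refine le_antisymm ?_ ?_
  · intro V g hg
    exact Presieve.ofArrows.mk (⟨V, g, hg⟩ : Σ V : C, {g : V ⟶ U // R g})
  · rintro _ _ ⟨i⟩
    exact i.2.2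

theorem mem_tame_iff {X S : Scheme.{u}} {f : X ⟶ S} {U : X.Etale} {R : Presieve U} :
    R ∈ (tamePrecoverage f).coverings U ↔
    (∀ u : U.left, ∃ (V : X.Etale) (g : V ⟶ U) (_ : R g) (y : V.left), g.left y = u) ∧
    ∀ (u : U.left) (v : ValuationSubring (U.left.residueField u)),
      IsSValuation (U.hom ≫ f) u v →
        ∃ (V : X.Etale) (g : V ⟶ U) (_ : R g) (y : V.left)
          (w : ValuationSubring (V.left.residueField y)),
          IsSValuation (V.hom ≫ f) y w ∧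
          (⟨g.left y, w.comap (g.left.residueFieldMap y).hom⟩ :
            Σ u : U.left, ValuationSubring (U.left.residueField u)) = ⟨u, v⟩ ∧
          IsTamelyRamified (g.left.residueFieldMap y).hom w := by
  constructor
  · rintro ⟨ι, V, g, rfl, h1, h2⟩
    refine ⟨fun u => ?_, fun u v hv => ?_⟩
    · obtain ⟨i, y, hy⟩ := h1 u
      exact ⟨V i, g i, Presieve.ofArrows.mk i, y, hy⟩
    · obtain ⟨i, y, w, h3, h4, h5⟩ := h2 u v hv
      exact ⟨V i, g i, Presieve.ofArrows.mk i, y, w, h3, h4, h5⟩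
  · rintro ⟨h1, h2⟩
    refine ⟨(Σ V : X.Etale, {g : V ⟶ U // R g}), _, _, exists_ofArrows R, fun u => ?_,
      fun u v hv => ?_⟩
    · obtain ⟨V, g, hg, y, hy⟩ := h1 u
      exact ⟨⟨V, g, hg⟩, y, hy⟩
    · obtain ⟨V, g, hg, y, w, h3, h4, h5⟩ := h2 u v hv
      exact ⟨⟨V, g, hg⟩, y, w, h3, h4, h5⟩

theorem mem_nis_iff {X : Scheme.{u}} {U : X.Etale} {R : Presieve U} :
    R ∈ (nisnevichPrecoverage X).coverings U ↔
    ∀ u : U.left, ∃ (V : X.Etale) (g : V ⟶ U) (_ : R g) (y : V.left),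
      g.left y = u ∧ Function.Bijective (g.left.residueFieldMap y).hom := by
  constructor
  · rintro ⟨ι, V, g, rfl, h1⟩ u
    obtain ⟨i, y, hy⟩ := h1 u
    exact ⟨V i, g i, Presieve.ofArrows.mk i, y, hy⟩
  · intro h1
    refine ⟨(Σ V : X.Etale, {g : V ⟶ U // R g}), _, _, exists_ofArrows R, fun u => ?_⟩
    obtain ⟨V, g, hg, y, hy⟩ := h1 u
    exact ⟨⟨V, g, hg⟩, y, hy⟩

end TameSite
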