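import Pool.Agent.Lib_helper87.Tame.SheafDefs
import Pool.Agent.Lib_helper87.Tame.Members

/-!
# The constant sheaf `ℤ/2` is the kernel of the Artin-Schreier endomorphism
-/

namespace TameSite

universe u

open CategoryTheory AlgebraicGeometry Limits Opposite

lemma mem_nisnevich_of_forall {X : Scheme.{u}} {U : X.Etale} (S : Sieve U)
    (h : ∀ u : U.left, ∃ (V : X.Etale) (g : V ⟶ U) (_ : S g) (y : V.left),
      g.left y = u ∧ Function.Bijective (g.left.residueFieldMap y).hom) :
    S ∈ nisnevichTopology X U := by
  have h1 : S.arrows ∈ (nisnevichPrecoverage X).coverings U := mem_nis_iff.2 h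
  have h2 := Precoverage.generate_mem_toGrothendieck h1
  rwa [Sieve.generate_sieve] at h2

lemma residueFieldMap_bijective_of_isOpenImmersion {U V : Scheme.{u}} (g : V ⟶ U)
    [IsOpenImmersion g] (y : V) : Function.Bijective (g.residueFieldMap y).hom := by
  exact (ConcreteCategory.bijective_of_isIso (g.residueFieldMap y))

/-- The open subscheme of an étale scheme. -/
noncomputable def openSub {X : Scheme.{u}} (U : X.Etale) (O : U.left.Opens) : X.Etale :=
  Scheme.Etale.mk (O.ι ≫ U.hom)

/-- The inclusion of the open subscheme of an étale scheme. -/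
noncomputable def openSubι {X : Scheme.{u}} (U : X.Etale) (O : U.left.Opens) : openSub U O ⟶ U :=
  MorphismProperty.Over.homMk O.ι rfl

lemma zmod_cases (a : ZMod 2) : a = 0 ∨ a = 1 := by
  revert a
  decide

/-- The map `ℤ/2 → R` for a ring with `2 = 0`. -/
noncomputable def zmodHom (R : Type*) [CommRing R] (h : (2 : R) = 0) : ZMod 2 →+ R where
  toFun a := if a = 0 then 0 else 1
  map_zero' := by simp
  map_add' a b := by
    have h' : (1 : R) + 1 = 0 := by rw [one_add_one_eq_two, h]
    have h1 : (1 : ZMod 2) ≠ 0 := by decide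
    have h2 : (1 : ZMod 2) + 1 = 0 := by decide
    rcases zmod_cases a with rfl | rfl <;> rcases zmod_cases b with rfl | rfl <;>
      simp [h1, h2, h']

@[simp] lemma zmodHom_one (R : Type*) [CommRing R] (h : (2 : R) = 0) : zmodHom R h 1 = 1 := by
  have h1 : (1 : ZMod 2) ≠ 0 := by decide
  simp [zmodHom, h1]

lemma map_zmodHom {R S : Type*} [CommRing R] [CommRing S] (hR : (2 : R) = 0) (hS : (2 : S) = 0)
    (f : R →+* S) (a : ZMod 2) : f (zmodHom R hR a) = zmodHom S hS a := by
  rcases zmod_cases a with rfl | rfl <;> simp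

/-- The constant presheaf `ℤ/2`. -/
noncomputable abbrev constPresheaf (X : Scheme.{u}) : X.Etaleᵒᵖ ⥤ AddCommGrpCat.{u + 1} :=
  (Functor.const _).obj (AddCommGrpCat.of (ULift.{u + 1} (ZMod 2)))

/-- The map from the constant presheaf to the structure sheaf. -/
noncomputable def constToStructure (X : Scheme.{u}) (h2 : (2 : Γ(X, ⊤)) = 0) :
    constPresheaf X ⟶ structurePresheaf X where
  app U := AddCommGrpCat.ofHom
    { toFun := fun a => ULift.up (zmodHom _ (two_eq_zero h2 U.unop) a.down)
      map_zero' := by
        apply ULift.down_injective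
        simp
      map_add' := by
        intro a b
        apply ULift.down_injective
        simp }
  naturality U V g := by
    ext a
    refine congrArg ULift.up ?_
    exact (map_zmodHom (two_eq_zero h2 U.unop) (two_eq_zero h2 V.unop)
      g.unop.left.appTop.hom a.down).symm

lemma constToStructure_app_down (X : Scheme.{u}) (h2 : (2 : Γ(X, ⊤)) = 0) (U : X.Etaleᵒᵖ)
    (a : ULift.{u + 1} (ZMod 2)) :
    (ConcreteCategory.hom ((constToStructure X h2).app U) a : ULift.{u + 1} _).down =
      zmodHom _ (two_eq_zero h2 U.unop) a.down := rfl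

lemma constToStructure_comp (X : Scheme.{u}) (h2 : (2 : Γ(X, ⊤)) = 0) :
    constToStructure X h2 ≫ artinSchreier X h2 = 0 := by
  ext U a
  refine congrArg ULift.up ?_
  show zmodHom _ (two_eq_zero h2 U.unop) a.down ^ 2 +
    zmodHom _ (two_eq_zero h2 U.unop) a.down = 0
  have h := two_eq_zero h2 U.unop
  rcases zmod_cases a.down with h0 | h0 <;> rw [h0]
  · simp
  · rw [zmodHom_one, one_pow, one_add_one_eq_two, h]

lemma idem_one {R S : Type*} [CommRing R] [CommRing S] (f : R →+* S) (e : R)
    (he : e ^ 2 + e = 0) (h2 : (2 : S) = 0) (h : IsUnit (f e)) : f e = 1 := by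
  have h7 := congrArg f he
  rw [map_zero, map_add, map_pow] at h7
  have h6 : f e * (f e + 1) = 0 := by linear_combination h7
  have h8 := (h.mul_right_eq_zero).1 h6
  linear_combination h8 - h2

lemma idem_zero {R S : Type*} [CommRing R] [CommRing S] (f : R →+* S) (e : R)
    (he : e ^ 2 + e = 0) (h : IsUnit (f (1 + e))) : f e = 0 := by
  have h7 := congrArg f he
  rw [map_zero, map_add, map_pow] at h7
  have h6 : f (1 + e) * f e = 0 := by
    rw [map_add, map_one]
    linear_combination h7
  exact (h.mul_right_eq_zero).1 h6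

lemma isUnit_of_basicOpen_eq_top {V : Scheme.{u}} (f : Γ(V, ⊤)) (h : V.basicOpen f = ⊤) :
    IsUnit f := by
  apply RingedSpace.isUnit_of_isUnit_germ
  intro x hx
  have h1 : x ∈ V.basicOpen f := by
    rw [h]
    trivial
  exact (V.mem_basicOpen_top f x).1 h1

lemma isUnit_openSub {X : Scheme.{u}} (U : X.Etale) (e : Γ(U.left, ⊤)) :
    IsUnit ((openSubι U (U.left.basicOpen e)).left.appTop e) := by
  apply isUnit_of_basicOpen_eq_top
  rw [← Scheme.preimage_basicOpen_top]
  exact (U.left.basicOpen e).ι_preimage_self

/-- The sheaf-level endomorphism. -/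
noncomputable abbrev asSheaf {X : Scheme.{u}} {J : GrothendieckTopology X.Etale}
    (hS : Presheaf.IsSheaf J (structurePresheaf X)) : Sheaf J AddCommGrpCat.{u + 1} :=
  ⟨structurePresheaf X, hS⟩

/-- The sheaf-level endomorphism. -/
noncomputable abbrev asMap {X : Scheme.{u}} {J : GrothendieckTopology X.Etale}
    (hS : Presheaf.IsSheaf J (structurePresheaf X)) (h2 : (2 : Γ(X, ⊤)) = 0) :
    asSheaf hS ⟶ asSheaf hS := ⟨artinSchreier X h2⟩

section

variable {X : Scheme.{u}} {J : GrothendieckTopology X.Etale}
  (hS : Presheaf.IsSheaf J (structurePresheaf X)) (h2 : (2 : Γ(X, ⊤)) = 0)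

/-- The map from the constant presheaf to the kernel. -/
noncomputable def toKernel : constPresheaf X ⟶ (kernel (asMap hS h2)).obj :=
  kernel.lift (artinSchreier X h2) (constToStructure X h2) (constToStructure_comp X h2) ≫
    (PreservesKernel.iso (sheafToPresheaf J AddCommGrpCat.{u + 1}) (asMap hS h2)).inv

lemma toKernel_comp : toKernel hS h2 ≫ (kernel.ι (asMap hS h2)).hom = constToStructure X h2 := by
  unfold toKernel
  rw [Category.assoc]
  have h := PreservesKernel.iso_inv_ι (sheafToPresheaf J AddCommGrpCat.{u + 1}) (asMap hS h2)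
  erw [h]
  simp

lemma kernel_inj (U : X.Etale) :
    Function.Injective ((kernel.ι (asMap hS h2)).hom.app (op U)) := by
  have h0 : Mono (kernel.ι (asMap hS h2)) := inferInstance
  have h1 : Mono ((sheafToPresheaf J AddCommGrpCat.{u + 1}).map (kernel.ι (asMap hS h2))) :=
    inferInstance
  have h2 : Mono (((sheafToPresheaf J AddCommGrpCat.{u + 1}).map
    (kernel.ι (asMap hS h2))).app (op U)) := inferInstance
  exact (AddCommGrpCat.mono_iff_injective _).1 h2

lemma kernel_wp (U : X.Etale) (k : (kernel (asMap hS h2)).obj.obj (op U)) :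
    (artinSchreier X h2).app (op U) ((kernel.ι (asMap hS h2)).hom.app (op U) k) = 0 := by
  have h := kernel.condition (asMap hS h2)
  have h1 := congrArg (fun f => f.hom.app (op U)) h
  exact ConcreteCategory.congr_hom h1 k

lemma toKernel_app (U : X.Etale) (a : ULift.{u + 1} (ZMod 2)) :
    (ConcreteCategory.hom ((kernel.ι (asMap hS h2)).hom.app (op U))
      (ConcreteCategory.hom ((toKernel hS h2).app (op U)) a) : ULift.{u + 1} _).down =
      zmodHom _ (two_eq_zero h2 U) a.down := by
  have h := toKernel_comp hS h2
  have h1 := congrArg (fun f => f.app (op U)) h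
  have h3 := ConcreteCategory.congr_hom h1 a
  exact congrArg ULift.down h3

lemma toKernel_locInj (hN : nisnevichTopology X ≤ J) :
    Presheaf.IsLocallyInjective J (toKernel hS h2) where
  equalizerSieve_mem {U} a b h := by
    obtain ⟨U⟩ := U
    apply hN
    apply mem_nisnevich_of_forall
    intro u
    by_cases hab : a = b
    · subst hab
      refine ⟨U, 𝟙 U, ?_, u, ?_, ?_⟩
      · simp
      · rfl
      · exact residueFieldMap_bijective_of_isOpenImmersion (𝟙 U.left) _
    · exfalso
      have h1 := toKernel_app hS h2 U a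
      have h1' := toKernel_app hS h2 U b
      rw [h, h1'] at h1
      have hab' : a.down ≠ b.down := fun h => hab (ULift.down_injective h)
      have h3 : (1 : Γ(U.left, ⊤)) = 0 := by
        rcases zmod_cases a.down with ha | ha <;> rcases zmod_cases b.down with hb | hb <;>
          rw [ha, hb] at h1 hab'
        · exact absurd rfl hab'
        · rw [zmodHom_one, map_zero] at h1
          exact h1
        · rw [zmodHom_one, map_zero] at h1
          exact h1.symm
        · exact absurd rfl hab'
      have h4 : u ∈ U.left.basicOpen (1 : Γ(U.left, ⊤)) := by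
        rw [Scheme.basicOpen_of_isUnit _ isUnit_one]
        trivial
      rw [h3, Scheme.basicOpen_zero] at h4
      exact h4

lemma imageSieve_of_eq (U V : X.Etale) (g : V ⟶ U) (k : (kernel (asMap hS h2)).obj.obj (op U))
    (n : ZMod 2)
    (h : g.left.appTop (ConcreteCategory.hom ((kernel.ι (asMap hS h2)).hom.app (op U)) k :
      ULift.{u + 1} _).down = zmodHom _ (two_eq_zero h2 V) n) :
    Presheaf.imageSieve (toKernel hS h2) k g := by
  refine ⟨(ULift.up n : ULift.{u + 1} (ZMod 2)), ?_⟩
  apply kernel_inj hS h2 V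
  have h1 := NatTrans.naturality_apply (kernel.ι (asMap hS h2)).hom g.op k
  refine Eq.trans ?_ h1.symm
  apply ULift.down_injective
  refine (toKernel_app hS h2 V _).trans h.symm

lemma toKernel_locSurj (hN : nisnevichTopology X ≤ J) :
    Presheaf.IsLocallySurjective J (toKernel hS h2) where
  imageSieve_mem {U} k := by
    apply hN
    apply mem_nisnevich_of_forall
    intro u
    set e : Γ(U.left, ⊤) := (ConcreteCategory.hom ((kernel.ι (asMap hS h2)).hom.app (op U)) k :
      ULift.{u + 1} _).down with he
    have he2 : e ^ 2 + e = 0 := congrArg ULift.down (kernel_wp hS h2 U k)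
    have h0 := two_eq_zero h2 U
    have hcases : u ∈ U.left.basicOpen e ∨ u ∈ U.left.basicOpen (1 + e) := by
      by_contra hcon
      push Not at hcon
      obtain ⟨hc1, hc2⟩ := hcon
      rw [Scheme.mem_basicOpen_top] at hc1 hc2
      have h3 := (IsLocalRing.nonunits_add (R := U.left.presheaf.stalk u) hc1 hc2)
      rw [← map_add] at h3
      have h4 : e + (1 + e) = 1 := by linear_combination e * h0
      rw [h4, map_one] at h3
      exact h3 isUnit_one
    rcases hcases with hu | hu
    · refine ⟨openSub U (U.left.basicOpen e), openSubι U (U.left.basicOpen e), ?_, ⟨u, hu⟩,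
        rfl, ?_⟩
      · apply imageSieve_of_eq hS h2 _ _ _ _ 1
        rw [zmodHom_one]
        exact idem_one (openSubι U (U.left.basicOpen e)).left.appTop.hom e he2
          (two_eq_zero h2 (openSub U (U.left.basicOpen e))) (isUnit_openSub U e)
      · exact residueFieldMap_bijective_of_isOpenImmersion (U.left.basicOpen e).ι _
    · refine ⟨openSub U (U.left.basicOpen (1 + e)), openSubι U (U.left.basicOpen (1 + e)), ?_,
        ⟨u, hu⟩, rfl, ?_⟩
      · apply imageSieve_of_eq hS h2 _ _ _ _ 0
        rw [map_zero]
        exact idem_zero (openSubι U (U.left.basicOpen (1 + e))).left.appTop.hom e he2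
          (isUnit_openSub U (1 + e))
      · exact residueFieldMap_bijective_of_isOpenImmersion (U.left.basicOpen (1 + e)).ι _

/-- The constant sheaf `ℤ/2` is the kernel of the Artin-Schreier endomorphism. -/
theorem constantSheaf_iso_kernel_gen (hN : nisnevichTopology X ≤ J) :
    Nonempty ((constantSheaf J AddCommGrpCat.{u + 1}).obj
      (AddCommGrpCat.of (ULift.{u + 1} (ZMod 2))) ≅ kernel (asMap hS h2)) := by
  have h1 := toKernel_locInj hS h2 hN
  have h3 := toKernel_locSurj hS h2 hN
  have h4 : J.W (toKernel hS h2) := J.W_of_isLocallyBijective _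
  have h5 : IsIso ((presheafToSheaf J AddCommGrpCat.{u + 1}).map (toKernel hS h2)) :=
    (J.W_iff _).1 h4
  have i1 := asIso ((presheafToSheaf J AddCommGrpCat.{u + 1}).map (toKernel hS h2))
  have i2 := asIso ((sheafificationAdjunction J AddCommGrpCat.{u + 1}).counit.app
    (kernel (asMap hS h2)))
  exact ⟨i1 ≪≫ i2⟩

end

end TameSite
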