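import Mathlib

/-!
# Functors preserving the covering families of a precoverage
-/

namespace TameSite

open CategoryTheory Limits

variable {C D : Type*} [Category* C] [Category* D]

/-- A functor between categories with finite limits that preserves finite limits and sends the
covering families of a precoverage to coverings preserves coverings. -/
theorem coverPreserving_toGrothendieck (G : C ⥤ D) [HasPullbacks C]
    [PreservesLimitsOfShape WalkingCospan G]
    (J : Precoverage C) (K : GrothendieckTopology D)
    (h : ∀ (U : C) (R : Presieve U), R ∈ J.coverings U →
      (Sieve.generate R).functorPushforward G ∈ K (G.obj U)) :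
    CoverPreserving J.toGrothendieck K G := by
  refine ⟨fun {U} S hS => ?_⟩
  have key : ∀ {X Y : C} (f : Y ⟶ X) (S : Sieve X),
      (S.functorPushforward G).pullback (G.map f) ≤ (S.pullback f).functorPushforward G := by
    intro X Y f S Z k hk
    obtain ⟨V, g, m, hg, e⟩ := hk
    have hp := isLimitOfHasPullbackOfPreservesLimit G g f
    have e' : m ≫ G.map g = k ≫ G.map f := e.symm
    refine ⟨pullback g f, pullback.snd g f, PullbackCone.IsLimit.lift hp m k e', ?_, ?_⟩
    · show S (pullback.snd g f ≫ f)
      rw [← pullback.condition]
      exact S.downward_closed hg _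
    · exact (PullbackCone.IsLimit.lift_snd hp m k e').symm
  induction hS with
  | of X S hS => exact h X S hS
  | top X =>
    rw [Sieve.functorPushforward_top]
    exact K.top_mem _
  | pullback X S hS Y f ih =>
    exact K.superset_covering (key f S) (K.pullback_stable _ ih)
  | transitive X S R hS hR ih1 ih2 =>
    refine K.transitive ih1 _ fun Z k hk => ?_
    obtain ⟨V, g, m, hg, e⟩ := hk
    rw [e, Sieve.pullback_comp]
    exact K.pullback_stable m (K.superset_covering (fun W w hw => by
      obtain ⟨V', g', m', hg', e'⟩ := hw
      refine ⟨V', g' ≫ g, m', hg', ?_⟩
      rw [e', G.map_comp, Category.assoc]) (ih2 hg))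

end TameSite
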