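import Pool.Agent.Lib_helper87.Tame.EBasic

/-!
# The places over `0` and `∞`
-/

namespace TameSite

open Polynomial


section

variable {Ω : Type*} [Field Ω] [Algebra (RatFunc (ZMod 2)) Ω]

theorem val_aeval_le (W : ValuationSubring Ω) (t : (RatFunc (ZMod 2)))
    (hτ : 1 < W.valuation (algebraMap (RatFunc (ZMod 2)) Ω t)) (P : (Polynomial (ZMod 2))) (n : ℕ) (hn : P.natDegree ≤ n) :
    W.valuation (algebraMap (RatFunc (ZMod 2)) Ω (aeval t P)) ≤ W.valuation (algebraMap (RatFunc (ZMod 2)) Ω t) ^ n := by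
  rw [Polynomial.aeval_eq_sum_range, map_sum]
  refine Valuation.map_sum_le _ fun i hi => ?_
  have hi' : i ≤ n := by
    have := Finset.mem_range.1 hi
    omega
  have h1 : ∀ c : ZMod 2, W.valuation (algebraMap (RatFunc (ZMod 2)) Ω (c • t ^ i)) ≤
      W.valuation (algebraMap (RatFunc (ZMod 2)) Ω t) ^ i := by
    intro c
    have hc : c = 0 ∨ c = 1 := by revert c; decide
    rcases hc with rfl | rfl
    · simp
    · simp
  refine (h1 _).trans ?_
  exact pow_le_pow_right₀ hτ.le hi'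

theorem val_aeval_eq (W : ValuationSubring Ω) (t : (RatFunc (ZMod 2)))
    (hτ : 1 < W.valuation (algebraMap (RatFunc (ZMod 2)) Ω t)) (P : (Polynomial (ZMod 2))) (hP : P ≠ 0) :
    W.valuation (algebraMap (RatFunc (ZMod 2)) Ω (aeval t P)) = W.valuation (algebraMap (RatFunc (ZMod 2)) Ω t) ^ P.natDegree := by
  have hlc : P.leadingCoeff = 1 := by
    have : P.leadingCoeff ≠ 0 := by simpa using hP
    revert this
    generalize P.leadingCoeff = c
    revert c
    decide
  by_cases hn : P.natDegree = 0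
  · have : P = 1 := by
      rw [Polynomial.eq_C_of_natDegree_eq_zero hn]
      rw [Polynomial.leadingCoeff, hn] at hlc
      rw [hlc]; simp
    rw [this]; simp
  · have h1 : P = P.eraseLead + X ^ P.natDegree := by
      conv_lhs => rw [← P.eraseLead_add_C_mul_X_pow]
      rw [hlc]; simp
    have h2 : P.eraseLead.natDegree ≤ P.natDegree - 1 := P.eraseLead_natDegree_le
    have h3 := val_aeval_le W t hτ _ _ h2
    have h4 : W.valuation (algebraMap (RatFunc (ZMod 2)) Ω (aeval t P.eraseLead)) <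
        W.valuation (algebraMap (RatFunc (ZMod 2)) Ω (t ^ P.natDegree)) := by
      refine lt_of_le_of_lt h3 ?_
      rw [map_pow, map_pow]
      exact pow_lt_pow_right₀ hτ (by omega)
    have h5 : aeval t P = aeval t P.eraseLead + t ^ P.natDegree := by
      conv_lhs => rw [h1]
      simp
    rw [h5, map_add, Valuation.map_add_eq_of_lt_right _ h4, map_pow, map_pow]

theorem val_K0 (W : ValuationSubring Ω) (t : (RatFunc (ZMod 2))) (ht : t = RatFunc.X ∨ t = RatFunc.X⁻¹)
    (hτ : 1 < W.valuation (algebraMap (RatFunc (ZMod 2)) Ω t)) (a : (RatFunc (ZMod 2))) (ha : a ≠ 0) :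
    ∃ n : ℤ, W.valuation (algebraMap (RatFunc (ZMod 2)) Ω a) = W.valuation (algebraMap (RatFunc (ZMod 2)) Ω t) ^ n := by
  have hτ0 : W.valuation (algebraMap (RatFunc (ZMod 2)) Ω t) ≠ 0 := (lt_trans zero_lt_one hτ).ne'
  have key : ∀ P : (Polynomial (ZMod 2)), P ≠ 0 → ∃ n : ℤ,
      W.valuation (algebraMap (RatFunc (ZMod 2)) Ω (algebraMap (Polynomial (ZMod 2)) (RatFunc (ZMod 2)) P)) =
        W.valuation (algebraMap (RatFunc (ZMod 2)) Ω t) ^ n := by
    intro P hP
    rcases ht with rfl | rfl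
    · refine ⟨P.natDegree, ?_⟩
      rw [zpow_natCast, ← val_aeval_eq W _ hτ P hP]
      congr 2
      rw [RatFunc.aeval_X_left_eq_algebraMap]
    · let _ : Invertible (RatFunc.X : (RatFunc (ZMod 2))) := invertibleOfNonzero RatFunc.X_ne_zero
      have h1 := Polynomial.eval₂_reverse_mul_pow (algebraMap (ZMod 2) (RatFunc (ZMod 2))) (RatFunc.X : (RatFunc (ZMod 2))) P
      have hrev : P.reverse ≠ 0 := by simpa using hP
      refine ⟨P.reverse.natDegree - P.natDegree, ?_⟩
      have h2 : algebraMap (Polynomial (ZMod 2)) (RatFunc (ZMod 2)) P = aeval (RatFunc.X⁻¹ : (RatFunc (ZMod 2))) P.reverse * RatFunc.X ^ P.natDegree := by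
        rw [← RatFunc.aeval_X_left_eq_algebraMap, aeval_def, aeval_def, ← h1, invOf_eq_inv]
      rw [h2, map_mul, map_mul, val_aeval_eq W _ hτ _ hrev, zpow_sub₀ hτ0, zpow_natCast,
        zpow_natCast, div_eq_mul_inv]
      congr 1
      simp
  obtain ⟨A, D, hD, rfl⟩ := IsFractionRing.div_surjective (A := (ZMod 2)[X]) a
  have hD0 : D ≠ 0 := nonZeroDivisors.ne_zero hD
  have hA0 : A ≠ 0 := by rintro rfl; simp at ha
  obtain ⟨n, hn⟩ := key A hA0
  obtain ⟨m, hm⟩ := key D hD0
  refine ⟨n - m, ?_⟩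
  rw [map_div₀, map_div₀, hn, hm, zpow_sub₀ hτ0]

theorem val_h (W : ValuationSubring Ω) (t : (RatFunc (ZMod 2)))
    (hτ : 1 < W.valuation (algebraMap (RatFunc (ZMod 2)) Ω t)) (h : Ω)
    (hh : h ^ 2 + h = algebraMap (RatFunc (ZMod 2)) Ω (t + t⁻¹)) :
    1 < W.valuation h ∧ W.valuation h ^ 2 = W.valuation (algebraMap (RatFunc (ZMod 2)) Ω t) := by
  have hτ0 : W.valuation (algebraMap (RatFunc (ZMod 2)) Ω t) ≠ 0 := (lt_trans zero_lt_one hτ).ne'
  have h1 : W.valuation (algebraMap (RatFunc (ZMod 2)) Ω (t + t⁻¹)) = W.valuation (algebraMap (RatFunc (ZMod 2)) Ω t) := by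
    rw [map_add]
    refine Valuation.map_add_eq_of_lt_left W.valuation ?_
    rw [map_inv₀, map_inv₀]
    exact lt_trans ((inv_lt_one₀ (zero_lt_iff.2 hτ0)).2 hτ) hτ
  have h2 : 1 < W.valuation h := by
    by_contra h3
    rw [not_lt, W.valuation_le_one_iff] at h3
    have h4 : h ^ 2 + h ∈ W := W.add_mem _ _ (pow_mem h3 2) h3
    rw [hh, ← W.valuation_le_one_iff, h1] at h4
    exact absurd hτ (not_lt.2 h4)
  refine ⟨h2, ?_⟩
  have h3 : W.valuation h < W.valuation (h ^ 2) := by
    rw [map_pow, sq]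
    calc W.valuation h = W.valuation h * 1 := (mul_one _).symm
      _ < W.valuation h * W.valuation h := by
        exact mul_lt_mul_of_pos_left h2 (lt_trans zero_lt_one h2)
  rw [← h1, ← hh, Valuation.map_add_eq_of_lt_left _ h3, map_pow]

theorem mem_adjoin_h (h : Ω) (g : (RatFunc (ZMod 2))) (hh : h ^ 2 + h = algebraMap (RatFunc (ZMod 2)) Ω g) (y : Ω)
    (hy : y ∈ IntermediateField.adjoin (RatFunc (ZMod 2)) {h}) :
    ∃ α β : (RatFunc (ZMod 2)), y = algebraMap (RatFunc (ZMod 2)) Ω α + algebraMap (RatFunc (ZMod 2)) Ω β * h := by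
  have hint : IsIntegral (RatFunc (ZMod 2)) h := by
    refine ⟨X ^ 2 + X - C g, ?_, ?_⟩
    · monicity!
    · simp [hh]
  have hy' : y ∈ Algebra.adjoin (RatFunc (ZMod 2)) {h} := by
    rw [← IntermediateField.adjoin_simple_toSubalgebra_of_isAlgebraic hint.isAlgebraic]
    exact hy
  clear hy
  induction hy' using Algebra.adjoin_induction with
  | mem x hx =>
    rw [Set.mem_singleton_iff] at hx
    exact ⟨0, 1, by simp [hx]⟩
  | algebraMap r => exact ⟨r, 0, by simp⟩
  | add x y _ _ hx hy =>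
    obtain ⟨α, β, h1⟩ := hx
    obtain ⟨α', β', h2⟩ := hy
    exact ⟨α + α', β + β', by rw [h1, h2, map_add, map_add]; ring⟩
  | mul x y _ _ hx hy =>
    obtain ⟨α, β, h1⟩ := hx
    obtain ⟨α', β', h2⟩ := hy
    refine ⟨α * α' + β * β' * g, α * β' + α' * β - β * β', ?_⟩
    rw [h1, h2, map_add, map_sub, map_add, map_mul, map_mul, map_mul, map_mul, map_mul, ← hh]
    ring

theorem val_kappa (W : ValuationSubring Ω) (t : (RatFunc (ZMod 2))) (ht : t = RatFunc.X ∨ t = RatFunc.X⁻¹)
    (hτ : 1 < W.valuation (algebraMap (RatFunc (ZMod 2)) Ω t)) (h : Ω)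
    (hh : h ^ 2 + h = algebraMap (RatFunc (ZMod 2)) Ω (t + t⁻¹)) (y : Ω)
    (hy : y ∈ IntermediateField.adjoin (RatFunc (ZMod 2)) {h}) (hy0 : y ≠ 0) :
    ∃ j : ℤ, W.valuation y ^ 2 = W.valuation (algebraMap (RatFunc (ZMod 2)) Ω t) ^ j := by
  have hτ0 : W.valuation (algebraMap (RatFunc (ZMod 2)) Ω t) ≠ 0 := (lt_trans zero_lt_one hτ).ne'
  obtain ⟨h1, h2⟩ := val_h W t hτ h hh
  obtain ⟨α, β, rfl⟩ := mem_adjoin_h h _ hh y hy
  by_cases hβ : β = 0
  · subst hβ
    have hα : α ≠ 0 := by rintro rfl; simp at hy0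
    obtain ⟨n, hn⟩ := val_K0 W t ht hτ α hα
    refine ⟨2 * n, ?_⟩
    rw [map_zero, zero_mul, add_zero, hn, mul_comm, zpow_mul]
    norm_cast
  · obtain ⟨m, hm⟩ := val_K0 W t ht hτ β hβ
    have e2 : W.valuation (algebraMap (RatFunc (ZMod 2)) Ω β * h) ^ 2 =
        W.valuation (algebraMap (RatFunc (ZMod 2)) Ω t) ^ (2 * m + 1) := by
      rw [map_mul, mul_pow, h2, hm, zpow_add₀ hτ0, zpow_one, mul_comm 2 m, zpow_mul]
      norm_cast
    by_cases hα : α = 0
    · subst hα
      exact ⟨2 * m + 1, by rw [map_zero, zero_add, e2]⟩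
    · obtain ⟨n, hn⟩ := val_K0 W t ht hτ α hα
      have e1 : W.valuation (algebraMap (RatFunc (ZMod 2)) Ω α) ^ 2 =
          W.valuation (algebraMap (RatFunc (ZMod 2)) Ω t) ^ (2 * n) := by
        rw [hn, mul_comm 2 n, zpow_mul]
        norm_cast
      have hne : W.valuation (algebraMap (RatFunc (ZMod 2)) Ω α) ≠ W.valuation (algebraMap (RatFunc (ZMod 2)) Ω β * h) := by
        intro h3
        rw [h3, e2] at e1
        have := zpow_right_injective₀ (zero_lt_iff.2 hτ0) hτ.ne' e1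
        omega
      rcases lt_or_gt_of_ne hne with h3 | h3
      · exact ⟨2 * m + 1, by rw [Valuation.map_add_eq_of_lt_right _ h3, e2]⟩
      · exact ⟨2 * n, by rw [Valuation.map_add_eq_of_lt_left _ h3, e1]⟩

theorem key_not_unr [IsGalois (RatFunc (ZMod 2)) Ω] (W : ValuationSubring Ω) (t : (RatFunc (ZMod 2)))
    (ht : t = RatFunc.X ∨ t = RatFunc.X⁻¹)
    (hτ : 1 < W.valuation (algebraMap (RatFunc (ZMod 2)) Ω t)) (h : Ω)
    (hh : h ^ 2 + h = algebraMap (RatFunc (ZMod 2)) Ω (t + t⁻¹)) (P Q : (Polynomial (ZMod 2))) (hQ : Q ≠ 0)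
    (hPQ : P.natDegree ≤ Q.natDegree) :
    ¬ Unr (IntermediateField.adjoin (RatFunc (ZMod 2)) {h}) W
      (algebraMap (RatFunc (ZMod 2)) Ω (aeval t P) + algebraMap (RatFunc (ZMod 2)) Ω (aeval t Q) * h) := by
  have hτ0 : W.valuation (algebraMap (RatFunc (ZMod 2)) Ω t) ≠ 0 := (lt_trans zero_lt_one hτ).ne'
  obtain ⟨h1, h2⟩ := val_h W t hτ h hh
  have : CharP (IntermediateField.adjoin (RatFunc (ZMod 2)) {h}) 2 := charP_of_injective_algebraMap
    (algebraMap (RatFunc (ZMod 2)) (IntermediateField.adjoin (RatFunc (ZMod 2)) {h})).injective 2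
  set κ := IntermediateField.adjoin (RatFunc (ZMod 2)) {h} with hκ
  let hk : κ := ⟨h, IntermediateField.mem_adjoin_simple_self (RatFunc (ZMod 2)) h⟩
  set f : κ := algebraMap (RatFunc (ZMod 2)) κ (aeval t P) + algebraMap (RatFunc (ZMod 2)) κ (aeval t Q) * hk with hf
  have hfΩ : algebraMap κ Ω f = algebraMap (RatFunc (ZMod 2)) Ω (aeval t P) + algebraMap (RatFunc (ZMod 2)) Ω (aeval t Q) * h := by
    rw [hf]; rfl
  have hv : W.valuation (algebraMap κ Ω f) = W.valuation (algebraMap (RatFunc (ZMod 2)) Ω (aeval t Q) * h) := by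
    rw [hfΩ]
    refine Valuation.map_add_eq_of_lt_right _ ?_
    refine lt_of_le_of_lt (val_aeval_le W t hτ P _ hPQ) ?_
    rw [map_mul, val_aeval_eq W t hτ Q hQ]
    calc W.valuation (algebraMap (RatFunc (ZMod 2)) Ω t) ^ Q.natDegree
        = W.valuation (algebraMap (RatFunc (ZMod 2)) Ω t) ^ Q.natDegree * 1 := (mul_one _).symm
      _ < _ := mul_lt_mul_of_pos_left h1 (pow_pos (zero_lt_iff.2 hτ0) _)
  have hv2 : W.valuation (algebraMap κ Ω f) ^ 2 =
      W.valuation (algebraMap (RatFunc (ZMod 2)) Ω t) ^ (2 * (Q.natDegree : ℤ) + 1) := by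
    rw [hv, map_mul, mul_pow, h2, val_aeval_eq W t hτ Q hQ, zpow_add₀ hτ0, zpow_one, mul_comm 2,
      zpow_mul]
    norm_cast
  rw [← hfΩ]
  refine not_unr f ?_ ?_
  · rw [not_mem_iff]
    by_contra h3
    rw [not_lt] at h3
    have h4 : W.valuation (algebraMap κ Ω f) ^ 2 ≤ 1 := pow_le_one₀ zero_le h3
    rw [hv2] at h4
    have h5 : (1 : W.ValueGroup) < W.valuation (algebraMap (RatFunc (ZMod 2)) Ω t) ^ (2 * (Q.natDegree : ℤ) + 1) :=
      one_lt_zpow₀ hτ (by positivity)
    exact absurd h5 (not_lt.2 h4)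
  · intro y hy
    have hy0 : (y : Ω) ≠ 0 := by
      intro h0
      have : y = 0 := by exact_mod_cast h0
      rw [this] at hy
      simp at hy
    obtain ⟨j, hj⟩ := val_kappa W t ht hτ h hh (y : Ω) y.2 hy0
    have h3 : W.valuation (algebraMap κ Ω (f * y ^ 2)) ^ 2 =
        W.valuation (algebraMap (RatFunc (ZMod 2)) Ω t) ^ (2 * (Q.natDegree : ℤ) + 1 + 2 * j) := by
      have e3 : (W.valuation (algebraMap κ Ω y) ^ 2) ^ 2 =
          W.valuation (algebraMap (RatFunc (ZMod 2)) Ω t) ^ (2 * j) := by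
        change (W.valuation (y : Ω) ^ 2) ^ 2 = _
        rw [hj, mul_comm 2 j, zpow_mul]
        norm_cast
      rw [map_mul, map_mul, mul_pow, hv2, map_pow, map_pow, e3, ← zpow_add₀ hτ0]
    rw [hy, one_pow] at h3
    have h4 : W.valuation (algebraMap (RatFunc (ZMod 2)) Ω t) ^ (0 : ℤ) =
        W.valuation (algebraMap (RatFunc (ZMod 2)) Ω t) ^ (2 * (Q.natDegree : ℤ) + 1 + 2 * j) := by
      rw [zpow_zero, h3]
    have := zpow_right_injective₀ (zero_lt_iff.2 hτ0) hτ.ne' h4
    omega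

theorem wild_fix_kappa (h : Ω)
    (σ : Ω ≃ₐ[IntermediateField.adjoin (RatFunc (ZMod 2)) {h}] Ω) (y : Ω)
    (hy : y ∈ IntermediateField.adjoin (RatFunc (ZMod 2)) {h}) : σ y = y :=
  σ.commutes (⟨y, hy⟩ : IntermediateField.adjoin (RatFunc (ZMod 2)) {h})

theorem coeff_zero_aux [IsGalois (RatFunc (ZMod 2)) Ω] [IsSepClosed Ω] (W : ValuationSubring Ω) (t : (RatFunc (ZMod 2)))
    (ht : t = RatFunc.X ∨ t = RatFunc.X⁻¹)
    (hτ : 1 < W.valuation (algebraMap (RatFunc (ZMod 2)) Ω t)) (h : Ω)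
    (hh : h ^ 2 + h = algebraMap (RatFunc (ZMod 2)) Ω (t + t⁻¹)) (N : ℕ) : ∀ (P Q : (Polynomial (ZMod 2))), P.natDegree < N →
    Unr (IntermediateField.adjoin (RatFunc (ZMod 2)) {h}) W
      (algebraMap (RatFunc (ZMod 2)) Ω (aeval t P) + algebraMap (RatFunc (ZMod 2)) Ω (aeval t Q) * h) → Q.coeff 0 = 0 := by
  have : CharP Ω 2 := charP_of_injective_algebraMap (algebraMap (RatFunc (ZMod 2)) Ω).injective 2
  have hτ0 : W.valuation (algebraMap (RatFunc (ZMod 2)) Ω t) ≠ 0 := (lt_trans zero_lt_one hτ).ne'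
  have ht0 : t ≠ 0 := by rintro rfl; simp at hτ
  induction N with
  | zero => intro P Q h; omega
  | succ N ih =>
    intro P Q hdeg hU
    by_cases hQ : Q = 0
    · simp [hQ]
    by_cases hPQ : P.natDegree ≤ Q.natDegree
    · exact absurd hU (key_not_unr W t ht hτ h hh P Q hQ hPQ)
    rw [not_le] at hPQ
    have hP0 : P ≠ 0 := by rintro rfl; simp at hPQ
    have hlc : P.coeff P.natDegree = 1 := by
      have : P.leadingCoeff ≠ 0 := by simpa using hP0
      revert this
      rw [Polynomial.leadingCoeff]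
      generalize P.coeff P.natDegree = c
      revert c
      decide
    have hmemt : algebraMap (RatFunc (ZMod 2)) Ω t ∈ IntermediateField.adjoin (RatFunc (ZMod 2)) {h} :=
      (IntermediateField.adjoin (RatFunc (ZMod 2)) {h}).algebraMap_mem t
    have hmemh : h ∈ IntermediateField.adjoin (RatFunc (ZMod 2)) {h} := IntermediateField.mem_adjoin_simple_self (RatFunc (ZMod 2)) h
    have h2 : (2 : Ω) = 0 := CharTwo.two_eq_zero
    have h11 : (1 : ZMod 2) + 1 = 0 := by decide
    rcases Nat.even_or_odd' P.natDegree with ⟨j, hj | hj⟩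
    · -- even degree
      have hj0 : 0 < j := by omega
      have h3 := hU.add_wp (⟨algebraMap (RatFunc (ZMod 2)) Ω t ^ j, pow_mem hmemt j⟩ :
        IntermediateField.adjoin (RatFunc (ZMod 2)) {h})
      have h4 : (algebraMap (RatFunc (ZMod 2)) Ω (aeval t P) + algebraMap (RatFunc (ZMod 2)) Ω (aeval t Q) * h) +
          ((algebraMap (RatFunc (ZMod 2)) Ω t ^ j) ^ 2 + algebraMap (RatFunc (ZMod 2)) Ω t ^ j) =
          algebraMap (RatFunc (ZMod 2)) Ω (aeval t (P + X ^ (2 * j) + X ^ j)) + algebraMap (RatFunc (ZMod 2)) Ω (aeval t Q) * h := by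
        simp only [map_add, map_pow, aeval_X]
        ring
      refine ih (P + X ^ (2 * j) + X ^ j) Q ?_ (by rw [← h4]; exact h3)
      have h5 : (P + X ^ (2 * j) + X ^ j).natDegree ≤ 2 * j - 1 := by
        rw [Polynomial.natDegree_le_iff_coeff_eq_zero]
        intro M hM
        rw [coeff_add, coeff_add, coeff_X_pow, coeff_X_pow, if_neg (by omega : ¬ M = j), add_zero]
        by_cases hM2 : M = 2 * j
        · rw [if_pos hM2, hM2, ← hj, hlc, h11]
        · rw [if_neg hM2, add_zero]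
          exact coeff_eq_zero_of_natDegree_lt (by omega)
      omega
    · -- odd degree
      have h3 := hU.add_wp (⟨algebraMap (RatFunc (ZMod 2)) Ω t ^ j * h, mul_mem (pow_mem hmemt j) hmemh⟩ :
        IntermediateField.adjoin (RatFunc (ZMod 2)) {h})
      have hval : ((algebraMap (RatFunc (ZMod 2)) Ω t ^ j * h) ^ 2 + algebraMap (RatFunc (ZMod 2)) Ω t ^ j * h) =
          algebraMap (RatFunc (ZMod 2)) Ω t ^ (2 * j) * (algebraMap (RatFunc (ZMod 2)) Ω t + algebraMap (RatFunc (ZMod 2)) Ω t⁻¹) +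
          (algebraMap (RatFunc (ZMod 2)) Ω t ^ (2 * j) + algebraMap (RatFunc (ZMod 2)) Ω t ^ j) * h := by
        rw [map_add] at hh
        linear_combination (algebraMap (RatFunc (ZMod 2)) Ω t ^ (2 * j)) * hh -
          (algebraMap (RatFunc (ZMod 2)) Ω t ^ (2 * j) * h) * h2
      rcases Nat.eq_zero_or_pos j with hj0 | hj0
      · subst hj0
        have htW : algebraMap (RatFunc (ZMod 2)) Ω t⁻¹ ∈ W := by
          rw [← W.valuation_le_one_iff, map_inv₀, map_inv₀]
          exact (inv_le_one₀ (zero_lt_iff.2 hτ0)).2 hτ.le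
        have h5 := h3.add_mem htW (fun σ _ => wild_fix_kappa h σ _
          ((IntermediateField.adjoin (RatFunc (ZMod 2)) {h}).algebraMap_mem _))
        have h4 : (algebraMap (RatFunc (ZMod 2)) Ω (aeval t P) + algebraMap (RatFunc (ZMod 2)) Ω (aeval t Q) * h) +
            ((algebraMap (RatFunc (ZMod 2)) Ω t ^ 0 * h) ^ 2 + algebraMap (RatFunc (ZMod 2)) Ω t ^ 0 * h) + algebraMap (RatFunc (ZMod 2)) Ω t⁻¹ =
            algebraMap (RatFunc (ZMod 2)) Ω (aeval t (P + X)) + algebraMap (RatFunc (ZMod 2)) Ω (aeval t Q) * h := by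
          rw [hval]
          simp only [map_add, aeval_X]
          linear_combination (algebraMap (RatFunc (ZMod 2)) Ω t⁻¹ + h) * h2
        have h6 : Unr (IntermediateField.adjoin (RatFunc (ZMod 2)) {h}) W
            (algebraMap (RatFunc (ZMod 2)) Ω (aeval t (P + X)) + algebraMap (RatFunc (ZMod 2)) Ω (aeval t Q) * h) := by
          rw [← h4]; exact h5
        refine ih (P + X) Q ?_ h6
        have h7 : (P + X).natDegree ≤ 0 := by
          rw [Polynomial.natDegree_le_iff_coeff_eq_zero]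
          intro M hM
          rw [coeff_add, coeff_X]
          by_cases hM2 : M = 1
          · subst hM2
            rw [if_pos rfl]
            have : P.natDegree = 1 := by omega
            rw [this] at hlc
            rw [hlc, h11]
          · rw [if_neg (by omega), add_zero]
            exact coeff_eq_zero_of_natDegree_lt (by omega)
        omega
      · have h4 : (algebraMap (RatFunc (ZMod 2)) Ω (aeval t P) + algebraMap (RatFunc (ZMod 2)) Ω (aeval t Q) * h) +
            ((algebraMap (RatFunc (ZMod 2)) Ω t ^ j * h) ^ 2 + algebraMap (RatFunc (ZMod 2)) Ω t ^ j * h) =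
            algebraMap (RatFunc (ZMod 2)) Ω (aeval t (P + X ^ (2 * j + 1) + X ^ (2 * j - 1))) +
              algebraMap (RatFunc (ZMod 2)) Ω (aeval t (Q + X ^ (2 * j) + X ^ j)) * h := by
          have h8 : algebraMap (RatFunc (ZMod 2)) Ω t ^ (2 * j) * algebraMap (RatFunc (ZMod 2)) Ω t⁻¹ =
              algebraMap (RatFunc (ZMod 2)) Ω t ^ (2 * j - 1) := by
            obtain ⟨k, hk⟩ : ∃ k, 2 * j = k + 1 := ⟨2 * j - 1, by omega⟩
            rw [hk, Nat.add_sub_cancel, pow_succ, map_inv₀, mul_assoc, mul_inv_cancel₀, mul_one]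
            simpa using ht0
          rw [hval, mul_add, h8]
          simp only [map_add, map_pow, aeval_X]
          ring
        have h6 : Unr (IntermediateField.adjoin (RatFunc (ZMod 2)) {h}) W
            (algebraMap (RatFunc (ZMod 2)) Ω (aeval t (P + X ^ (2 * j + 1) + X ^ (2 * j - 1))) +
              algebraMap (RatFunc (ZMod 2)) Ω (aeval t (Q + X ^ (2 * j) + X ^ j)) * h) := by
          rw [← h4]; exact h3
        have h7 := ih _ _ ?_ h6
        · rw [coeff_add, coeff_add, coeff_X_pow, coeff_X_pow, if_neg (by omega), if_neg (by omega),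
            add_zero, add_zero] at h7
          exact h7
        · have h9 : (P + X ^ (2 * j + 1) + X ^ (2 * j - 1)).natDegree ≤ 2 * j := by
            rw [Polynomial.natDegree_le_iff_coeff_eq_zero]
            intro M hM
            rw [coeff_add, coeff_add, coeff_X_pow, coeff_X_pow,
              if_neg (by omega : ¬ M = 2 * j - 1), add_zero]
            by_cases hM2 : M = 2 * j + 1
            · rw [if_pos hM2, hM2, ← hj, hlc, h11]
            · rw [if_neg hM2, add_zero]
              exact coeff_eq_zero_of_natDegree_lt (by omega)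
          omega

/-- The places over `0` and `∞`. -/
theorem coeff_zero [IsGalois (RatFunc (ZMod 2)) Ω] [IsSepClosed Ω]
    (t : RatFunc (ZMod 2)) (ht : t = RatFunc.X ∨ t = RatFunc.X⁻¹) (h : Ω)
    (hh : h ^ 2 + h = algebraMap (RatFunc (ZMod 2)) Ω (t + t⁻¹)) (W : ValuationSubring Ω)
    (hW : algebraMap (RatFunc (ZMod 2)) Ω t ∉ W) (P Q : (ZMod 2)[X])
    (hU : Unr (IntermediateField.adjoin (RatFunc (ZMod 2)) {h}) W
      (algebraMap (RatFunc (ZMod 2)) Ω (aeval t P) +
        algebraMap (RatFunc (ZMod 2)) Ω (aeval t Q) * h)) : Q.coeff 0 = 0 :=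
  coeff_zero_aux W t ht ((not_mem_iff W _).1 hW) h hh (P.natDegree + 1) P Q (by omega) hU

end

end TameSite
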