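import Pool.Agent.Lib_helper87.Tame.E1
import Pool.Agent.Lib_helper87.Tame.E2

/-!
# The final contradiction
-/

namespace TameSite

open Polynomial


section

variable {Ω : Type*} [Field Ω] [Algebra (RatFunc (ZMod 2)) Ω]

theorem exists_val_inf : ∃ W : ValuationSubring Ω, algebraMap (RatFunc (ZMod 2)) Ω RatFunc.X ∉ W := by
  classical
  obtain ⟨W, hW⟩ := exists_extension (algebraMap (RatFunc (ZMod 2)) Ω)
    (RatFunc.inftyValuation (ZMod 2)).valuationSubring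
  refine ⟨W, fun h => ?_⟩
  have h1 : (RatFunc.X : (RatFunc (ZMod 2))) ∈ W.comap (algebraMap (RatFunc (ZMod 2)) Ω) := h
  rw [hW, Valuation.mem_valuationSubring_iff, RatFunc.inftyValuation.X, ← WithZero.exp_zero,
    WithZero.exp_le_exp] at h1
  norm_num at h1

theorem exists_val_zero : ∃ W : ValuationSubring Ω, algebraMap (RatFunc (ZMod 2)) Ω RatFunc.X⁻¹ ∉ W := by
  have hp : Irreducible (X : (Polynomial (ZMod 2))) := Polynomial.irreducible_X
  let v : IsDedekindDomain.HeightOneSpectrum (Polynomial (ZMod 2)) :=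
    ⟨Ideal.span {X}, (Ideal.span_singleton_prime hp.ne_zero).2 hp.prime, by
      rw [Ne, Ideal.span_singleton_eq_bot]; exact hp.ne_zero⟩
  have hvp : v.valuation (RatFunc (ZMod 2)) (algebraMap (Polynomial (ZMod 2)) (RatFunc (ZMod 2)) X) = WithZero.exp (-1 : ℤ) := by
    rw [v.valuation_of_algebraMap]
    exact v.intValuation_singleton hp.ne_zero rfl
  obtain ⟨W, hW⟩ := exists_extension (algebraMap (RatFunc (ZMod 2)) Ω) (v.valuation (RatFunc (ZMod 2))).valuationSubring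
  refine ⟨W, fun h => ?_⟩
  have h1 : (RatFunc.X⁻¹ : (RatFunc (ZMod 2))) ∈ W.comap (algebraMap (RatFunc (ZMod 2)) Ω) := h
  rw [hW, Valuation.mem_valuationSubring_iff, map_inv₀, ← RatFunc.algebraMap_X, hvp,
    ← WithZero.exp_neg, ← WithZero.exp_zero, WithZero.exp_le_exp] at h1
  norm_num at h1

theorem laurent (n : ℕ) : ∀ P : (Polynomial (ZMod 2)), ∃ A B : (Polynomial (ZMod 2)), B.coeff 0 = 0 ∧
    algebraMap (Polynomial (ZMod 2)) (RatFunc (ZMod 2)) P / RatFunc.X ^ n = aeval (RatFunc.X : (RatFunc (ZMod 2))) A + aeval (RatFunc.X⁻¹ : (RatFunc (ZMod 2))) B := by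
  induction n with
  | zero => intro P; exact ⟨P, 0, by simp, by simp [RatFunc.aeval_X_left_eq_algebraMap]⟩
  | succ n ih =>
    intro P
    obtain ⟨A, B, hB, hAB⟩ := ih P.divX
    refine ⟨A, B + C (P.coeff 0) * X ^ (n + 1), by simp [hB], ?_⟩
    have h1 : algebraMap (Polynomial (ZMod 2)) (RatFunc (ZMod 2)) P = algebraMap (Polynomial (ZMod 2)) (RatFunc (ZMod 2)) P.divX * RatFunc.X +
        algebraMap (ZMod 2) (RatFunc (ZMod 2)) (P.coeff 0) := by
      conv_lhs => rw [← P.divX_mul_X_add]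
      rw [map_add, map_mul, RatFunc.algebraMap_X]
      congr 1
    have hX : (RatFunc.X : (RatFunc (ZMod 2))) ≠ 0 := RatFunc.X_ne_zero
    rw [map_add, map_mul, aeval_C, map_pow, aeval_X, ← add_assoc, ← hAB, h1, inv_pow]
    field_simp
    ring

theorem aeval_mem (W : ValuationSubring Ω) (t : (RatFunc (ZMod 2))) (ht : algebraMap (RatFunc (ZMod 2)) Ω t ∈ W) (P : (Polynomial (ZMod 2))) :
    algebraMap (RatFunc (ZMod 2)) Ω (aeval t P) ∈ W := by
  rw [Polynomial.aeval_eq_sum_range, map_sum]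
  refine sum_mem fun i _ => ?_
  have hc : ∀ c : ZMod 2, algebraMap (RatFunc (ZMod 2)) Ω (c • t ^ i) ∈ W := by
    intro c
    have hc : c = 0 ∨ c = 1 := by revert c; decide
    rcases hc with rfl | rfl
    · simp
    · rw [one_smul, map_pow]; exact pow_mem ht i
  exact hc _

/-- the data -/
def Good (h y : Ω) (a b : (RatFunc (ZMod 2))) : Prop :=
  y ^ 4 + y = algebraMap (RatFunc (ZMod 2)) Ω RatFunc.X + (algebraMap (RatFunc (ZMod 2)) Ω a + algebraMap (RatFunc (ZMod 2)) Ω b * h) ^ 2 +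
    (algebraMap (RatFunc (ZMod 2)) Ω a + algebraMap (RatFunc (ZMod 2)) Ω b * h) ∧
  ∀ (W : ValuationSubring Ω) (σ : Ω ≃ₐ[(RatFunc (ZMod 2))] Ω), Wild W (σ : Ω ≃+* Ω) → σ h = h → σ y = y

def Laur (b : (RatFunc (ZMod 2))) : Prop := ∃ (P : (Polynomial (ZMod 2))) (n : ℕ), b = algebraMap (Polynomial (ZMod 2)) (RatFunc (ZMod 2)) P / RatFunc.X ^ n

theorem Laur.add_bit {b : (RatFunc (ZMod 2))} (hb : Laur b) (e : (RatFunc (ZMod 2))) (he : e = 0 ∨ e = 1) : Laur (b + e) := by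
  obtain ⟨P, n, rfl⟩ := hb
  have hX : (RatFunc.X : (RatFunc (ZMod 2))) ≠ 0 := RatFunc.X_ne_zero
  rcases he with rfl | rfl
  · exact ⟨P, n, by simp⟩
  · refine ⟨P + X ^ n, n, ?_⟩
    rw [map_add, map_pow, RatFunc.algebraMap_X]
    field_simp

theorem Laur.mem {b : (RatFunc (ZMod 2))} (hb : Laur b) (W : ValuationSubring Ω)
    (h1 : algebraMap (RatFunc (ZMod 2)) Ω RatFunc.X ∈ W) (h2 : algebraMap (RatFunc (ZMod 2)) Ω RatFunc.X⁻¹ ∈ W) :
    algebraMap (RatFunc (ZMod 2)) Ω b ∈ W := by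
  obtain ⟨P, n, rfl⟩ := hb
  obtain ⟨A, B, _, hAB⟩ := laurent n P
  rw [hAB, map_add]
  exact W.add_mem _ _ (aeval_mem W _ h1 A) (aeval_mem W _ h2 B)

theorem h_mem {h : Ω} (hh : h ^ 2 + h = algebraMap (RatFunc (ZMod 2)) Ω (RatFunc.X + RatFunc.X⁻¹))
    (W : ValuationSubring Ω)
    (h1 : algebraMap (RatFunc (ZMod 2)) Ω RatFunc.X ∈ W) (h2 : algebraMap (RatFunc (ZMod 2)) Ω RatFunc.X⁻¹ ∈ W) : h ∈ W := by
  refine root_mem W ?_
  rw [hh, map_add]
  exact W.add_mem _ _ h1 h2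

theorem h_fix [CharP Ω 2] {h : Ω} (hh : h ^ 2 + h = algebraMap (RatFunc (ZMod 2)) Ω (RatFunc.X + RatFunc.X⁻¹))
    (W : ValuationSubring Ω)
    (h1 : algebraMap (RatFunc (ZMod 2)) Ω RatFunc.X ∈ W) (h2 : algebraMap (RatFunc (ZMod 2)) Ω RatFunc.X⁻¹ ∈ W)
    (σ : Ω ≃ₐ[(RatFunc (ZMod 2))] Ω) (hσ : Wild W (σ : Ω ≃+* Ω)) : σ h = h := by
  refine wild_fix_root W (σ : Ω ≃+* Ω) hσ hh ?_ (σ.commutes _)
  rw [map_add]
  exact W.add_mem _ _ h1 h2

theorem exists_rho [IsGalois (RatFunc (ZMod 2)) Ω] (h : Ω)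
    (hh : h ^ 2 + h = algebraMap (RatFunc (ZMod 2)) Ω (RatFunc.X + RatFunc.X⁻¹)) :
    ∃ ρ : Ω ≃ₐ[(RatFunc (ZMod 2))] Ω, ρ h = h + 1 := by
  have : CharP Ω 2 := charP_of_injective_algebraMap (algebraMap (RatFunc (ZMod 2)) Ω).injective 2
  obtain ⟨W, hW⟩ := exists_val_inf (Ω := Ω)
  have hτ := (not_mem_iff W _).1 hW
  have hτ0 : W.valuation (algebraMap (RatFunc (ZMod 2)) Ω RatFunc.X) ≠ 0 := (lt_trans zero_lt_one hτ).ne'
  obtain ⟨h1, h2⟩ := val_h W _ hτ h hh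
  have h3 : h ∉ Set.range (algebraMap (RatFunc (ZMod 2)) Ω) := by
    rintro ⟨α, hα⟩
    have hα0 : α ≠ 0 := by
      rintro rfl
      rw [← hα] at h1
      simp at h1
    obtain ⟨n, hn⟩ := val_K0 W _ (Or.inl rfl) hτ α hα0
    rw [← hα, hn] at h2
    have h4 : W.valuation (algebraMap (RatFunc (ZMod 2)) Ω RatFunc.X) ^ (n * 2) =
        W.valuation (algebraMap (RatFunc (ZMod 2)) Ω RatFunc.X) ^ (1 : ℤ) := by
      rw [zpow_mul, zpow_one]
      exact_mod_cast h2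
    have := zpow_right_injective₀ (zero_lt_iff.2 hτ0) hτ.ne' h4
    omega
  rw [InfiniteGalois.mem_range_algebraMap_iff_fixed] at h3
  push Not at h3
  obtain ⟨ρ, hρ⟩ := h3
  refine ⟨ρ, ?_⟩
  have h4 : h ^ 2 + h = (ρ h) ^ 2 + ρ h := by
    rw [← map_pow, ← map_add, hh, AlgEquiv.commutes]
  rcases eq_or_eq_add_one h4 with h5 | h5
  · exact absurd h5 hρ
  · exact h5

theorem stepA [IsGalois (RatFunc (ZMod 2)) Ω] [IsSepClosed Ω] (h : Ω)
    (hh : h ^ 2 + h = algebraMap (RatFunc (ZMod 2)) Ω (RatFunc.X + RatFunc.X⁻¹)) (y : Ω) (a b : (RatFunc (ZMod 2)))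
    (hG : Good h y a b) : ∃ (y' : Ω) (a' b' : (RatFunc (ZMod 2))), Good h y' a' b' ∧ Laur b' := by
  have : CharP Ω 2 := charP_of_injective_algebraMap (algebraMap (RatFunc (ZMod 2)) Ω).injective 2
  have h2 : (2 : Ω) = 0 := CharTwo.two_eq_zero
  have h2' : (2 : (RatFunc (ZMod 2))) = 0 := CharTwo.two_eq_zero
  obtain ⟨ρ, hρ⟩ := exists_rho h hh
  obtain ⟨hy, hram⟩ := hG
  set A := algebraMap (RatFunc (ZMod 2)) Ω a with hA
  set B := algebraMap (RatFunc (ZMod 2)) Ω b with hB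
  set x := algebraMap (RatFunc (ZMod 2)) Ω RatFunc.X with hx
  have hρA : ρ A = A := ρ.commutes a
  have hρB : ρ B = B := ρ.commutes b
  have hρx : ρ x = x := ρ.commutes RatFunc.X
  have hρy : (ρ y) ^ 4 + ρ y = x + (A + B * (h + 1)) ^ 2 + (A + B * (h + 1)) := by
    calc (ρ y) ^ 4 + ρ y = ρ (y ^ 4 + y) := by rw [map_add, map_pow]
      _ = ρ (x + (A + B * h) ^ 2 + (A + B * h)) := by rw [hy]
      _ = _ := by simp only [map_add, map_mul, map_pow, hρA, hρB, hρx, hρ]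
  set u := (y + ρ y) ^ 2 + (y + ρ y) + B with hu
  have hu0 : u = 0 ∨ u = 1 := by
    have h3 : (0 : Ω) ^ 2 + 0 = u ^ 2 + u := by
      rw [hu]
      set w := ρ y
      linear_combination (-1 : Ω) * hy - hρy + (-(x) - A - A*B - A*B*h*2 - A^2 - B - B*h - B*w -
        B*w*y*2 - B*w^2 - B*y - B*y^2 - B^2 - B^2*h - B^2*h^2 - w*y*2 - w*y^2*3 - w*y^3*2 - w^2 -
        w^2*y*3 - w^2*y^2*3 - w^3 - w^3*y*2 - y^2 - y^3) * h2
    rcases eq_or_eq_add_one h3 with h4 | h4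
    · exact Or.inl h4
    · exact Or.inr (by rw [h4, zero_add])
  have hE : ∃ e : (RatFunc (ZMod 2)), (e = 0 ∨ e = 1) ∧ algebraMap (RatFunc (ZMod 2)) Ω e = u := by
    rcases hu0 with h3 | h3
    · exact ⟨0, Or.inl rfl, by rw [h3, map_zero]⟩
    · exact ⟨1, Or.inr rfl, by rw [h3, map_one]⟩
  obtain ⟨e, he, heu⟩ := hE
  obtain ⟨s, P, n, hs⟩ := partial_fractions (Ω := Ω) (b + e) (by
    intro W h3 h4
    refine ⟨y + ρ y, ?_, ?_⟩
    · rw [map_add, heu, hu]
      linear_combination (-B) * h2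
    · intro σ hσ
      have h5 := h_fix hh W h3 h4 σ hσ
      have h6 := hram W σ hσ h5
      have h7 := hram (W.comap (ρ : Ω →+* Ω)) (ρ.trans (σ.trans ρ.symm)) ?_ ?_
      · have h8 : ρ.symm (σ (ρ y)) = y := h7
        have h9 : σ (ρ y) = ρ y := by
          conv_rhs => rw [← h8]
          simp
        rw [map_add, h6, h9]
      · intro z hz
        have h8 : ρ z ≠ 0 := by simpa using hz
        have h9 := hσ (ρ z) h8
        rw [← ValuationSubring.mem_nonunits_iff, ValuationSubring.mem_nonunits_iff_or] at h9 ⊢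
        have h10 : ρ ((ρ.trans (σ.trans ρ.symm)) z / z - 1) = σ (ρ z) / ρ z - 1 := by
          rw [map_sub, map_div₀, map_one]
          congr 2
          change ρ (ρ.symm (σ (ρ z))) = _
          simp
        rcases h9 with h9 | h9
        · left
          have h11 : ρ ((ρ.trans (σ.trans ρ.symm)) z / z - 1) = 0 := by rw [h10]; exact h9
          rw [map_eq_zero] at h11
          exact h11
        · right
          intro h11
          apply h9
          have h12 : ρ (((ρ.trans (σ.trans ρ.symm)) z / z - 1)⁻¹) ∈ W := h11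
          rw [map_inv₀, h10] at h12
          exact h12
      · change ρ.symm (σ (ρ h)) = h
        rw [hρ, map_add, map_one, h5, ← hρ]
        simp)
  refine ⟨y + algebraMap (RatFunc (ZMod 2)) Ω s * h, a + s ^ 2 * (RatFunc.X + RatFunc.X⁻¹), b + s ^ 2 + s,
    ⟨?_, ?_⟩, ?_⟩
  · set S := algebraMap (RatFunc (ZMod 2)) Ω s
    rw [map_add, map_add, map_add, map_mul, map_pow, ← hh]
    linear_combination hy + (y*S^3*h^3*2 + y^2*S^2*h^2*3 + y^3*S*h*2 - S*h*A - S*h^2*B - S^2*h -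
      S^2*h*A*2 - S^2*h^2 - S^2*h^2*A - S^2*h^2*B*2 - S^2*h^3*B - S^3*h^2*2 - S^3*h^3 - S^4*h^2*2 -
      S^4*h^3*2) * h2
  · intro W σ hσ h3
    rw [map_add, map_mul, hram W σ hσ h3, h3, AlgEquiv.commutes]
  · have h3 : b + s ^ 2 + s = algebraMap (Polynomial (ZMod 2)) (RatFunc (ZMod 2)) P / RatFunc.X ^ n + e := by
      rw [← hs]
      linear_combination (-e) * h2'
    rw [h3]
    exact Laur.add_bit ⟨P, n, rfl⟩ e he

theorem stepB [IsGalois (RatFunc (ZMod 2)) Ω] [IsSepClosed Ω] (h : Ω)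
    (hh : h ^ 2 + h = algebraMap (RatFunc (ZMod 2)) Ω (RatFunc.X + RatFunc.X⁻¹)) (y : Ω) (a b : (RatFunc (ZMod 2)))
    (hG : Good h y a b) (hb : Laur b) :
    ∃ (y' : Ω) (a' : (RatFunc (ZMod 2))), Good h y' a' b ∧ Laur a' := by
  have : CharP Ω 2 := charP_of_injective_algebraMap (algebraMap (RatFunc (ZMod 2)) Ω).injective 2
  have h2 : (2 : Ω) = 0 := CharTwo.two_eq_zero
  obtain ⟨hy, hram⟩ := hG
  set A := algebraMap (RatFunc (ZMod 2)) Ω a with hA
  set B := algebraMap (RatFunc (ZMod 2)) Ω b with hB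
  set x := algebraMap (RatFunc (ZMod 2)) Ω RatFunc.X with hx
  set z := y ^ 2 + y + (A + B * h) with hz
  have hzx : z ^ 2 + z = x := by
    rw [hz]
    linear_combination hy + (y ^ 2 + y ^ 3 + (A + B * h) + (A + B * h) ^ 2 + (A + B * h) * y +
      (A + B * h) * y ^ 2) * h2
  obtain ⟨s, P, n, hs⟩ := partial_fractions (Ω := Ω) a (by
    intro W h3 h4
    obtain ⟨r, hr⟩ := exists_AS_root (z + B * h)
    have hzW : z ∈ W := root_mem W (by rw [hzx]; exact h3)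
    have hrW : z + B * h ∈ W :=
      W.add_mem _ _ hzW (W.mul_mem _ _ (hb.mem W h3 h4) (h_mem hh W h3 h4))
    refine ⟨y + r, ?_, ?_⟩
    · linear_combination hr + (y * r) * h2 + hz + (y + y ^ 2 + B * h) * h2
    · intro σ hσ
      have h5 := h_fix hh W h3 h4 σ hσ
      have h6 := hram W σ hσ h5
      have h7 : σ z = z := wild_fix_root W (σ : Ω ≃+* Ω) hσ hzx h3 (σ.commutes _)
      have h8 : σ r = r := by
        refine wild_fix_root W (σ : Ω ≃+* Ω) hσ hr hrW ?_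
        change σ (z + B * h) = z + B * h
        rw [map_add, map_mul, h7, h5, hB, AlgEquiv.commutes]
      rw [map_add, h6, h8])
  refine ⟨y + algebraMap (RatFunc (ZMod 2)) Ω s, a + s ^ 2 + s, ⟨?_, ?_⟩, ⟨P, n, hs⟩⟩
  · set S := algebraMap (RatFunc (ZMod 2)) Ω s
    rw [map_add, map_add, map_pow]
    linear_combination hy + (y * S ^ 3 * 2 + y ^ 2 * S ^ 2 * 3 + y ^ 3 * S * 2 - S * A - S * B * h -
      S ^ 2 - S ^ 2 * A - S ^ 2 * B * h - S ^ 3) * h2
  · intro W σ hσ h3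
    rw [map_add, hram W σ hσ h3, AlgEquiv.commutes]

theorem stepC [IsGalois (RatFunc (ZMod 2)) Ω] [IsSepClosed Ω] (h : Ω)
    (hh : h ^ 2 + h = algebraMap (RatFunc (ZMod 2)) Ω (RatFunc.X + RatFunc.X⁻¹)) (y : Ω) (a b : (RatFunc (ZMod 2)))
    (hG : Good h y a b) (hb : Laur b) (ha : Laur a) : False := by
  have : CharP Ω 2 := charP_of_injective_algebraMap (algebraMap (RatFunc (ZMod 2)) Ω).injective 2
  have h2 : (2 : Ω) = 0 := CharTwo.two_eq_zero
  obtain ⟨hy, hram⟩ := hG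
  obtain ⟨Pa, na, ha⟩ := ha
  obtain ⟨Pb, nb, hb⟩ := hb
  obtain ⟨Ap, Am, -, hAA⟩ := laurent na Pa
  obtain ⟨Bp, Bm, hBm, hBB⟩ := laurent nb Pb
  rw [← ha] at hAA
  rw [← hb] at hBB
  set A := algebraMap (RatFunc (ZMod 2)) Ω a with hA
  set B := algebraMap (RatFunc (ZMod 2)) Ω b with hB
  set x := algebraMap (RatFunc (ZMod 2)) Ω RatFunc.X with hx
  set z := y ^ 2 + y + (A + B * h) with hz
  have hzx : z ^ 2 + z = x := by
    rw [hz]
    linear_combination hy + (y ^ 2 + y ^ 3 + (A + B * h) + (A + B * h) ^ 2 + (A + B * h) * y +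
      (A + B * h) * y ^ 2) * h2
  have hhκ : h ∈ IntermediateField.adjoin (RatFunc (ZMod 2)) {h} := IntermediateField.mem_adjoin_simple_self (RatFunc (ZMod 2)) h
  have hfix : ∀ (W : ValuationSubring Ω) (σ : Ω ≃ₐ[IntermediateField.adjoin (RatFunc (ZMod 2)) {h}] Ω),
      Wild W (σ : Ω ≃+* Ω) → σ y = y := by
    intro W σ hσ
    exact hram W (σ.restrictScalars (RatFunc (ZMod 2))) hσ (wild_fix_kappa h σ h hhκ)
  -- the place at infinity
  have c1 : Bp.coeff 0 + 1 = 0 := by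
    obtain ⟨W, hW⟩ := exists_val_inf (Ω := Ω)
    have hτ := (not_mem_iff W _).1 hW
    have hτ0 : W.valuation (algebraMap (RatFunc (ZMod 2)) Ω RatFunc.X) ≠ 0 := (lt_trans zero_lt_one hτ).ne'
    obtain ⟨h1, h3⟩ := val_h W _ hτ h hh
    have hinv : algebraMap (RatFunc (ZMod 2)) Ω RatFunc.X⁻¹ ∈ W := by
      rw [← W.valuation_le_one_iff, map_inv₀, map_inv₀]
      exact (inv_le_one₀ (zero_lt_iff.2 hτ0)).2 hτ.le
    obtain ⟨r, hr⟩ := exists_AS_root (z + h)
    have hzh : (z + h) ^ 2 + (z + h) = algebraMap (RatFunc (ZMod 2)) Ω RatFunc.X⁻¹ := by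
      rw [map_add] at hh
      linear_combination hzx + hh + (z * h + x) * h2
    have hzhW : z + h ∈ W := root_mem W (by rw [hzh]; exact hinv)
    have hU : Unr (IntermediateField.adjoin (RatFunc (ZMod 2)) {h}) W ((A + B * h) + h) := by
      refine ⟨y + r, ?_, ?_⟩
      · linear_combination hr + (y * r) * h2 + hz + (y + y ^ 2) * h2
      · intro σ hσ
        have h5 : σ (z + h) = z + h := wild_fix_root W (σ : Ω ≃+* Ω) hσ hzh hinv
          ((σ.restrictScalars (RatFunc (ZMod 2))).commutes _)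
        have h6 : σ r = r := wild_fix_root W (σ : Ω ≃+* Ω) hσ hr hzhW h5
        rw [map_add, hfix W σ hσ, h6]
    have hr1 : algebraMap (RatFunc (ZMod 2)) Ω (aeval (RatFunc.X⁻¹ : (RatFunc (ZMod 2))) Am) ∈ W := aeval_mem W _ hinv Am
    have hr2 : algebraMap (RatFunc (ZMod 2)) Ω (aeval (RatFunc.X⁻¹ : (RatFunc (ZMod 2))) Bm) * h ∈ W := by
      have e1 : aeval (RatFunc.X⁻¹ : (RatFunc (ZMod 2))) Bm = aeval (RatFunc.X⁻¹ : (RatFunc (ZMod 2))) Bm.divX * RatFunc.X⁻¹ := by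
        conv_lhs => rw [← Bm.divX_mul_X_add]
        rw [hBm]
        simp
      rw [e1, map_mul, mul_assoc]
      refine W.mul_mem _ _ (aeval_mem W _ hinv _) ?_
      rw [← W.valuation_le_one_iff, map_mul, map_inv₀, map_inv₀]
      have e2 : W.valuation h ≤ W.valuation (algebraMap (RatFunc (ZMod 2)) Ω RatFunc.X) := by
        rw [← h3, sq]
        exact le_mul_of_one_le_left' h1.le
      calc (W.valuation (algebraMap (RatFunc (ZMod 2)) Ω RatFunc.X))⁻¹ * W.valuation h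
          ≤ (W.valuation (algebraMap (RatFunc (ZMod 2)) Ω RatFunc.X))⁻¹ *
            W.valuation (algebraMap (RatFunc (ZMod 2)) Ω RatFunc.X) := mul_le_mul_right e2 _
        _ = 1 := inv_mul_cancel₀ hτ0
    have hU2 := (hU.add_mem hr1 (fun σ _ => wild_fix_kappa h σ _
      ((IntermediateField.adjoin (RatFunc (ZMod 2)) {h}).algebraMap_mem _))).add_mem hr2
      (fun σ _ => wild_fix_kappa h σ _ (mul_mem
      ((IntermediateField.adjoin (RatFunc (ZMod 2)) {h}).algebraMap_mem _) hhκ))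
    have e3 : A + B * h + h + algebraMap (RatFunc (ZMod 2)) Ω (aeval (RatFunc.X⁻¹ : (RatFunc (ZMod 2))) Am) +
        algebraMap (RatFunc (ZMod 2)) Ω (aeval (RatFunc.X⁻¹ : (RatFunc (ZMod 2))) Bm) * h =
        algebraMap (RatFunc (ZMod 2)) Ω (aeval (RatFunc.X : (RatFunc (ZMod 2))) Ap) +
        algebraMap (RatFunc (ZMod 2)) Ω (aeval (RatFunc.X : (RatFunc (ZMod 2))) (Bp + 1)) * h := by
      rw [hA, hB, hAA, hBB]
      simp only [map_add, map_one]
      linear_combination (algebraMap (RatFunc (ZMod 2)) Ω (aeval (RatFunc.X⁻¹ : (RatFunc (ZMod 2))) Am) +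
        algebraMap (RatFunc (ZMod 2)) Ω (aeval (RatFunc.X⁻¹ : (RatFunc (ZMod 2))) Bm) * h) * h2
    rw [e3] at hU2
    have := coeff_zero RatFunc.X (Or.inl rfl) h hh W hW Ap (Bp + 1) hU2
    simpa using this
  -- the place at zero
  have c2 : Bp.coeff 0 = 0 := by
    obtain ⟨W, hW⟩ := exists_val_zero (Ω := Ω)
    have hτ := (not_mem_iff W _).1 hW
    have hτ0 : W.valuation (algebraMap (RatFunc (ZMod 2)) Ω RatFunc.X⁻¹) ≠ 0 := (lt_trans zero_lt_one hτ).ne'
    have hh' : h ^ 2 + h = algebraMap (RatFunc (ZMod 2)) Ω (RatFunc.X⁻¹ + (RatFunc.X⁻¹)⁻¹) := by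
      rw [hh, inv_inv, add_comm]
    obtain ⟨h1, h3⟩ := val_h W _ hτ h hh'
    have hxW : algebraMap (RatFunc (ZMod 2)) Ω RatFunc.X ∈ W := by
      have : (RatFunc.X : (RatFunc (ZMod 2))) = (RatFunc.X⁻¹)⁻¹ := (inv_inv _).symm
      rw [this, ← W.valuation_le_one_iff, map_inv₀ (algebraMap (RatFunc (ZMod 2)) Ω), map_inv₀ W.valuation]
      exact (inv_le_one₀ (zero_lt_iff.2 hτ0)).2 hτ.le
    obtain ⟨r, hr⟩ := exists_AS_root z
    have hzW : z ∈ W := root_mem W (by rw [hzx]; exact hxW)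
    have hU : Unr (IntermediateField.adjoin (RatFunc (ZMod 2)) {h}) W (A + B * h) := by
      refine ⟨y + r, ?_, ?_⟩
      · linear_combination hr + (y * r) * h2 + hz + (y + y ^ 2) * h2
      · intro σ hσ
        have h5 : σ z = z := wild_fix_root W (σ : Ω ≃+* Ω) hσ hzx hxW
          ((σ.restrictScalars (RatFunc (ZMod 2))).commutes _)
        have h6 : σ r = r := wild_fix_root W (σ : Ω ≃+* Ω) hσ hr hzW h5
        rw [map_add, hfix W σ hσ, h6]
    have hr1 : algebraMap (RatFunc (ZMod 2)) Ω (aeval (RatFunc.X : (RatFunc (ZMod 2))) Ap) ∈ W := aeval_mem W _ hxW Ap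
    have hr2 : algebraMap (RatFunc (ZMod 2)) Ω (aeval (RatFunc.X : (RatFunc (ZMod 2))) Bp.divX * RatFunc.X) * h ∈ W := by
      rw [map_mul, mul_assoc]
      refine W.mul_mem _ _ (aeval_mem W _ hxW _) ?_
      have e0 : W.valuation (algebraMap (RatFunc (ZMod 2)) Ω RatFunc.X) =
          (W.valuation (algebraMap (RatFunc (ZMod 2)) Ω RatFunc.X⁻¹))⁻¹ := by
        rw [map_inv₀, map_inv₀, inv_inv]
      rw [← W.valuation_le_one_iff, map_mul, e0]
      have e2 : W.valuation h ≤ W.valuation (algebraMap (RatFunc (ZMod 2)) Ω RatFunc.X⁻¹) := by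
        rw [← h3, sq]
        exact le_mul_of_one_le_left' h1.le
      calc (W.valuation (algebraMap (RatFunc (ZMod 2)) Ω RatFunc.X⁻¹))⁻¹ * W.valuation h
          ≤ (W.valuation (algebraMap (RatFunc (ZMod 2)) Ω RatFunc.X⁻¹))⁻¹ *
            W.valuation (algebraMap (RatFunc (ZMod 2)) Ω RatFunc.X⁻¹) := mul_le_mul_right e2 _
        _ = 1 := inv_mul_cancel₀ hτ0
    have hU2 := (hU.add_mem hr1 (fun σ _ => wild_fix_kappa h σ _
      ((IntermediateField.adjoin (RatFunc (ZMod 2)) {h}).algebraMap_mem _))).add_mem hr2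
      (fun σ _ => wild_fix_kappa h σ _ (mul_mem
      ((IntermediateField.adjoin (RatFunc (ZMod 2)) {h}).algebraMap_mem _) hhκ))
    have e1 : aeval (RatFunc.X : (RatFunc (ZMod 2))) Bp = aeval (RatFunc.X : (RatFunc (ZMod 2))) Bp.divX * RatFunc.X +
        algebraMap (ZMod 2) (RatFunc (ZMod 2)) (Bp.coeff 0) := by
      conv_lhs => rw [← Bp.divX_mul_X_add]
      rw [map_add, map_mul, aeval_X, aeval_C]
    have e3 : A + B * h + algebraMap (RatFunc (ZMod 2)) Ω (aeval (RatFunc.X : (RatFunc (ZMod 2))) Ap) +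
        algebraMap (RatFunc (ZMod 2)) Ω (aeval (RatFunc.X : (RatFunc (ZMod 2))) Bp.divX * RatFunc.X) * h =
        algebraMap (RatFunc (ZMod 2)) Ω (aeval (RatFunc.X⁻¹ : (RatFunc (ZMod 2))) Am) +
        algebraMap (RatFunc (ZMod 2)) Ω (aeval (RatFunc.X⁻¹ : (RatFunc (ZMod 2))) (Bm + C (Bp.coeff 0))) * h := by
      rw [hA, hB, hAA, hBB, e1]
      simp only [map_add, aeval_C]
      linear_combination (algebraMap (RatFunc (ZMod 2)) Ω (aeval (RatFunc.X : (RatFunc (ZMod 2))) Ap) +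
        algebraMap (RatFunc (ZMod 2)) Ω (aeval (RatFunc.X : (RatFunc (ZMod 2))) Bp.divX * RatFunc.X) * h) * h2
    rw [e3] at hU2
    have := coeff_zero RatFunc.X⁻¹ (Or.inr rfl) h hh' W hW Am (Bm + C (Bp.coeff 0)) hU2
    rw [coeff_add, hBm, zero_add, coeff_C_zero] at this
    exact this
  rw [c2] at c1
  exact absurd c1 (by decide)

/-- Final contradiction. -/
theorem alg_final [IsGalois (RatFunc (ZMod 2)) Ω] [IsSepClosed Ω] (h : Ω)
    (hh : h ^ 2 + h = algebraMap (RatFunc (ZMod 2)) Ω (RatFunc.X + RatFunc.X⁻¹)) (y : Ω)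
    (q : IntermediateField.adjoin (RatFunc (ZMod 2)) {h})
    (hy : y ^ 4 + y = algebraMap (RatFunc (ZMod 2)) Ω RatFunc.X + (q : Ω) ^ 2 + (q : Ω))
    (hram : ∀ (W : ValuationSubring Ω)
      (σ : Ω ≃ₐ[IntermediateField.adjoin (RatFunc (ZMod 2)) {h}] Ω),
      Wild W (σ : Ω ≃+* Ω) → σ y = y) : False := by
  obtain ⟨a, b, hq⟩ := mem_adjoin_h h _ hh (q : Ω) q.2
  have hG : Good h y a b := by
    refine ⟨by rw [hy, hq], ?_⟩
    intro W σ hσ hσh
    let σ' : Ω ≃ₐ[IntermediateField.adjoin (RatFunc (ZMod 2)) {h}] Ω :=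
      { (σ : Ω ≃+* Ω) with
        commutes' := by
          intro r
          obtain ⟨α, β, hr⟩ := mem_adjoin_h h _ hh (r : Ω) r.2
          change σ (r : Ω) = (r : Ω)
          rw [hr, map_add, map_mul, hσh, AlgEquiv.commutes, AlgEquiv.commutes] }
    exact hram W σ' hσ
  obtain ⟨y1, a1, b1, h1, h2⟩ := stepA h hh y a b hG
  obtain ⟨y2, a2, h3, h4⟩ := stepB h hh y1 a1 b1 h1 h2
  exact stepC h hh y2 a2 b1 h3 h2 h4

end

end TameSite
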