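import Pool.Agent.Lib_helper87.Tame.Defs

namespace TameSite

open Polynomial IntermediateField

/-- The lemma on Galois cohomology. -/
theorem galois_lemma {κ Ω P : Type*} [Field κ] [Field Ω] [Algebra κ Ω] [IsGalois κ Ω]
    [CharP κ 2] [Nonempty P] [MulAction (Ω ≃ₐ[κ] Ω) P]
    (hopen : ∀ a : P, ∃ L : IntermediateField κ Ω, FiniteDimensional κ L ∧
      ∀ σ ∈ L.fixingSubgroup, σ • a = a)
    (x : κ) (z : P → Ω) (hz : ∀ a, z a ^ 2 + z a = algebraMap κ Ω x)
    (hzσ : ∀ (σ : Ω ≃ₐ[κ] Ω) a, z (σ • a) = σ (z a)) (c : P → P → Ω)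
    (h1 : ∀ a b, c a b ^ 2 + c a b = z a - z b) (h2 : ∀ a b d, c a b + c b d = c a d)
    (h3 : ∀ (σ : Ω ≃ₐ[κ] Ω) a b, c (σ • a) (σ • b) = σ (c a b)) :
    ∃ (y : Ω) (q : κ), y ^ 4 + y = algebraMap κ Ω (x + q ^ 2 + q) ∧
      ∀ (σ : Ω ≃ₐ[κ] Ω) (a : P), σ • a = a → (∀ w : Ω, w ^ 4 = w → σ w = w) → σ y = y := by
  classical
  obtain ⟨a0⟩ := ‹Nonempty P›
  have hchar : CharP Ω 2 := charP_of_injective_algebraMap (algebraMap κ Ω).injective 2
  have two : (2 : Ω) = 0 := CharTwo.two_eq_zero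
  have haa : ∀ a, c a a = 0 := by
    intro a
    have := h2 a a a
    simpa using this
  have hsq : ∀ u v : Ω, (u + v) ^ 2 = u ^ 2 + v ^ 2 := fun u v => by
    have : (u + v) ^ 2 = u ^ 2 + v ^ 2 + 2 * (u * v) := by ring
    rw [this, two]; ring
  have hneg : ∀ u : Ω, -u = u := fun u => CharTwo.neg_eq u
  have hself : ∀ u : Ω, u + u = 0 := fun u => CharTwo.add_self_eq_zero u
  have hsub : ∀ u v : Ω, u - v = u + v := fun u v => by rw [sub_eq_add_neg, hneg]
  have hc4 : ∀ a b, c a b ^ 4 = c a b := by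
    intro a b
    have e1 : c a b ^ 4 + c a b = (c a b ^ 2 + c a b) ^ 2 + (c a b ^ 2 + c a b) := by
      rw [hsq]
      have : (c a b ^ 2) ^ 2 + c a b ^ 2 + (c a b ^ 2 + c a b) =
          c a b ^ 4 + c a b + 2 * c a b ^ 2 := by ring
      rw [this, two]; ring
    have e2 : c a b ^ 4 + c a b = 0 := by
      rw [e1, h1, hsub, hsq]
      have : z a ^ 2 + z b ^ 2 + (z a + z b) = (z a ^ 2 + z a) + (z b ^ 2 + z b) := by ring
      rw [this, hz, hz, hself]
    rw [← hsub] at e2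
    exact sub_eq_zero.mp e2
  -- the finite Galois extension
  obtain ⟨L, hLfin, hL⟩ := hopen a0
  set N : IntermediateField κ Ω := normalClosure κ L Ω with hN
  have hNfin : FiniteDimensional κ N := normalClosure.is_finiteDimensional κ L Ω
  have hNgal : IsGalois κ N := IsGalois.normalClosure κ L Ω
  have hLN : L ≤ N := IntermediateField.le_normalClosure L
  set γ : (Ω ≃ₐ[κ] Ω) → Ω := fun σ => c (σ • a0) a0 with hγ
  have hγmul : ∀ σ τ : Ω ≃ₐ[κ] Ω, γ (σ * τ) = σ (γ τ) + γ σ := by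
    intro σ τ
    simp only [hγ]
    rw [← h3, ← mul_smul, h2]
  have hγdep : ∀ σ τ : Ω ≃ₐ[κ] Ω, AlgEquiv.restrictNormalHom N σ = AlgEquiv.restrictNormalHom N τ →
      γ σ = γ τ := by
    intro σ τ h
    have h5 : (τ⁻¹ * σ) • a0 = a0 := by
      apply hL
      rw [IntermediateField.mem_fixingSubgroup_iff]
      intro w hw
      have h6 := AlgEquiv.restrictNormalHom_apply N σ ⟨w, hLN hw⟩
      have h7 := AlgEquiv.restrictNormalHom_apply N τ ⟨w, hLN hw⟩
      rw [h] at h6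
      have h8 : σ w = τ w := by rw [← show _ = σ w from h6, ← show _ = τ w from h7]
      change τ⁻¹ (σ w) = w
      rw [h8]
      exact τ.symm_apply_apply w
    have h6 : σ • a0 = τ • a0 := by
      rw [mul_smul] at h5
      have := congrArg (fun b => τ • b) h5
      simpa using this
    simp only [hγ, h6]
  have hsurj : Function.Surjective (AlgEquiv.restrictNormalHom N : (Ω ≃ₐ[κ] Ω) →* (N ≃ₐ[κ] N)) :=
    AlgEquiv.restrictNormalHom_surjective Ω
  choose lift hlift using hsurj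
  obtain ⟨θ, hθ⟩ := Algebra.trace_surjective κ N 1
  have hθsum : ∑ t : (N ≃ₐ[κ] N), ((t θ : N) : Ω) = 1 := by
    have h5 := trace_eq_sum_automorphisms (K := κ) (L := N) θ
    rw [hθ, map_one] at h5
    have h6 : ((1 : N) : Ω) = ((∑ t : (N ≃ₐ[κ] N), t θ : N) : Ω) := congrArg (fun w : N => (w : Ω)) h5
    push_cast at h6
    exact h6.symm
  set y : Ω := ∑ t : (N ≃ₐ[κ] N), γ (lift t) * ((t θ : N) : Ω) with hy
  have hsy : ∀ σ : Ω ≃ₐ[κ] Ω, σ y = y + γ σ := by
    intro σ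
    have e1 : σ y = ∑ t : (N ≃ₐ[κ] N), (γ (lift (AlgEquiv.restrictNormalHom N σ * t)) + γ σ) *
        (((AlgEquiv.restrictNormalHom N σ * t) θ : N) : Ω) := by
      rw [hy, map_sum]
      apply Finset.sum_congr rfl
      intro t _
      rw [map_mul]
      have h5 : σ ((t θ : N) : Ω) = (((AlgEquiv.restrictNormalHom N σ * t) θ : N) : Ω) := by
        rw [← AlgEquiv.restrictNormalHom_apply N σ (t θ)]
        rfl
      have h6 : σ (γ (lift t)) = γ (lift (AlgEquiv.restrictNormalHom N σ * t)) + γ σ := by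
        have h7 : γ (lift (AlgEquiv.restrictNormalHom N σ * t)) = γ (σ * lift t) := by
          apply hγdep
          rw [hlift, map_mul, hlift]
        rw [h7, hγmul, add_assoc, hself, add_zero]
      rw [h5, h6]
    rw [e1]
    have e2 : ∑ t : (N ≃ₐ[κ] N), (γ (lift (AlgEquiv.restrictNormalHom N σ * t)) + γ σ) *
        (((AlgEquiv.restrictNormalHom N σ * t) θ : N) : Ω) =
        ∑ t : (N ≃ₐ[κ] N), (γ (lift t) + γ σ) * ((t θ : N) : Ω) :=
      Fintype.sum_equiv (Equiv.mulLeft (AlgEquiv.restrictNormalHom N σ)) _ _ (fun t => rfl)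
    rw [e2]
    simp only [add_mul]
    rw [Finset.sum_add_distrib, ← Finset.mul_sum, hθsum, mul_one]
  have hγsq : ∀ σ : Ω ≃ₐ[κ] Ω, γ σ ^ 2 + γ σ = z (σ • a0) + z a0 := by
    intro σ
    rw [← hsub (z (σ • a0)) (z a0)]
    exact h1 _ _
  have hq0 : ∀ σ : Ω ≃ₐ[κ] Ω, σ (y ^ 2 + y + z a0) = y ^ 2 + y + z a0 := by
    intro σ
    rw [map_add, map_add, map_pow, hsy, ← hzσ, hsq]
    have e1 : y ^ 2 + γ σ ^ 2 + (y + γ σ) + z (σ • a0) =
        y ^ 2 + y + (γ σ ^ 2 + γ σ) + z (σ • a0) := by ring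
    rw [e1, hγsq]
    have e2 : y ^ 2 + y + (z (σ • a0) + z a0) + z (σ • a0) =
        y ^ 2 + y + z a0 + (z (σ • a0) + z (σ • a0)) := by ring
    rw [e2, hself, add_zero]
  obtain ⟨q, hq⟩ := (InfiniteGalois.mem_range_algebraMap_iff_fixed (k := κ) (K := Ω) _).mpr hq0
  refine ⟨y, q, ?_, ?_⟩
  · have e1 : y ^ 2 + y = algebraMap κ Ω q + z a0 := by
      rw [hq, add_assoc, hself, add_zero]
    have e2 : y ^ 4 + y = (y ^ 2 + y) ^ 2 + (y ^ 2 + y) := by
      rw [hsq]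
      have : (y ^ 2) ^ 2 + y ^ 2 + (y ^ 2 + y) = y ^ 4 + y + (y ^ 2 + y ^ 2) := by ring
      rw [this, hself, add_zero]
    rw [e2, e1, hsq, map_add, map_add, map_pow, ← hz a0]
    ring
  · intro σ a hσa hσw
    have e1 : σ (y + c a a0) = y + c a a0 := by
      rw [map_add, hsy, ← h3]
      have : γ σ = c (σ • a0) a0 := rfl
      rw [this, add_assoc, add_comm (c (σ • a0) a0), h2, hσa]
    rw [map_add, hσw _ (hc4 a a0)] at e1
    exact add_right_cancel e1

end TameSite
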