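import Pool.Agent.Lib_helper87.Tame.Defs

namespace TameSite

open Polynomial IntermediateField

/-- The standard étale pair over `ℤ₂[x]`. -/
noncomputable def b1Pair : StandardEtalePair (ℤ_[2][X]) where
  f := X ^ 2 + (C (X : ℤ_[2][X]) * X - C ((X : ℤ_[2][X]) ^ 3 + X))
  monic_f := by
    apply monic_X_pow_add
    refine lt_of_le_of_lt (degree_sub_le _ _) ?_
    rw [max_lt_iff]
    constructor
    · refine lt_of_le_of_lt (degree_C_mul_X_le _) ?_
      norm_num
    · refine lt_of_le_of_lt degree_C_le ?_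
      norm_num
  g := C (X : ℤ_[2][X]) * (2 * X + C (X : ℤ_[2][X]))
  cond := by
    refine ⟨C (X : ℤ_[2][X]), 0, 1, ?_⟩
    rw [mul_zero, add_zero, pow_one]
    simp only [derivative_add, derivative_sub, derivative_X_pow, derivative_mul, derivative_C,
      derivative_X, zero_mul, zero_add, mul_one, sub_zero, Nat.cast_ofNat]
    simp only [Nat.add_one_sub_one, pow_one, map_ofNat]
    ring

/-- The smooth `ℤ₂`-algebra. -/
theorem exists_ring {Ω : Type} [Field Ω] [Algebra (RatFunc (ZMod 2)) Ω] (h : Ω)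
    (hh : h ^ 2 + h = algebraMap (RatFunc (ZMod 2)) Ω (RatFunc.X + RatFunc.X⁻¹)) :
    ∃ (B : Type) (_ : CommRing B) (_ : Algebra ℤ_[2] B),
      Algebra.Smooth ℤ_[2] B ∧
      ∃ (x x' h' : B ⧸ Ideal.span {algebraMap ℤ_[2] B 2})
        (χ : B ⧸ Ideal.span {algebraMap ℤ_[2] B 2} →+* Ω),
        x * x' = 1 ∧ h' ^ 2 + h' = x + x' ∧ χ x = algebraMap (RatFunc (ZMod 2)) Ω RatFunc.X ∧
        χ h' = h ∧ ∀ b, χ b ∈ (RatFunc (ZMod 2))⟮h⟯ := by
  let R := ℤ_[2][X]
  let P : StandardEtalePair R := b1Pair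
  let alg : Algebra ℤ_[2] P.Ring := ((algebraMap R P.Ring).comp (algebraMap ℤ_[2] R)).toAlgebra
  have hst : IsScalarTower ℤ_[2] R P.Ring := .of_algebraMap_eq (fun _ => rfl)
  have hsm0 : Algebra.Smooth ℤ_[2] R := ⟨Algebra.FormallySmooth.polynomial _,
    Algebra.FinitePresentation.polynomial _ _⟩
  have hsm : Algebra.Smooth ℤ_[2] P.Ring := Algebra.Smooth.comp ℤ_[2] R P.Ring
  refine ⟨P.Ring, inferInstance, alg, hsm, ?_⟩
  set I : Ideal P.Ring := Ideal.span {algebraMap ℤ_[2] P.Ring 2} with hI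
  have h2I : (Ideal.Quotient.mk I 2 : P.Ring ⧸ I) = 0 := by
    rw [Ideal.Quotient.eq_zero_iff_mem, hI]
    have : (2 : P.Ring) = algebraMap ℤ_[2] P.Ring 2 := by rw [map_ofNat]
    rw [this]
    exact Ideal.mem_span_singleton_self _
  -- the inverse of g
  obtain ⟨u, hu⟩ := (P.hasMap_X.2).exists_right_inv
  have hf := P.hasMap_X.1
  set a : P.Ring := algebraMap R P.Ring X with ha
  have hg' : aeval P.X P.g = a * (2 * P.X + a) := by
    change aeval P.X (C (X : ℤ_[2][X]) * (2 * X + C (X : ℤ_[2][X]))) = _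
    simp only [map_mul, map_add, aeval_X, aeval_C, map_ofNat]
    rfl
  have hf' : P.X ^ 2 + (a * P.X - (a ^ 3 + a)) = 0 := by
    rw [← hf]
    change _ = aeval P.X (X ^ 2 + (C (X : ℤ_[2][X]) * X - C ((X : ℤ_[2][X]) ^ 3 + X)))
    simp only [map_mul, map_add, map_sub, map_pow, aeval_X, aeval_C]
    rfl
  let K0 := RatFunc (ZMod 2)
  let K1 := (K0)⟮h⟯
  have h2K0 : (2 : K0) = 0 := CharTwo.two_eq_zero
  have h2K1 : (2 : K1) = 0 := by
    have := congrArg (algebraMap K0 K1) h2K0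
    rwa [map_ofNat, map_zero] at this
  let ψ : R →+* K1 := (algebraMap K0 K1).comp
    ((algebraMap (ZMod 2)[X] K0).comp (Polynomial.mapRingHom (PadicInt.toZMod (p := 2))))
  let algK1 : Algebra R K1 := ψ.toAlgebra
  set t : K1 := algebraMap K0 K1 RatFunc.X with ht
  have hψX : algebraMap R K1 X = t := by
    change algebraMap K0 K1 (algebraMap (ZMod 2)[X] K0 (Polynomial.map _ X)) = t
    rw [Polynomial.map_X, RatFunc.algebraMap_X]
  have ht0 : t ≠ 0 := by
    rw [ht]
    exact (_root_.map_ne_zero _).2 RatFunc.X_ne_zero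
  let h1 : K1 := ⟨h, mem_adjoin_simple_self K0 h⟩
  have hh1 : h1 ^ 2 + h1 = t + t⁻¹ := by
    apply Subtype.ext
    change h ^ 2 + h = algebraMap K0 Ω RatFunc.X + (algebraMap K0 Ω RatFunc.X)⁻¹
    rw [hh, map_add, map_inv₀]
  let y1 : K1 := t * h1
  have hmap : P.HasMap y1 := by
    constructor
    · change aeval y1 (X ^ 2 + (C (X : ℤ_[2][X]) * X - C ((X : ℤ_[2][X]) ^ 3 + X))) = 0
      simp only [map_mul, map_add, map_sub, map_pow, aeval_X, aeval_C]
      rw [hψX]
      have e1 : y1 ^ 2 + (t * y1 - (t ^ 3 + t)) = t ^ 2 * (h1 ^ 2 + h1) - t ^ 3 - t := by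
        simp only [y1]; ring
      rw [e1, hh1]
      field_simp
      ring
    · change IsUnit (aeval y1 (C (X : ℤ_[2][X]) * (2 * X + C (X : ℤ_[2][X]))))
      simp only [map_mul, map_add, aeval_X, aeval_C, map_ofNat]
      rw [hψX, h2K1, zero_mul, zero_add]
      exact (mul_ne_zero ht0 ht0).isUnit
  let θ : P.Ring →+* Ω := (algebraMap K1 Ω).comp (P.lift y1 hmap).toRingHom
  have hθI : ∀ b ∈ I, θ b = 0 := by
    intro b hb
    rw [hI, Ideal.mem_span_singleton] at hb
    obtain ⟨c, rfl⟩ := hb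
    have h2Ω : (2 : Ω) = 0 := by
      have := congrArg (algebraMap K0 Ω) h2K0
      rwa [map_ofNat, map_zero] at this
    rw [map_mul]
    have : θ (algebraMap ℤ_[2] P.Ring 2) = 0 := by
      rw [map_ofNat, map_ofNat, h2Ω]
    rw [this, zero_mul]
  let χ : P.Ring ⧸ I →+* Ω := Ideal.Quotient.lift I θ hθI
  let q : P.Ring →+* P.Ring ⧸ I := Ideal.Quotient.mk I
  have hχ : ∀ b, χ (q b) = θ b := fun b => Ideal.Quotient.lift_mk I θ hθI
  have hxx : q a * q (a * u) = 1 := by
    rw [← map_mul, ← map_one q, ← hu, hg']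
    have e1 : a * (2 * P.X + a) * u = a * (a * u) + 2 * (a * P.X * u) := by ring
    rw [e1, map_add, map_mul q 2]
    have : q 2 = 0 := h2I
    rw [this, zero_mul, add_zero]
  have hθa : θ a = algebraMap K0 Ω RatFunc.X := by
    change algebraMap K1 Ω (P.lift y1 hmap (algebraMap R P.Ring X)) = _
    rw [AlgHom.commutes, hψX]
    rfl
  refine ⟨q a, q (a * u), q P.X * q (a * u), χ, hxx, ?_, ?_, ?_, ?_⟩
  · have h3 := congrArg q hf'
    simp only [map_add, map_sub, map_mul, map_pow, map_zero] at h3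
    set α := q a
    set β := q (a * u) with hβ
    set γ := q P.X
    have hxx' : α * β = 1 := hxx
    have h4 : q a * q u = β := by rw [hβ, map_mul]
    linear_combination β ^ 2 * h3 + (α ^ 2 * β + α + β - γ * β) * hxx'
  · rw [hχ, hθa]
  · rw [map_mul, hχ]
    have h5 : χ (q (a * u)) = (algebraMap K0 Ω RatFunc.X)⁻¹ := by
      have h6 := congrArg χ hxx
      rw [map_mul, map_one, hχ a, hθa] at h6
      exact eq_inv_of_mul_eq_one_right h6
    rw [h5]
    change algebraMap K1 Ω (P.lift y1 hmap P.X) * _ = h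
    rw [P.lift_X]
    change (algebraMap K0 Ω RatFunc.X * h) * _ = h
    have : algebraMap K0 Ω RatFunc.X ≠ 0 := (_root_.map_ne_zero _).2 RatFunc.X_ne_zero
    field_simp
  · intro b
    obtain ⟨b, rfl⟩ := Ideal.Quotient.mk_surjective b
    change χ (q b) ∈ _
    rw [hχ]
    exact (P.lift y1 hmap b).2

end TameSite
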