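import Pool.Agent.Lib_helper87.Tame.Defs

namespace TameSite

open Polynomial IntermediateField

/-- Facts on the `2`-adic integers. -/
theorem padic_facts : Irreducible (2 : ℤ_[2]) ∧
    CharZero (FractionRing ℤ_[2]) ∧
    CharP (IsLocalRing.ResidueField ℤ_[2]) 2 ∧
    PerfectField (IsLocalRing.ResidueField ℤ_[2]) ∧
    ∀ (L : Type) [Field L] (θ : ℤ_[2] →+* L), θ 2 = 0 → ∀ a, θ a = 0 ∨ θ a = 1 := by
  have e : IsLocalRing.ResidueField ℤ_[2] ≃+* ZMod 2 := PadicInt.residueField
  refine ⟨?_, ?_, ?_, ?_, ?_⟩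
  · exact_mod_cast (PadicInt.prime_p (p := 2)).irreducible
  · exact IsFractionRing.charZero_of_isFractionRing (R := ℤ_[2]) (K := FractionRing ℤ_[2])
  · exact charP_of_injective_ringHom (f := e.symm.toRingHom) e.symm.injective 2
  · have : Finite (IsLocalRing.ResidueField ℤ_[2]) := Finite.of_equiv _ e.symm.toEquiv
    infer_instance
  · intro L _ θ h2 a
    have h1 : a - (PadicInt.toZMod a).val ∈ RingHom.ker (PadicInt.toZMod (p := 2)) := by
      rw [RingHom.mem_ker, map_sub, map_natCast, ZMod.natCast_zmod_val, sub_self]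
    rw [PadicInt.ker_toZMod, PadicInt.maximalIdeal_eq_span_p, Ideal.mem_span_singleton] at h1
    obtain ⟨b, hb⟩ := h1
    have h3 : a = (PadicInt.toZMod a).val + 2 * b := by
      have : ((2 : ℕ) : ℤ_[2]) = 2 := by norm_num
      rw [this] at hb
      linear_combination hb
    have h4 : (PadicInt.toZMod a).val < 2 := ZMod.val_lt _
    have h5 : θ a = ((PadicInt.toZMod a).val : L) := by
      conv_lhs => rw [h3]
      rw [map_add, map_mul, h2, zero_mul, add_zero, map_natCast]
    rw [h5]
    interval_cases (PadicInt.toZMod a).val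
    · left; simp
    · right; simp

end TameSite
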