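import Pool.Agent.Lib_helper87.Tame.StructSheaf
import Pool.Agent.Lib_helper87.Tame.ConstKernel

/-!
# The structure sheaf and its Artin-Schreier endomorphism
-/

namespace TameSite

universe u

open CategoryTheory AlgebraicGeometry Limits Opposite

/-- The structure sheaf for a topology coarser than the étale topology. -/
noncomputable def structureSheaf {X : Scheme.{u}} {J : GrothendieckTopology X.Etale}
    (hJ : J ≤ X.smallEtaleTopology) : Sheaf J AddCommGrpCat.{u + 1} :=
  ⟨structurePresheaf X, (isSheaf_structurePresheaf X).of_le hJ⟩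

/-- The Artin-Schreier endomorphism of the structure sheaf. -/
noncomputable def wp {X : Scheme.{u}} {J : GrothendieckTopology X.Etale}
    (hJ : J ≤ X.smallEtaleTopology) (h2 : (2 : Γ(X, ⊤)) = 0) :
    structureSheaf hJ ⟶ structureSheaf hJ :=
  ⟨artinSchreier X h2⟩

/-- The constant sheaf `ℤ/2` is the kernel of the Artin-Schreier endomorphism. -/
theorem constantSheaf_iso_kernel {X : Scheme.{u}} {J : GrothendieckTopology X.Etale}
    (hJ : J ≤ X.smallEtaleTopology) (hN : nisnevichTopology X ≤ J)
    (h2 : (2 : Γ(X, ⊤)) = 0) :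
    Nonempty ((constantSheaf J AddCommGrpCat.{u + 1}).obj
      (AddCommGrpCat.of (ULift.{u + 1} (ZMod 2))) ≅ kernel (wp hJ h2)) :=
  constantSheaf_iso_kernel_gen ((isSheaf_structurePresheaf X).of_le hJ) h2 hN

end TameSite
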