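import Pool.Agent.Lib_helper87.Tame.Members

/-! Comparison of the topologies, lifts of points to Nisnevich coverings. -/

namespace TameSite

universe u

open CategoryTheory AlgebraicGeometry Limits Opposite

theorem t3_id_left {X : Scheme.{u}} (A : X.Etale) : (𝟙 A : A ⟶ A).left = 𝟙 A.left := rfl

theorem t3_comp_left {X : Scheme.{u}} {A B C : X.Etale} (f : A ⟶ B) (g : B ⟶ C) :
    (f ≫ g).left = f.left ≫ g.left := rfl

/-- lifting field valued points to a fibre product of étale schemes -/
theorem t3_pullback_lift {X : Scheme.{u}} {A B C : X.Etale} (f : A ⟶ C) (g : B ⟶ C)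
    {Z : Scheme.{u}} (a : Z ⟶ A.left) (b : Z ⟶ B.left) (h : a ≫ f.left = b ≫ g.left) :
    ∃ l : Z ⟶ (pullback f g).left,
      l ≫ (pullback.fst f g).left = a ∧ l ≫ (pullback.snd f g).left = b := by
  have hp : IsPullback ((pullback.fst f g).left) ((pullback.snd f g).left) f.left g.left :=
    (IsPullback.of_hasPullback f g).map (Scheme.Etale.forget X ⋙ Over.forget X)
  exact ⟨hp.lift a b h, hp.lift_fst _ _ _, hp.lift_snd _ _ _⟩

theorem t3_pullback_hom_ext {X : Scheme.{u}} {A B C : X.Etale} (f : A ⟶ C) (g : B ⟶ C)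
    {Z : Scheme.{u}} {a b : Z ⟶ (pullback f g).left}
    (h1 : a ≫ (pullback.fst f g).left = b ≫ (pullback.fst f g).left)
    (h2 : a ≫ (pullback.snd f g).left = b ≫ (pullback.snd f g).left) : a = b := by
  have hp : IsPullback ((pullback.fst f g).left) ((pullback.snd f g).left) f.left g.left :=
    (IsPullback.of_hasPullback f g).map (Scheme.Etale.forget X ⋙ Over.forget X)
  exact hp.hom_ext h1 h2

theorem nisnevich_point_lift {X : Scheme.{u}} {F : Type u} [Field F] {V : X.Etale}
    (R : Sieve V) (hR : R ∈ nisnevichTopology X V) (v : Spec (.of F) ⟶ V.left) :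
    ∃ (W : X.Etale) (g : W ⟶ V) (_ : R g) (w : Spec (.of F) ⟶ W.left), w ≫ g.left = v := by
  have hR' : (nisnevichPrecoverage X).Saturate V R := hR
  induction hR' with
  | of U S hS =>
    obtain ⟨⟨u, a⟩, rfl⟩ := (Scheme.SpecToEquivOfField F U.left).symm.surjective v
    obtain ⟨W, g, hg, y, hy, hbij⟩ := mem_nis_iff.1 hS u
    subst hy
    let e : U.left.residueField (g.left y) ≃+* W.left.residueField y :=
      RingEquiv.ofBijective (g.left.residueFieldMap y).hom hbij
    refine ⟨W, g, Sieve.le_generate S _ _ hg,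
      Spec.map (CommRingCat.ofHom (a.hom.comp e.symm.toRingHom)) ≫
        W.left.fromSpecResidueField y, ?_⟩
    rw [Category.assoc, ← Scheme.Hom.SpecMap_residueFieldMap_fromSpecResidueField,
      ← Category.assoc, ← Spec.map_comp]
    change _ = Spec.map a ≫ U.left.fromSpecResidueField (g.left y)
    congr 2
    ext x
    simp only [CommRingCat.hom_comp, RingHom.comp_apply, CommRingCat.hom_ofHom]
    congr 1
    exact e.symm_apply_apply x
  | top U => exact ⟨U, 𝟙 U, trivial, v, by rw [t3_id_left]; exact Category.comp_id _⟩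
  | pullback U S hS Y f ih =>
    obtain ⟨W, g, hg, w, hw⟩ := ih hS (v ≫ f.left)
    obtain ⟨l, hl1, hl2⟩ := t3_pullback_lift g f w v hw
    refine ⟨pullback g f, pullback.snd g f, ?_, l, hl2⟩
    change S (pullback.snd g f ≫ f)
    rw [← pullback.condition]
    exact S.downward_closed hg _
  | transitive U S R hS hR' ih1 ih2 =>
    obtain ⟨W, g, hg, w, hw⟩ := ih1 hS v
    obtain ⟨W', g', hg', w', hw'⟩ := ih2 hg (hR' hg) w
    refine ⟨W', g' ≫ g, hg', w', ?_⟩
    rw [← hw, ← hw', t3_comp_left, Category.assoc]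

/-- An `S`-valuation pulled up along a morphism. -/
theorem t3_isSValuation_comp {V U S : Scheme.{u}} (g : V ⟶ U) (h : U ⟶ S)
    (y : V) (w : ValuationSubring (V.residueField y))
    (H : IsSValuation h (g y) (w.comap (g.residueFieldMap y).hom)) :
    IsSValuation (g ≫ h) y w := by
  obtain ⟨g0, hg0⟩ := H
  let φ := (g.residueFieldMap y).hom
  let j : (w.comap φ) →+* w :=
    { toFun := fun x => ⟨φ x, x.2⟩
      map_one' := by ext; simp
      map_mul' := fun a b => by ext; simp
      map_zero' := by ext; simp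
      map_add' := fun a b => by ext; simp }
  refine ⟨Spec.map (CommRingCat.ofHom j) ≫ g0, ?_⟩
  have h0 : CommRingCat.ofHom j ≫ CommRingCat.ofHom (algebraMap w (V.residueField y)) =
      CommRingCat.ofHom (algebraMap (w.comap φ) (U.residueField (g y))) ≫
        g.residueFieldMap y := rfl
  have h1 : Spec.map (CommRingCat.ofHom (algebraMap w (V.residueField y))) ≫
      Spec.map (CommRingCat.ofHom j) =
      Spec.map (g.residueFieldMap y) ≫
        Spec.map (CommRingCat.ofHom (algebraMap (w.comap φ) (U.residueField (g y)))) :=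
    (Spec.map_comp _ _).symm.trans ((congrArg Spec.map h0).trans (Spec.map_comp _ _))
  have h2 : Spec.map (CommRingCat.ofHom
      (algebraMap (w.comap φ) (U.residueField (g y)))) ≫ g0 =
        U.fromSpecResidueField (g y) ≫ h := hg0
  calc _ = (Spec.map (CommRingCat.ofHom (algebraMap w (V.residueField y))) ≫
      Spec.map (CommRingCat.ofHom j)) ≫ g0 := (Category.assoc _ _ _).symm
    _ = (Spec.map (g.residueFieldMap y) ≫ Spec.map (CommRingCat.ofHom
          (algebraMap (w.comap φ) (U.residueField (g y))))) ≫ g0 := congrArg (· ≫ g0) h1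
    _ = Spec.map (g.residueFieldMap y) ≫ (Spec.map (CommRingCat.ofHom
          (algebraMap (w.comap φ) (U.residueField (g y)))) ≫ g0) := Category.assoc _ _ _
    _ = Spec.map (g.residueFieldMap y) ≫ (U.fromSpecResidueField (g y) ≫ h) :=
          congrArg (Spec.map (g.residueFieldMap y) ≫ ·) h2
    _ = (Spec.map (g.residueFieldMap y) ≫ U.fromSpecResidueField (g y)) ≫ h :=
          (Category.assoc _ _ _).symm
    _ = (V.fromSpecResidueField y ≫ g) ≫ h :=
          congrArg (· ≫ h) (Scheme.Hom.SpecMap_residueFieldMap_fromSpecResidueField g y)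
    _ = _ := Category.assoc _ _ _

/-- An `S`-valuation pulled up along an étale morphism. -/
theorem t3_isSValuation_comap {X S : Scheme.{u}} (f : X ⟶ S) {U V : X.Etale} (g : V ⟶ U)
    (y : V.left) (w : ValuationSubring (V.left.residueField y))
    (h : IsSValuation (U.hom ≫ f) (g.left y) (w.comap (g.left.residueFieldMap y).hom)) :
    IsSValuation (V.hom ≫ f) y w := by
  have h1 := t3_isSValuation_comp g.left (U.hom ≫ f) y w h
  have h2 : g.left ≫ U.hom ≫ f = V.hom ≫ f := by
    rw [← Category.assoc]
    exact congrArg (· ≫ f) (MorphismProperty.Over.w g)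
  rw [h2] at h1
  exact h1

/-- Nisnevich coverings are tame coverings. -/
theorem nisnevich_le_tame {X S : Scheme.{u}} (f : X ⟶ S) :
    nisnevichTopology X ≤ tameTopology f := by
  refine Precoverage.toGrothendieck_mono ?_
  intro U R hR
  replace hR := mem_nis_iff.1 hR
  refine mem_tame_iff.2 ⟨fun u => ?_, fun u v hv => ?_⟩
  · obtain ⟨V, g, hg, y, hy, -⟩ := hR u
    exact ⟨V, g, hg, y, hy⟩
  · obtain ⟨V, g, hg, y, hy, hbij⟩ := hR u
    subst hy
    let e : U.left.residueField (g.left y) ≃+* V.left.residueField y :=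
      RingEquiv.ofBijective (g.left.residueFieldMap y).hom hbij
    let w : ValuationSubring (V.left.residueField y) := v.comap e.symm.toRingHom
    have hw : w.comap (g.left.residueFieldMap y).hom = v := by
      ext x
      rw [ValuationSubring.mem_comap, ValuationSubring.mem_comap]
      have : e.symm.toRingHom ((g.left.residueFieldMap y).hom x) = x := e.symm_apply_apply x
      rw [this]
    refine ⟨V, g, hg, y, w, t3_isSValuation_comap f g y w (hw ▸ hv), congrArg (fun t =>
      (⟨g.left y, t⟩ : Σ u : U.left, ValuationSubring (U.left.residueField u))) hw, ?_⟩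
    intro W hW σ hσ _ z
    obtain ⟨a, rfl⟩ := hbij.2 z
    exact hσ a

/-- Tame coverings are étale coverings. -/
theorem tame_le_etale {X S : Scheme.{u}} (f : X ⟶ S) :
    tameTopology f ≤ X.smallEtaleTopology := by
  refine Precoverage.toGrothendieck_le_iff_le_toPrecoverage.2 ?_
  intro U R hR
  rw [GrothendieckTopology.mem_toPrecoverage_iff]
  obtain ⟨α, T, h, hh⟩ := (Sieve.generate R).exists_eq_ofArrows
  rw [hh, Scheme.ofArrows_mem_smallEtaleTopology_iff]
  ext u
  simp only [Set.mem_iUnion, Set.mem_range, Set.mem_univ, iff_true]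
  obtain ⟨V, g, hg, y, hy⟩ := (mem_tame_iff.1 hR).1 u
  have h1 : (Sieve.generate R) g := Sieve.le_generate R _ _ hg
  rw [hh] at h1
  obtain ⟨Z, a, b, ⟨i⟩, hab⟩ := h1
  refine ⟨i, a.left y, ?_⟩
  rw [← hy, ← hab]
  rfl

end TameSite
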