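import Pool.Agent.Lib_helper87.Tame.ValExt
import Pool.Agent.Lib_helper87.Tame.SiteCompare

/-! Artin-Schreier coverings which are tame. -/

namespace TameSite

universe u

open CategoryTheory AlgebraicGeometry Limits Opposite

section AS

variable {C : CommRingCat.{u}} (h2 : (2 : C) = 0) (a : C)

/-- The standard étale pair of the Artin-Schreier equation. -/
noncomputable def asPair : StandardEtalePair C where
  f := Polynomial.X ^ 2 + Polynomial.X - Polynomial.C a
  monic_f := by monicity!
  g := 1
  cond := by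
    refine ⟨1, 0, 0, ?_⟩
    have h3 : (Polynomial.C (2 : C) : Polynomial C) = 0 := by rw [h2, Polynomial.C_0]
    simp only [Polynomial.derivative_sub, Polynomial.derivative_add, Polynomial.derivative_X_pow,
      Polynomial.derivative_X, Polynomial.derivative_C]
    push_cast
    rw [h3]
    simp

theorem asPair_X : (asPair h2 a).X ^ 2 + (asPair h2 a).X =
    algebraMap C (asPair h2 a).Ring a := by
  have h := (StandardEtalePair.hasMap_X (P := asPair h2 a)).1
  have h3 : (asPair h2 a).f = Polynomial.X ^ 2 + Polynomial.X - Polynomial.C a := rfl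
  rw [h3] at h
  simp only [map_sub, map_add, map_pow, Polynomial.aeval_X, Polynomial.aeval_C] at h
  exact sub_eq_zero.1 h

/-- The étale covering. -/
noncomputable def asMor : Spec (.of (asPair h2 a).Ring) ⟶ Spec C :=
  Spec.map (CommRingCat.ofHom (algebraMap C (asPair h2 a).Ring))

instance : Etale (asMor h2 a) := by
  unfold asMor
  rw [HasRingHomProperty.Spec_iff (P := @Etale)]
  exact RingHom.etale_algebraMap.2 inferInstance

theorem as_lift {Ω : Type u} [Field Ω] (χ : C →+* Ω) (ζ : Ω) (hζ : ζ ^ 2 + ζ = χ a) :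
    ∃ δ : (asPair h2 a).Ring →+* Ω, δ.comp (algebraMap C _) = χ ∧ δ (asPair h2 a).X = ζ := by
  let i : Algebra C Ω := χ.toAlgebra
  have hm : (asPair h2 a).HasMap ζ := by
    constructor
    · change Polynomial.aeval ζ (Polynomial.X ^ 2 + Polynomial.X - Polynomial.C a) = 0
      simp only [map_sub, map_add, map_pow, Polynomial.aeval_X, Polynomial.aeval_C]
      exact sub_eq_zero.2 hζ
    · change IsUnit (Polynomial.aeval ζ (1 : Polynomial C))
      simp
  refine ⟨((asPair h2 a).lift ζ hm : (asPair h2 a).Ring →+* Ω), ?_, ?_⟩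
  · ext c
    exact ((asPair h2 a).lift ζ hm).commutes c
  · exact (asPair h2 a).lift_X ζ hm

theorem as_ext {Ω : Type u} [Field Ω] (δ₁ δ₂ : (asPair h2 a).Ring →+* Ω)
    (h : δ₁.comp (algebraMap C _) = δ₂.comp (algebraMap C _))
    (hX : δ₁ (asPair h2 a).X = δ₂ (asPair h2 a).X) : δ₁ = δ₂ := by
  let i : Algebra C Ω := (δ₁.comp (algebraMap C _)).toAlgebra
  let e₁ : (asPair h2 a).Ring →ₐ[C] Ω := { δ₁ with commutes' := fun c => rfl }
  let e₂ : (asPair h2 a).Ring →ₐ[C] Ω :=
    { δ₂ with commutes' := fun c => (congrArg (fun t => t c) h).symm }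
  have h3 : e₁ = e₂ := StandardEtalePair.hom_ext hX
  ext x
  exact congrArg (fun t => t x) h3

variable {U : Scheme.{u}} (h : U ⟶ Spec C)

theorem as_surj (u : U) : ∃ y : ↑(pullback h (asMor h2 a)),
    (pullback.fst h (asMor h2 a)) y = u := by
  let k := U.residueField u
  let Ω := AlgebraicClosure k
  let χ0 : C ⟶ k := Spec.preimage (U.fromSpecResidueField u ≫ h)
  have hχ0 : Spec.map χ0 = U.fromSpecResidueField u ≫ h := Spec.map_preimage _
  let χ : C →+* Ω := (algebraMap k Ω).comp χ0.hom
  obtain ⟨ζ, hζ⟩ : ∃ ζ : Ω, ζ ^ 2 + ζ = χ a := by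
    obtain ⟨ζ, hζ⟩ := IsAlgClosed.exists_root
      (Polynomial.X ^ 2 + Polynomial.X - Polynomial.C (χ a) : Polynomial Ω) (by
        have : (Polynomial.X ^ 2 + Polynomial.X - Polynomial.C (χ a) : Polynomial Ω).degree = 2 := by
          compute_degree!
        rw [this]
        exact two_ne_zero)
    refine ⟨ζ, ?_⟩
    have h3 : ζ ^ 2 + ζ - χ a = 0 := by simpa [Polynomial.IsRoot] using hζ
    exact sub_eq_zero.1 h3
  obtain ⟨δ, hδ1, hδ2⟩ := as_lift h2 a χ ζ hζ
  let p1 : Spec (.of Ω) ⟶ U :=
    Spec.map (CommRingCat.ofHom (algebraMap k Ω)) ≫ U.fromSpecResidueField u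
  let p2 : Spec (.of Ω) ⟶ Spec (.of (asPair h2 a).Ring) := Spec.map (CommRingCat.ofHom δ)
  have hp : p1 ≫ h = p2 ≫ asMor h2 a := by
    have e1 : p1 ≫ h = Spec.map (χ0 ≫ CommRingCat.ofHom (algebraMap k Ω)) :=
      calc _ = Spec.map (CommRingCat.ofHom (algebraMap k Ω)) ≫ (U.fromSpecResidueField u ≫ h) :=
            Category.assoc _ _ _
        _ = Spec.map (CommRingCat.ofHom (algebraMap k Ω)) ≫ Spec.map χ0 :=
            congrArg (_ ≫ ·) hχ0.symm
        _ = _ := (Spec.map_comp _ _).symm
    have e2 : p2 ≫ asMor h2 a = Spec.map (CommRingCat.ofHom (algebraMap C (asPair h2 a).Ring) ≫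
        CommRingCat.ofHom δ) := (Spec.map_comp _ _).symm
    rw [e1, e2]
    congr 1
    ext c
    exact (congrArg (fun t => t c) hδ1).symm
  let pt : Spec (.of Ω) := (default : PrimeSpectrum Ω)
  refine ⟨(pullback.lift p1 p2 hp) pt, ?_⟩
  rw [← Scheme.Hom.comp_apply, pullback.lift_fst]
  have e3 : p1 pt = U.fromSpecResidueField u
    ((Spec.map (CommRingCat.ofHom (algebraMap k Ω))) pt) := Scheme.Hom.comp_apply _ _ _
  rw [e3]
  exact Scheme.fromSpecResidueField_apply _ _

/-- The ring map from the Artin-Schreier algebra to the residue field. -/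
noncomputable def asδ (y : ↑(pullback h (asMor h2 a))) :
    CommRingCat.of (asPair h2 a).Ring ⟶ (pullback h (asMor h2 a)).residueField y :=
  Spec.preimage ((pullback h (asMor h2 a)).fromSpecResidueField y ≫ pullback.snd h (asMor h2 a))

theorem asδ_map (y : ↑(pullback h (asMor h2 a))) : Spec.map (asδ h2 a h y) =
    (pullback h (asMor h2 a)).fromSpecResidueField y ≫ pullback.snd h (asMor h2 a) :=
  Spec.map_preimage _

/-- The structure map to the residue field. -/
noncomputable def asχ (u : U) : C ⟶ U.residueField u :=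
  Spec.preimage (U.fromSpecResidueField u ≫ h)

theorem asχ_map (u : U) : Spec.map (asχ h u) = U.fromSpecResidueField u ≫ h :=
  Spec.map_preimage _

theorem asδ_comp (y : ↑(pullback h (asMor h2 a))) :
    CommRingCat.ofHom (algebraMap C (asPair h2 a).Ring) ≫ asδ h2 a h y =
      asχ h ((pullback.fst h (asMor h2 a)) y) ≫
        (pullback.fst h (asMor h2 a)).residueFieldMap y := by
  apply Spec.map_injective
  calc _ = Spec.map (asδ h2 a h y) ≫ asMor h2 a := Spec.map_comp _ _
    _ = ((pullback h (asMor h2 a)).fromSpecResidueField y ≫ pullback.snd h (asMor h2 a)) ≫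
        asMor h2 a := congrArg (· ≫ _) (asδ_map h2 a h y)
    _ = (pullback h (asMor h2 a)).fromSpecResidueField y ≫ (pullback.snd h (asMor h2 a) ≫
        asMor h2 a) := Category.assoc _ _ _
    _ = (pullback h (asMor h2 a)).fromSpecResidueField y ≫ (pullback.fst h (asMor h2 a) ≫ h) :=
        congrArg (_ ≫ ·) pullback.condition.symm
    _ = ((pullback h (asMor h2 a)).fromSpecResidueField y ≫ pullback.fst h (asMor h2 a)) ≫ h :=
        (Category.assoc _ _ _).symm
    _ = (Spec.map ((pullback.fst h (asMor h2 a)).residueFieldMap y) ≫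
        U.fromSpecResidueField ((pullback.fst h (asMor h2 a)) y)) ≫ h :=
        congrArg (· ≫ h) (Scheme.Hom.SpecMap_residueFieldMap_fromSpecResidueField _ _).symm
    _ = Spec.map ((pullback.fst h (asMor h2 a)).residueFieldMap y) ≫
        (U.fromSpecResidueField ((pullback.fst h (asMor h2 a)) y) ≫ h) := Category.assoc _ _ _
    _ = Spec.map ((pullback.fst h (asMor h2 a)).residueFieldMap y) ≫
        Spec.map (asχ h ((pullback.fst h (asMor h2 a)) y)) :=
        congrArg (_ ≫ ·) (asχ_map h _).symm
    _ = _ := (Spec.map_comp _ _).symm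

theorem as_hom_ext (y : ↑(pullback h (asMor h2 a))) {Ω : Type u} [Field Ω]
    (α β : (pullback h (asMor h2 a)).residueField y →+* Ω)
    (h1 : ∀ x, α (((pullback.fst h (asMor h2 a)).residueFieldMap y).hom x) =
      β (((pullback.fst h (asMor h2 a)).residueFieldMap y).hom x))
    (h3 : α ((asδ h2 a h y).hom (asPair h2 a).X) = β ((asδ h2 a h y).hom (asPair h2 a).X)) :
    α = β := by
  have e1 : ∀ γ : (pullback h (asMor h2 a)).residueField y →+* Ω,
      (Spec.map (CommRingCat.ofHom γ) ≫ (pullback h (asMor h2 a)).fromSpecResidueField y) ≫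
        pullback.fst h (asMor h2 a) =
      Spec.map ((pullback.fst h (asMor h2 a)).residueFieldMap y ≫ CommRingCat.ofHom γ) ≫
        U.fromSpecResidueField ((pullback.fst h (asMor h2 a)) y) := by
    intro γ
    calc _ = Spec.map (CommRingCat.ofHom γ) ≫ ((pullback h (asMor h2 a)).fromSpecResidueField y ≫
        pullback.fst h (asMor h2 a)) := Category.assoc _ _ _
      _ = Spec.map (CommRingCat.ofHom γ) ≫
          (Spec.map ((pullback.fst h (asMor h2 a)).residueFieldMap y) ≫
            U.fromSpecResidueField ((pullback.fst h (asMor h2 a)) y)) :=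
          congrArg (_ ≫ ·) (Scheme.Hom.SpecMap_residueFieldMap_fromSpecResidueField _ _).symm
      _ = (Spec.map (CommRingCat.ofHom γ) ≫
          Spec.map ((pullback.fst h (asMor h2 a)).residueFieldMap y)) ≫
            U.fromSpecResidueField ((pullback.fst h (asMor h2 a)) y) :=
          (Category.assoc _ _ _).symm
      _ = _ := congrArg (· ≫ _) (Spec.map_comp _ _).symm
  have e2 : ∀ γ : (pullback h (asMor h2 a)).residueField y →+* Ω,
      (Spec.map (CommRingCat.ofHom γ) ≫ (pullback h (asMor h2 a)).fromSpecResidueField y) ≫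
        pullback.snd h (asMor h2 a) =
      Spec.map (asδ h2 a h y ≫ CommRingCat.ofHom γ) := by
    intro γ
    calc _ = Spec.map (CommRingCat.ofHom γ) ≫ ((pullback h (asMor h2 a)).fromSpecResidueField y ≫
        pullback.snd h (asMor h2 a)) := Category.assoc _ _ _
      _ = Spec.map (CommRingCat.ofHom γ) ≫ Spec.map (asδ h2 a h y) :=
          congrArg (_ ≫ ·) (asδ_map h2 a h y).symm
      _ = _ := (Spec.map_comp _ _).symm
  have f1 : (pullback.fst h (asMor h2 a)).residueFieldMap y ≫ CommRingCat.ofHom α =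
      (pullback.fst h (asMor h2 a)).residueFieldMap y ≫ CommRingCat.ofHom β := by
    ext x
    exact h1 x
  have f2 : asδ h2 a h y ≫ CommRingCat.ofHom α = asδ h2 a h y ≫ CommRingCat.ofHom β := by
    have f3 := as_ext h2 a ((asδ h2 a h y ≫ CommRingCat.ofHom α).hom)
      ((asδ h2 a h y ≫ CommRingCat.ofHom β).hom) ?_ h3
    · ext x
      exact congrArg (fun t => t x) f3
    · ext c
      have g1 : (asδ h2 a h y).hom (algebraMap C (asPair h2 a).Ring c) =
          ((pullback.fst h (asMor h2 a)).residueFieldMap y).hom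
            ((asχ h ((pullback.fst h (asMor h2 a)) y)).hom c) :=
        congrArg (fun t => t.hom c) (asδ_comp h2 a h y)
      change α ((asδ h2 a h y).hom (algebraMap C (asPair h2 a).Ring c)) =
        β ((asδ h2 a h y).hom (algebraMap C (asPair h2 a).Ring c))
      rw [g1]
      exact h1 _
  have e3 : Spec.map (CommRingCat.ofHom α) ≫ (pullback h (asMor h2 a)).fromSpecResidueField y =
      Spec.map (CommRingCat.ofHom β) ≫ (pullback h (asMor h2 a)).fromSpecResidueField y := by
    apply pullback.hom_ext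
    · rw [e1 α, e1 β, f1]
    · rw [e2 α, e2 β, f2]
  have e4 := (cancel_mono _).1 e3
  have e5 := Spec.map_injective e4
  exact congrArg (fun t => t.hom) e5

theorem as_root (y : ↑(pullback h (asMor h2 a))) :
    ((asδ h2 a h y).hom (asPair h2 a).X) ^ 2 + (asδ h2 a h y).hom (asPair h2 a).X =
      ((pullback.fst h (asMor h2 a)).residueFieldMap y).hom
            ((asχ h ((pullback.fst h (asMor h2 a)) y)).hom a) := by
  have g1 : (asδ h2 a h y).hom (algebraMap C (asPair h2 a).Ring a) =
          ((pullback.fst h (asMor h2 a)).residueFieldMap y).hom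
            ((asχ h ((pullback.fst h (asMor h2 a)) y)).hom a) :=
        congrArg (fun t => t.hom a) (asδ_comp h2 a h y)
  rw [← g1, ← asPair_X, map_add, map_pow]

end AS

/-- Field part: a wild automorphism fixes the roots of `z ^ 2 + z = a` if `a` is integral modulo
`q ^ 2 + q`. -/
theorem as_wild {k L Ω : Type*} [Field k] [Field L] [Field Ω] (h2 : (2 : Ω) = 0) (φ : k →+* L)
    (ι : L →+* Ω) (W : ValuationSubring Ω) (σ : Ω ≃+* Ω) (hσ : ∀ x, σ (ι (φ x)) = ι (φ x))
    (hW : Wild W σ) (b q : k) (ζ : L) (hζ : ζ ^ 2 + ζ = φ b) (hq : ι (φ (b + q ^ 2 + q)) ∈ W) :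
    σ (ι ζ) = ι ζ := by
  set z : Ω := ι ζ + ι (φ q) with hz
  have hz2 : z ^ 2 + z = ι (φ (b + q ^ 2 + q)) := by
    have h1 : ι ζ ^ 2 + ι ζ = ι (φ b) := by rw [← hζ]; simp
    simp only [map_add, map_pow, ← h1, hz]
    linear_combination (ι ζ * ι (φ q)) * h2
  have hzW : z ∈ W := by
    by_contra hcon
    have h1 : 1 < W.valuation z := by
      rw [← not_le, W.valuation_le_one_iff]; exact hcon
    have h3 : W.valuation (z ^ 2 + z) ≤ 1 := by
      rw [W.valuation_le_one_iff, hz2]; exact hq
    have hz0 : z ≠ 0 := by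
      intro h0; rw [h0] at hcon; exact hcon W.zero_mem
    have h4 : z ^ 2 + z = z * (z + 1) := by ring
    have h5 : W.valuation (z + 1) = W.valuation z := by
      apply Valuation.map_add_eq_of_lt_left
      rw [map_one]; exact h1
    rw [h4, map_mul, h5] at h3
    exact absurd h3 (not_le.2 (one_lt_mul'' h1 h1))
  have hσz : σ (z ^ 2 + z) = z ^ 2 + z := by rw [hz2]; exact hσ _
  have h6 : (σ z - z) * (σ z + z + 1) = 0 := by
    rw [map_add, map_pow] at hσz
    linear_combination hσz
  have h7 : σ z = z := by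
    rcases mul_eq_zero.1 h6 with h8 | h8
    · exact sub_eq_zero.1 h8
    · exfalso
      have h9 : σ z = z + 1 := by linear_combination h8 - (z + 1) * h2
      have hz0 : z ≠ 0 := by
        intro h0
        rw [h0, map_zero, zero_add] at h9
        exact zero_ne_one h9
      have h10 := hW z hz0
      have h11 : σ z / z - 1 = z⁻¹ := by
        rw [h9]; field_simp; ring
      rw [h11, map_inv₀] at h10
      have h12 : W.valuation z ≤ 1 := (W.valuation_le_one_iff z).2 hzW
      have h13 : 0 < W.valuation z := by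
        rw [zero_lt_iff]; exact (Valuation.ne_zero_iff _).2 hz0
      have h14 : 1 ≤ (W.valuation z)⁻¹ := (one_le_inv₀ h13).2 h12
      exact absurd h10 (not_lt.2 h14)
  have h15 : σ (ι ζ) + σ (ι (φ q)) = ι ζ + ι (φ q) := by
    rw [← map_add]; exact h7
  rw [hσ q] at h15
  exact add_right_cancel h15

theorem as_tame {C : CommRingCat.{u}} (h2 : (2 : C) = 0) (a : C) {U : Scheme.{u}}
    (h : U ⟶ Spec C) (y : ↑(pullback h (asMor h2 a)))
    (w : ValuationSubring ((pullback h (asMor h2 a)).residueField y))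
    (q : U.residueField ((pullback.fst h (asMor h2 a)) y))
    (hq : (asχ h ((pullback.fst h (asMor h2 a)) y)).hom a + q ^ 2 + q ∈
      w.comap ((pullback.fst h (asMor h2 a)).residueFieldMap y).hom) :
    IsTamelyRamified ((pullback.fst h (asMor h2 a)).residueFieldMap y).hom w := by
  intro W hW σ hσ hwild
  let ψ : C →+* SeparableClosure ((pullback h (asMor h2 a)).residueField y) :=
    ((algebraMap _ (SeparableClosure ((pullback h (asMor h2 a)).residueField y))).comp
      ((pullback.fst h (asMor h2 a)).residueFieldMap y).hom).comp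
        (asχ h ((pullback.fst h (asMor h2 a)) y)).hom
  have hΩ2 : (2 : SeparableClosure ((pullback h (asMor h2 a)).residueField y)) = 0 := by
    have h3 := congrArg ψ h2
    rwa [map_ofNat, map_zero] at h3
  have key := as_wild hΩ2 ((pullback.fst h (asMor h2 a)).residueFieldMap y).hom
    (algebraMap _ (SeparableClosure ((pullback h (asMor h2 a)).residueField y))) W σ
    hσ hwild ((asχ h ((pullback.fst h (asMor h2 a)) y)).hom a) q
    ((asδ h2 a h y).hom (asPair h2 a).X) (as_root h2 a h y) (by
      rw [← hW] at hq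
      exact hq)
  intro z
  have h5 := as_hom_ext h2 a h y
    ((σ : SeparableClosure ((pullback h (asMor h2 a)).residueField y) →+* _).comp
      (algebraMap _ (SeparableClosure ((pullback h (asMor h2 a)).residueField y))))
    (algebraMap _ (SeparableClosure ((pullback h (asMor h2 a)).residueField y)))
    hσ key
  exact congrArg (fun t => t z) h5

/-- The covering object. -/
noncomputable def asObj {C : CommRingCat.{u}} (h2 : (2 : C) = 0) (a : C) (U : (Spec C).Etale) :
    (Spec C).Etale :=
  MorphismProperty.Over.mk ⊤ (pullback.fst U.hom (asMor h2 a) ≫ U.hom)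
    (by
      have : Etale U.hom := U.prop
      exact inferInstanceAs (Etale (pullback.fst U.hom (asMor h2 a) ≫ U.hom)))

/-- The covering morphism. -/
noncomputable def asCov {C : CommRingCat.{u}} (h2 : (2 : C) = 0) (a : C) (U : (Spec C).Etale) :
    asObj h2 a U ⟶ U :=
  MorphismProperty.Over.homMk (pullback.fst U.hom (asMor h2 a)) rfl trivial

/-- The covering sieve. -/
def asSieve {C : CommRingCat.{u}} (a : C) (U : (Spec C).Etale) : Sieve U where
  arrows V _ := ∃ z : Γ(V.left, ⊤), z ^ 2 + z = V.hom.appTop ((Scheme.ΓSpecIso C).inv a)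
  downward_closed := by
    rintro V W g ⟨z, hz⟩ h
    refine ⟨h.left.appTop z, ?_⟩
    have h1 : W.hom = h.left ≫ V.hom := (MorphismProperty.Over.w h).symm
    have h3 : W.hom.appTop ((Scheme.ΓSpecIso C).inv a) =
        h.left.appTop (V.hom.appTop ((Scheme.ΓSpecIso C).inv a)) := by
      rw [h1]; rfl
    rw [h3, ← hz, map_add, map_pow]

theorem asSieve_asCov {C : CommRingCat.{u}} (h2 : (2 : C) = 0) (a : C) (U : (Spec C).Etale) :
    asSieve a U (asCov h2 a U) := by
  refine ⟨(pullback.snd U.hom (asMor h2 a)).appTop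
    ((Scheme.ΓSpecIso (.of (asPair h2 a).Ring)).inv (asPair h2 a).X), ?_⟩
  have h1 : (asObj h2 a U).hom = pullback.snd U.hom (asMor h2 a) ≫ asMor h2 a :=
    pullback.condition
  have h3 : (asObj h2 a U).hom.appTop ((Scheme.ΓSpecIso C).inv a) =
      (pullback.snd U.hom (asMor h2 a)).appTop
        ((asMor h2 a).appTop ((Scheme.ΓSpecIso C).inv a)) := by
    rw [h1]; rfl
  have h4 : (asMor h2 a).appTop ((Scheme.ΓSpecIso C).inv a) =
      (Scheme.ΓSpecIso (.of (asPair h2 a).Ring)).inv (algebraMap C (asPair h2 a).Ring a) := by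
    have h5 := Scheme.ΓSpecIso_inv_naturality
      (CommRingCat.ofHom (algebraMap C (asPair h2 a).Ring))
    exact (congrArg (fun t => t.hom a) h5).symm
  rw [h3, h4, ← asPair_X]
  change _ = (pullback.snd U.hom (asMor h2 a)).appTop
        ((Scheme.ΓSpecIso (.of (asPair h2 a).Ring)).inv _)
  rw [map_add, map_pow, map_add, map_pow]
  rfl

/-- The étale covering `z ^ 2 + z = a` is a tame covering if `a` is, for every valuation
ring, integral modulo the elements `q ^ 2 + q`. -/
theorem cover_tame {C : CommRingCat.{u}} {S : Scheme.{u}} (f : Spec C ⟶ S)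
    (h2 : (2 : C) = 0) (a : C)
    (ha : ∀ (L : Type u) [Field L] (χ : C →+* L) (v : ValuationSubring L),
      ∃ q : L, χ a + q ^ 2 + q ∈ v) (U : (Spec C).Etale) :
    ∃ T ∈ tameTopology f U, ∀ ⦃V : (Spec C).Etale⦄ (g : V ⟶ U), T g →
      ∃ z : Γ(V.left, ⊤), z ^ 2 + z = V.hom.appTop ((Scheme.ΓSpecIso C).inv a) := by
  refine ⟨asSieve a U, ?_, fun V g hg => hg⟩
  rw [← Sieve.generate_sieve (asSieve a U)]
  refine Precoverage.generate_mem_toGrothendieck ?_
  refine mem_tame_iff.2 ⟨fun u => ?_, fun u v hv => ?_⟩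
  · obtain ⟨y, hy⟩ := as_surj h2 a U.hom u
    exact ⟨asObj h2 a U, asCov h2 a U, asSieve_asCov h2 a U, y, hy⟩
  · obtain ⟨y, rfl⟩ := as_surj h2 a U.hom u
    obtain ⟨w, hw⟩ := exists_extension ((pullback.fst U.hom (asMor h2 a)).residueFieldMap y).hom v
    refine ⟨asObj h2 a U, asCov h2 a U, asSieve_asCov h2 a U, y, w, ?_, ?_, ?_⟩
    · exact t3_isSValuation_comap f (asCov h2 a U) y w (hw ▸ hv)
    · exact congrArg (Sigma.mk _) hw
    · obtain ⟨q, hq⟩ := ha (U.left.residueField ((pullback.fst U.hom (asMor h2 a)) y))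
        (asχ U.hom ((pullback.fst U.hom (asMor h2 a)) y)).hom v
      rw [← hw] at hq
      exact as_tame h2 a U.hom y w q hq

end TameSite
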