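import Pool.Agent.Lib_helper87.Tame.ValExt
import Pool.Agent.Lib_helper87.Tame.SiteCompare

/-! Lifts of geometric points to tame coverings. -/

namespace TameSite

universe u

open CategoryTheory AlgebraicGeometry Limits Opposite

/-- Descent of `Spec W → S` to a subfield. -/
theorem t4_descend {S : Scheme.{u}} {k Ω : Type u} [Field k] [Field Ω] (a : k →+* Ω)
    (W : ValuationSubring Ω) (g0 : Spec (.of W) ⟶ S) (p : Spec (.of k) ⟶ S)
    (h : Spec.map (CommRingCat.ofHom a) ≫ p =
      Spec.map (CommRingCat.ofHom (algebraMap W Ω)) ≫ g0) :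
    ∃ g : Spec (.of (W.comap a)) ⟶ S,
      Spec.map (CommRingCat.ofHom (algebraMap (W.comap a) k)) ≫ g = p := by
  let c : Spec (.of W) := IsLocalRing.closedPoint W
  obtain ⟨R, j, hj, hcj, -⟩ :=
    Scheme.exists_affine_mem_range_and_range_subset (X := S) (x := g0 c) (U := ⊤) (by simp)
  have hopen : IsOpen (Set.range j) := j.isOpenEmbedding.isOpen_range
  have hr0 : Set.range g0 ⊆ Set.range j := by
    rintro _ ⟨x, rfl⟩
    have h1 : x ⤳ c := IsLocalRing.specializes_closedPoint (R := W) x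
    have h2 : g0 x ⤳ g0 c := h1.map g0.continuous
    exact h2.mem_open hopen hcj
  have hr1 : Set.range p ⊆ Set.range j := by
    rintro _ ⟨x, rfl⟩
    let z : Spec (.of Ω) := (default : PrimeSpectrum Ω)
    have h1 : (Spec.map (CommRingCat.ofHom a)) z = x := by
      have : Subsingleton (Spec (.of k)) := inferInstanceAs (Subsingleton (PrimeSpectrum k))
      exact Subsingleton.elim _ _
    rw [← h1, ← Scheme.Hom.comp_apply, h, Scheme.Hom.comp_apply]
    exact hr0 ⟨_, rfl⟩
  obtain ⟨α, hα⟩ : ∃ α : R ⟶ .of W, Spec.map α ≫ j = g0 := by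
    refine ⟨Spec.preimage (IsOpenImmersion.lift j g0 hr0), ?_⟩
    rw [Spec.map_preimage, IsOpenImmersion.lift_fac]
  obtain ⟨β, hβ⟩ : ∃ β : R ⟶ .of k, Spec.map β ≫ j = p := by
    refine ⟨Spec.preimage (IsOpenImmersion.lift j p hr1), ?_⟩
    rw [Spec.map_preimage, IsOpenImmersion.lift_fac]
  have hab : β ≫ CommRingCat.ofHom a = α ≫ CommRingCat.ofHom (algebraMap W Ω) := by
    apply Spec.map_injective
    rw [← cancel_mono j, Spec.map_comp, Spec.map_comp, Category.assoc, Category.assoc, hα, hβ, h]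
  have hab' : ∀ r : R, a (β.hom r) = ((α.hom r : W) : Ω) := fun r =>
    congrArg (fun t => t.hom r) hab
  let γ : R →+* W.comap a :=
    { toFun := fun r => ⟨β.hom r, by
        rw [ValuationSubring.mem_comap, hab' r]; exact (α.hom r : W).2⟩
      map_one' := by ext; simp
      map_mul' := fun x y => by ext; simp
      map_zero' := by ext; simp
      map_add' := fun x y => by ext; simp }
  refine ⟨Spec.map (CommRingCat.ofHom γ) ≫ j, ?_⟩
  rw [← Category.assoc, ← Spec.map_comp, ← hβ]
  rfl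

theorem t4_core {U V : Scheme.{u}} {Ω : Type u} [Field Ω] [IsSepClosed Ω] (g : V ⟶ U)
    [Etale g] (y : V) (a : U.residueField (g y) →+* Ω)
    (hsep : letI := a.toAlgebra; Algebra.IsSeparable (U.residueField (g y)) Ω)
    (W₀ : ValuationSubring Ω) (w : ValuationSubring (V.residueField y))
    (hw : W₀.comap a = w.comap (g.residueFieldMap y).hom)
    (htame : IsTamelyRamified (g.residueFieldMap y).hom w) :
    ∃ ψ' : Spec (.of Ω) ⟶ V,
      ψ' ≫ g = Spec.map (CommRingCat.ofHom a) ≫ U.fromSpecResidueField (g y) ∧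
      ∀ σ : Ω ≃+* Ω, Spec.map (CommRingCat.ofHom (σ : Ω →+* Ω)) ≫
          (Spec.map (CommRingCat.ofHom a) ≫ U.fromSpecResidueField (g y)) =
          Spec.map (CommRingCat.ofHom a) ≫ U.fromSpecResidueField (g y) → Wild W₀ σ →
        Spec.map (CommRingCat.ofHom (σ : Ω →+* Ω)) ≫ ψ' = ψ' := by
  let φ : U.residueField (g y) →+* V.residueField y := (g.residueFieldMap y).hom
  let i1 : Algebra (U.residueField (g y)) (V.residueField y) := φ.toAlgebra
  let i2 : Algebra (U.residueField (g y)) Ω := a.toAlgebra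
  have i3 : Algebra.IsSeparable (U.residueField (g y)) (V.residueField y) :=
    inferInstanceAs (letI := (g.residueFieldMap y).hom.toAlgebra
      Algebra.IsSeparable (U.residueField (g.base y)) (V.residueField y))
  have i4 : Algebra.IsSeparable (U.residueField (g y)) Ω := hsep
  obtain ⟨ψ, hψ1, hψ2⟩ := tame_lift (K := U.residueField (g y)) (L := V.residueField y)
    (Ω := Ω) w htame W₀ hw
  have hcomp : ∀ x, ψ (φ x) = a x := fun x => ψ.commutes x
  have h1 : g.residueFieldMap y ≫ CommRingCat.ofHom (ψ : V.residueField y →+* Ω) =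
      CommRingCat.ofHom a := by
    ext x
    exact hcomp x
  refine ⟨Spec.map (CommRingCat.ofHom (ψ : V.residueField y →+* Ω)) ≫
    V.fromSpecResidueField y, ?_, ?_⟩
  · calc _ = Spec.map (CommRingCat.ofHom (ψ : V.residueField y →+* Ω)) ≫
        (V.fromSpecResidueField y ≫ g) := Category.assoc _ _ _
      _ = Spec.map (CommRingCat.ofHom (ψ : V.residueField y →+* Ω)) ≫
        (Spec.map (g.residueFieldMap y) ≫ U.fromSpecResidueField (g y)) :=
          congrArg (_ ≫ ·) (Scheme.Hom.SpecMap_residueFieldMap_fromSpecResidueField g y).symm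
      _ = (Spec.map (CommRingCat.ofHom (ψ : V.residueField y →+* Ω)) ≫
        Spec.map (g.residueFieldMap y)) ≫ U.fromSpecResidueField (g y) :=
          (Category.assoc _ _ _).symm
      _ = Spec.map (g.residueFieldMap y ≫ CommRingCat.ofHom (ψ : V.residueField y →+* Ω)) ≫
          U.fromSpecResidueField (g y) := congrArg (· ≫ _) (Spec.map_comp _ _).symm
      _ = _ := by rw [h1]
  · intro σ hσ hwild
    have h2 : CommRingCat.ofHom a ≫ CommRingCat.ofHom (σ : Ω →+* Ω) = CommRingCat.ofHom a := by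
      apply Spec.map_injective
      rw [← cancel_mono (U.fromSpecResidueField (g y)), Spec.map_comp, Category.assoc]
      exact hσ
    have h3 : ∀ x, σ (a x) = a x := fun x => congrArg (fun t => t.hom x) h2
    let σ' : Ω ≃ₐ[U.residueField (g y)] Ω := AlgEquiv.ofRingEquiv (f := σ) h3
    have h4 : ∀ z, σ (ψ z) = ψ z := fun z => hψ2 σ' hwild z
    have h5 : CommRingCat.ofHom (ψ : V.residueField y →+* Ω) ≫
        CommRingCat.ofHom (σ : Ω →+* Ω) =
        CommRingCat.ofHom (ψ : V.residueField y →+* Ω) := by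
      ext z
      exact h4 z
    calc _ = (Spec.map (CommRingCat.ofHom (σ : Ω →+* Ω)) ≫
        Spec.map (CommRingCat.ofHom (ψ : V.residueField y →+* Ω))) ≫
          V.fromSpecResidueField y := (Category.assoc _ _ _).symm
      _ = Spec.map (CommRingCat.ofHom (ψ : V.residueField y →+* Ω) ≫
        CommRingCat.ofHom (σ : Ω →+* Ω)) ≫ V.fromSpecResidueField y :=
          congrArg (· ≫ _) (Spec.map_comp _ _).symm
      _ = _ := by rw [h5]

theorem t4_sep {U X : Scheme.{u}} {Ω : Type u} [Field Ω] (h : U ⟶ X) (u : U)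
    (a : U.residueField u →+* Ω)
    (hs : ∀ (x : X) (b : X.residueField x →+* Ω),
      Spec.map (CommRingCat.ofHom b) ≫ X.fromSpecResidueField x =
        (Spec.map (CommRingCat.ofHom a) ≫ U.fromSpecResidueField u) ≫ h →
        ∀ y : Ω, letI := b.toAlgebra; IsSeparable (X.residueField x) y) :
    letI := a.toAlgebra; Algebra.IsSeparable (U.residueField u) Ω := by
  let i1 : Algebra (U.residueField u) Ω := a.toAlgebra
  let c : X.residueField (h u) →+* Ω := a.comp (h.residueFieldMap u).hom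
  have h1 : Spec.map (CommRingCat.ofHom c) ≫ X.fromSpecResidueField (h u) =
        (Spec.map (CommRingCat.ofHom a) ≫ U.fromSpecResidueField u) ≫ h := by
    calc _ = Spec.map (h.residueFieldMap u ≫ CommRingCat.ofHom a) ≫
          X.fromSpecResidueField (h u) := rfl
      _ = (Spec.map (CommRingCat.ofHom a) ≫ Spec.map (h.residueFieldMap u)) ≫
          X.fromSpecResidueField (h u) := congrArg (· ≫ _) (Spec.map_comp _ _)
      _ = Spec.map (CommRingCat.ofHom a) ≫ (Spec.map (h.residueFieldMap u) ≫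
          X.fromSpecResidueField (h u)) := Category.assoc _ _ _
      _ = Spec.map (CommRingCat.ofHom a) ≫ (U.fromSpecResidueField u ≫ h) :=
          congrArg (_ ≫ ·) (Scheme.Hom.SpecMap_residueFieldMap_fromSpecResidueField h u)
      _ = _ := (Category.assoc _ _ _).symm
  refine ⟨fun z => ?_⟩
  have h2 := hs (h u) c h1 z
  let i2 : Algebra (X.residueField (h u)) Ω := c.toAlgebra
  let i3 : Algebra (X.residueField (h u)) (U.residueField u) := (h.residueFieldMap u).hom.toAlgebra
  have i4 : IsScalarTower (X.residueField (h u)) (U.residueField u) Ω :=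
    IsScalarTower.of_algebraMap_eq (fun x => rfl)
  exact IsSeparable.tower_top (F := X.residueField (h u)) (L := U.residueField u) h2

/-- Geometric points with a valuation lift to tame coverings, the lift being fixed by
the ramification group. -/
theorem tame_point_lift {X S : Scheme.{u}} (f : X ⟶ S) {Ω : Type u} [Field Ω]
    [IsSepClosed Ω]
    (W₀ : ValuationSubring Ω) (s : Spec (.of Ω) ⟶ X)
    (hs : ∀ (x : X) (a : X.residueField x →+* Ω),
      Spec.map (CommRingCat.ofHom a) ≫ X.fromSpecResidueField x = s →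
        ∀ y : Ω, letI := a.toAlgebra; IsSeparable (X.residueField x) y)
    (hval : ∃ g : Spec (.of W₀) ⟶ S,
      Spec.map (CommRingCat.ofHom (algebraMap W₀ Ω)) ≫ g = s ≫ f)
    {V : X.Etale} (T : Sieve V) (hT : T ∈ tameTopology f V) (v₀ : Spec (.of Ω) ⟶ V.left)
    (hv₀ : v₀ ≫ V.hom = s) :
    ∃ (W : X.Etale) (g : W ⟶ V) (_ : T g) (ψ : Spec (.of Ω) ⟶ W.left), ψ ≫ g.left = v₀ ∧
      ∀ σ : Ω ≃+* Ω, Spec.map (CommRingCat.ofHom (σ : Ω →+* Ω)) ≫ v₀ = v₀ → Wild W₀ σ →
        Spec.map (CommRingCat.ofHom (σ : Ω →+* Ω)) ≫ ψ = ψ := by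
  obtain ⟨g0, hg0⟩ := hval
  have hT' : (tamePrecoverage f).Saturate V T := hT
  induction hT' with
  | of U R hR =>
    obtain ⟨⟨u, a⟩, rfl⟩ := (Scheme.SpecToEquivOfField Ω U.left).symm.surjective v₀
    have hψ : (Scheme.SpecToEquivOfField Ω U.left).symm ⟨u, a⟩ =
      Spec.map (CommRingCat.ofHom a.hom) ≫ U.left.fromSpecResidueField u := rfl
    rw [hψ] at hv₀ ⊢
    have hv : IsSValuation (U.hom ≫ f) u (W₀.comap a.hom) := by
      refine t4_descend (S := S) a.hom W₀ g0 (U.left.fromSpecResidueField u ≫ (U.hom ≫ f)) ?_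
      rw [hg0, ← hv₀]
      exact (Category.assoc _ _ _).symm.trans (Category.assoc _ _ _).symm
    obtain ⟨W, g, hg, y, w, hw1, hw2, hw3⟩ := (mem_tame_iff.1 hR).2 u (W₀.comap a.hom) hv
    obtain ⟨rfl, hw4⟩ := Sigma.mk.inj_iff.1 hw2
    have hw5 := eq_of_heq hw4
    have hsep := t4_sep U.hom (g.left y) a.hom (fun x b hb => hs x b (hb.trans hv₀))
    have hge : Etale g.left := by
      have h1 : g.left ≫ U.hom = W.hom := MorphismProperty.Over.w g
      have h2 : Etale (g.left ≫ U.hom) := by rw [h1]; exact W.prop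
      have h3 : Etale U.hom := U.prop
      exact Etale.of_comp g.left U.hom
    obtain ⟨ψ', h1, h2⟩ := t4_core g.left y a.hom hsep W₀ w hw5.symm hw3
    exact ⟨W, g, Sieve.le_generate R _ _ hg, ψ', h1, h2⟩
  | top U => exact ⟨U, 𝟙 U, trivial, v₀, by rw [t3_id_left]; exact Category.comp_id _,
      fun σ hσ _ => hσ⟩
  | pullback U R hR Y h ih =>
    have h1 : (v₀ ≫ h.left) ≫ U.hom = s := by
      rw [← hv₀]
      calc _ = v₀ ≫ (h.left ≫ U.hom) := Category.assoc _ _ _
        _ = _ := congrArg (v₀ ≫ ·) (MorphismProperty.Over.w h)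
    obtain ⟨W, g, hg, w, hw, hσ⟩ := ih hR (v₀ ≫ h.left) h1
    obtain ⟨l, hl1, hl2⟩ := t3_pullback_lift g h w v₀ hw
    refine ⟨pullback g h, pullback.snd g h, ?_, l, hl2, ?_⟩
    · change R (pullback.snd g h ≫ h)
      rw [← pullback.condition]
      exact R.downward_closed hg _
    · intro σ h2 h3
      have h4 := hσ σ (by rw [← Category.assoc, h2]) h3
      refine t3_pullback_hom_ext g h ?_ ?_
      · rw [Category.assoc, hl1, h4]
      · rw [Category.assoc, hl2, h2]
  | transitive U R R' hR hR' ih1 ih2 =>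
    obtain ⟨W, g, hg, w, hw, hσ⟩ := ih1 hR v₀ hv₀
    have h1 : w ≫ W.hom = s := by
      rw [← hv₀, ← hw]
      calc _ = w ≫ (g.left ≫ U.hom) := congrArg (w ≫ ·) (MorphismProperty.Over.w g).symm
        _ = _ := (Category.assoc _ _ _).symm
    obtain ⟨W', g', hg', w', hw', hσ'⟩ := ih2 hg (hR' hg) w h1
    refine ⟨W', g' ≫ g, hg', w', ?_, ?_⟩
    · rw [← hw, ← hw', t3_comp_left, Category.assoc]
    · intro σ h2 h3
      exact hσ' σ (hσ σ h2 h3) h3

end TameSite
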