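import Pool.Agent.Lib_helper87.Tame.OpenStab
import Pool.Agent.Lib_helper87.Tame.GaloisLemma
import Pool.Agent.Lib_helper87.Tame.E3
import Pool.Agent.Lib_helper87.Tame.SitePoint
import Pool.Agent.Lib_helper87.Tame.SiteCover
import Pool.Agent.Lib_helper87.Tame.SheafWp
import Pool.Agent.Lib_helper87.Tame.Cech
import Pool.Agent.Lib_helper87.Tame.Ring1
import Pool.Agent.Lib_helper87.Tame.Ring2

/-!
# Assembly: the second direct image is not zero
-/

namespace TameSite

open CategoryTheory AlgebraicGeometry Limits Opposite IntermediateField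

/-- A wild automorphism fixes the roots of `w ^ 4 = w`. -/
lemma Wild.fix_four {Ω : Type*} [Field Ω] [CharP Ω 2] {W : ValuationSubring Ω} {σ : Ω ≃+* Ω}
    (hσ : Wild W σ) {w : Ω} (hw : w ^ 4 = w) : σ w = w := by
  by_cases hw0 : w = 0
  · rw [hw0, map_zero]
  have h3 : w ^ 3 = 1 := by
    apply mul_left_cancel₀ hw0
    rw [mul_one, ← pow_succ']
    exact hw
  have hm := hσ w hw0
  set m := σ w / w - 1 with hmdef
  have hm3 : (1 + m) ^ 3 = 1 := by
    rw [hmdef, add_sub_cancel, div_pow, ← map_pow, h3, map_one, div_one]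
  have h2 : (2 : Ω) = 0 := CharTwo.two_eq_zero
  have hprod : m * (1 + (m + m ^ 2)) = 0 := by
    linear_combination hm3 - (m ^ 2 + m) * h2
  rcases mul_eq_zero.1 hprod with h | h
  · rw [hmdef, sub_eq_zero, div_eq_one_iff_eq hw0] at h
    exact h
  · exfalso
    have h1 : W.valuation (m + m ^ 2) < 1 := by
      refine lt_of_le_of_lt (W.valuation.map_add _ _) (max_lt hm ?_)
      rw [map_pow]
      exact pow_lt_one₀ zero_le hm two_ne_zero
    have h4 : m + m ^ 2 = -1 := by linear_combination h
    rw [h4, Valuation.map_neg, map_one] at h1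
    exact lt_irrefl _ h1

/-- A subfield of `Ω` containing the image of `X` contains the image of `RatFunc (ZMod 2)`. -/
lemma exists_lift_ratFunc {Ω l : Type*} [Field Ω] [Field l] [Algebra (RatFunc (ZMod 2)) Ω]
    (a : l →+* Ω) (h : algebraMap (RatFunc (ZMod 2)) Ω RatFunc.X ∈ a.fieldRange)
    (r : RatFunc (ZMod 2)) : algebraMap (RatFunc (ZMod 2)) Ω r ∈ a.fieldRange := by
  have hp : ∀ p : Polynomial (ZMod 2), algebraMap (RatFunc (ZMod 2)) Ω (algebraMap _ _ p) ∈
      a.fieldRange := by
    intro p
    induction p using Polynomial.induction_on' with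
    | add p q hp hq => rw [map_add, map_add]; exact add_mem hp hq
    | monomial n c =>
      rw [← Polynomial.C_mul_X_pow_eq_monomial, map_mul, map_mul, map_pow, map_pow,
        RatFunc.algebraMap_X]
      refine mul_mem ?_ (pow_mem h n)
      have hc : ∀ c : ZMod 2, c = 0 ∨ c = 1 := by decide
      rcases hc c with rfl | rfl
      · rw [map_zero, map_zero, map_zero]
        exact zero_mem _
      · rw [map_one, map_one, map_one]
        exact one_mem _
  rw [← RatFunc.num_div_denom r, map_div₀]
  exact div_mem (hp _) (hp _)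

lemma isSeparable_of_range {Ω l : Type} [Field Ω] [Field l] [Algebra (RatFunc (ZMod 2)) Ω]
    [Algebra.IsSeparable (RatFunc (ZMod 2)) Ω]
    (a : l →+* Ω) (h : algebraMap (RatFunc (ZMod 2)) Ω RatFunc.X ∈ a.fieldRange) (y : Ω) :
    letI := a.toAlgebra; IsSeparable l y := by
  let := a.toAlgebra
  let j : RatFunc (ZMod 2) →+* l :=
    ((RingEquiv.ofBijective a.rangeRestrict
      ⟨fun u v huv => a.injective (congrArg Subtype.val huv), a.rangeRestrict_surjective⟩).symm :
        _ →+* l).comp ((algebraMap (RatFunc (ZMod 2)) Ω).codRestrict a.range fun r => by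
          exact exists_lift_ratFunc a h r)
  let := j.toAlgebra
  have : IsScalarTower (RatFunc (ZMod 2)) l Ω := by
    refine IsScalarTower.of_algebraMap_eq fun r => ?_
    have : (RingEquiv.ofBijective a.rangeRestrict
      ⟨fun u v huv => a.injective (congrArg Subtype.val huv), a.rangeRestrict_surjective⟩) (j r) =
        (algebraMap (RatFunc (ZMod 2)) Ω).codRestrict a.range (fun r => by
          exact exists_lift_ratFunc a h r) r := RingEquiv.apply_symm_apply _ _
    exact (congrArg Subtype.val this).symm
  exact (Algebra.IsSeparable.isSeparable (RatFunc (ZMod 2)) y).tower_top l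

end TameSite
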