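import Pool.Agent.Lib_helper87.Tame.Core

/-!
# From Čech data to an element fixed by the ramification groups
-/

namespace TameSite

universe u

open CategoryTheory AlgebraicGeometry Limits Opposite IntermediateField

lemma specAut_comp_specMap {κ Ω : Type u} [Field κ] [Field Ω] [Algebra κ Ω] (σ : Ω ≃ₐ[κ] Ω) :
    specAut (σ : Ω ≃+* Ω) ≫ Spec.map (CommRingCat.ofHom (algebraMap κ Ω)) =
      Spec.map (CommRingCat.ofHom (algebraMap κ Ω)) := by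
  rw [← Spec.map_comp]
  congr 1
  ext a
  exact σ.commutes a

theorem exists_of_cech {X S : Scheme.{u}} (f : X ⟶ S) {κ Ω : Type u} [Field κ] [Field Ω]
    [Algebra κ Ω] [IsGalois κ Ω] [IsSepClosed Ω] [CharP κ 2]
    (s₀ : Spec (.of Ω) ⟶ X) (hs : ∀ (x : X) (a : X.residueField x →+* Ω),
      Spec.map (CommRingCat.ofHom a) ≫ X.fromSpecResidueField x = s₀ →
        ∀ y : Ω, letI := a.toAlgebra; IsSeparable (X.residueField x) y)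
    (hval : ∀ (W₀ : ValuationSubring Ω), ∃ g : Spec (.of W₀) ⟶ S,
      Spec.map (CommRingCat.ofHom (algebraMap W₀ Ω)) ≫ g = s₀ ≫ f)
    (h2 : (2 : Γ(X, ⊤)) = 0) (x : κ)
    {V : X.Etale} (T : Sieve V) (hT : T ∈ tameTopology f V) (v₀ : Spec (.of κ) ⟶ V.left)
    (hs₀ : s₀ = (Spec.map (CommRingCat.ofHom (algebraMap κ Ω)) ≫ v₀) ≫ V.hom)
    (xV : Γ(V.left, ⊤)) (hxV : ev v₀ xV = x)
    (z : ∀ ⦃W : X.Etale⦄ (g : W ⟶ V), T g → (structurePresheaf X).obj (op W))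
    (c : ∀ ⦃W₁ W₂ W : X.Etale⦄ (g₁ : W₁ ⟶ V) (_ : T g₁) (g₂ : W₂ ⟶ V) (_ : T g₂)
          (a₁ : W ⟶ W₁) (a₂ : W ⟶ W₂), a₁ ≫ g₁ = a₂ ≫ g₂ → (structurePresheaf X).obj (op W))
    (h1 : ∀ ⦃W : X.Etale⦄ (g : W ⟶ V) (hg : T g), (artinSchreier X h2).app _ (z g hg) =
      ULift.up (g.left.appTop xV))
    (h3 : ∀ ⦃W₁ W₂ W : X.Etale⦄ (g₁ : W₁ ⟶ V) (h₁ : T g₁) (g₂ : W₂ ⟶ V) (h₂ : T g₂)
          (a₁ : W ⟶ W₁) (a₂ : W ⟶ W₂) (e : a₁ ≫ g₁ = a₂ ≫ g₂),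
          (artinSchreier X h2).app _ (c g₁ h₁ g₂ h₂ a₁ a₂ e) =
            (structurePresheaf X).map a₁.op (z g₁ h₁) - (structurePresheaf X).map a₂.op (z g₂ h₂))
    (h4 : ∀ ⦃W₁ W₂ W₃ W : X.Etale⦄ (g₁ : W₁ ⟶ V) (h₁ : T g₁) (g₂ : W₂ ⟶ V) (h₂ : T g₂)
          (g₃ : W₃ ⟶ V) (h₃ : T g₃) (a₁ : W ⟶ W₁) (a₂ : W ⟶ W₂) (a₃ : W ⟶ W₃)
          (e₁₂ : a₁ ≫ g₁ = a₂ ≫ g₂) (e₂₃ : a₂ ≫ g₂ = a₃ ≫ g₃) (e₁₃ : a₁ ≫ g₁ = a₃ ≫ g₃),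
          c g₁ h₁ g₂ h₂ a₁ a₂ e₁₂ + c g₂ h₂ g₃ h₃ a₂ a₃ e₂₃ = c g₁ h₁ g₃ h₃ a₁ a₃ e₁₃)
    (h5 : ∀ ⦃W₁ W₂ W W' : X.Etale⦄ (g₁ : W₁ ⟶ V) (h₁ : T g₁) (g₂ : W₂ ⟶ V) (h₂ : T g₂)
          (a₁ : W ⟶ W₁) (a₂ : W ⟶ W₂) (e : a₁ ≫ g₁ = a₂ ≫ g₂) (b : W' ⟶ W)
          (e' : (b ≫ a₁) ≫ g₁ = (b ≫ a₂) ≫ g₂),
          c g₁ h₁ g₂ h₂ (b ≫ a₁) (b ≫ a₂) e' =
            (structurePresheaf X).map b.op (c g₁ h₁ g₂ h₂ a₁ a₂ e)) :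
    ∃ (y : Ω) (q : κ), y ^ 4 + y = algebraMap κ Ω (x + q ^ 2 + q) ∧
      ∀ (W : ValuationSubring Ω) (σ : Ω ≃ₐ[κ] Ω), Wild W (σ : Ω ≃+* Ω) → σ y = y := by
  let w₀ : Spec (.of Ω) ⟶ V.left := Spec.map (CommRingCat.ofHom (algebraMap κ Ω)) ≫ v₀
  obtain ⟨s, hs'⟩ : ∃ s : Spec (.of Ω) ⟶ X, s = s₀ := ⟨_, rfl⟩
  rw [← hs'] at hs hval hs₀
  have hsσ : ∀ σ : Ω ≃ₐ[κ] Ω, specAut (σ : Ω ≃+* Ω) ≫ s = s := fun σ => by
    rw [hs₀, ← Category.assoc, ← Category.assoc, specAut_comp_specMap]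
  have hwσ : ∀ σ : Ω ≃ₐ[κ] Ω, specAut (σ : Ω ≃+* Ω) ≫ w₀ = w₀ := fun σ => by
    show specAut (σ : Ω ≃+* Ω) ≫ (Spec.map (CommRingCat.ofHom (algebraMap κ Ω)) ≫ v₀) = _
    rw [← Category.assoc, specAut_comp_specMap]
  let v₁ : (Fib s).obj V := Fib.mk w₀ hs₀.symm
  let E : ∀ {W : X.Etale}, (Fib s).obj W → (structurePresheaf X).obj (op W) → Ω :=
    fun φ a => ev (Fib.pt φ) a.down
  have hEadd : ∀ {W : X.Etale} (φ : (Fib s).obj W) (a b : (structurePresheaf X).obj (op W)),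
      E φ (a + b) = E φ a + E φ b := fun φ a b => map_add (ev (Fib.pt φ)) _ _
  have hEmap : ∀ {W W' : X.Etale} (b : W' ⟶ W) (φ : (Fib s).obj W')
      (a : (structurePresheaf X).obj (op W)),
      E φ ((structurePresheaf X).map b.op a) = E ((Fib s).map b φ) a := fun b φ a =>
    ev_comp (Fib.pt φ) b.left a.down
  obtain ⟨c', hc', hc'add⟩ := exists_cocycle (F := Fib s) E hEadd hEmap T v₁ c h4 h5
  let : MulAction (Ω ≃ₐ[κ] Ω) (Pt (Fib s) T v₁) := ptAction hsσ T v₁ hwσ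
  -- the geometric points fixed by the ramification groups
  have hlift : ∀ W₀ : ValuationSubring Ω, ∃ p : Pt (Fib s) T v₁,
      ∀ σ : Ω ≃ₐ[κ] Ω, Wild W₀ (σ : Ω ≃+* Ω) → σ • p = p := by
    intro W₀
    obtain ⟨W, g, hg, ψ, hψ, hfix⟩ := tame_point_lift f W₀ s hs (hval W₀) T hT w₀ hs₀.symm
    have hψs : ψ ≫ W.hom = s := by
      rw [← MorphismProperty.Over.w g, ← Category.assoc, hψ, hs₀]
    refine ⟨⟨W, g, hg, Fib.mk ψ hψs, Fib.ext hψ⟩, fun σ hσ => ?_⟩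
    show Pt.mk W g hg _ _ = Pt.mk W g hg _ _
    congr 1
    apply Fib.ext
    exact hfix (σ : Ω ≃+* Ω) (hwσ σ) hσ
  obtain ⟨p₀, -⟩ := hlift ⊤
  have : Nonempty (Pt (Fib s) T v₁) := ⟨p₀⟩
  have hpt : ∀ (σ : Ω ≃ₐ[κ] Ω) (p : Pt (Fib s) T v₁), ∃ (W : X.Etale) (g : W ⟶ V) (hg : T g)
      (φ : (Fib s).obj W) (h : (Fib s).map g φ = v₁) (h' : _), p = Pt.mk W g hg φ h ∧
      σ • p = Pt.mk W g hg (Fib.mk (specAut (σ : Ω ≃+* Ω) ≫ Fib.pt φ)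
        (by rw [Category.assoc, Fib.pt_hom, hsσ])) h' := fun σ p =>
    ⟨p.W, p.g, p.hg, p.φ, p.h, (σ • p).h, rfl, rfl⟩
  have hz : ∀ p : Pt (Fib s) T v₁, E p.φ (z p.g p.hg) ^ 2 + E p.φ (z p.g p.hg) =
      algebraMap κ Ω x := by
    intro p
    have h := congrArg (fun t => E p.φ t) (h1 p.g p.hg)
    have h' : E p.φ (ULift.up (p.g.left.appTop xV)) = algebraMap κ Ω x := by
      show ev (Fib.pt p.φ) (p.g.left.appTop xV) = _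
      rw [ev_comp, ← Fib.pt_map, p.h]
      show ev w₀ xV = _
      rw [← hxV, ← ev_map]
    rw [← h', ← h]
    show _ = ev (Fib.pt p.φ) ((z p.g p.hg).down ^ 2 + (z p.g p.hg).down)
    rw [map_add, map_pow]
  have hzσ : ∀ (σ : Ω ≃ₐ[κ] Ω) (p : Pt (Fib s) T v₁),
      E (σ • p).φ (z (σ • p).g (σ • p).hg) = σ (E p.φ (z p.g p.hg)) := by
    intro σ p
    exact ev_map ((σ : Ω ≃+* Ω) : Ω →+* Ω) (Fib.pt p.φ) _
  have hc : ∀ a b : Pt (Fib s) T v₁, c' a b ^ 2 + c' a b =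
      E a.φ (z a.g a.hg) - E b.φ (z b.g b.hg) := by
    intro a b
    obtain ⟨W, a₁, a₂, φ, e, k₁, k₂⟩ := exists_common₂ a.g b.g a.φ b.φ (by rw [a.h, b.h])
    rw [hc' a b W a₁ a₂ e φ k₁ k₂]
    have h := congrArg (fun t => E φ t) (h3 a.g a.hg b.g b.hg a₁ a₂ e)
    have hl : E φ ((artinSchreier X h2).app _ (c a.g a.hg b.g b.hg a₁ a₂ e)) =
        E φ (c a.g a.hg b.g b.hg a₁ a₂ e) ^ 2 + E φ (c a.g a.hg b.g b.hg a₁ a₂ e) := by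
      show ev (Fib.pt φ) (_ ^ 2 + _) = _
      rw [map_add, map_pow]
    rw [← hl, ← k₁, ← k₂, ← hEmap, ← hEmap]
    refine h.trans ?_
    exact map_sub (ev (Fib.pt φ)) _ _
  have hcσ : ∀ (σ : Ω ≃ₐ[κ] Ω) (a b : Pt (Fib s) T v₁), c' (σ • a) (σ • b) = σ (c' a b) := by
    intro σ a b
    obtain ⟨W, a₁, a₂, φ, e, k₁, k₂⟩ := exists_common₂ a.g b.g a.φ b.φ (by rw [a.h, b.h])
    rw [hc' a b W a₁ a₂ e φ k₁ k₂]
    have hφσ : (specAut (σ : Ω ≃+* Ω) ≫ Fib.pt φ) ≫ W.hom = s := by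
      rw [Category.assoc, Fib.pt_hom, hsσ]
    have l₁ : (Fib s).map a₁ (Fib.mk (specAut (σ : Ω ≃+* Ω) ≫ Fib.pt φ) hφσ) = (σ • a).φ := by
      apply Fib.ext
      rw [Fib.pt_map, Fib.pt_mk, Category.assoc, ← Fib.pt_map, k₁]
      rfl
    have l₂ : (Fib s).map a₂ (Fib.mk (specAut (σ : Ω ≃+* Ω) ≫ Fib.pt φ) hφσ) = (σ • b).φ := by
      apply Fib.ext
      rw [Fib.pt_map, Fib.pt_mk, Category.assoc, ← Fib.pt_map, k₂]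
      rfl
    have := hc' (σ • a) (σ • b) W a₁ a₂ e (Fib.mk (specAut (σ : Ω ≃+* Ω) ≫ Fib.pt φ) hφσ) l₁ l₂
    rw [this]
    exact ev_map ((σ : Ω ≃+* Ω) : Ω →+* Ω) (Fib.pt φ) _
  have hopen : ∀ a : Pt (Fib s) T v₁, ∃ L : IntermediateField κ Ω, FiniteDimensional κ L ∧
      ∀ σ ∈ L.fixingSubgroup, σ • a = a := by
    intro a
    obtain ⟨L, hL, hfix⟩ := exists_open_stabilizer (Fib.pt a.φ) (v₀ ≫ V.hom)
      ((Fib.pt_hom a.φ).trans (hs₀.trans (Category.assoc _ _ _)))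
    refine ⟨L, hL, fun σ hσ => ?_⟩
    obtain ⟨W, g, hg, φ, h⟩ := a
    show Pt.mk W g hg _ _ = Pt.mk W g hg φ h
    congr 1
    apply Fib.ext
    exact hfix σ hσ
  obtain ⟨y, q, hy, hfix⟩ := galois_lemma hopen x (fun p => E p.φ (z p.g p.hg)) hz hzσ c' hc
    hc'add hcσ
  refine ⟨y, q, hy, fun W σ hσ => ?_⟩
  obtain ⟨p, hp⟩ := hlift W
  have : CharP Ω 2 := charP_of_injective_algebraMap (algebraMap κ Ω).injective 2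
  exact hfix σ p (hp σ hσ) fun w hw => hσ.fix_four hw

end TameSite
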