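import Pool.Agent.Lib_helper87.Tame.Core2

/-!
# The counterexample
-/

namespace TameSite

open CategoryTheory AlgebraicGeometry Limits Opposite IntermediateField

lemma ev_spec {C : CommRingCat.{0}} {Ω : Type} [Field Ω] (χ : C →+* Ω) (c : C) :
    ev (Spec.map (CommRingCat.ofHom χ)) ((Scheme.ΓSpecIso C).inv c) = χ c := by
  have h := congrArg (fun t => t.hom ((Scheme.ΓSpecIso C).inv c))
    (Scheme.ΓSpecIso_naturality (CommRingCat.ofHom χ))
  refine h.trans ?_
  have h' := congrArg (fun t => t.hom c) (Scheme.ΓSpecIso C).inv_hom_id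
  exact congrArg χ h'

/-- The second direct image of the kernel of the Artin-Schreier map is not zero. -/
theorem not_isZero_kernel (h : SeparableClosure (RatFunc (ZMod 2)))
    (hh : h ^ 2 + h = algebraMap (RatFunc (ZMod 2)) _ (RatFunc.X + RatFunc.X⁻¹))
    (C : CommRingCat.{0}) (h2 : (2 : C) = 0) (x x' h' : C)
    (χ : C →+* SeparableClosure (RatFunc (ZMod 2))) (hxx' : x * x' = 1)
    (hh' : h' ^ 2 + h' = x + x') (hχx : χ x = algebraMap (RatFunc (ZMod 2)) _ RatFunc.X)
    (hχ : ∀ b, χ b ∈ (RatFunc (ZMod 2))⟮h⟯) {S : Scheme.{0}} (f : Spec C ⟶ S)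
    (hval : ∀ (W₀ : ValuationSubring (SeparableClosure (RatFunc (ZMod 2)))),
      ∃ g : Spec (.of W₀) ⟶ S,
      Spec.map (CommRingCat.ofHom (algebraMap W₀ (SeparableClosure (RatFunc (ZMod 2))))) ≫ g =
        Spec.map (CommRingCat.ofHom χ) ≫ f)
    (h2' : (2 : Γ(Spec C, ⊤)) = 0) :
    ¬ IsZero (((pushforwardLE (nisnevich_le_tame f)).rightDerived 2).obj
      (kernel (wp (tame_le_etale f) h2'))) := by
  intro hzero
  have hT5 : ∀ (a : C), (∀ (L : Type) [Field L] (χ : C →+* L) (v : ValuationSubring L),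
      ∃ q : L, χ a + q ^ 2 + q ∈ v) → ∀ (U : (Spec C).Etale),
      ∃ T ∈ tameTopology f U, ∀ ⦃V : (Spec C).Etale⦄ (g : V ⟶ U), T g →
      ∃ z : Γ(V.left, ⊤), z ^ 2 + z = V.hom.appTop ((Scheme.ΓSpecIso C).inv a) :=
    fun a ha U => cover_tame f h2 a ha U
  let X₀ : (Spec C).Etale := Scheme.Etale.mk (𝟙 (Spec C))
  have ha : ∀ (U : (Spec C).Etale) (a : (structureSheaf (tame_le_etale f)).obj.obj (op U)),
      (wp (tame_le_etale f) h2').hom.app _ a = 0 → ∃ T ∈ tameTopology f U,
        ∀ ⦃V : (Spec C).Etale⦄ (g : V ⟶ U), T g →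
        ∃ b : (structureSheaf (tame_le_etale f)).obj.obj (op V),
          (wp (tame_le_etale f) h2').hom.app _ b =
            (structureSheaf (tame_le_etale f)).obj.map g.op a := by
    intro U a hza
    obtain ⟨T, hT, h⟩ := hT5 1 (fun L _ χ v => ⟨0, by simp⟩) U
    refine ⟨T, hT, fun V g hg => ?_⟩
    obtain ⟨z, hz⟩ := h g hg
    refine ⟨ULift.up (g.left.appTop a.down * z), ?_⟩
    have e1 : (Scheme.ΓSpecIso C).inv.hom 1 = 1 := map_one _
    have e2 : V.hom.appTop.hom 1 = 1 := map_one _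
    have hz' : z ^ 2 + z = 1 := by
      rw [hz]
      exact (congrArg _ e1).trans e2
    have ha' : a.down ^ 2 + a.down = 0 := congrArg ULift.down hza
    have ha'' : (g.left.appTop a.down) ^ 2 + g.left.appTop a.down = 0 := by
      have := congrArg g.left.appTop.hom ha'
      simpa using this
    have h2V := two_eq_zero h2' V
    show ULift.up ((g.left.appTop a.down * z) ^ 2 + g.left.appTop a.down * z) =
      ULift.up (g.left.appTop a.down)
    congr 1
    linear_combination (g.left.appTop a.down) * hz' + (z ^ 2) * ha'' -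
      (g.left.appTop a.down * z ^ 2) * h2V
  have hx : ∃ T ∈ tameTopology f X₀, ∀ ⦃V : (Spec C).Etale⦄ (g : V ⟶ X₀), T g →
      ∃ b : (structureSheaf (tame_le_etale f)).obj.obj (op V),
        (wp (tame_le_etale f) h2').hom.app _ b = (structureSheaf (tame_le_etale f)).obj.map g.op
          (ULift.up ((Scheme.ΓSpecIso C).inv x)) := by
    obtain ⟨T, hT, h⟩ := hT5 x (fun L _ χ v => by
      by_cases hv : χ x ∈ v
      · exact ⟨0, by simpa using hv⟩
      · refine ⟨χ h', ?_⟩
        have e1 : χ h' ^ 2 + χ h' = χ x + χ x' := by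
          rw [← map_pow, ← map_add, hh', map_add]
        have e2 : (2 : L) = 0 := by
          have := congrArg χ h2
          rwa [map_zero, map_ofNat] at this
        have e3 : χ x + χ h' ^ 2 + χ h' = (χ x)⁻¹ := by
          rw [add_assoc, e1]
          have e4 : χ x * χ x' = 1 := by rw [← map_mul, hxx', map_one]
          rw [← eq_inv_of_mul_eq_one_right e4]
          linear_combination (χ x) * e2
        rw [e3]
        exact (v.mem_or_inv_mem (χ x)).resolve_left hv) X₀
    refine ⟨T, hT, fun V g hg => ?_⟩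
    obtain ⟨z, hz⟩ := h g hg
    refine ⟨ULift.up z, ?_⟩
    show ULift.up (z ^ 2 + z) = ULift.up (g.left.appTop ((Scheme.ΓSpecIso C).inv x))
    rw [hz]
    have hw : g.left ≫ X₀.hom = V.hom := MorphismProperty.Over.w g
    rw [← hw]
    rfl
  obtain ⟨R, hR, hV⟩ := cech_data (nisnevich_le_tame f) (structureSheaf (tame_le_etale f))
    (wp (tame_le_etale f) h2') ha X₀ (ULift.up ((Scheme.ΓSpecIso C).inv x)) hx hzero
  let χκ : C →+* (RatFunc (ZMod 2))⟮h⟯ := χ.codRestrict (RatFunc (ZMod 2))⟮h⟯ hχ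
  obtain ⟨V, g, hg, v, hv⟩ := nisnevich_point_lift R hR
    (Spec.map (CommRingCat.ofHom χκ) : Spec (.of (RatFunc (ZMod 2))⟮h⟯) ⟶ X₀.left)
  obtain ⟨T, hT, z, c, h1, h3, h4, h5⟩ := hV g hg
  have : CharP (RatFunc (ZMod 2)) 2 := inferInstance
  have : CharP (RatFunc (ZMod 2))⟮h⟯ 2 := charP_of_injective_algebraMap
    (algebraMap (RatFunc (ZMod 2)) (RatFunc (ZMod 2))⟮h⟯).injective 2
  have hsep : ∀ (x : Spec C)
      (a : (Spec C).residueField x →+* (SeparableClosure (RatFunc (ZMod 2)))),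
      Spec.map (CommRingCat.ofHom a) ≫ (Spec C).fromSpecResidueField x =
        Spec.map (CommRingCat.ofHom χ) →
        ∀ y : (SeparableClosure (RatFunc (ZMod 2))), letI := a.toAlgebra;
          IsSeparable ((Spec C).residueField x) y := by
    intro p a hpa y
    refine isSeparable_of_range a ?_ y
    refine ⟨ev ((Spec C).fromSpecResidueField p : Spec (.of ((Spec C).residueField p)) ⟶ Spec C)
      ((Scheme.ΓSpecIso C).inv x), ?_⟩
    rw [← hχx, ← ev_spec χ, ← hpa]
    exact (ev_map a ((Spec C).fromSpecResidueField p :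
      Spec (.of ((Spec C).residueField p)) ⟶ Spec C) _).symm
  obtain ⟨y, q, hy, hfix⟩ := exists_of_cech f (κ := (RatFunc (ZMod 2))⟮h⟯)
    (Ω := SeparableClosure (RatFunc (ZMod 2))) (Spec.map (CommRingCat.ofHom χ)) hsep hval h2'
    (algebraMap (RatFunc (ZMod 2)) (RatFunc (ZMod 2))⟮h⟯ RatFunc.X) T hT v (by
      have hw : g.left ≫ X₀.hom = V.hom := MorphismProperty.Over.w g
      have hw' : (Spec.map (CommRingCat.ofHom (algebraMap (RatFunc (ZMod 2))⟮h⟯
          (SeparableClosure (RatFunc (ZMod 2))))) ≫ v) ≫ V.hom =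
          Spec.map (CommRingCat.ofHom (algebraMap (RatFunc (ZMod 2))⟮h⟯
          (SeparableClosure (RatFunc (ZMod 2))))) ≫ (v ≫ g.left) ≫ X₀.hom := by
        rw [← hw]
        simp only [Category.assoc]
      rw [hw', hv]
      show _ = _ ≫ (_ ≫ 𝟙 (Spec C))
      rw [Category.comp_id, ← Spec.map_comp]
      rfl)
    (g.left.appTop ((Scheme.ΓSpecIso C).inv x)) (by
      refine (ev_comp v g.left _).trans ?_
      rw [hv]
      refine (ev_spec χκ x).trans ?_
      apply Subtype.ext
      exact hχx) z c (fun W g' hg' => (h1 g' hg').trans (by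
        show ULift.up ((g' ≫ g).left.appTop ((Scheme.ΓSpecIso C).inv x)) = _
        congr 1)) h3 h4 h5
  refine alg_final h hh y q ?_ hfix
  rw [hy]
  simp

end TameSite
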