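import Mathlib

/-!
# The tame site and the Nisnevich site
-/

namespace TameSite

universe u

open CategoryTheory AlgebraicGeometry Limits

/-- The automorphism `σ` of the field `Ω` satisfies `σ x / x ≡ 1` modulo the maximal ideal of the
valuation ring `W`, for all `x ≠ 0`.  The automorphisms over a subfield `K` with this property
form the ramification group of `W` over `K`. -/
def Wild {Ω : Type*} [Field Ω] (W : ValuationSubring Ω) (σ : Ω ≃+* Ω) : Prop :=
  ∀ x : Ω, x ≠ 0 → W.valuation (σ x / x - 1) < 1

/-- Let `φ : K → L` be an algebraic separable extension of fields and `w` a valuation ring of `L`.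
The valuation `w` is tamely ramified over `K`: for all extensions `W` of `w` to a separable closure
of `L`, the ramification group of `W` over `K` fixes `L`. -/
def IsTamelyRamified {K L : Type u} [Field K] [Field L] (φ : K →+* L)
    (w : ValuationSubring L) : Prop :=
  ∀ W : ValuationSubring (SeparableClosure L),
    W.comap (algebraMap L (SeparableClosure L)) = w →
    ∀ σ : SeparableClosure L ≃+* SeparableClosure L,
      (∀ a : K, σ (algebraMap L _ (φ a)) = algebraMap L _ (φ a)) → Wild W σ →
      ∀ y : L, σ (algebraMap L _ y) = algebraMap L _ y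

/-- The points of a scheme. -/
abbrev Pts (X : Scheme.{u}) : Type u := X

/-- The image of a point. -/
abbrev mapPt {X Y : Scheme.{u}} (g : Y ⟶ X) (y : Pts Y) : Pts X := g y

/-- The residue field at a point. -/
noncomputable abbrev Res (X : Scheme.{u}) (x : Pts X) : Type u := X.residueField x

/-- The map of residue fields `k(g y) → k(y)`. -/
noncomputable abbrev resMap {X Y : Scheme.{u}} (g : Y ⟶ X) (y : Pts Y) : Res X (mapPt g y) →+* Res Y y :=
  (g.residueFieldMap y).hom

/-- `(x, v)` is an `S`-valuation of the `S`-scheme `X` (with structure morphism `f`):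
`Spec k(x) → X → S` extends to `Spec 𝒪_v → S`. -/
def IsSValuation {X S : Scheme.{u}} (f : X ⟶ S) (x : Pts X)
    (v : ValuationSubring (Res X x)) : Prop :=
  ∃ g : Spec (CommRingCat.of v) ⟶ S,
    Spec.map (CommRingCat.ofHom (algebraMap v (Res X x))) ≫ g = X.fromSpecResidueField x ≫ f

/-- The pair `(u, v)` is the image of the pair `(y, w)` under `g`: `g y = u` and `v` is the
restriction of `w`. -/
def LiesOver {U V : Scheme.{u}} (g : V ⟶ U) (y : Pts V) (w : ValuationSubring (Res V y))
    (u : Pts U) (v : ValuationSubring (Res U u)) : Prop :=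
  (⟨mapPt g y, w.comap (resMap g y)⟩ : Σ u : Pts U, ValuationSubring (Res U u)) = ⟨u, v⟩

/-- The underlying scheme of an étale `X`-scheme. -/
abbrev tot {X : Scheme.{u}} (U : X.Etale) : Scheme.{u} := U.left

/-- The structure morphism of an étale `X`-scheme. -/
abbrev str {X : Scheme.{u}} (U : X.Etale) : tot U ⟶ X := U.hom

/-- The morphism of schemes underlying a morphism of étale `X`-schemes. -/
abbrev mor {X : Scheme.{u}} {U V : X.Etale} (g : V ⟶ U) : tot V ⟶ tot U := g.left

/-- There is an `S`-valuation `(y, w)` of `V` over `(u, v)` such that `w` is tamely ramified over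
`v`. -/
def HasTameLift {X S : Scheme.{u}} (f : X ⟶ S) {U V : X.Etale} (g : V ⟶ U) (u : Pts (tot U))
    (v : ValuationSubring (Res (tot U) u)) : Prop :=
  ∃ (y : Pts (tot V)) (w : ValuationSubring (Res (tot V) y)),
    IsSValuation (str V ≫ f) y w ∧ LiesOver (mor g) y w u v ∧ IsTamelyRamified (resMap (mor g) y) w

/-- The family of morphisms `g i : V i → U` of étale `X`-schemes is a covering family of the tame
site `(X/S)_t`: it is jointly surjective, and every `S`-valuation `(u, v)` of `U` is the image of
an `S`-valuation of some `V i` which is tamely ramified over `v`. -/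
def IsTameCovering {X S : Scheme.{u}} (f : X ⟶ S) {U : X.Etale} {ι : Type (u + 1)}
    (V : ι → X.Etale) (g : ∀ i, V i ⟶ U) : Prop :=
  (∀ u : Pts (tot U), ∃ (i : ι) (y : Pts (tot (V i))), mapPt (mor (g i)) y = u) ∧
    ∀ (u : Pts (tot U)) (v : ValuationSubring (Res (tot U) u)),
      IsSValuation (str U ≫ f) u v → ∃ i : ι, HasTameLift f (g i) u v

/-- The covering families of the tame site `(X/S)_t`. -/
def tamePrecoverage {X S : Scheme.{u}} (f : X ⟶ S) : Precoverage X.Etale where
  coverings U := {R | ∃ (ι : Type (u + 1)) (V : ι → X.Etale) (g : ∀ i, V i ⟶ U),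
    R = Presieve.ofArrows V g ∧ IsTameCovering f V g}

/-- The tame topology on the category of étale `X`-schemes. -/
def tameTopology {X S : Scheme.{u}} (f : X ⟶ S) : GrothendieckTopology X.Etale :=
  (tamePrecoverage f).toGrothendieck

/-- The family of morphisms `g i : V i → U` is a Nisnevich covering family: every point `u` of `U`
is the image of a point `y` of some `V i` with the same residue field. -/
def IsNisnevichCovering {X : Scheme.{u}} {U : X.Etale} {ι : Type (u + 1)}
    (V : ι → X.Etale) (g : ∀ i, V i ⟶ U) : Prop :=
  ∀ u : Pts (tot U), ∃ (i : ι) (y : Pts (tot (V i))), mapPt (mor (g i)) y = u ∧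
    Function.Bijective (resMap (mor (g i)) y)

/-- The covering families of the Nisnevich site of `X`. -/
def nisnevichPrecoverage (X : Scheme.{u}) : Precoverage X.Etale where
  coverings U := {R | ∃ (ι : Type (u + 1)) (V : ι → X.Etale) (g : ∀ i, V i ⟶ U),
    R = Presieve.ofArrows V g ∧ IsNisnevichCovering V g}

/-- The Nisnevich topology on the category of étale `X`-schemes. -/
def nisnevichTopology (X : Scheme.{u}) : GrothendieckTopology X.Etale :=
  (nisnevichPrecoverage X).toGrothendieck

instance (X : Scheme.{u}) (J : GrothendieckTopology X.Etale) :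
    IsGrothendieckAbelian.{u + 1} (Sheaf J AddCommGrpCat.{u + 1}) := by
  have : EssentiallySmall.{u + 1} X.Etale := inferInstance
  exact Sheaf.isGrothendieckAbelian_of_essentiallySmall J AddCommGrpCat.{u + 1}

/-- Direct image of sheaves under the morphism of sites given by a coarser topology on the same
category: a sheaf for `J` is a sheaf for `K ≤ J`. -/
def pushforwardLE {C : Type*} [Category* C] {J K : GrothendieckTopology C} (h : K ≤ J) :
    Sheaf J AddCommGrpCat.{u + 1} ⥤ Sheaf K AddCommGrpCat.{u + 1} where
  obj F := ⟨F.obj, F.2.of_le h⟩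
  map f := ⟨f.hom⟩

instance {C : Type*} [Category* C] {J K : GrothendieckTopology C} (h : K ≤ J) :
    (pushforwardLE.{u} h).Additive where
  map_add := by intros; rfl

end TameSite
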