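import Pool.Agent.Lib_helper87.Tame.EBasic

/-!
# Partial fractions
-/

namespace TameSite

open Polynomial


instance : CharP (RatFunc (ZMod 2)) 2 := charP_of_injective_algebraMap
  (algebraMap (ZMod 2) (RatFunc (ZMod 2))).injective 2

theorem exists_sq_mod (p : (Polynomial (ZMod 2))) (hp : Irreducible p) (A B : (Polynomial (ZMod 2))) (hB : ¬ p ∣ B) :
    ∃ C : (Polynomial (ZMod 2)), p ∣ C ^ 2 * B - A := by
  have : Fact (Irreducible p) := ⟨hp⟩
  have : Module.Finite (ZMod 2) (AdjoinRoot p) := (AdjoinRoot.powerBasis hp.ne_zero).finite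
  have : Finite (AdjoinRoot p) := Module.finite_of_finite (ZMod 2)
  have : CharP (AdjoinRoot p) 2 := charP_of_injective_algebraMap
    (algebraMap (ZMod 2) (AdjoinRoot p)).injective 2
  have hB' : AdjoinRoot.mk p B ≠ 0 := by
    rw [Ne, AdjoinRoot.mk_eq_zero]; exact hB
  obtain ⟨r, hr⟩ := FiniteField.isSquare_of_char_two (ringChar.eq (AdjoinRoot p) 2)
    (AdjoinRoot.mk p A / AdjoinRoot.mk p B)
  obtain ⟨C, hC⟩ := AdjoinRoot.mk_surjective r
  refine ⟨C, ?_⟩
  rw [← AdjoinRoot.mk_eq_mk, map_mul, map_pow, hC, sq, ← hr, div_mul_cancel₀ _ hB']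

/-- the odd case -/
theorem odd_case {Ω : Type*} [Field Ω] [Algebra (RatFunc (ZMod 2)) Ω] [IsGalois (RatFunc (ZMod 2)) Ω] [IsSepClosed Ω]
    (p A B : (Polynomial (ZMod 2))) (hp : Irreducible p) (hA : ¬ p ∣ A) (hB : ¬ p ∣ B) (hX : ¬ p ∣ X) (m : ℕ)
    (hm : Odd m)
    (h : ∀ W : ValuationSubring Ω, algebraMap (RatFunc (ZMod 2)) Ω RatFunc.X ∈ W →
      algebraMap (RatFunc (ZMod 2)) Ω RatFunc.X⁻¹ ∈ W →
      Unr (RatFunc (ZMod 2)) W (algebraMap (RatFunc (ZMod 2)) Ω (algebraMap (Polynomial (ZMod 2)) (RatFunc (ZMod 2)) A / (algebraMap (Polynomial (ZMod 2)) (RatFunc (ZMod 2)) (p ^ m * B))))) : False := by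
  let v : IsDedekindDomain.HeightOneSpectrum (Polynomial (ZMod 2)) :=
    ⟨Ideal.span {p}, (Ideal.span_singleton_prime hp.ne_zero).2 hp.prime, by
      rw [Ne, Ideal.span_singleton_eq_bot]; exact hp.ne_zero⟩
  have hv1 : ∀ f : (Polynomial (ZMod 2)), ¬ p ∣ f → v.valuation (RatFunc (ZMod 2)) (algebraMap (Polynomial (ZMod 2)) (RatFunc (ZMod 2)) f) = 1 := by
    intro f hf
    rw [v.valuation_eq_one_iff_notMem]
    intro h1
    exact hf (Ideal.mem_span_singleton.1 h1)
  have hvp : v.valuation (RatFunc (ZMod 2)) (algebraMap (Polynomial (ZMod 2)) (RatFunc (ZMod 2)) p) = WithZero.exp (-1 : ℤ) := by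
    rw [v.valuation_of_algebraMap]
    exact v.intValuation_singleton hp.ne_zero rfl
  set a : (RatFunc (ZMod 2)) := algebraMap (Polynomial (ZMod 2)) (RatFunc (ZMod 2)) A / (algebraMap (Polynomial (ZMod 2)) (RatFunc (ZMod 2)) (p ^ m * B)) with ha
  have hva : v.valuation (RatFunc (ZMod 2)) a = WithZero.exp (m : ℤ) := by
    rw [ha, map_div₀, hv1 A hA, map_mul, map_mul, map_pow, map_pow, hv1 B hB, hvp, mul_one, one_div,
      ← WithZero.exp_nsmul, ← WithZero.exp_neg]
    congr 1
    simp
  obtain ⟨W, hW⟩ := exists_extension (algebraMap (RatFunc (ZMod 2)) Ω) (v.valuation (RatFunc (ZMod 2))).valuationSubring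
  have hmem : ∀ x : (RatFunc (ZMod 2)), algebraMap (RatFunc (ZMod 2)) Ω x ∈ W ↔ v.valuation (RatFunc (ZMod 2)) x ≤ 1 := by
    intro x
    rw [← Valuation.mem_valuationSubring_iff, ← hW]
    rfl
  have h1 := h W ((hmem _).2 (by
    rw [← RatFunc.algebraMap_X]
    exact (hv1 X hX).le)) ((hmem _).2 (by
    rw [map_inv₀, ← RatFunc.algebraMap_X, hv1 X hX]; simp))
  refine not_unr a ?_ ?_ h1
  · rw [hmem, hva, not_le]
    rw [← WithZero.exp_zero]
    rw [WithZero.exp_lt_exp]
    have := hm.pos
    exact_mod_cast this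
  · intro y hy
    have hne : a * y ^ 2 ≠ 0 := by
      intro h0
      rw [h0] at hy
      simp at hy
    have hy0 : y ≠ 0 := by
      rintro rfl; simp at hne
    rw [unit_val_iff _ (by simpa using hne), ← map_inv₀, hmem, hmem, map_inv₀] at hy
    have h3 : v.valuation (RatFunc (ZMod 2)) (a * y ^ 2) = 1 := by
      refine le_antisymm hy.1 ?_
      have h0 : v.valuation (RatFunc (ZMod 2)) (a * y ^ 2) ≠ 0 := (Valuation.ne_zero_iff _).2 hne
      exact (inv_le_one₀ (zero_lt_iff.2 h0)).1 hy.2
    obtain ⟨k, hk⟩ : ∃ k : ℤ, v.valuation (RatFunc (ZMod 2)) y = WithZero.exp k := by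
      have h0 : v.valuation (RatFunc (ZMod 2)) y ≠ 0 := (Valuation.ne_zero_iff _).2 hy0
      exact ⟨WithZero.log (v.valuation (RatFunc (ZMod 2)) y), (WithZero.exp_log h0).symm⟩
    rw [map_mul, map_pow, hva, hk, ← WithZero.exp_nsmul, ← WithZero.exp_add, ← WithZero.exp_zero,
      WithZero.exp_inj] at h3
    simp at h3
    obtain ⟨j, hj⟩ := hm
    omega

theorem pf_aux {Ω : Type*} [Field Ω] [Algebra (RatFunc (ZMod 2)) Ω] [IsGalois (RatFunc (ZMod 2)) Ω] [IsSepClosed Ω] (N : ℕ) :
    ∀ (D A : (Polynomial (ZMod 2))) (n : ℕ), D ≠ 0 → D.natDegree < N →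
    (∀ W : ValuationSubring Ω, algebraMap (RatFunc (ZMod 2)) Ω RatFunc.X ∈ W →
      algebraMap (RatFunc (ZMod 2)) Ω RatFunc.X⁻¹ ∈ W →
      Unr (RatFunc (ZMod 2)) W (algebraMap (RatFunc (ZMod 2)) Ω (algebraMap (Polynomial (ZMod 2)) (RatFunc (ZMod 2)) A / (algebraMap (Polynomial (ZMod 2)) (RatFunc (ZMod 2)) (X ^ n * D))))) →
    ∃ (s : (RatFunc (ZMod 2))) (P : (Polynomial (ZMod 2))) (m : ℕ),
      algebraMap (Polynomial (ZMod 2)) (RatFunc (ZMod 2)) A / (algebraMap (Polynomial (ZMod 2)) (RatFunc (ZMod 2)) (X ^ n * D)) + s ^ 2 + s =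
        algebraMap (Polynomial (ZMod 2)) (RatFunc (ZMod 2)) P / RatFunc.X ^ m := by
  have : CharP Ω 2 := charP_of_injective_algebraMap (algebraMap (RatFunc (ZMod 2)) Ω).injective 2
  induction N with
  | zero => intro D A n _ h; omega
  | succ N ih =>
    intro D A n hD hdeg hU
    by_cases hunit : IsUnit D
    · obtain ⟨c, hc, hcD⟩ := Polynomial.isUnit_iff.1 hunit
      have hc1 : c = 1 := by
        have : c ≠ 0 := hc.ne_zero
        revert this
        generalize c = c'
        revert c'
        decide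
      subst hc1
      refine ⟨0, A, n, ?_⟩
      rw [← hcD]
      simp [RatFunc.algebraMap_X]
    · obtain ⟨p, hp, hpD⟩ := WfDvdMonoid.exists_irreducible_factor hunit hD
      have hp1 : 0 < p.natDegree := hp.natDegree_pos
      by_cases hpX : p ∣ X
      · obtain ⟨u, hu⟩ := hpX
        obtain ⟨D1, hD1⟩ := hpD
        have hD10 : D1 ≠ 0 := by rintro rfl; simp at hD1; exact hD hD1
        have hdeg1 : D1.natDegree < N := by
          have := Polynomial.natDegree_mul hp.ne_zero hD10
          rw [← hD1] at this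
          omega
        have hu0 : u ≠ 0 := by rintro rfl; simp at hu
        have key : algebraMap (Polynomial (ZMod 2)) (RatFunc (ZMod 2)) A / (algebraMap (Polynomial (ZMod 2)) (RatFunc (ZMod 2)) (X ^ n * D)) =
            algebraMap (Polynomial (ZMod 2)) (RatFunc (ZMod 2)) (A * u) / (algebraMap (Polynomial (ZMod 2)) (RatFunc (ZMod 2)) (X ^ (n + 1) * D1)) := by
          have hX0 : algebraMap (Polynomial (ZMod 2)) (RatFunc (ZMod 2)) X ≠ 0 := by
              rw [RatFunc.algebraMap_X]; exact RatFunc.X_ne_zero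
          have h1 : algebraMap (Polynomial (ZMod 2)) (RatFunc (ZMod 2)) p ≠ 0 := by simpa using hp.ne_zero
          have h2 : algebraMap (Polynomial (ZMod 2)) (RatFunc (ZMod 2)) u ≠ 0 := by simpa using hu0
          have h3 : algebraMap (Polynomial (ZMod 2)) (RatFunc (ZMod 2)) D1 ≠ 0 := by simpa using hD10
          rw [hD1]
          rw [pow_succ]
          nth_rw 3 [hu]
          simp only [map_mul, map_pow]
          field_simp
        rw [key] at hU ⊢
        exact ih D1 (A * u) (n + 1) hD10 hdeg1 hU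
      · by_cases hpA : p ∣ A
        · obtain ⟨A1, hA1⟩ := hpA
          obtain ⟨D1, hD1⟩ := hpD
          have hD10 : D1 ≠ 0 := by rintro rfl; simp at hD1; exact hD hD1
          have hdeg1 : D1.natDegree < N := by
            have := Polynomial.natDegree_mul hp.ne_zero hD10
            rw [← hD1] at this
            omega
          have key : algebraMap (Polynomial (ZMod 2)) (RatFunc (ZMod 2)) A / (algebraMap (Polynomial (ZMod 2)) (RatFunc (ZMod 2)) (X ^ n * D)) =
              algebraMap (Polynomial (ZMod 2)) (RatFunc (ZMod 2)) A1 / (algebraMap (Polynomial (ZMod 2)) (RatFunc (ZMod 2)) (X ^ n * D1)) := by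
            have hX0 : algebraMap (Polynomial (ZMod 2)) (RatFunc (ZMod 2)) X ≠ 0 := by
              rw [RatFunc.algebraMap_X]; exact RatFunc.X_ne_zero
            have h1 : algebraMap (Polynomial (ZMod 2)) (RatFunc (ZMod 2)) p ≠ 0 := by simpa using hp.ne_zero
            have h3 : algebraMap (Polynomial (ZMod 2)) (RatFunc (ZMod 2)) D1 ≠ 0 := by simpa using hD10
            rw [hD1, hA1]
            simp only [map_mul, map_pow]
            field_simp
          rw [key] at hU ⊢
          exact ih D1 A1 n hD10 hdeg1 hU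
        · obtain ⟨m, D', hD', hDm⟩ : ∃ (m : ℕ) (D' : (Polynomial (ZMod 2))), ¬ p ∣ D' ∧ D = p ^ m * D' := by
            have hfin : FiniteMultiplicity p D := FiniteMultiplicity.of_prime_left hp.prime hD
            obtain ⟨c, h1, h2⟩ := hfin.exists_eq_pow_mul_and_not_dvd
            exact ⟨_, c, h2, h1⟩
          have hD'0 : D' ≠ 0 := by rintro rfl; simp at hD'
          have hXD : ¬ p ∣ X ^ n * D' := by
            intro h1
            rcases hp.prime.dvd_or_dvd h1 with h2 | h2
            · exact hpX (hp.prime.dvd_of_dvd_pow h2)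
            · exact hD' h2
          have hdegD : D.natDegree = m * p.natDegree + D'.natDegree := by
            rw [hDm, Polynomial.natDegree_mul (pow_ne_zero _ hp.ne_zero) hD'0,
              Polynomial.natDegree_pow]
          rcases Nat.even_or_odd m with hm | hm
          · have hm0 : m ≠ 0 := by
              rintro rfl
              rw [pow_zero, one_mul] at hDm
              exact hD' (hDm ▸ hpD)
            obtain ⟨s, hs⟩ := hm
            have hs0 : 0 < s := by omega
            obtain ⟨C, hC⟩ := exists_sq_mod p hp A (X ^ n * D') hXD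
            have hX0 : algebraMap (Polynomial (ZMod 2)) (RatFunc (ZMod 2)) X ≠ 0 := by
              rw [RatFunc.algebraMap_X]; exact RatFunc.X_ne_zero
            have h1 : algebraMap (Polynomial (ZMod 2)) (RatFunc (ZMod 2)) p ≠ 0 := by simpa using hp.ne_zero
            have h3 : algebraMap (Polynomial (ZMod 2)) (RatFunc (ZMod 2)) D' ≠ 0 := by simpa using hD'0
            have h2 : (2 : (RatFunc (ZMod 2))) = 0 := CharTwo.two_eq_zero
            obtain ⟨E, hE⟩ := hC
            set c : (RatFunc (ZMod 2)) := algebraMap (Polynomial (ZMod 2)) (RatFunc (ZMod 2)) C / algebraMap (Polynomial (ZMod 2)) (RatFunc (ZMod 2)) (p ^ s) with hc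
            obtain ⟨s', rfl⟩ : ∃ s', s = s' + 1 := ⟨s - 1, by omega⟩
            have hEA : algebraMap (Polynomial (ZMod 2)) (RatFunc (ZMod 2)) C ^ 2 * (algebraMap (Polynomial (ZMod 2)) (RatFunc (ZMod 2)) X ^ n * algebraMap (Polynomial (ZMod 2)) (RatFunc (ZMod 2)) D') =
                algebraMap (Polynomial (ZMod 2)) (RatFunc (ZMod 2)) A + algebraMap (Polynomial (ZMod 2)) (RatFunc (ZMod 2)) p * algebraMap (Polynomial (ZMod 2)) (RatFunc (ZMod 2)) E := by
              have := congrArg (algebraMap (Polynomial (ZMod 2)) (RatFunc (ZMod 2))) hE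
              simp only [map_sub, map_mul, map_pow] at this
              linear_combination this
            have key : algebraMap (Polynomial (ZMod 2)) (RatFunc (ZMod 2)) A / (algebraMap (Polynomial (ZMod 2)) (RatFunc (ZMod 2)) (X ^ n * D)) + c ^ 2 + c =
                algebraMap (Polynomial (ZMod 2)) (RatFunc (ZMod 2)) (E + C * p ^ s' * X ^ n * D') /
                  (algebraMap (Polynomial (ZMod 2)) (RatFunc (ZMod 2)) (X ^ n * (p ^ (2 * s' + 1) * D'))) := by
              rw [hDm, hs, hc]
              simp only [map_mul, map_pow, map_add]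
              field_simp
              linear_combination (algebraMap (Polynomial (ZMod 2)) (RatFunc (ZMod 2)) p ^ 3 * algebraMap (Polynomial (ZMod 2)) (RatFunc (ZMod 2)) p ^ (s' * 4)) * hEA +
                (algebraMap (Polynomial (ZMod 2)) (RatFunc (ZMod 2)) A * algebraMap (Polynomial (ZMod 2)) (RatFunc (ZMod 2)) p ^ 3 * algebraMap (Polynomial (ZMod 2)) (RatFunc (ZMod 2)) p ^ (s' * 4)) * h2
            have hU' : ∀ W : ValuationSubring Ω, algebraMap (RatFunc (ZMod 2)) Ω RatFunc.X ∈ W →
                algebraMap (RatFunc (ZMod 2)) Ω RatFunc.X⁻¹ ∈ W →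
                Unr (RatFunc (ZMod 2)) W (algebraMap (RatFunc (ZMod 2)) Ω (algebraMap (Polynomial (ZMod 2)) (RatFunc (ZMod 2)) (E + C * p ^ s' * X ^ n * D') /
                  (algebraMap (Polynomial (ZMod 2)) (RatFunc (ZMod 2)) (X ^ n * (p ^ (2 * s' + 1) * D'))))) := by
              intro W hW1 hW2
              rw [← key, map_add, map_add, map_pow, add_assoc]
              exact (hU W hW1 hW2).add_wp c
            have hdeg1 : (p ^ (2 * s' + 1) * D').natDegree < N := by
              rw [Polynomial.natDegree_mul (pow_ne_zero _ hp.ne_zero) hD'0,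
                Polynomial.natDegree_pow]
              rw [hs] at hdegD
              have : (s' + 1 + (s' + 1)) * p.natDegree = (2 * s' + 1) * p.natDegree + p.natDegree := by
                ring
              omega
            obtain ⟨t, P, k, ht⟩ := ih (p ^ (2 * s' + 1) * D') _ n
              (mul_ne_zero (pow_ne_zero _ hp.ne_zero) hD'0) hdeg1 hU'
            refine ⟨c + t, P, k, ?_⟩
            rw [← ht, ← key]
            linear_combination (c * t) * h2
          · exfalso
            refine odd_case (Ω := Ω) p A (X ^ n * D') hp hpA hXD hpX m hm ?_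
            intro W h1 h2
            have := hU W h1 h2
            rw [hDm] at this
            rw [show p ^ m * (X ^ n * D') = X ^ n * (p ^ m * D') by ring]
            exact this

/-- Partial fractions. -/
theorem partial_fractions {Ω : Type*} [Field Ω] [Algebra (RatFunc (ZMod 2)) Ω]
    [IsGalois (RatFunc (ZMod 2)) Ω] [IsSepClosed Ω] (a : RatFunc (ZMod 2))
    (h : ∀ W : ValuationSubring Ω, algebraMap (RatFunc (ZMod 2)) Ω RatFunc.X ∈ W →
      algebraMap (RatFunc (ZMod 2)) Ω RatFunc.X⁻¹ ∈ W →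
      Unr (RatFunc (ZMod 2)) W (algebraMap (RatFunc (ZMod 2)) Ω a)) :
    ∃ (s : RatFunc (ZMod 2)) (P : (ZMod 2)[X]) (n : ℕ),
      a + s ^ 2 + s = algebraMap (ZMod 2)[X] (RatFunc (ZMod 2)) P / RatFunc.X ^ n := by
  obtain ⟨A, D, hD, hAD⟩ := IsFractionRing.div_surjective (A := (ZMod 2)[X]) a
  have hD0 : D ≠ 0 := nonZeroDivisors.ne_zero hD
  have key := pf_aux (Ω := Ω) (D.natDegree + 1) D A 0 hD0 (by omega)
  rw [pow_zero, one_mul, hAD] at key
  exact key h

end TameSite
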