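import Pool.Agent.Lib_helper87.Tame.ValConj

/-!
# An element of the inertia group moving an Artin-Schreier root of odd pole order
-/

namespace TameSite

open Polynomial
open scoped Pointwise

section Loc

variable {K Ω : Type*} [Field K] [Field Ω] [Algebra K Ω]

/-- Every element of a valuation ring `W` is a quotient `b / s` with `b`, `s` in all valuation rings
over `W ∩ K` and `s` a unit of `W`. -/
private lemma exists_loc [Algebra.IsAlgebraic K Ω] (W : ValuationSubring Ω) (w : Ω) (hw : w ∈ W) :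
    ∃ b s : Ω, W.valuation s = 1 ∧ w * s = b ∧
      ∀ V : ValuationSubring Ω, (∀ a : K, algebraMap K Ω a ∈ W → algebraMap K Ω a ∈ V) →
        b ∈ V ∧ s ∈ V := by
  rcases eq_or_ne w 0 with rfl | hw0
  · exact ⟨0, 1, map_one _, zero_mul _, fun V _ => ⟨V.zero_mem, V.one_mem⟩⟩
  have hint : IsIntegral K w := Algebra.IsIntegral.isIntegral w
  set p := minpoly K w with hp
  have hp0 : p ≠ 0 := minpoly.ne_zero hint
  have hpw : aeval w p = 0 := minpoly.aeval K w
  obtain ⟨i0, hi0, hmax⟩ := p.support.exists_max_image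
    (fun i => W.valuation (algebraMap K Ω (p.coeff i))) (Polynomial.support_nonempty.2 hp0)
  have hc0 : p.coeff i0 ≠ 0 := Polynomial.mem_support_iff.1 hi0
  set q : K[X] := C (p.coeff i0)⁻¹ * p with hq
  have hqc : ∀ i, q.coeff i = (p.coeff i0)⁻¹ * p.coeff i := fun i => by rw [hq, coeff_C_mul]
  have hqw : aeval w q = 0 := by rw [hq, map_mul, hpw, mul_zero]
  let c : ℕ → Ω := fun i => algebraMap K Ω (q.coeff i)
  have hvc0 : W.valuation (algebraMap K Ω (p.coeff i0)) ≠ 0 :=
    (W.valuation.ne_zero_iff).2 (by simpa using hc0)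
  have hcle : ∀ i, W.valuation (c i) ≤ 1 := by
    intro i
    change W.valuation (algebraMap K Ω (q.coeff i)) ≤ 1
    rw [hqc, map_mul, map_inv₀, map_mul, map_inv₀]
    by_cases hi : i ∈ p.support
    · have := hmax i hi
      rw [mul_comm, ← div_eq_mul_inv]
      exact (div_le_one₀ (zero_lt_iff.2 hvc0)).2 this
    · rw [Polynomial.notMem_support_iff.1 hi, map_zero, map_zero, mul_zero]
      exact zero_le_one
  have hci0 : W.valuation (c i0) = 1 := by
    change W.valuation (algebraMap K Ω (q.coeff i0)) = 1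
    rw [hqc, inv_mul_cancel₀ hc0, map_one, map_one]
  have hq0 : q.coeff i0 ≠ 0 := by rw [hqc, inv_mul_cancel₀ hc0]; exact one_ne_zero
  set n := q.natDegree with hn
  have hi0n : i0 ≤ n := Polynomial.le_natDegree_of_ne_zero hq0
  -- the largest index with a unit coefficient
  let J : Finset ℕ := (Finset.range (n + 1)).filter fun i => W.valuation (c i) = 1
  have hJ : J.Nonempty := ⟨i0, by simp only [J, Finset.mem_filter, Finset.mem_range]; exact ⟨by omega, hci0⟩⟩
  set j := J.max' hJ with hj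
  have hjJ : j ∈ J := J.max'_mem hJ
  have hjn : j ≤ n := by
    have := (Finset.mem_filter.1 hjJ).1
    rw [Finset.mem_range] at this; omega
  have hcj : W.valuation (c j) = 1 := (Finset.mem_filter.1 hjJ).2
  have hlt : ∀ i, j < i → W.valuation (c i) < 1 := by
    intro i hi
    rcases lt_or_eq_of_le (hcle i) with h | h
    · exact h
    · exfalso
      by_cases hin : i ≤ n
      · have : i ∈ J := by
          simp only [J, Finset.mem_filter, Finset.mem_range]; exact ⟨by omega, h⟩
        have := J.le_max' i this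
        omega
      · have : c i = 0 := by
          change algebraMap K Ω (q.coeff i) = 0
          rw [Polynomial.coeff_eq_zero_of_natDegree_lt (by omega), map_zero]
        rw [this, map_zero] at h
        exact zero_ne_one h
  have hsumw : (∑ i ∈ Finset.range j, c i * w ^ i) +
      ∑ i ∈ Finset.range (n + 1 - j), c (j + i) * w ^ (j + i) = 0 := by
    rw [← Finset.sum_range_add, show j + (n + 1 - j) = n + 1 by omega]
    rw [Polynomial.aeval_eq_sum_range] at hqw
    rw [← hqw]
    refine Finset.sum_congr rfl fun i _ => ?_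
    rw [Algebra.smul_def]
  obtain ⟨s, hs⟩ : ∃ s : Ω, s = ∑ i ∈ Finset.range (n + 1 - j), c (j + i) * w ^ i := ⟨_, rfl⟩
  obtain ⟨t, ht⟩ : ∃ t : Ω, t = ∑ i ∈ Finset.range j, c i * w ^ i := ⟨_, rfl⟩
  have hts : t + w ^ j * s = 0 := by
    rw [← hsumw, hs, ht, Finset.mul_sum]
    congr 1
    refine Finset.sum_congr rfl fun i _ => ?_
    rw [pow_add]; ring
  have hvs : W.valuation s = 1 := by
    rw [hs, show n + 1 - j = (n - j) + 1 by omega, Finset.sum_range_succ']
    rw [add_zero, pow_zero, mul_one]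
    rw [Valuation.map_add_eq_of_lt_right, hcj]
    rw [hcj]
    refine Valuation.map_sum_lt _ one_ne_zero fun i _ => ?_
    rw [map_mul]
    have h1 := hlt (j + (i + 1)) (by omega)
    have h2 : W.valuation (w ^ (i + 1)) ≤ 1 := by
      rw [map_pow]; exact pow_le_one₀ zero_le ((W.valuation_le_one_iff _).2 hw)
    exact mul_lt_one_of_lt_of_le h1 h2
  have hj0 : j ≠ 0 := by
    intro h0
    rw [h0] at ht hts
    rw [Finset.range_zero, Finset.sum_empty] at ht
    rw [ht, zero_add, pow_zero, one_mul] at hts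
    rw [hts, map_zero] at hvs
    exact zero_ne_one hvs
  refine ⟨w * s, s, hvs, rfl, fun V hV => ?_⟩
  have hcV : ∀ i, c i ∈ V := fun i => hV _ ((W.valuation_le_one_iff _).1 (hcle i))
  rcases V.mem_or_inv_mem w with h | h
  · have hsV : s ∈ V := by
      rw [hs]
      exact sum_mem fun i _ => V.mul_mem _ _ (hcV _) (pow_mem h _)
    exact ⟨V.mul_mem _ _ h hsV, hsV⟩
  · have hws : w * s = -(∑ i ∈ Finset.range j, c i * w⁻¹ ^ (j - 1 - i)) := by
      have e : w ^ (j - 1) * (w * s + ∑ i ∈ Finset.range j, c i * w⁻¹ ^ (j - 1 - i)) = 0 := by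
        rw [mul_add, Finset.mul_sum]
        have e1 : w ^ (j - 1) * (w * s) = w ^ j * s := by
          rw [← mul_assoc, ← pow_succ, show j - 1 + 1 = j by omega]
        have e2 : (∑ i ∈ Finset.range j, w ^ (j - 1) * (c i * w⁻¹ ^ (j - 1 - i))) = t := by
          rw [ht]
          refine Finset.sum_congr rfl fun i hi => ?_
          rw [Finset.mem_range] at hi
          have : w ^ (j - 1) = w ^ i * w ^ (j - 1 - i) := by
            rw [← pow_add]; congr 1; omega
          rw [this, inv_pow]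
          have : w ^ (j - 1 - i) ≠ 0 := pow_ne_zero _ hw0
          field_simp
        rw [e1, e2, add_comm]; exact hts
      have := (mul_eq_zero.1 e).resolve_left (pow_ne_zero _ hw0)
      exact eq_neg_of_add_eq_zero_left this
    have hb : w * s ∈ V := by
      rw [hws]
      exact V.neg_mem _ (sum_mem fun i _ => V.mul_mem _ _ (hcV _) (pow_mem h _))
    refine ⟨hb, ?_⟩
    have : s = w⁻¹ * (w * s) := by field_simp
    rw [this]
    exact V.mul_mem _ _ h hb

end Loc

section Lift

variable {F Ω : Type*} [Field F] [Field Ω] [Algebra F Ω]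

/-- The elements all of whose conjugates over `F` are in `W`. -/
private def conjRing (F : Type*) {Ω : Type*} [Field F] [Field Ω] [Algebra F Ω]
    (W : ValuationSubring Ω) : Subring Ω where
  carrier := {b | ∀ h : Ω ≃ₐ[F] Ω, h b ∈ W}
  mul_mem' := fun {a b} ha hb h => by rw [map_mul]; exact W.mul_mem _ _ (ha h) (hb h)
  one_mem' := fun h => by rw [map_one]; exact W.one_mem
  add_mem' := fun {a b} ha hb h => by rw [map_add]; exact W.add_mem _ _ (ha h) (hb h)
  zero_mem' := fun h => by rw [map_zero]; exact W.zero_mem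
  neg_mem' := fun {a} ha h => by rw [map_neg]; exact W.neg_mem _ (ha h)

private lemma mem_conjRing {W : ValuationSubring Ω} {b : Ω} :
    b ∈ conjRing F W ↔ ∀ h : Ω ≃ₐ[F] Ω, h b ∈ W := Iff.rfl

private instance invSub (W : ValuationSubring Ω) :
    IsInvariantSubring (Ω ≃ₐ[F] Ω) (conjRing F W) where
  smul_mem g _ hb h := hb (g.trans h)

private lemma smul_conjRing {W : ValuationSubring Ω} (g : Ω ≃ₐ[F] Ω) (b : conjRing F W) :
    ((g • b : conjRing F W) : Ω) = g b := rfl

private lemma exists_lift [IsGalois F Ω] (W : ValuationSubring Ω) (d : Ω ≃+* Ω)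
    (hdW : ∀ w, d w ∈ W ↔ w ∈ W)
    (hn1 : ∀ g : Ω ≃ₐ[F] Ω, ∃ g' : Ω ≃ₐ[F] Ω, ∀ w, g (d w) = d (g' w))
    (hn2 : ∀ g : Ω ≃ₐ[F] Ω, ∃ g' : Ω ≃ₐ[F] Ω, ∀ w, g (d.symm w) = d.symm (g' w))
    (hres : ∀ a : F, algebraMap F Ω a ∈ W →
      W.valuation (d (algebraMap F Ω a) - algebraMap F Ω a) < 1) :
    ∃ g : Ω ≃ₐ[F] Ω, (∀ b ∈ conjRing F W, W.valuation (g b - d b) < 1) ∧
      ∀ b ∈ conjRing F W, (W.valuation (g b) < 1 ↔ W.valuation b < 1) := by
  let B := conjRing F W
  let A := W.comap (algebraMap F Ω)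
  have hBW : ∀ b : B, (b : Ω) ∈ W := fun b => b.2 AlgEquiv.refl
  let φ : A →+* B :=
    { toFun := fun a => ⟨algebraMap F Ω a, fun h => by
        rw [AlgEquiv.commutes]; exact a.2⟩
      map_one' := Subtype.ext (by simp)
      map_mul' := fun a b => Subtype.ext (by simp)
      map_zero' := Subtype.ext (by simp)
      map_add' := fun a b => Subtype.ext (by simp) }
  let _ : Algebra A B := φ.toAlgebra
  have hφ : ∀ a : A, ((algebraMap A B a : B) : Ω) = algebraMap F Ω a := fun _ => rfl
  let _ : TopologicalSpace B := ⊥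
  have : DiscreteTopology B := ⟨rfl⟩
  have : ContinuousSMul (Ω ≃ₐ[F] Ω) B := by
    rw [continuousSMul_iff_stabilizer_isOpen]
    intro b
    have h := stabilizer_isOpen_of_isIntegral (K := F) (b : Ω)
    convert h using 1
    ext g
    simp only [SetLike.mem_coe, MulAction.mem_stabilizer_iff]
    constructor
    · intro h; exact congrArg Subtype.val h
    · intro h; exact Subtype.ext h
  have : SMulCommClass (Ω ≃ₐ[F] Ω) A B := by
    refine ⟨fun g a b => ?_⟩
    apply Subtype.ext
    rw [smul_conjRing, Algebra.smul_def, Algebra.smul_def]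
    change g (algebraMap F Ω a * (b : Ω)) = algebraMap F Ω a * g b
    rw [map_mul, AlgEquiv.commutes]
  have : Algebra.IsInvariant A B (Ω ≃ₐ[F] Ω) := by
    refine ⟨fun b hb => ?_⟩
    have h1 : (b : Ω) ∈ (⊥ : IntermediateField F Ω) := by
      rw [InfiniteGalois.mem_bot_iff_fixed]
      intro g
      exact congrArg Subtype.val (hb g)
    obtain ⟨a, ha⟩ := IntermediateField.mem_bot.1 h1
    refine ⟨⟨a, ?_⟩, Subtype.ext ?_⟩
    · change algebraMap F Ω a ∈ W
      rw [ha]; exact hBW b
    · rw [hφ]; exact ha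
  -- the prime
  let Q : Ideal B :=
    { carrier := {b | W.valuation (b : Ω) < 1}
      add_mem' := fun {a b} ha hb => lt_of_le_of_lt (W.valuation.map_add _ _) (max_lt ha hb)
      zero_mem' := by simp
      smul_mem' := fun c x hx => by
        change W.valuation ((c : Ω) * (x : Ω)) < 1
        rw [map_mul]
        exact (mul_le_of_le_one_left zero_le ((W.valuation_le_one_iff _).2 (hBW c))).trans_lt hx }
  have hQ : ∀ b : B, b ∈ Q ↔ W.valuation (b : Ω) < 1 := fun _ => Iff.rfl
  have hQp : Q.IsPrime := by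
    refine ⟨?_, ?_⟩
    · rw [Ideal.ne_top_iff_one, hQ]
      simp
    · intro a b hab
      rw [hQ] at hab ⊢
      rw [hQ]
      by_contra hcon
      push Not at hcon
      obtain ⟨h1, h2⟩ := hcon
      have h3 : W.valuation ((a * b : B) : Ω) = W.valuation (a : Ω) * W.valuation (b : Ω) := by
        rw [← map_mul]; rfl
      rw [h3] at hab
      exact absurd (one_le_mul h1 h2) (not_le.2 hab)
  let P : Ideal A := Q.under A
  have : Q.LiesOver P := ⟨rfl⟩
  -- the automorphism of `B` given by `d`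
  let D : B ≃+* B :=
    { toFun := fun b => ⟨d b, fun g => by
        obtain ⟨g', hg'⟩ := hn1 g
        rw [hg', hdW]; exact b.2 g'⟩
      invFun := fun b => ⟨d.symm b, fun g => by
        obtain ⟨g', hg'⟩ := hn2 g
        rw [hg', ← hdW, RingEquiv.apply_symm_apply]; exact b.2 g'⟩
      left_inv := fun b => Subtype.ext (by simp)
      right_inv := fun b => Subtype.ext (by simp)
      map_mul' := fun a b => Subtype.ext (by simp)
      map_add' := fun a b => Subtype.ext (by simp) }
  have hD : ∀ b : B, ((D b : B) : Ω) = d b := fun _ => rfl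
  have hdv : ∀ x : Ω, W.valuation x < 1 → W.valuation (d x) < 1 := by
    intro x hx
    rw [← ValuationSubring.mem_nonunits_iff, ValuationSubring.mem_nonunits_iff_or] at hx ⊢
    rcases hx with h | h
    · left; rw [h, map_zero]
    · right; rw [← map_inv₀, hdW]; exact h
  have hdv' : ∀ x : Ω, W.valuation (d x) < 1 → W.valuation x < 1 := by
    intro x hx
    rw [← ValuationSubring.mem_nonunits_iff, ValuationSubring.mem_nonunits_iff_or] at hx ⊢
    rcases hx with h | h
    · left; exact (map_eq_zero d).1 h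
    · right; rw [← map_inv₀, hdW] at h; exact h
  have hQD : Q = Q.map (D : B →+* B) := by
    ext b
    constructor
    · intro hb
      have h1 : D (D.symm b) = b := D.apply_symm_apply b
      rw [← h1]
      refine Ideal.mem_map_of_mem (D : B →+* B) ?_
      rw [hQ]
      apply hdv'
      rw [← hD, h1]; exact hb
    · intro hb
      rw [Ideal.mem_map_iff_of_surjective (D : B →+* B) D.surjective] at hb
      obtain ⟨c, hc, rfl⟩ := hb
      exact hdv _ hc
  let D' : (B ⧸ Q) ≃ₐ[A ⧸ P] (B ⧸ Q) :=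
    AlgEquiv.ofRingEquiv (f := Ideal.quotientEquiv Q Q D hQD) (by
      rintro ⟨a⟩
      change Ideal.quotientEquiv Q Q D hQD (Ideal.Quotient.mk Q (algebraMap A B a)) =
        Ideal.Quotient.mk Q (algebraMap A B a)
      rw [Ideal.quotientEquiv_mk, Ideal.Quotient.eq, hQ]
      exact hres a a.2)
  have hD' : ∀ b : B, D' (Ideal.Quotient.mk Q b) = Ideal.Quotient.mk Q (D b) := fun _ => rfl
  obtain ⟨⟨g, hgQ⟩, hg⟩ := Ideal.Quotient.stabilizerHom_surjective_of_profinite
    (G := Ω ≃ₐ[F] Ω) P Q D'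
  refine ⟨g, fun b hb => ?_, fun b hb => ?_⟩
  · have h1 := congrArg (fun f : (B ⧸ Q) ≃ₐ[A ⧸ P] (B ⧸ Q) => f (Ideal.Quotient.mk Q ⟨b, hb⟩)) hg
    simp only [hD'] at h1
    rw [Ideal.Quotient.stabilizerHom_apply, Ideal.Quotient.eq, hQ] at h1
    exact h1
  · rw [MulAction.mem_stabilizer_iff] at hgQ
    have h1 : (⟨b, hb⟩ : B) ∈ Q ↔ g • (⟨b, hb⟩ : B) ∈ Q := by
      constructor
      · intro h
        rw [← hgQ]
        exact Ideal.smul_mem_pointwise_smul_iff.2 h
      · intro h
        rw [← hgQ] at h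
        exact Ideal.smul_mem_pointwise_smul_iff.1 h
    rw [hQ, hQ, smul_conjRing] at h1
    exact h1.symm

end Lift

section Main

variable {K Ω : Type*} [Field K] [Field Ω] [Algebra K Ω]

open IntermediateField

private lemma rep (z : Ω) (f : K) (hz : z ^ 2 + z = algebraMap K Ω f) (y : Ω) (hy : y ∈ K⟮z⟯) :
    ∃ α β : K, y = algebraMap K Ω α + algebraMap K Ω β * z := by
  let m : K[X] := X ^ 2 + (X - C f)
  have hdeg : (X - C f : K[X]).degree < ((2 : ℕ) : WithBot ℕ) := by
    rw [degree_X_sub_C]; norm_num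
  have hm : m.Monic := monic_X_pow_add hdeg
  have hmd : m.natDegree = 2 := by
    simp only [m]
    compute_degree!
  have hmz : aeval z m = 0 := by
    simp only [m, map_add, map_sub, map_pow, aeval_X, aeval_C]
    rw [← hz]; ring
  have hint : IsIntegral K z := ⟨m, hm, by rw [← aeval_def]; exact hmz⟩
  have hy' : y ∈ Algebra.adjoin K {z} := by
    rw [← IntermediateField.adjoin_simple_toSubalgebra_of_isAlgebraic hint.isAlgebraic]
    exact hy
  rw [Algebra.adjoin_singleton_eq_range_aeval] at hy'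
  obtain ⟨p, rfl⟩ := hy'
  have hr : (p %ₘ m).natDegree ≤ 1 := by
    have := natDegree_modByMonic_lt p hm (by
      intro h
      rw [h, natDegree_one] at hmd
      omega)
    omega
  refine ⟨(p %ₘ m).coeff 0, (p %ₘ m).coeff 1, ?_⟩
  change aeval z p = _
  conv_lhs => rw [← modByMonic_add_div p m, map_add, map_mul, hmz, zero_mul, add_zero,
    eq_X_add_C_of_natDegree_le_one hr]
  simp only [map_add, map_mul, aeval_X, aeval_C]
  ring

/-- An element of the inertia group moving an Artin-Schreier root of odd pole order. -/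
theorem exists_inertia {K Ω : Type*} [Field K] [Field Ω] [Algebra K Ω] [IsGalois K Ω]
    [CharP K 2] (W : ValuationSubring Ω) (z : Ω) (f : K) (hz : z ^ 2 + z = algebraMap K Ω f)
    (hf : algebraMap K Ω f ∉ W)
    (hodd : ∀ y : K, W.valuation (algebraMap K Ω (f * y ^ 2)) ≠ 1) :
    ∃ σ : Ω ≃ₐ[K] Ω, (∀ w ∈ W, W.valuation (σ w - w) < 1) ∧ σ z = z + 1 := by
  have hcharΩ : CharP Ω 2 := charP_of_injective_algebraMap (algebraMap K Ω).injective 2
  have h20 : (2 : Ω) = 0 := by exact_mod_cast CharP.cast_eq_zero Ω 2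
  have hzW : z ∉ W := by
    intro h
    apply hf
    rw [← hz]
    exact W.add_mem _ _ (pow_mem h 2) h
  have hvz : 1 < W.valuation z := by
    rw [← not_le, W.valuation_le_one_iff]; exact hzW
  have hvz0 : W.valuation z ≠ 0 := (zero_lt_one.trans hvz).ne'
  have hvf : W.valuation (algebraMap K Ω f) = W.valuation z ^ 2 := by
    rw [← hz, Valuation.map_add_eq_of_lt_left, map_pow]
    rw [map_pow]
    calc W.valuation z = W.valuation z ^ 1 := (pow_one _).symm
      _ < W.valuation z ^ 2 := pow_lt_pow_right₀ hvz (by norm_num)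
  -- values of `α` and `β z` are different
  have hne : ∀ α β : K, α ≠ 0 → W.valuation (algebraMap K Ω α) ≠
      W.valuation (algebraMap K Ω β * z) := by
    intro α β hα h
    apply hodd (β / α)
    have hva : W.valuation (algebraMap K Ω α) ≠ 0 := (W.valuation.ne_zero_iff).2 (by simpa using hα)
    rw [map_mul, map_mul, hvf, map_pow, map_pow, map_div₀, map_div₀, div_pow, ← mul_div_assoc,
      ← mul_pow, mul_comm (W.valuation z), ← map_mul, ← h]
    exact div_self (pow_ne_zero _ hva)
  have hmax : ∀ α β : K, W.valuation (algebraMap K Ω α + algebraMap K Ω β * z) =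
      max (W.valuation (algebraMap K Ω α)) (W.valuation (algebraMap K Ω β * z)) := by
    intro α β
    rcases eq_or_ne α 0 with rfl | hα
    · rw [map_zero, zero_add, map_zero]
      exact (max_eq_right zero_le).symm
    · exact W.valuation.map_add_of_distinct_val (hne α β hα)
  have hmemW : ∀ α β : K, algebraMap K Ω α + algebraMap K Ω β * z ∈ W ↔
      W.valuation (algebraMap K Ω α) ≤ 1 ∧ W.valuation (algebraMap K Ω β * z) ≤ 1 := by
    intro α β
    rw [← W.valuation_le_one_iff, hmax, max_le_iff]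
  have hβ : ∀ β : K, W.valuation (algebraMap K Ω β * z) ≤ 1 → W.valuation (algebraMap K Ω β) < 1 := by
    intro β h
    have h1 : W.valuation (algebraMap K Ω β * z) ≠ 1 := by
      intro h1
      apply hodd β
      rw [map_mul, map_mul, hvf, map_pow, map_pow, ← mul_pow, mul_comm (W.valuation z), ← map_mul,
        h1, one_pow]
    have h2 := lt_of_le_of_ne h h1
    refine lt_of_le_of_lt ?_ h2
    rw [map_mul]
    exact le_mul_of_one_le_right zero_le hvz.le
  -- an automorphism moving `z`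
  obtain ⟨δ, hδ⟩ : ∃ δ : Ω ≃ₐ[K] Ω, δ z ≠ z := by
    by_contra hcon
    push Not at hcon
    have h1 : z ∈ (⊥ : IntermediateField K Ω) := by
      rw [InfiniteGalois.mem_bot_iff_fixed]
      exact hcon
    obtain ⟨a, ha⟩ := IntermediateField.mem_bot.1 h1
    apply hodd a⁻¹
    have hz0 : z ≠ 0 := (W.valuation.ne_zero_iff).1 hvz0
    rw [map_mul, map_mul, hvf, map_pow, map_inv₀, ha, ← map_pow, ← map_mul, ← mul_pow,
      mul_inv_cancel₀ hz0, one_pow, map_one]
  have hδz : δ z = z + 1 := by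
    have h1 : (δ z) ^ 2 + δ z = algebraMap K Ω f := by
      have := congrArg δ hz
      rwa [map_add, map_pow, AlgEquiv.commutes] at this
    have h2 : (δ z - z) * (δ z - (z + 1)) = 0 := by
      linear_combination h1 - hz + (z ^ 2 + z - z * δ z - δ z) * h20
    rcases mul_eq_zero.1 h2 with h | h
    · exact absurd (sub_eq_zero.1 h) hδ
    · exact sub_eq_zero.1 h
  have hzF : z ∈ K⟮z⟯ := mem_adjoin_simple_self K z
  have hKF : ∀ a : K, algebraMap K Ω a ∈ K⟮z⟯ := fun a => K⟮z⟯.algebraMap_mem a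
  -- conjugacy over `K⟮z⟯`
  obtain ⟨τ, hτ⟩ := exists_conj (K := K⟮z⟯) W (W.comap (δ : Ω →+* Ω)) (by
    ext y
    obtain ⟨α, β, hy⟩ := rep z f hz (y : Ω) y.2
    change (y : Ω) ∈ W ↔ δ (y : Ω) ∈ W
    have h1 : δ (y : Ω) = algebraMap K Ω (α + β) + algebraMap K Ω β * z := by
      rw [hy, map_add, map_mul, AlgEquiv.commutes, AlgEquiv.commutes, hδz, map_add]; ring
    rw [h1, hy, hmemW, hmemW]
    constructor
    · rintro ⟨h2, h3⟩
      refine ⟨?_, h3⟩
      rw [map_add]
      exact (W.valuation.map_add _ _).trans (max_le h2 (hβ β h3).le)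
    · rintro ⟨h2, h3⟩
      refine ⟨?_, h3⟩
      have : algebraMap K Ω α = algebraMap K Ω (α + β) - algebraMap K Ω β := by
        rw [map_add]; ring
      rw [this]
      exact (W.valuation.map_sub _ _).trans (max_le h2 (hβ β h3).le))
  let dK : Ω ≃ₐ[K] Ω := (τ.restrictScalars K).trans δ
  have hdK : ∀ w, dK w = δ (τ w) := fun _ => rfl
  have hdz : dK z = z + 1 := by
    rw [hdK]
    have : τ z = z := τ.commutes ⟨z, hzF⟩
    rw [this, hδz]
  have hdsz : dK.symm z = z + 1 := by
    rw [AlgEquiv.symm_apply_eq, map_add, hdz, map_one]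
    linear_combination (-1 : Ω) * h20
  let d : Ω ≃+* Ω := dK.toRingEquiv
  have hd : ∀ w, d w = dK w := fun _ => rfl
  have hds : ∀ w, d.symm w = dK.symm w := fun _ => rfl
  have hdW : ∀ w, d w ∈ W ↔ w ∈ W := by
    intro w
    have : w ∈ (W.comap (δ : Ω →+* Ω)).comap (τ : Ω →+* Ω) ↔ w ∈ W := by rw [hτ]
    exact this
  have hdF : ∀ y ∈ K⟮z⟯, dK y ∈ K⟮z⟯ := by
    intro y hy
    obtain ⟨α, β, rfl⟩ := rep z f hz y hy
    rw [map_add, map_mul, AlgEquiv.commutes, AlgEquiv.commutes, hdz]
    exact add_mem (hKF _) (mul_mem (hKF _) (add_mem hzF (one_mem _)))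
  have hdsF : ∀ y ∈ K⟮z⟯, dK.symm y ∈ K⟮z⟯ := by
    intro y hy
    obtain ⟨α, β, rfl⟩ := rep z f hz y hy
    rw [map_add, map_mul, AlgEquiv.commutes, AlgEquiv.commutes, hdsz]
    exact add_mem (hKF _) (mul_mem (hKF _) (add_mem hzF (one_mem _)))
  have hn1 : ∀ g : Ω ≃ₐ[K⟮z⟯] Ω, ∃ g' : Ω ≃ₐ[K⟮z⟯] Ω, ∀ w, g (d w) = d (g' w) := by
    intro g
    refine ⟨AlgEquiv.ofRingEquiv (f := (d.trans g.toRingEquiv).trans d.symm) ?_, ?_⟩
    · intro y
      change d.symm (g (d (y : Ω))) = (y : Ω)
      have : g (d (y : Ω)) = d (y : Ω) := g.commutes ⟨d (y : Ω), hdF _ y.2⟩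
      rw [this, RingEquiv.symm_apply_apply]
    · intro w
      change g (d w) = d (d.symm (g (d w)))
      rw [RingEquiv.apply_symm_apply]
  have hn2 : ∀ g : Ω ≃ₐ[K⟮z⟯] Ω, ∃ g' : Ω ≃ₐ[K⟮z⟯] Ω, ∀ w, g (d.symm w) = d.symm (g' w) := by
    intro g
    refine ⟨AlgEquiv.ofRingEquiv (f := (d.symm.trans g.toRingEquiv).trans d) ?_, ?_⟩
    · intro y
      change d (g (d.symm (y : Ω))) = (y : Ω)
      have : g (d.symm (y : Ω)) = d.symm (y : Ω) := g.commutes ⟨d.symm (y : Ω), hdsF _ y.2⟩
      rw [this, RingEquiv.apply_symm_apply]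
    · intro w
      change g (d.symm w) = d.symm (d (g (d.symm w)))
      rw [RingEquiv.symm_apply_apply]
  have hres : ∀ a : K⟮z⟯, algebraMap K⟮z⟯ Ω a ∈ W →
      W.valuation (d (algebraMap K⟮z⟯ Ω a) - algebraMap K⟮z⟯ Ω a) < 1 := by
    intro y hyW
    obtain ⟨α, β, hy⟩ := rep z f hz (y : Ω) y.2
    change (y : Ω) ∈ W at hyW
    change W.valuation (dK (y : Ω) - (y : Ω)) < 1
    rw [hy] at hyW ⊢
    have : dK (algebraMap K Ω α + algebraMap K Ω β * z) - (algebraMap K Ω α + algebraMap K Ω β * z) =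
        algebraMap K Ω β := by
      rw [map_add, map_mul, AlgEquiv.commutes, AlgEquiv.commutes, hdz]; ring
    rw [this]
    exact hβ β ((hmemW _ _).1 hyW).2
  obtain ⟨g, hg1, hg2⟩ := exists_lift (F := K⟮z⟯) W d hdW hn1 hn2 hres
  have hBd : ∀ b ∈ conjRing K⟮z⟯ W, d b ∈ conjRing K⟮z⟯ W := by
    intro b hb h
    obtain ⟨h', hh'⟩ := hn1 h
    rw [hh', hdW]; exact hb h'
  have hBg : ∀ (h : Ω ≃ₐ[K⟮z⟯] Ω), ∀ b ∈ conjRing K⟮z⟯ W, h b ∈ conjRing K⟮z⟯ W :=
    fun h b hb h' => hb (h.trans h')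
  let σ : Ω ≃ₐ[K] Ω := dK.trans (g.symm.restrictScalars K)
  have hσ : ∀ w, σ w = g.symm (d w) := fun _ => rfl
  have hσB : ∀ b ∈ conjRing K⟮z⟯ W, W.valuation (σ b - b) < 1 := by
    intro b hb
    have e : σ b - b = g.symm (d b - g b) := by
      rw [hσ, map_sub, AlgEquiv.symm_apply_apply]
    rw [e]
    have h1 : d b - g b ∈ conjRing K⟮z⟯ W := sub_mem (hBd b hb) (hBg g b hb)
    rw [← hg2 _ (hBg g.symm _ h1), AlgEquiv.apply_symm_apply]
    have := hg1 b hb
    rwa [Valuation.map_sub_swap] at this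
  refine ⟨σ, fun w hw => ?_, ?_⟩
  · obtain ⟨b, s, hs1, hws, hV⟩ := exists_loc (K := K) W w hw
    have hbs : b ∈ conjRing K⟮z⟯ W ∧ s ∈ conjRing K⟮z⟯ W := by
      have key : ∀ h : Ω ≃ₐ[K⟮z⟯] Ω, h b ∈ W ∧ h s ∈ W := by
        intro h
        refine hV (W.comap (h : Ω →+* Ω)) fun a ha => ?_
        change h (algebraMap K Ω a) ∈ W
        have : h (algebraMap K Ω a) = algebraMap K Ω a := h.commutes ⟨algebraMap K Ω a, hKF a⟩
        rw [this]; exact ha
      exact ⟨fun h => (key h).1, fun h => (key h).2⟩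
    have hb1 := hσB b hbs.1
    have hs2 := hσB s hbs.2
    have hσs : W.valuation (σ s) = 1 := by
      have : σ s = (σ s - s) + s := by ring
      rw [this, Valuation.map_add_eq_of_lt_right, hs1]
      rw [hs1]; exact hs2
    have hs0 : s ≠ 0 := (W.valuation.ne_zero_iff).1 (by rw [hs1]; exact one_ne_zero)
    have hσs0 : σ s ≠ 0 := (W.valuation.ne_zero_iff).1 (by rw [hσs]; exact one_ne_zero)
    have e : (σ w - w) * σ s = (σ b - b) - w * (σ s - s) := by
      rw [← hws, map_mul]; ring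
    have h2 : W.valuation ((σ w - w) * σ s) < 1 := by
      rw [e]
      refine lt_of_le_of_lt (W.valuation.map_sub _ _) (max_lt hb1 ?_)
      rw [map_mul]
      exact (mul_le_of_le_one_left zero_le ((W.valuation_le_one_iff _).2 hw)).trans_lt hs2
    rwa [map_mul, hσs, mul_one] at h2
  · rw [hσ, hd, hdz, map_add, map_one]
    have : g.symm z = z := g.symm.commutes ⟨z, hzF⟩
    rw [this]

end Main

end TameSite
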