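import Pool.Agent.Lib_helper87.Tame.Defs

/-!
# From the inertia group to the ramification group
-/

namespace TameSite

open Filter

section

variable {K Ω : Type*} [Field K] [Field Ω] [Algebra K Ω]

/-- Powers of an automorphism of the inertia group. -/
private lemma iner_pow (W : ValuationSubring Ω) (σ₁ : Ω ≃ₐ[K] Ω)
    (h1 : ∀ w ∈ W, W.valuation (σ₁ w - w) < 1) (j : ℕ) :
    ∀ w ∈ W, W.valuation ((σ₁ ^ j) w - w) < 1 ∧ (σ₁ ^ j) w ∈ W := by
  induction j with
  | zero => intro w hw; simp [hw]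
  | succ j ih =>
    intro w hw
    obtain ⟨h2, h3⟩ := ih w hw
    have e : (σ₁ ^ (j + 1)) w = σ₁ ((σ₁ ^ j) w) := by
      rw [pow_succ', AlgEquiv.mul_apply]
    have h4 := h1 _ h3
    have h5 : W.valuation ((σ₁ ^ (j + 1)) w - w) < 1 := by
      have : (σ₁ ^ (j + 1)) w - w = (σ₁ ((σ₁ ^ j) w) - (σ₁ ^ j) w) + ((σ₁ ^ j) w - w) := by
        rw [e]; ring
      rw [this]
      exact lt_of_le_of_lt (W.valuation.map_add _ _) (max_lt h4 h2)
    refine ⟨h5, ?_⟩
    have : (σ₁ ^ (j + 1)) w = ((σ₁ ^ (j + 1)) w - w) + w := by ring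
    rw [this]
    exact W.add_mem _ _ ((W.valuation_le_one_iff _).1 h5.le) hw

private lemma iner_not_mem (W : ValuationSubring Ω) (σ₁ : Ω ≃ₐ[K] Ω)
    (h1 : ∀ w ∈ W, W.valuation (σ₁ w - w) < 1) (w : Ω) (hw : W.valuation w < 1) :
    W.valuation (σ₁ w) < 1 := by
  have hm : w ∈ W := (W.valuation_le_one_iff _).1 hw.le
  have : σ₁ w = (σ₁ w - w) + w := by ring
  rw [this]
  exact lt_of_le_of_lt (W.valuation.map_add _ _) (max_lt (h1 w hm) hw)

private lemma exists_period [Algebra.IsAlgebraic K Ω] (σ₁ : Ω ≃ₐ[K] Ω) (w : Ω) :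
    ∃ M : ℕ, 0 < M ∧ (σ₁ ^ M) w = w := by
  have hfin : (Set.range fun j : ℕ => (σ₁ ^ j) w).Finite := by
    refine Set.Finite.subset ((minpoly K w).rootSet_finite Ω) ?_
    rintro _ ⟨j, rfl⟩
    have hint : IsIntegral K w := Algebra.IsIntegral.isIntegral w
    rw [Polynomial.mem_rootSet]
    refine ⟨minpoly.ne_zero hint, ?_⟩
    have := congrArg (σ₁ ^ j) (minpoly.aeval K w)
    rw [map_zero, ← Polynomial.aeval_algHom_apply] at this
    exact this
  have hnotinj : ¬ Function.Injective (fun j : ℕ => (σ₁ ^ j) w) := by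
    intro hinj
    exact (Set.infinite_range_of_injective hinj) hfin
  rw [Function.Injective] at hnotinj
  push Not at hnotinj
  obtain ⟨i, j, hij, hne⟩ := hnotinj
  rcases lt_or_gt_of_ne hne with h | h
  · refine ⟨j - i, by omega, ?_⟩
    have e : (σ₁ ^ j) w = (σ₁ ^ i) ((σ₁ ^ (j - i)) w) := by
      rw [← AlgEquiv.mul_apply, ← pow_add]; congr 2; omega
    rw [e] at hij
    exact ((σ₁ ^ i).injective hij).symm
  · refine ⟨i - j, by omega, ?_⟩
    have e : (σ₁ ^ i) w = (σ₁ ^ j) ((σ₁ ^ (i - j)) w) := by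
      rw [← AlgEquiv.mul_apply, ← pow_add]; congr 2; omega
    rw [e] at hij
    exact (σ₁ ^ j).injective hij

/-- The inertia group preserves the valuation. -/
private lemma iner_val [Algebra.IsAlgebraic K Ω] (W : ValuationSubring Ω) (σ₁ : Ω ≃ₐ[K] Ω)
    (h1 : ∀ w ∈ W, W.valuation (σ₁ w - w) < 1) (w : Ω) (hw : w ≠ 0) :
    W.valuation (σ₁ w / w) = 1 := by
  -- σ₁ preserves the relation `v x < v y`
  have hmono : ∀ x y : Ω, y ≠ 0 → W.valuation x < W.valuation y →
      W.valuation (σ₁ x) < W.valuation (σ₁ y) := by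
    intro x y hy hxy
    have hvy : W.valuation y ≠ 0 := (W.valuation.ne_zero_iff).2 hy
    have h2 : W.valuation (x / y) < 1 := by
      rw [map_div₀]; exact (div_lt_one₀ (zero_lt_iff.2 hvy)).2 hxy
    have h3 := iner_not_mem W σ₁ h1 _ h2
    rw [map_div₀, map_div₀] at h3
    have hvy' : W.valuation (σ₁ y) ≠ 0 := (W.valuation.ne_zero_iff).2 (by simpa using hy)
    exact (div_lt_one₀ (zero_lt_iff.2 hvy')).1 h3
  obtain ⟨M, hM, hMw⟩ := exists_period σ₁ w
  have hne : ∀ j : ℕ, (σ₁ ^ j) w ≠ 0 := fun j h0 => hw ((map_eq_zero (σ₁ ^ j)).1 h0)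
  have hstep : ∀ j : ℕ, (σ₁ ^ (j + 1)) w = σ₁ ((σ₁ ^ j) w) := fun j => by
    rw [pow_succ', AlgEquiv.mul_apply]
  have hvw : W.valuation w ≠ 0 := (W.valuation.ne_zero_iff).2 hw
  have key : W.valuation (σ₁ w) = W.valuation w := by
    rcases lt_trichotomy (W.valuation (σ₁ w)) (W.valuation w) with h | h | h
    · exfalso
      have hdec : ∀ j : ℕ, W.valuation ((σ₁ ^ (j + 1)) w) < W.valuation ((σ₁ ^ j) w) := by
        intro j
        induction j with
        | zero => simpa using h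
        | succ j ih =>
          rw [hstep (j + 1), hstep j]
          have := hmono _ _ (hne j) ih
          rw [hstep j] at this
          exact this
      have := strictAnti_nat_of_succ_lt (f := fun j => W.valuation ((σ₁ ^ j) w)) hdec hM
      simp only [pow_zero, AlgEquiv.one_apply, hMw] at this
      exact lt_irrefl _ this
    · exact h
    · exfalso
      have hdec : ∀ j : ℕ, W.valuation ((σ₁ ^ j) w) < W.valuation ((σ₁ ^ (j + 1)) w) := by
        intro j
        induction j with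
        | zero => simpa using h
        | succ j ih =>
          rw [hstep (j + 1), hstep j]
          have := hmono _ _ (hne (j + 1)) ih
          rw [hstep j] at this
          exact this
      have := strictMono_nat_of_lt_succ (f := fun j => W.valuation ((σ₁ ^ j) w)) hdec hM
      simp only [pow_zero, AlgEquiv.one_apply, hMw] at this
      exact lt_irrefl _ this
  rw [map_div₀, key, div_self hvw]

/-- For all large `n`, `σ₁ ^ a n` is close to the identity on `w`, if `a n` is eventually divisible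
by every odd number. -/
private lemma iner_odd [Algebra.IsAlgebraic K Ω] [CharP K 2] (W : ValuationSubring Ω)
    (σ₁ : Ω ≃ₐ[K] Ω) (h1 : ∀ w ∈ W, W.valuation (σ₁ w - w) < 1) (w : Ω) (hw : w ≠ 0) :
    ∃ m : ℕ, Odd m ∧ ∀ a : ℕ, m ∣ a → W.valuation ((σ₁ ^ a) w / w - 1) < 1 := by
  have hcharΩ : CharP Ω 2 := charP_of_injective_algebraMap (algebraMap K Ω).injective 2
  have hcW : CharP W 2 := by
    refine ⟨fun x => ?_⟩
    rw [← CharP.cast_eq_zero_iff Ω 2 x]
    constructor
    · intro h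
      have := congrArg (fun y : W => (y : Ω)) h
      simpa using this
    · intro h
      apply Subtype.ext
      simpa using h
  obtain ⟨M, hM, hMw⟩ := exists_period σ₁ w
  -- the units `u j = σ₁ ^ j w / w`
  have hval : ∀ j : ℕ, W.valuation ((σ₁ ^ j) w / w) = 1 := by
    intro j
    induction j with
    | zero => simp [hw]
    | succ j ih =>
      have e : (σ₁ ^ (j + 1)) w / w = (σ₁ ((σ₁ ^ j) w) / (σ₁ ^ j) w) * ((σ₁ ^ j) w / w) := by
        rw [pow_succ', AlgEquiv.mul_apply]
        have h0 : (σ₁ ^ j) w ≠ 0 := fun h0 => hw ((map_eq_zero (σ₁ ^ j)).1 h0)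
        field_simp
      rw [e, map_mul, ih, mul_one]
      exact iner_val W σ₁ h1 _ (fun h0 => hw ((map_eq_zero (σ₁ ^ j)).1 h0))
  have hmem : ∀ j : ℕ, (σ₁ ^ j) w / w ∈ W := fun j => (W.valuation_le_one_iff _).1 (hval j).le
  let u : ℕ → W := fun j => ⟨(σ₁ ^ j) w / w, hmem j⟩
  let r : ℕ → IsLocalRing.ResidueField W := fun j => IsLocalRing.residue W (u j)
  have hres : ∀ x : W, IsLocalRing.residue W x = 0 ↔ W.valuation (x : Ω) < 1 := by
    intro x
    rw [IsLocalRing.residue_eq_zero_iff, W.valuation_lt_one_iff]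
  have hadd : ∀ i j : ℕ, r (i + j) = r i * r j := by
    intro i j
    have e : (σ₁ ^ (i + j)) w / w = (σ₁ ^ i) ((σ₁ ^ j) w / w) * ((σ₁ ^ i) w / w) := by
      rw [pow_add, AlgEquiv.mul_apply, map_div₀]
      have h0 : (σ₁ ^ i) w ≠ 0 := fun h0 => hw ((map_eq_zero (σ₁ ^ i)).1 h0)
      field_simp
    have h3 := (iner_pow W σ₁ h1 i _ (hmem j))
    change IsLocalRing.residue W (u (i + j)) = IsLocalRing.residue W (u i) * IsLocalRing.residue W (u j)
    rw [← map_mul, ← sub_eq_zero, ← map_sub, hres]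
    have e2 : ((u (i + j) - u i * u j : W) : Ω) =
        ((σ₁ ^ i) ((σ₁ ^ j) w / w) - (σ₁ ^ j) w / w) * ((σ₁ ^ i) w / w) := by
      change (σ₁ ^ (i + j)) w / w - ((σ₁ ^ i) w / w) * ((σ₁ ^ j) w / w) = _
      rw [e]; ring
    rw [e2, map_mul, hval i, mul_one]
    exact h3.1
  have h0 : r 0 = 1 := by
    change IsLocalRing.residue W (u 0) = 1
    have : u 0 = 1 := Subtype.ext (by change (σ₁ ^ 0) w / w = 1; simp [hw])
    rw [this, map_one]
  have hpow : ∀ j : ℕ, r j = r 1 ^ j := by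
    intro j
    induction j with
    | zero => rw [h0, pow_zero]
    | succ j ih => rw [hadd, ih, pow_succ]
  have hrM : r 1 ^ M = 1 := by
    rw [← hpow]
    change IsLocalRing.residue W (u M) = 1
    have : u M = 1 := Subtype.ext (by change (σ₁ ^ M) w / w = 1; rw [hMw]; exact div_self hw)
    rw [this, map_one]
  obtain ⟨k, m, hm, rfl⟩ := Nat.exists_eq_two_pow_mul_odd hM.ne'
  have hcR : CharP (IsLocalRing.ResidueField W) 2 := by
    have h2 : ((2 : ℕ) : IsLocalRing.ResidueField W) = 0 := by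
      have := congrArg (IsLocalRing.residue W) (CharP.cast_eq_zero W 2)
      rwa [map_natCast, map_zero] at this
    exact CharTwo.of_one_ne_zero_of_two_eq_zero one_ne_zero (by exact_mod_cast h2)
  have hr1m : r 1 ^ m = 1 := by
    have h2 : (r 1 ^ m) ^ 2 ^ k = 1 := by rw [← pow_mul, mul_comm m]; exact hrM
    have : Fact (Nat.Prime 2) := ⟨Nat.prime_two⟩
    have : ExpChar (IsLocalRing.ResidueField W) 2 := ExpChar.prime Nat.prime_two
    have h3 := (iterateFrobenius_inj (IsLocalRing.ResidueField W) 2 k)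
    apply h3
    simp only [iterateFrobenius_def]
    rw [h2, one_pow]
  refine ⟨m, hm, ?_⟩
  rintro a ⟨c, rfl⟩
  have h4 : r (m * c) = 1 := by rw [hpow, pow_mul, hr1m, one_pow]
  have h5 : IsLocalRing.residue W (u (m * c) - 1) = 0 := by rw [map_sub, map_one]; exact sub_eq_zero.2 h4
  rw [hres] at h5
  exact h5

/-- From the inertia group to the ramification group. -/
theorem exists_wild_of_inertia {K Ω : Type*} [Field K] [Field Ω] [Algebra K Ω]
    [IsGalois K Ω] [CharP K 2] (W : ValuationSubring Ω) (z : Ω) (σ₁ : Ω ≃ₐ[K] Ω)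
    (h1 : ∀ w ∈ W, W.valuation (σ₁ w - w) < 1) (h2 : σ₁ z = z + 1) :
    ∃ σ : Ω ≃ₐ[K] Ω, Wild W (σ : Ω ≃+* Ω) ∧ σ z = z + 1 := by
  have hcharΩ : CharP Ω 2 := charP_of_injective_algebraMap (algebraMap K Ω).injective 2
  let a : ℕ → ℕ := fun n => ∏ i ∈ Finset.range (n + 1), (2 * i + 1)
  have haodd : ∀ n, Odd (a n) := by
    intro n
    refine Finset.prod_induction _ Odd (fun _ _ => Odd.mul) odd_one ?_
    intro i _
    exact ⟨i, rfl⟩
  have hadvd : ∀ m : ℕ, Odd m → ∀ᶠ n in (hyperfilter ℕ : Filter ℕ), m ∣ a n := by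
    rintro m ⟨j, rfl⟩
    refine Filter.Eventually.filter_mono Nat.hyperfilter_le_atTop ?_
    filter_upwards [eventually_ge_atTop j] with n hn
    exact Finset.dvd_prod_of_mem (fun i => 2 * i + 1) (Finset.mem_range.2 (by omega))
  -- the limit
  have hlim : ∀ w : Ω, ∃ w' : Ω, ∀ᶠ n in (hyperfilter ℕ : Filter ℕ), (σ₁ ^ a n) w = w' := by
    intro w
    have hfin : ((minpoly K w).rootSet Ω).Finite := (minpoly K w).rootSet_finite Ω
    have hint : IsIntegral K w := Algebra.IsIntegral.isIntegral w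
    have hex : ∀ᶠ n in (hyperfilter ℕ : Filter ℕ), ∃ w' ∈ (minpoly K w).rootSet Ω,
        (σ₁ ^ a n) w = w' := by
      refine Filter.Eventually.of_forall fun n => ⟨_, ?_, rfl⟩
      rw [Polynomial.mem_rootSet]
      refine ⟨minpoly.ne_zero hint, ?_⟩
      have := congrArg (σ₁ ^ a n) (minpoly.aeval K w)
      rw [map_zero, ← Polynomial.aeval_algHom_apply] at this
      exact this
    rw [Ultrafilter.eventually_exists_mem_iff hfin] at hex
    obtain ⟨w', _, h⟩ := hex
    exact ⟨w', h⟩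
  choose L hL using hlim
  have hne : (hyperfilter ℕ : Filter ℕ).NeBot := inferInstance
  let F : Ω →ₐ[K] Ω :=
    { toFun := L
      map_one' := by
        obtain ⟨n, hn⟩ := (hL 1).exists
        rw [← hn, map_one]
      map_mul' := by
        intro x y
        obtain ⟨n, ⟨hn1, hn2⟩, hn3⟩ := (((hL (x * y)).and (hL x)).and (hL y)).exists
        rw [← hn1, ← hn2, ← hn3, map_mul]
      map_zero' := by
        obtain ⟨n, hn⟩ := (hL 0).exists
        rw [← hn, map_zero]
      map_add' := by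
        intro x y
        obtain ⟨n, ⟨hn1, hn2⟩, hn3⟩ := (((hL (x + y)).and (hL x)).and (hL y)).exists
        rw [← hn1, ← hn2, ← hn3, map_add]
      commutes' := by
        intro x
        obtain ⟨n, hn⟩ := (hL (algebraMap K Ω x)).exists
        rw [← hn, AlgEquiv.commutes] }
  have hF : ∀ w, F w = L w := fun _ => rfl
  refine ⟨AlgEquiv.ofBijective F (Algebra.IsAlgebraic.algHom_bijective F), ?_, ?_⟩
  · intro w hw
    obtain ⟨m, hm, hmw⟩ := iner_odd W σ₁ h1 w hw
    obtain ⟨n, hn1, hn2⟩ := ((hL w).and (hadvd m hm)).exists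
    have := hmw _ hn2
    rw [hn1] at this
    exact this
  · obtain ⟨n, hn⟩ := (hL z).exists
    have hj : ∀ j : ℕ, (σ₁ ^ j) z = z + (j : Ω) := by
      intro j
      induction j with
      | zero => simp
      | succ j ih =>
        rw [pow_succ', AlgEquiv.mul_apply, ih, map_add, h2, map_natCast]
        push_cast; ring
    change F z = z + 1
    rw [hF, ← hn, hj]
    obtain ⟨c, hc⟩ := haodd n
    rw [hc]
    push_cast
    have : (2 : Ω) = 0 := by exact_mod_cast CharP.cast_eq_zero Ω 2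
    rw [this]; ring

end

end TameSite
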