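import Pool.Agent.Lib_helper87.Tame.ValExt
import Pool.Agent.Lib_helper87.Tame.Inertia
import Pool.Agent.Lib_helper87.Tame.WildInertia
import Pool.Agent.Lib_helper87.Tame.AlgDefs

/-!
# Common lemmas for the blocks E1, E2, E3
-/

namespace TameSite

open Polynomial IntermediateField

section Basic

variable {Ω : Type*} [Field Ω]

theorem unit_val_iff (W : ValuationSubring Ω) {x : Ω} (hx : x ≠ 0) :
    W.valuation x = 1 ↔ x ∈ W ∧ x⁻¹ ∈ W := by
  rw [← W.valuation_le_one_iff, ← W.valuation_le_one_iff, map_inv₀]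
  have hx' : W.valuation x ≠ 0 := (Valuation.ne_zero_iff _).2 hx
  constructor
  · intro h; rw [h]; simp
  · rintro ⟨h1, h2⟩
    refine le_antisymm h1 ?_
    by_contra h3
    rw [not_le] at h3
    have := (one_lt_inv₀ (zero_lt_iff.2 hx')).2 h3
    exact absurd h2 (not_le.2 this)

theorem not_mem_iff (W : ValuationSubring Ω) (x : Ω) : x ∉ W ↔ 1 < W.valuation x := by
  rw [← W.valuation_le_one_iff, not_le]

theorem root_mem (W : ValuationSubring Ω) {z : Ω} (h : z ^ 2 + z ∈ W) : z ∈ W := by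
  by_contra hz
  rw [not_mem_iff] at hz
  have h1 : W.valuation z < W.valuation (z ^ 2) := by
    rw [map_pow, sq]
    calc W.valuation z = W.valuation z * 1 := (mul_one _).symm
      _ < W.valuation z * W.valuation z := by
        exact mul_lt_mul_of_pos_left hz (lt_trans zero_lt_one hz)
  have h2 : W.valuation (z ^ 2 + z) = W.valuation (z ^ 2) :=
    Valuation.map_add_eq_of_lt_left _ h1
  rw [← W.valuation_le_one_iff, h2] at h
  exact absurd (lt_of_lt_of_le (lt_trans hz h1) h) (lt_irrefl _)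

theorem eq_or_eq_add_one [CharP Ω 2] {z w : Ω} (h : z ^ 2 + z = w ^ 2 + w) : w = z ∨ w = z + 1 := by
  have h0 : (w - z) * (w - (z + 1)) = 0 := by
    have h2 : (2 : Ω) = 0 := CharTwo.two_eq_zero
    linear_combination (-1 : Ω) * h + (z ^ 2 + z - w * z - w) * h2
  rcases mul_eq_zero.1 h0 with h1 | h1
  · left; exact sub_eq_zero.1 h1
  · right; exact sub_eq_zero.1 h1

theorem wild_fix (W : ValuationSubring Ω) (σ : Ω ≃+* Ω) (hσ : Wild W σ) {z : Ω} (hz : z ∈ W)
    (h : σ z = z ∨ σ z = z + 1) : σ z = z := by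
  rcases h with h | h
  · exact h
  · by_cases h0 : z = 0
    · subst h0; simp
    · have h1 := hσ z h0
      rw [h] at h1
      have h2 : (z + 1) / z - 1 = z⁻¹ := by field_simp; ring
      rw [h2, map_inv₀] at h1
      have h3 : W.valuation z ≠ 0 := (Valuation.ne_zero_iff _).2 h0
      have h4 := (inv_lt_one₀ (zero_lt_iff.2 h3)).1 h1
      rw [← W.valuation_le_one_iff] at hz
      exact absurd h4 (not_lt.2 hz)

theorem wild_fix_root [CharP Ω 2] (W : ValuationSubring Ω) (σ : Ω ≃+* Ω) (hσ : Wild W σ) {z r : Ω}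
    (h : z ^ 2 + z = r) (hr : r ∈ W) (hσr : σ r = r) : σ z = z := by
  refine wild_fix W σ hσ (root_mem W (h ▸ hr)) (eq_or_eq_add_one ?_)
  rw [h, ← hσr, ← h]; simp

theorem exists_AS_root [IsSepClosed Ω] [CharP Ω 2] (r : Ω) : ∃ z : Ω, z ^ 2 + z = r := by
  have hsep : (X ^ 2 + X - C r : Polynomial Ω).Separable := by
    rw [Polynomial.separable_def']
    refine ⟨0, 1, ?_⟩
    simp only [derivative_sub, derivative_add, derivative_X_pow, derivative_X, derivative_C]
    simp [CharTwo.two_eq_zero]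
  have hdeg : (X ^ 2 + X - C r : Polynomial Ω).degree = 2 := by compute_degree!
  obtain ⟨z, hz⟩ := IsSepClosed.exists_root (X ^ 2 + X - C r : Polynomial Ω) (by rw [hdeg]; decide) hsep
  refine ⟨z, ?_⟩
  simp only [IsRoot.def, eval_sub, eval_add, eval_pow, eval_X, eval_C] at hz
  exact sub_eq_zero.1 hz

variable {K : Type*} [Field K] [Algebra K Ω]

theorem Unr.add_wp [CharP Ω 2] {W : ValuationSubring Ω} {a : Ω} (h : Unr K W a) (c : K) :
    Unr K W (a + (algebraMap K Ω c ^ 2 + algebraMap K Ω c)) := by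
  obtain ⟨z, hz, hσ⟩ := h
  refine ⟨z + algebraMap K Ω c, ?_, fun σ h => ?_⟩
  · rw [← hz]
    have h2 : (2 : Ω) = 0 := CharTwo.two_eq_zero
    linear_combination (z * algebraMap K Ω c) * h2
  · rw [map_add, hσ σ h, AlgEquiv.commutes]

theorem Unr.add_mem [IsSepClosed Ω] [CharP Ω 2] {W : ValuationSubring Ω} {a : Ω} (h : Unr K W a)
    {r : Ω} (hr : r ∈ W) (hσr : ∀ σ : Ω ≃ₐ[K] Ω, Wild W (σ : Ω ≃+* Ω) → σ r = r) :
    Unr K W (a + r) := by
  obtain ⟨z, hz, hσ⟩ := h
  obtain ⟨w, hw⟩ := exists_AS_root r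
  refine ⟨z + w, ?_, fun σ h => ?_⟩
  · rw [← hz, ← hw]
    have h2 : (2 : Ω) = 0 := CharTwo.two_eq_zero
    linear_combination (z * w) * h2
  · rw [map_add, hσ σ h]
    have := wild_fix_root W (σ : Ω ≃+* Ω) h hw hr (hσr σ h)
    exact congrArg (z + ·) this

theorem not_unr [IsGalois K Ω] [CharP K 2] {W : ValuationSubring Ω} (f : K)
    (hf : algebraMap K Ω f ∉ W)
    (hodd : ∀ y : K, W.valuation (algebraMap K Ω (f * y ^ 2)) ≠ 1) :
    ¬ Unr K W (algebraMap K Ω f) := by
  rintro ⟨z, hz, hσ⟩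
  obtain ⟨σ₁, h1, h2⟩ := exists_inertia W z f hz hf hodd
  obtain ⟨σ, h3, h4⟩ := exists_wild_of_inertia W z σ₁ h1 h2
  have h5 := hσ σ h3
  rw [h4] at h5
  simp at h5

end Basic

end TameSite
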