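import Pool.Agent.Lib_helper87.Tame.TwistDefs
import Pool.Agent.Lib_helper87.Tame.ConstEtale

/-!
# The inverse image of the tame Tate twist of weight zero is a constant sheaf
-/

namespace TameSite

universe u

open CategoryTheory AlgebraicGeometry Limits Opposite

/-- The scheme `X` is the final object of the category of étale `X`-schemes. -/
noncomputable def isTerminalMkId (X : Scheme.{u}) : IsTerminal (Scheme.Etale.mk (𝟙 X)) :=
  IsTerminal.ofUniqueHom (fun U => MorphismProperty.Over.homMk U.hom (Category.comp_id _) trivial)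
    (fun U m => by
      apply MorphismProperty.Over.Hom.ext
      have := etale_left_hom m
      exact (Category.comp_id _).symm.trans this)

theorem tamePullback_constantSheaf {X Y S : Scheme.{u}} (g : Y ⟶ X) (f : X ⟶ S)
    (M : AddCommGrpCat.{u + 1}) :
    Nonempty ((tamePullback g f).obj ((constantSheaf (tameTopology f) AddCommGrpCat.{u + 1}).obj M)
      ≅ (constantSheaf (tameTopology (g ≫ f)) AddCommGrpCat.{u + 1}).obj M) := by
  have := baseChange_isContinuous g f
  have : PreservesFiniteLimits (baseChange g) := baseChange_preservesFiniteLimits g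
  let adj1 := (constantSheafAdj (tameTopology f) AddCommGrpCat.{u + 1} (isTerminalMkId X)).comp
    ((baseChange g).sheafAdjunctionContinuous AddCommGrpCat.{u + 1} (tameTopology f)
      (tameTopology (g ≫ f)))
  let hT : IsTerminal ((baseChange g).obj (Scheme.Etale.mk (𝟙 X))) :=
    IsTerminal.isTerminalObj (baseChange g) _ (isTerminalMkId X)
  let adj2 := constantSheafAdj (tameTopology (g ≫ f)) AddCommGrpCat.{u + 1} hT
  exact ⟨(adj1.leftAdjointUniq adj2).app M⟩

theorem tameTwistZero_iso {X S : Scheme.{u}} (f : X ⟶ S) (p r : ℕ) :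
    Nonempty ((constantSheaf (tameTopology f) AddCommGrpCat.{u + 1}).obj
      (AddCommGrpCat.of (ULift.{u + 1} (ZMod (p ^ r)))) ≅ tameTwistZero f p r) :=
  constantSheaf_iso_pushforward (tame_le_et f) (nis_le_tame f) _

theorem pullbackTwistZero_iso {X Y Z S : Scheme.{u}} (i : Z ⟶ Y) (j : Y ⟶ X) (f : X ⟶ S)
    (p r : ℕ) : Nonempty (pullbackTwistZero i j f p r ≅
      (constantSheaf (tameTopology (i ≫ j ≫ f)) AddCommGrpCat.{u + 1}).obj
      (AddCommGrpCat.of (ULift.{u + 1} (ZMod (p ^ r))))) := by
  obtain ⟨e1⟩ := tameTwistZero_iso f p r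
  obtain ⟨e2⟩ := tamePullback_constantSheaf j f (AddCommGrpCat.of (ULift.{u + 1} (ZMod (p ^ r))))
  obtain ⟨e3⟩ := tamePullback_constantSheaf i (j ≫ f)
    (AddCommGrpCat.of (ULift.{u + 1} (ZMod (p ^ r))))
  exact ⟨(tamePullback i (j ≫ f)).mapIso ((tamePullback j f).mapIso e1.symm ≪≫ e2) ≪≫ e3⟩

end TameSite
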