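import Pool.Agent.Lib_helper87.Tame.Core3
import Pool.Agent.Lib_helper87.Tame.Twist

/-!
# The counterexample
-/

namespace TameSite

open CategoryTheory AlgebraicGeometry Limits Opposite IntermediateField

/-- The counterexample over `ℤ₂`. -/
theorem exists_counterexample :
    ∃ (B : Type) (_ : CommRing B) (_ : Algebra ℤ_[2] B), Algebra.Smooth ℤ_[2] B ∧
      ∀ (H : CommRingCat.{0}) (j : .of B ⟶ H) (i : H ⟶ modPi B (2 : ℤ_[2])),
        ¬ IsZero (directImageTwist (CommRingCat.ofHom (algebraMap ℤ_[2] B)) j i 2 1 2) := by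
  obtain ⟨hirr, hchar0, hchar2, hperf, hθ⟩ := padic_facts
  have hsep : ∃ h : SeparableClosure (RatFunc (ZMod 2)), h ^ 2 + h =
      algebraMap (RatFunc (ZMod 2)) _ (RatFunc.X + RatFunc.X⁻¹) := by
    have : CharP (SeparableClosure (RatFunc (ZMod 2))) 2 := charP_of_injective_algebraMap
      (algebraMap (RatFunc (ZMod 2)) (SeparableClosure (RatFunc (ZMod 2)))).injective 2
    obtain ⟨z, hz⟩ := IsSepClosed.exists_root_C_mul_X_pow_add_C_mul_X_add_C (n := 2)
      (1 : SeparableClosure (RatFunc (ZMod 2))) 1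
      (-algebraMap (RatFunc (ZMod 2)) _ (RatFunc.X + RatFunc.X⁻¹))
      (by exact_mod_cast CharTwo.two_eq_zero) le_rfl one_ne_zero
    exact ⟨z, by linear_combination hz⟩
  obtain ⟨h, hh⟩ := hsep
  obtain ⟨B, _, _, hsm, x, x', h', χ, hxx', hh', hχx, hχh, hχ⟩ := exists_ring h hh
  refine ⟨B, inferInstance, inferInstance, hsm, fun H j i => ?_⟩
  have h2 : (2 : B ⧸ Ideal.span {algebraMap ℤ_[2] B 2}) = 0 := by
    have := Ideal.Quotient.eq_zero_iff_mem.2
      (Ideal.subset_span (Set.mem_singleton (algebraMap ℤ_[2] B 2)))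
    exact ((congrArg (Ideal.Quotient.mk (Ideal.span {algebraMap ℤ_[2] B 2}))
      (map_ofNat (algebraMap ℤ_[2] B) 2)).trans (map_ofNat _ 2)).symm.trans this
  have h2' : (2 : Γ(Spec (modPi B (2 : ℤ_[2])), ⊤)) = 0 := by
    have := congrArg (Scheme.ΓSpecIso (modPi B (2 : ℤ_[2]))).inv.hom h2
    exact (map_ofNat (Scheme.ΓSpecIso (modPi B (2 : ℤ_[2]))).inv.hom
      2).symm.trans (this.trans (map_zero _))
  intro hz
  obtain ⟨e⟩ := pullbackTwistZero_iso (Spec.map i) (Spec.map j)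
    (Spec.map (CommRingCat.ofHom (algebraMap ℤ_[2] B))) 2 1
  obtain ⟨e'⟩ := constantSheaf_iso_kernel (tame_le_etale (Spec.map i ≫ Spec.map j ≫
    Spec.map (CommRingCat.ofHom (algebraMap ℤ_[2] B)))) (nisnevich_le_tame _) h2'
  refine not_isZero_kernel h hh (modPi B (2 : ℤ_[2])) h2 x x' h' χ hxx'
    hh' hχx hχ (Spec.map i ≫ Spec.map j ≫
      Spec.map (CommRingCat.ofHom (algebraMap ℤ_[2] B))) ?_ h2' ?_
  · intro W₀
    let θ : ℤ_[2] →+* SeparableClosure (RatFunc (ZMod 2)) :=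
      χ.comp (i.hom.comp (j.hom.comp (algebraMap ℤ_[2] B)))
    have hθ2 : θ 2 = 0 := by
      have e2 : (i.hom.comp (j.hom.comp (algebraMap ℤ_[2] B))) 2 = 0 :=
        (map_ofNat _ 2).trans h2
      exact (congrArg χ e2).trans (map_zero χ)
    have hmem : ∀ a, θ a ∈ W₀ := fun a => by
      rcases hθ _ θ hθ2 a with h | h
      · rw [h]; exact zero_mem _
      · rw [h]; exact one_mem _
    refine ⟨Spec.map (CommRingCat.ofHom (θ.codRestrict W₀.toSubring hmem)), ?_⟩
    rw [← Spec.map_comp, ← Spec.map_comp, ← Spec.map_comp, ← Spec.map_comp]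
    rfl
  · exact hz.of_iso ((derivedBeta (Spec.map i ≫ Spec.map j ≫
      Spec.map (CommRingCat.ofHom (algebraMap ℤ_[2] B))) 2).mapIso (e ≪≫ e').symm)

end TameSite
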