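import Pool.Agent.Lib_helper87.Tame.Act

/-!
# Stabilizers of geometric points are open
-/

namespace TameSite

universe u

open CategoryTheory AlgebraicGeometry Limits Opposite

lemma residue_finite {X Y : Scheme.{u}} (f : X ⟶ Y) [Etale f] (x : X) :
    (f.residueFieldMap x).hom.Finite := by
  algebraize [(f.stalkMap x).hom]
  have : IsLocalHom (algebraMap (Y.presheaf.stalk (f x)) (X.presheaf.stalk x)) :=
    inferInstanceAs <| IsLocalHom (f.stalkMap x).hom
  have : Algebra.EssFiniteType (Y.presheaf.stalk (f x)) (X.presheaf.stalk x) := by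
    rw [← RingHom.essFiniteType_algebraMap, RingHom.algebraMap_toAlgebra]
    exact LocallyOfFiniteType.stalkMap f x
  have : Algebra.FormallyUnramified (Y.presheaf.stalk (f x)) (X.presheaf.stalk x) := by
    rw [← RingHom.formallyUnramified_algebraMap, RingHom.algebraMap_toAlgebra]
    exact FormallyUnramified.stalkMap f x
  have h : Module.Finite (IsLocalRing.ResidueField <| Y.presheaf.stalk (f x))
      (IsLocalRing.ResidueField <| X.presheaf.stalk x) := inferInstance
  have e : ∀ y, (f.residueFieldMap x).hom y =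
      algebraMap (IsLocalRing.ResidueField <| Y.presheaf.stalk (f x))
      (IsLocalRing.ResidueField <| X.presheaf.stalk x) y := by
    intro y
    obtain ⟨y, rfl⟩ := IsLocalRing.residue_surjective y
    rfl
  have e' : (f.residueFieldMap x).hom =
      (algebraMap (IsLocalRing.ResidueField <| Y.presheaf.stalk (f x))
      (IsLocalRing.ResidueField <| X.presheaf.stalk x) : _ →+* _) := RingHom.ext e
  have h' := RingHom.finite_algebraMap.2 h
  rw [← e'] at h'
  exact h'

/-- Finite generation. -/
lemma exists_finite_level {k l κ Ω : Type*} [Field k] [Field l] [Field κ] [Field Ω] [Algebra κ Ω]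
    [Algebra.IsAlgebraic κ Ω] (r : k →+* l) (hr : r.Finite) (a : l →+* Ω)
    (ha : ∀ c : k, a (r c) ∈ (algebraMap κ Ω).range) :
    ∃ L : IntermediateField κ Ω, FiniteDimensional κ L ∧ ∀ y : l, a y ∈ L := by
  let := r.toAlgebra
  have hf : Module.Finite k l := hr
  obtain ⟨S, hS⟩ := hf.fg_top
  refine ⟨IntermediateField.adjoin κ (a '' (S : Set l)), ?_, fun y => ?_⟩
  · have : Finite (a '' (S : Set l)) := (S.finite_toSet.image a)
    exact IntermediateField.finiteDimensional_adjoin fun x _ =>
      Algebra.IsIntegral.isIntegral x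
  · have hy : y ∈ Submodule.span k (S : Set l) := by rw [hS]; trivial
    induction hy using Submodule.span_induction with
    | mem x hx => exact IntermediateField.subset_adjoin _ _ (Set.mem_image_of_mem a hx)
    | zero => rw [map_zero]; exact zero_mem _
    | add x y _ _ hx hy => rw [map_add]; exact add_mem hx hy
    | smul c x _ hx =>
      rw [Algebra.smul_def, map_mul]
      refine mul_mem ?_ hx
      obtain ⟨d, hd⟩ := ha c
      show a (r c) ∈ _
      rw [← hd]
      exact IntermediateField.algebraMap_mem _ d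

/-- The stabilizer of a geometric point is open. -/
theorem exists_open_stabilizer {X : Scheme.{u}} {κ Ω : Type u} [Field κ] [Field Ω] [Algebra κ Ω]
    [Algebra.IsAlgebraic κ Ω] {W : X.Etale} (ψ : Spec (.of Ω) ⟶ W.left) (v : Spec (.of κ) ⟶ X)
    (hv : ψ ≫ W.hom = Spec.map (CommRingCat.ofHom (algebraMap κ Ω)) ≫ v) :
    ∃ L : IntermediateField κ Ω, FiniteDimensional κ L ∧ ∀ σ ∈ L.fixingSubgroup,
      specAut ((σ : Ω ≃ₐ[κ] Ω) : Ω ≃+* Ω) ≫ ψ = ψ := by
  obtain ⟨⟨w, a⟩, rfl⟩ := (Scheme.SpecToEquivOfField Ω W.left).symm.surjective ψ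
  obtain ⟨⟨x, b⟩, rfl⟩ := (Scheme.SpecToEquivOfField κ X).symm.surjective v
  have h1 : (Scheme.SpecToEquivOfField Ω X).symm ⟨W.hom w, W.hom.residueFieldMap w ≫ a⟩ =
      (Scheme.SpecToEquivOfField Ω X).symm ⟨x, b ≫ CommRingCat.ofHom (algebraMap κ Ω)⟩ := by
    simpa [Scheme.SpecToEquivOfField] using hv
  have h2 := (Scheme.SpecToEquivOfField Ω X).symm.injective h1
  rw [Scheme.SpecToEquivOfField_eq_iff] at h2
  obtain ⟨e, he⟩ := h2
  obtain ⟨L, hL, haL⟩ := exists_finite_level (κ := κ) (W.hom.residueFieldMap w).hom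
    (residue_finite W.hom w) a.hom (fun c => by
      have h3 := congrArg (fun t => t.hom c) he
      exact ⟨b.hom ((X.residueFieldCongr e).hom.hom c), h3.symm⟩)
  refine ⟨L, hL, fun σ hσ => ?_⟩
  show specAut _ ≫ (Spec.map a ≫ W.left.fromSpecResidueField w) =
    Spec.map a ≫ W.left.fromSpecResidueField w
  rw [← Category.assoc, ← Spec.map_comp]
  congr 2
  ext y
  exact (IntermediateField.mem_fixingSubgroup_iff L σ).1 hσ _ (haL y)

end TameSite
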