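import Pool.Agent.Lib_helper87.Tame.Defs

/-!
# Geometric points of étale schemes, evaluation of functions
-/

namespace TameSite

universe u

open CategoryTheory AlgebraicGeometry Limits Opposite

/-- Evaluation of functions at a field valued point. -/
noncomputable def ev {W : Scheme.{u}} {Ω : Type u} [Field Ω] (ψ : Spec (.of Ω) ⟶ W) :
    Γ(W, ⊤) →+* Ω :=
  ((Scheme.ΓSpecIso (.of Ω)).hom.hom).comp ψ.appTop.hom

lemma ev_comp {W W' : Scheme.{u}} {Ω : Type u} [Field Ω] (ψ : Spec (.of Ω) ⟶ W') (g : W' ⟶ W)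
    (a : Γ(W, ⊤)) : ev ψ (g.appTop a) = ev (ψ ≫ g) a := by
  simp only [ev, RingHom.comp_apply, Scheme.Hom.comp_appTop]
  rfl

lemma ev_map {W : Scheme.{u}} {Ω Ω' : Type u} [Field Ω] [Field Ω'] (φ : Ω →+* Ω')
    (ψ : Spec (.of Ω) ⟶ W) (a : Γ(W, ⊤)) :
    ev (Spec.map (CommRingCat.ofHom φ) ≫ ψ) a = φ (ev ψ a) := by
  simp only [ev, RingHom.comp_apply, Scheme.Hom.comp_appTop]
  have h := congrArg (fun t => t.hom (ψ.appTop.hom a))
    (Scheme.ΓSpecIso_naturality (CommRingCat.ofHom φ))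
  exact h

end TameSite
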