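import Pool.Agent.Lib_helper87.Tame.SheafLem
import Pool.Agent.Lib_helper87.Tame.Defs

/-!
# Injective resolutions and the vanishing of a derived functor
-/

namespace TameSite

universe u

open CategoryTheory Limits Opposite

section

variable {𝒜 ℬ : Type*} [Category* 𝒜] [Abelian 𝒜] [EnoughInjectives 𝒜] [Category* ℬ] [Abelian ℬ]

lemma exists_resolution (A : 𝒜) (F : 𝒜 ⥤ ℬ) [F.Additive]
    (hz : IsZero ((F.rightDerived 2).obj A)) :
    ∃ (I0 I1 I2 I3 : 𝒜) (η : A ⟶ I0) (d0 : I0 ⟶ I1) (d1 : I1 ⟶ I2) (d2 : I2 ⟶ I3)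
      (h0 : η ≫ d0 = 0) (h1 : d0 ≫ d1 = 0) (h2 : d1 ≫ d2 = 0)
      (h2' : F.map d1 ≫ F.map d2 = 0),
      Injective I0 ∧ Injective I1 ∧ Mono η ∧ (ShortComplex.mk η d0 h0).Exact ∧
      (ShortComplex.mk d0 d1 h1).Exact ∧ (ShortComplex.mk (F.map d1) (F.map d2) h2').Exact := by
  let I : InjectiveResolution A := InjectiveResolution.of A
  refine ⟨I.cocomplex.X 0, I.cocomplex.X 1, I.cocomplex.X 2, I.cocomplex.X 3, I.ι.f 0,
    I.cocomplex.d 0 1, I.cocomplex.d 1 2, I.cocomplex.d 2 3, I.ι_f_zero_comp_complex_d,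
    I.cocomplex.d_comp_d 0 1 2, I.cocomplex.d_comp_d 1 2 3, ?_, inferInstance, inferInstance,
    ?_, ?_, ?_, ?_⟩
  · rw [← F.map_comp, I.cocomplex.d_comp_d 1 2 3, F.map_zero]
  · exact inferInstanceAs (Mono (I.ι.f 0))
  · exact ShortComplex.exact_of_f_is_kernel _ I.isLimitKernelFork
  · exact I.exact_succ 0
  · have h := hz.of_iso (I.isoRightDerivedObj F 2).symm
    have h' : ((F.mapHomologicalComplex _).obj I.cocomplex).ExactAt 2 := by
      rw [HomologicalComplex.exactAt_iff_isZero_homology]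
      exact h
    exact (HomologicalComplex.exactAt_iff' _ 1 2 3 (by simp)
      (by simp only [CochainComplex.next]; rfl)).1 h'

end

end TameSite
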