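import Pool.Agent.Lib_helper87.Tame.Defs

/-!
# The structure sheaf on étale schemes and the Artin-Schreier endomorphism
-/

namespace TameSite

universe u

open CategoryTheory AlgebraicGeometry Limits Opposite

/-- The structure sheaf on the category of étale `X`-schemes, as a presheaf of abelian groups. -/
noncomputable def structurePresheaf (X : Scheme.{u}) : X.Etaleᵒᵖ ⥤ AddCommGrpCat.{u + 1} where
  obj U := AddCommGrpCat.of (ULift.{u + 1} Γ(U.unop.left, ⊤))
  map {U V} g := AddCommGrpCat.ofHom
    { toFun := fun a => ULift.up (g.unop.left.appTop a.down)
      map_zero' := by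
        apply ULift.down_injective
        simp
      map_add' := by
        intro a b
        apply ULift.down_injective
        simp }
  map_id U := by
    ext a
    show ((𝟙 U : U ⟶ U).unop.left.appTop a.down) = a.down
    rw [show (𝟙 U : U ⟶ U).unop.left = 𝟙 U.unop.left from rfl]
    simp
  map_comp g g' := by
    ext a
    show ((g ≫ g').unop.left.appTop a.down) = g'.unop.left.appTop (g.unop.left.appTop a.down)
    rw [show (g ≫ g').unop.left = g'.unop.left ≫ g.unop.left from rfl, Scheme.Hom.comp_appTop]
    rfl

lemma two_eq_zero {X : Scheme.{u}} (h2 : (2 : Γ(X, ⊤)) = 0) (U : X.Etale) :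
    (2 : Γ(U.left, ⊤)) = 0 := by
  have := congrArg U.hom.appTop.hom h2
  rwa [map_zero, map_ofNat] at this

/-- The Artin-Schreier endomorphism `z ↦ z ^ 2 + z` of the structure sheaf of a scheme over
`𝔽₂`. -/
noncomputable def artinSchreier (X : Scheme.{u}) (h2 : (2 : Γ(X, ⊤)) = 0) :
    structurePresheaf X ⟶ structurePresheaf X where
  app U := AddCommGrpCat.ofHom
    { toFun := fun a => ULift.up (a.down ^ 2 + a.down)
      map_zero' := by
        apply ULift.down_injective
        simp
      map_add' := by
        intro a b
        apply ULift.down_injective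
        have h := two_eq_zero h2 U.unop
        show (a.down + b.down) ^ 2 + (a.down + b.down) =
          (a.down ^ 2 + a.down) + (b.down ^ 2 + b.down)
        linear_combination (a.down * b.down) * h }
  naturality U V g := by
    ext a
    refine congrArg ULift.up ?_
    show g.unop.left.appTop a.down ^ 2 + g.unop.left.appTop a.down =
      g.unop.left.appTop (a.down ^ 2 + a.down)
    simp

end TameSite
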