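import Mathlib

/-!
# Sections of exact sequences of sheaves of abelian groups
-/

namespace TameSite

universe u

open CategoryTheory Limits Opposite

variable {C : Type (u + 1)} [Category.{u} C] {J : GrothendieckTopology C}

/-- Sections over an object, as a functor. -/
noncomputable abbrev sectionsAt (J : GrothendieckTopology C) (U : C) :
    Sheaf J AddCommGrpCat.{u + 1} ⥤ AddCommGrpCat.{u + 1} :=
  sheafToPresheaf J _ ⋙ (evaluation _ _).obj (op U)

lemma hom_map {F G : Sheaf J AddCommGrpCat.{u + 1}} (f : F ⟶ G) {U V : C} (g : V ⟶ U)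
    (x : F.obj.obj (op U)) : f.hom.app (op V) (F.obj.map g.op x) =
      G.obj.map g.op (f.hom.app (op U) x) :=
  NatTrans.naturality_apply f.hom g.op x

lemma comp_app {F G H : Sheaf J AddCommGrpCat.{u + 1}} (f : F ⟶ G) (g : G ⟶ H) {U : C}
    (x : F.obj.obj (op U)) : (f ≫ g).hom.app (op U) x =
      g.hom.app (op U) (f.hom.app (op U) x) := rfl

lemma app_eq {F G : Sheaf J AddCommGrpCat.{u + 1}} {f g : F ⟶ G} (h : f = g) {U : C}
    (x : F.obj.obj (op U)) : f.hom.app (op U) x = g.hom.app (op U) x := by rw [h]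

lemma zero_app {F G : Sheaf J AddCommGrpCat.{u + 1}} {U : C}
    (x : F.obj.obj (op U)) : (0 : F ⟶ G).hom.app (op U) x = 0 := rfl

lemma map_comp_app {F : Sheaf J AddCommGrpCat.{u + 1}} {U V W : C} (g : V ⟶ U) (g' : W ⟶ V)
    (x : F.obj.obj (op U)) : F.obj.map (g' ≫ g).op x = F.obj.map g'.op (F.obj.map g.op x) := by
  rw [op_comp, F.obj.map_comp]
  rfl

/-- Sections of a sheaf vanishing locally vanish. -/
lemma eq_zero_of_loc (F : Sheaf J AddCommGrpCat.{u + 1}) {U : C} (x : F.obj.obj (op U))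
    (T : Sieve U) (hT : T ∈ J U) (h : ∀ ⦃V : C⦄ (g : V ⟶ U), T g → F.obj.map g.op x = 0) :
    x = 0 := by
  have := (isSheaf_iff_isSheaf_of_type _ _).1 ((sheafCompose J (forget AddCommGrpCat.{u + 1})).obj F).2
  refine (this.isSeparated T hT).ext fun V g hg => ?_
  exact (h g hg).trans (map_zero (F.obj.map g.op).hom).symm

/-- Gluing of sections. -/
lemma exists_glue (F : Sheaf J AddCommGrpCat.{u + 1}) {U : C}
    (T : Sieve U) (hT : T ∈ J U) (y : ∀ ⦃V : C⦄ (g : V ⟶ U), T g → F.obj.obj (op V))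
    (h : ∀ ⦃V W : C⦄ (g : V ⟶ U) (hg : T g) (k : W ⟶ V) (hk : T (k ≫ g)),
      F.obj.map k.op (y g hg) = y (k ≫ g) hk) :
    ∃ x : F.obj.obj (op U), ∀ ⦃V : C⦄ (g : V ⟶ U) (hg : T g), F.obj.map g.op x = y g hg := by
  have := (isSheaf_iff_isSheaf_of_type _ _).1 ((sheafCompose J (forget AddCommGrpCat.{u + 1})).obj F).2
  obtain ⟨x, hx, -⟩ := this T hT y (by
    refine (Presieve.compatible_iff_sieveCompatible _).2 ?_
    intro V W g k hg
    exact (h g hg k (T.downward_closed hg k)).symm)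
  exact ⟨x, hx⟩

lemma loc_surj {F G : Sheaf J AddCommGrpCat.{u + 1}} (f : F ⟶ G) [Epi f] (U : C)
    (x : G.obj.obj (op U)) :
    ∃ T ∈ J U, ∀ ⦃V : C⦄ (g : V ⟶ U), T g → ∃ y : F.obj.obj (op V),
      f.hom.app _ y = G.obj.map g.op x := by
  have h : Sheaf.IsLocallySurjective f := by
    rw [Sheaf.isLocallySurjective_iff_epi']
    infer_instance
  exact ⟨_, h.imageSieve_mem x, fun V g hg => hg⟩

/-- Left exactness on sections. -/
lemma sections_exact (S : ShortComplex (Sheaf J AddCommGrpCat.{u + 1})) (hS : S.Exact)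
    [Mono S.f] (U : C) (x : S.X₂.obj.obj (op U)) (hx : S.g.hom.app _ x = 0) :
    ∃ y : S.X₁.obj.obj (op U), S.f.hom.app _ y = x := by
  have h := hS.map_of_mono_of_preservesKernel (sectionsAt J U) inferInstance inferInstance
  rw [ShortComplex.ab_exact_iff] at h
  exact h x hx

lemma sections_injective {F G : Sheaf J AddCommGrpCat.{u + 1}} (f : F ⟶ G) [Mono f] (U : C)
    (x : F.obj.obj (op U)) (hx : f.hom.app _ x = 0) : x = 0 := by
  have : Mono ((sectionsAt J U).map f) := inferInstance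
  rw [AddCommGrpCat.mono_iff_injective] at this
  exact this (hx.trans (map_zero _).symm)

/-- Exactness of sheaves gives exactness on sections locally. -/
lemma loc_exact (S : ShortComplex (Sheaf J AddCommGrpCat.{u + 1})) (hS : S.Exact)
    (U : C) (x : S.X₂.obj.obj (op U)) (hx : S.g.hom.app _ x = 0) :
    ∃ T ∈ J U, ∀ ⦃V : C⦄ (g : V ⟶ U), T g → ∃ y : S.X₁.obj.obj (op V),
      S.f.hom.app _ y = S.X₂.obj.map g.op x := by
  have := hS.epi_kernelLift
  obtain ⟨x', hx'⟩ := sections_exact (ShortComplex.mk (kernel.ι S.g) S.g (kernel.condition _))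
    (ShortComplex.exact_kernel S.g) U x hx
  obtain ⟨T, hT, h⟩ := loc_surj (kernel.lift S.g S.f S.zero) U x'
  refine ⟨T, hT, fun V g hg => ?_⟩
  obtain ⟨y, hy⟩ := h g hg
  refine ⟨y, ?_⟩
  have e : kernel.lift S.g S.f S.zero ≫ kernel.ι S.g = S.f := kernel.lift_ι _ _ _
  rw [← app_eq e, comp_app, hy, hom_map]
  exact congrArg _ hx'

end TameSite
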