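import Pool.Agent.Lib_helper87.Tame.SheafDefs

/-!
# The structure presheaf is a sheaf on the small étale site
-/

namespace TameSite

universe u

open CategoryTheory AlgebraicGeometry Limits Opposite

instance etaleForget_flat (X : Scheme.{u}) : RepresentablyFlat (Scheme.Etale.forget X) :=
  flat_of_preservesFiniteLimits _

set_option backward.isDefEq.respectTransparency.types false in
instance etaleForget_continuous (X : Scheme.{u}) :
    (Scheme.Etale.forget X).IsContinuous X.smallEtaleTopology (Scheme.etaleTopology.over X) := by
  rw [Functor.isContinuous_iff_coverPreserving]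
  exact Functor.coverPreserving_restrictedTopology
    (MorphismProperty.Over.forget @Etale ⊤ X) (X.overGrothendieckTopology @Etale)

set_option backward.isDefEq.respectTransparency.types false in
instance etaleForgetForget_continuous (X : Scheme.{u}) :
    (Scheme.Etale.forget X ⋙ Over.forget X).IsContinuous X.smallEtaleTopology
      Scheme.etaleTopology :=
  Functor.isContinuous_comp _ _ _ (Scheme.etaleTopology.over X) _

lemma etaleTopology_le_fppfTopology :
    Scheme.etaleTopology.{u} ≤ Scheme.fppfTopology.{u} := by
  unfold Scheme.etaleTopology Scheme.grothendieckTopology Scheme.fppfTopology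
  apply Precoverage.toGrothendieck_mono
  exact Scheme.precoverage_mono fun X Y f hf => ⟨inferInstance, inferInstance⟩

instance etaleTopology_subcanonical : Scheme.etaleTopology.{u}.Subcanonical :=
  .of_le etaleTopology_le_fppfTopology

/-- Functions on a scheme are morphisms to the affine line. -/
noncomputable def affineLineEquiv (U : Scheme.{u}) :
    (U ⟶ Spec (CommRingCat.of (MvPolynomial PUnit.{u + 1} (ULift.{u} ℤ)))) ≃ Γ(U, ⊤) :=
  (AffineSpace.toSpecMvPolyIntEquiv PUnit.{u + 1}).trans (Equiv.funUnique PUnit.{u + 1} _)

lemma affineLineEquiv_comp {U V : Scheme.{u}} (g : V ⟶ U)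
    (f : U ⟶ Spec (CommRingCat.of (MvPolynomial PUnit.{u + 1} (ULift.{u} ℤ)))) :
    affineLineEquiv V (g ≫ f) = g.appTop (affineLineEquiv U f) :=
  AffineSpace.toSpecMvPolyIntEquiv_comp PUnit.{u + 1} g f PUnit.unit

/-- The structure presheaf is a sheaf for the étale topology. -/
theorem isSheaf_structurePresheaf (X : Scheme.{u}) :
    Presheaf.IsSheaf X.smallEtaleTopology (structurePresheaf X) := by
  rw [Presheaf.isSheaf_iff_isSheaf_forget _ _ (forget AddCommGrpCat.{u + 1}),
    isSheaf_iff_isSheaf_of_type]
  have h : Presieve.IsSheaf Scheme.etaleTopology.{u}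
      (yoneda.obj (Spec (CommRingCat.of (MvPolynomial PUnit.{u + 1} (ULift.{u} ℤ))))) :=
    GrothendieckTopology.Subcanonical.isSheaf_of_isRepresentable _
  have h' := Functor.op_comp_isSheaf_of_isSheaf_type (J := X.smallEtaleTopology)
    (F := Scheme.Etale.forget X ⋙ Over.forget X) h
  refine Presieve.isSheaf_of_nat_equiv
    (fun U => (affineLineEquiv U.left).trans Equiv.ulift.symm) ?_ h'
  intro U V f x
  refine congrArg ULift.up ?_
  exact affineLineEquiv_comp f.left x

end TameSite
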