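import Pool.Agent.Lib_helper87.Tame.SitePoint
import Pool.Agent.Lib_helper87.Tame.BaseChangeLim

/-!
# Base change of tame coverings
-/

namespace TameSite

universe u

open CategoryTheory AlgebraicGeometry Limits Opposite

/-- A tamely ramified extension is fixed by the ramification group, in a separably closed field
which need not be algebraic. -/
theorem tame_lift_gen {K L Ω : Type u} [Field K] [Field L] [Field Ω] [Algebra K L] [Algebra K Ω]
    [Algebra.IsSeparable K L] [IsSepClosed Ω] (w : ValuationSubring L)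
    (hw : IsTamelyRamified (algebraMap K L) w) (W : ValuationSubring Ω)
    (hW : W.comap (algebraMap K Ω) = w.comap (algebraMap K L)) :
    ∃ ψ : L →ₐ[K] Ω, W.comap (ψ : L →+* Ω) = w ∧
      ∀ σ : Ω ≃ₐ[K] Ω, Wild W (σ : Ω ≃+* Ω) → ∀ y, σ (ψ y) = ψ y := by
  have : IsSepClosed (separableClosure K Ω) :=
    (inferInstance : IsSepClosure K (separableClosure K Ω)).sep_closed
  obtain ⟨ψ₀, h1, h2⟩ := tame_lift (K := K) (L := L) (Ω := separableClosure K Ω) w hw
    (W.comap (algebraMap (separableClosure K Ω) Ω)) hW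
  refine ⟨(separableClosure K Ω).val.comp ψ₀, h1, fun σ hσ y => ?_⟩
  let σ₀ : separableClosure K Ω ≃ₐ[K] separableClosure K Ω :=
    separableClosure.algEquivOfAlgEquiv σ
  have hσ₀ : ∀ x, ((σ₀ x : separableClosure K Ω) : Ω) = σ x := fun x => rfl
  have h3 := h2 σ₀ (fun x hx => by
    rw [comap_valuation_lt_one, map_sub, map_div₀, map_one]
    exact hσ x (by simpa using hx)) y
  show σ (ψ₀ y : Ω) = (ψ₀ y : Ω)
  rw [← hσ₀, h3]

/-- Criterion for tame ramification, in a given separable closure. -/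
theorem isTamelyRamified_of_fix {K L Ω : Type u} [Field K] [Field L] [Field Ω] (φ : K →+* L)
    [Algebra L Ω] [Algebra.IsSeparable L Ω] [IsSepClosed Ω] (w : ValuationSubring L)
    (W : ValuationSubring Ω) (hW : W.comap (algebraMap L Ω) = w)
    (hfix : ∀ σ : Ω ≃+* Ω, (∀ x, σ (algebraMap L Ω (φ x)) = algebraMap L Ω (φ x)) → Wild W σ →
      ∀ z, σ (algebraMap L Ω z) = algebraMap L Ω z) : IsTamelyRamified φ w := by
  intro W₂ hW₂ σ₂ hσ₂ hwild z
  have : IsSepClosure L Ω := ⟨inferInstance, inferInstance⟩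
  let e : SeparableClosure L ≃ₐ[L] Ω := IsSepClosure.equiv L (SeparableClosure L) Ω
  obtain ⟨τ, hτ⟩ := exists_conj (K := L) W₂ (W.comap (e : SeparableClosure L →+* Ω)) (by
    rw [hW₂, ← hW]
    ext a
    rw [ValuationSubring.mem_comap, ValuationSubring.mem_comap, ValuationSubring.mem_comap]
    have e1 : (e : SeparableClosure L →+* Ω) (algebraMap L (SeparableClosure L) a) =
        algebraMap L Ω a := e.commutes a
    rw [e1])
  let ρ : SeparableClosure L ≃ₐ[L] Ω := τ.trans e
  have hmem : W₂ = W.comap (ρ : SeparableClosure L →+* Ω) := by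
    rw [← hτ]
    rfl
  let σ : Ω ≃+* Ω := ((ρ.symm : Ω ≃+* SeparableClosure L).trans σ₂).trans
    (ρ : SeparableClosure L ≃+* Ω)
  have hσ : ∀ x, σ (ρ x) = ρ (σ₂ x) := fun x => by
    show ρ (σ₂ (ρ.symm (ρ x))) = _
    rw [AlgEquiv.symm_apply_apply]
  have h1 := hfix σ (fun x => by
    rw [← ρ.commutes, hσ, hσ₂]) (fun x hx => by
      obtain ⟨x, rfl⟩ := ρ.surjective x
      have hx' : x ≠ 0 := by
        rintro rfl
        exact hx (map_zero ρ)
      have h2 := hwild x hx'
      rw [hmem, comap_valuation_lt_one, map_sub, map_div₀, map_one] at h2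
      rw [hσ]
      exact h2) z
  rw [← ρ.commutes, hσ] at h1
  exact ρ.injective h1

theorem exists_embedding {U V : Scheme.{u}} {Ω : Type u} [Field Ω] [IsSepClosed Ω] (g : V ⟶ U)
    [Etale g] (u : U) (v : ValuationSubring (U.residueField u)) (y : V)
    (w : ValuationSubring (V.residueField y))
    (he : (⟨g y, w.comap (g.residueFieldMap y).hom⟩ :
      Σ u : U, ValuationSubring (U.residueField u)) = ⟨u, v⟩)
    (htame : IsTamelyRamified (g.residueFieldMap y).hom w) (W : ValuationSubring Ω)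
    (a : U.residueField u →+* Ω) (ha : W.comap a = v) :
    ∃ ψ : V.residueField y →+* Ω, W.comap ψ = w ∧
      (Spec.map (CommRingCat.ofHom ψ) ≫ V.fromSpecResidueField y) ≫ g =
        Spec.map (CommRingCat.ofHom a) ≫ U.fromSpecResidueField u ∧
      ∀ σ : Ω ≃+* Ω, (∀ x, σ (a x) = a x) → Wild W σ → ∀ z, σ (ψ z) = ψ z := by
  obtain ⟨rfl, hv⟩ := Sigma.mk.inj_iff.1 he
  have hv' := eq_of_heq hv
  let φ : U.residueField (g y) →+* V.residueField y := (g.residueFieldMap y).hom
  let i1 : Algebra (U.residueField (g y)) (V.residueField y) := φ.toAlgebra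
  let i2 : Algebra (U.residueField (g y)) Ω := a.toAlgebra
  have i3 : Algebra.IsSeparable (U.residueField (g y)) (V.residueField y) :=
    inferInstanceAs (letI := (g.residueFieldMap y).hom.toAlgebra
      Algebra.IsSeparable (U.residueField (g.base y)) (V.residueField y))
  obtain ⟨ψ, hψ1, hψ2⟩ := tame_lift_gen (K := U.residueField (g y)) (L := V.residueField y)
    (Ω := Ω) w htame W (ha.trans hv'.symm)
  have hcomp : ∀ x, ψ (φ x) = a x := fun x => ψ.commutes x
  have h1 : g.residueFieldMap y ≫ CommRingCat.ofHom (ψ : V.residueField y →+* Ω) =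
      CommRingCat.ofHom a := by
    ext x
    exact hcomp x
  refine ⟨(ψ : V.residueField y →+* Ω), hψ1, ?_, ?_⟩
  · calc _ = Spec.map (CommRingCat.ofHom (ψ : V.residueField y →+* Ω)) ≫
        (V.fromSpecResidueField y ≫ g) := Category.assoc _ _ _
      _ = Spec.map (CommRingCat.ofHom (ψ : V.residueField y →+* Ω)) ≫
        (Spec.map (g.residueFieldMap y) ≫ U.fromSpecResidueField (g y)) :=
          congrArg (_ ≫ ·) (Scheme.Hom.SpecMap_residueFieldMap_fromSpecResidueField g y).symm
      _ = (Spec.map (CommRingCat.ofHom (ψ : V.residueField y →+* Ω)) ≫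
        Spec.map (g.residueFieldMap y)) ≫ U.fromSpecResidueField (g y) :=
          (Category.assoc _ _ _).symm
      _ = Spec.map (g.residueFieldMap y ≫ CommRingCat.ofHom (ψ : V.residueField y →+* Ω)) ≫
          U.fromSpecResidueField (g y) := congrArg (· ≫ _) (Spec.map_comp _ _).symm
      _ = _ := by rw [h1]
  · intro σ hσ hwild z
    exact hψ2 (AlgEquiv.ofRingEquiv (f := σ) hσ) hwild z

theorem sigma_eq {U : Scheme.{u}} {Ω : Type u} [Field Ω] (W : ValuationSubring Ω) {u₁ u₂ : U}
    (a₁ : U.residueField u₁ →+* Ω) (a₂ : U.residueField u₂ →+* Ω)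
    (h : Spec.map (CommRingCat.ofHom a₁) ≫ U.fromSpecResidueField u₁ =
      Spec.map (CommRingCat.ofHom a₂) ≫ U.fromSpecResidueField u₂) :
    (⟨u₁, W.comap a₁⟩ : Σ u : U, ValuationSubring (U.residueField u)) = ⟨u₂, W.comap a₂⟩ := by
  have h1 : (⟨u₁, CommRingCat.ofHom a₁⟩ : Σ x : U, U.residueField x ⟶ .of Ω) =
      ⟨u₂, CommRingCat.ofHom a₂⟩ := (Scheme.SpecToEquivOfField Ω U).symm.injective h
  obtain ⟨rfl, h2⟩ := Sigma.mk.inj_iff.1 h1
  have h3 : a₁ = a₂ := congrArg CommRingCat.Hom.hom (eq_of_heq h2)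
  rw [h3]

theorem separable_transfer {U : Scheme.{u}} {Ω : Type u} [Field Ω] {u₁ u₂ : U}
    (a₁ : U.residueField u₁ →+* Ω) (a₂ : U.residueField u₂ →+* Ω)
    (h : Spec.map (CommRingCat.ofHom a₁) ≫ U.fromSpecResidueField u₁ =
      Spec.map (CommRingCat.ofHom a₂) ≫ U.fromSpecResidueField u₂)
    (hs : letI := a₂.toAlgebra; Algebra.IsSeparable (U.residueField u₂) Ω) :
    letI := a₁.toAlgebra; Algebra.IsSeparable (U.residueField u₁) Ω := by
  have h1 : (⟨u₁, CommRingCat.ofHom a₁⟩ : Σ x : U, U.residueField x ⟶ .of Ω) =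
      ⟨u₂, CommRingCat.ofHom a₂⟩ := (Scheme.SpecToEquivOfField Ω U).symm.injective h
  obtain ⟨rfl, h2⟩ := Sigma.mk.inj_iff.1 h1
  have h3 : a₁ = a₂ := congrArg CommRingCat.Hom.hom (eq_of_heq h2)
  rw [h3]
  exact hs

theorem fix_iff {U : Scheme.{u}} {Ω : Type u} [Field Ω] {u₀ : U}
    (a : U.residueField u₀ →+* Ω) (σ : Ω ≃+* Ω) :
    (∀ x, σ (a x) = a x) ↔ Spec.map (CommRingCat.ofHom (σ : Ω →+* Ω)) ≫
      (Spec.map (CommRingCat.ofHom a) ≫ U.fromSpecResidueField u₀) =
        Spec.map (CommRingCat.ofHom a) ≫ U.fromSpecResidueField u₀ := by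
  constructor
  · intro h
    have h1 : CommRingCat.ofHom a ≫ CommRingCat.ofHom (σ : Ω →+* Ω) = CommRingCat.ofHom a := by
      ext x
      exact h x
    calc _ = (Spec.map (CommRingCat.ofHom (σ : Ω →+* Ω)) ≫
        Spec.map (CommRingCat.ofHom a)) ≫ U.fromSpecResidueField u₀ :=
          (Category.assoc _ _ _).symm
      _ = Spec.map (CommRingCat.ofHom a ≫ CommRingCat.ofHom (σ : Ω →+* Ω)) ≫
        U.fromSpecResidueField u₀ := congrArg (· ≫ _) (Spec.map_comp _ _).symm
      _ = _ := by rw [h1]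
  · intro h x
    have h2 : CommRingCat.ofHom a ≫ CommRingCat.ofHom (σ : Ω →+* Ω) = CommRingCat.ofHom a := by
      apply Spec.map_injective
      rw [← cancel_mono (U.fromSpecResidueField u₀), Spec.map_comp, Category.assoc]
      exact h
    exact congrArg (fun t => t.hom x) h2

theorem exists_pullback_valuation {U V U' V' : Scheme.{u}} (q1 : V' ⟶ V) (q2 : V' ⟶ U')
    (g : V ⟶ U) (h : U' ⟶ U) (hp : IsPullback q1 q2 g h) [Etale g]
    (u' : U') (v' : ValuationSubring (U'.residueField u')) (y : V)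
    (w : ValuationSubring (V.residueField y))
    (he : (⟨g y, w.comap (g.residueFieldMap y).hom⟩ :
      Σ u : U, ValuationSubring (U.residueField u)) = ⟨h u', v'.comap (h.residueFieldMap u').hom⟩)
    (htame : IsTamelyRamified (g.residueFieldMap y).hom w) :
    ∃ (y' : V') (w' : ValuationSubring (V'.residueField y')),
      (⟨q2 y', w'.comap (q2.residueFieldMap y').hom⟩ :
        Σ u : U', ValuationSubring (U'.residueField u)) = ⟨u', v'⟩ ∧
      IsTamelyRamified (q2.residueFieldMap y').hom w' := by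
  let Ω := SeparableClosure (U'.residueField u')
  let b : U'.residueField u' →+* Ω := algebraMap _ _
  obtain ⟨W, hW⟩ := exists_extension b v'
  let a : U.residueField (h u') →+* Ω := b.comp (h.residueFieldMap u').hom
  have ha : W.comap a = v'.comap (h.residueFieldMap u').hom := by
    rw [← hW]
    rfl
  obtain ⟨ψ, hψ1, hψ2, hψ3⟩ := exists_embedding g (h u') _ y w he htame W a ha
  let P1 : Spec (.of Ω) ⟶ V := Spec.map (CommRingCat.ofHom ψ) ≫ V.fromSpecResidueField y
  let P2 : Spec (.of Ω) ⟶ U' := Spec.map (CommRingCat.ofHom b) ≫ U'.fromSpecResidueField u'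
  have comm : P1 ≫ g = P2 ≫ h := by
    refine hψ2.trans ?_
    calc _ = (Spec.map (CommRingCat.ofHom b) ≫ Spec.map (h.residueFieldMap u')) ≫
          U.fromSpecResidueField (h u') := congrArg (· ≫ _) (Spec.map_comp _ _)
      _ = Spec.map (CommRingCat.ofHom b) ≫ (Spec.map (h.residueFieldMap u') ≫
          U.fromSpecResidueField (h u')) := Category.assoc _ _ _
      _ = Spec.map (CommRingCat.ofHom b) ≫ (U'.fromSpecResidueField u' ≫ h) :=
          congrArg (_ ≫ ·) (Scheme.Hom.SpecMap_residueFieldMap_fromSpecResidueField h u')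
      _ = _ := (Category.assoc _ _ _).symm
  obtain ⟨⟨y', c⟩, hc⟩ := (Scheme.SpecToEquivOfField Ω V').symm.surjective (hp.lift P1 P2 comm)
  have hc' : Spec.map (CommRingCat.ofHom c.hom) ≫ V'.fromSpecResidueField y' =
    hp.lift P1 P2 comm := hc
  have hq2 : Spec.map (CommRingCat.ofHom (c.hom.comp (q2.residueFieldMap y').hom)) ≫
      U'.fromSpecResidueField (q2 y') = P2 := by
    calc _ = (Spec.map (CommRingCat.ofHom c.hom) ≫ Spec.map (q2.residueFieldMap y')) ≫
          U'.fromSpecResidueField (q2 y') := congrArg (· ≫ _) (Spec.map_comp _ _)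
      _ = Spec.map (CommRingCat.ofHom c.hom) ≫ (Spec.map (q2.residueFieldMap y') ≫
          U'.fromSpecResidueField (q2 y')) := Category.assoc _ _ _
      _ = Spec.map (CommRingCat.ofHom c.hom) ≫ (V'.fromSpecResidueField y' ≫ q2) :=
          congrArg (_ ≫ ·) (Scheme.Hom.SpecMap_residueFieldMap_fromSpecResidueField q2 y')
      _ = (Spec.map (CommRingCat.ofHom c.hom) ≫ V'.fromSpecResidueField y') ≫ q2 :=
          (Category.assoc _ _ _).symm
      _ = P2 := by rw [hc', hp.lift_snd]
  refine ⟨y', W.comap c.hom, ?_, ?_⟩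
  · rw [← hW]
    exact sigma_eq W (c.hom.comp (q2.residueFieldMap y').hom) b hq2
  · let i1 : Algebra (V'.residueField y') Ω := c.hom.toAlgebra
    let i2 : Algebra (U'.residueField (q2 y')) (V'.residueField y') :=
      (q2.residueFieldMap y').hom.toAlgebra
    let i3 : Algebra (U'.residueField (q2 y')) Ω :=
      (c.hom.comp (q2.residueFieldMap y').hom).toAlgebra
    have i4 : IsScalarTower (U'.residueField (q2 y')) (V'.residueField y') Ω :=
      IsScalarTower.of_algebraMap_eq (fun x => rfl)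
    have i5 : Algebra.IsSeparable (U'.residueField (q2 y')) Ω :=
      separable_transfer (c.hom.comp (q2.residueFieldMap y').hom) b hq2 (by
        have h0 : b.toAlgebra = (inferInstance : Algebra (U'.residueField u') Ω) :=
          Algebra.algebra_ext _ _ fun _ => rfl
        rw [h0]
        exact (inferInstance : Algebra.IsSeparable (U'.residueField u') Ω))
    have i6 : Algebra.IsSeparable (V'.residueField y') Ω :=
      Algebra.isSeparable_tower_top_of_isSeparable (U'.residueField (q2 y'))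
        (V'.residueField y') Ω
    refine isTamelyRamified_of_fix (q2.residueFieldMap y').hom (W.comap c.hom) W rfl ?_
    intro σ hσ hwild
    have h1 : Spec.map (CommRingCat.ofHom (σ : Ω →+* Ω)) ≫ P2 = P2 := by
      rw [← hq2]
      exact (fix_iff (c.hom.comp (q2.residueFieldMap y').hom) σ).1 hσ
    have h2 : ∀ x, σ (b x) = b x := (fix_iff b σ).2 h1
    have h3 := hψ3 σ (fun x => h2 _) hwild
    have h4 : Spec.map (CommRingCat.ofHom (σ : Ω →+* Ω)) ≫ P1 = P1 := (fix_iff ψ σ).1 h3
    refine (fix_iff c.hom σ).2 ?_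
    rw [hc']
    apply hp.hom_ext
    · rw [Category.assoc, hp.lift_fst, h4]
    · rw [Category.assoc, hp.lift_snd, h1]

end TameSite
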