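import Pool.Agent.Lib_helper87.Tame.BaseChangeTame
import Pool.Agent.Lib_helper87.Tame.Contin

/-!
# The tame Tate twist in weight zero and the higher direct images to the Nisnevich site
-/

namespace TameSite

universe u

open CategoryTheory AlgebraicGeometry Limits Opposite

/-- The Nisnevich topology is coarser than the tame topology. -/
theorem nis_le_tame {X S : Scheme.{u}} (f : X ⟶ S) : nisnevichTopology X ≤ tameTopology f :=
  nisnevich_le_tame f

/-- The tame topology is coarser than the étale topology. -/
theorem tame_le_et {X S : Scheme.{u}} (f : X ⟶ S) : tameTopology f ≤ X.smallEtaleTopology :=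
  tame_le_etale f

/-- Base change of étale schemes is a continuous functor for the tame topologies. -/
theorem baseChange_isContinuous {X Y S : Scheme.{u}} (g : Y ⟶ X) (f : X ⟶ S) :
    (baseChange g).IsContinuous (tameTopology f) (tameTopology (g ≫ f)) := by
  have : PreservesFiniteLimits (baseChange g) := baseChange_preservesFiniteLimits g
  have : RepresentablyFlat (baseChange g) := flat_of_preservesFiniteLimits _
  exact Functor.isContinuous_of_coverPreserving (compatiblePreservingOfFlat _ _)
    (coverPreserving_toGrothendieck _ _ _ fun U R hR => baseChange_tame g f R hR)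

/-- The higher direct image functor `R^s β_*` from the tame site `(X/S)_t` to the Nisnevich site
of `X`, the right derived functor of the direct image functor. -/
noncomputable def derivedBeta {X S : Scheme.{u}} (f : X ⟶ S) (s : ℕ) :
    Sheaf (tameTopology f) AddCommGrpCat.{u + 1} ⥤
      Sheaf (nisnevichTopology X) AddCommGrpCat.{u + 1} :=
  (pushforwardLE (nis_le_tame f)).rightDerived s

/-- The direct image functor `α_*` from the étale site to the tame site. -/
noncomputable def alphaDirect {X S : Scheme.{u}} (f : X ⟶ S) :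
    Sheaf X.smallEtaleTopology AddCommGrpCat.{u + 1} ⥤
      Sheaf (tameTopology f) AddCommGrpCat.{u + 1} :=
  pushforwardLE (tame_le_et f)

/-- The inverse image functor `g^*` for sheaves on the tame sites: the left adjoint of the direct
image functor, which is composition with the base change of étale schemes. -/
noncomputable def tamePullback {X Y S : Scheme.{u}} (g : Y ⟶ X) (f : X ⟶ S) :
    Sheaf (tameTopology f) AddCommGrpCat.{u + 1} ⥤
      Sheaf (tameTopology (g ≫ f)) AddCommGrpCat.{u + 1} :=
  haveI := baseChange_isContinuous g f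
  (baseChange g).sheafPullback AddCommGrpCat.{u + 1} (tameTopology f) (tameTopology (g ≫ f))

/-- The `p`-adic étale Tate twist `𝔗_r(0)_X` of weight zero: the constant étale sheaf `ℤ/p^r`. -/
noncomputable def etaleTwistZero (X : Scheme.{u}) (p r : ℕ) :
    Sheaf X.smallEtaleTopology AddCommGrpCat.{u + 1} :=
  (constantSheaf X.smallEtaleTopology AddCommGrpCat.{u + 1}).obj
    (AddCommGrpCat.of (ULift.{u + 1} (ZMod (p ^ r))))

/-- The tame Tate twist of weight zero,
`𝔗ᵗ_r(0)_X = τ_{≤ 0} Rα_* 𝔗_r(0)_X = α_* 𝔗_r(0)_X`. -/
noncomputable def tameTwistZero {X S : Scheme.{u}} (f : X ⟶ S) (p r : ℕ) :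
    Sheaf (tameTopology f) AddCommGrpCat.{u + 1} :=
  (alphaDirect f).obj (etaleTwistZero X p r)

/-- The inverse image `i^* j^* 𝔗ᵗ_r(0)_X` on `Z`, for `i : Z → Y` and `j : Y → X`. -/
noncomputable def pullbackTwistZero {X Y Z S : Scheme.{u}} (i : Z ⟶ Y) (j : Y ⟶ X) (f : X ⟶ S)
    (p r : ℕ) : Sheaf (tameTopology (i ≫ j ≫ f)) AddCommGrpCat.{u + 1} :=
  (tamePullback i (j ≫ f)).obj ((tamePullback j f).obj (tameTwistZero f p r))

/-- The Nisnevich sheaf `R^s β_* (i^* j^* 𝔗ᵗ_r(0)_X)` on `Spec C`, for homomorphisms of rings
`a : A → B`, `j : B → H`, `i : H → C` and `X = Spec B`, `S = Spec A`. -/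
noncomputable def directImageTwist {A B H C : CommRingCat.{u}} (a : A ⟶ B) (j : B ⟶ H)
    (i : H ⟶ C) (p r s : ℕ) : Sheaf (nisnevichTopology (Spec C)) AddCommGrpCat.{u + 1} :=
  (derivedBeta (Spec.map i ≫ Spec.map j ≫ Spec.map a) s).obj
    (pullbackTwistZero (Spec.map i) (Spec.map j) (Spec.map a) p r)

/-- The discrete valuation ring `A` has uniformizer `π`, perfect residue field of characteristic
`p` and fraction field of characteristic `0`. -/
def IsMixedDVR (A : Type u) [CommRing A] [IsDomain A] [IsDiscreteValuationRing A] (π : A)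
    (p : ℕ) : Prop :=
  Irreducible π ∧ p.Prime ∧ PerfectField (IsLocalRing.ResidueField A) ∧
    CharP (IsLocalRing.ResidueField A) p ∧ CharZero (FractionRing A)

/-- The ring `B/πB`. -/
noncomputable def modPi {A : Type u} (B : Type u) [CommRing A] [CommRing B] [Algebra A B]
    (π : A) : CommRingCat.{u} :=
  .of (B ⧸ Ideal.span {algebraMap A B π})

/-- The quotient map `B → B/πB`. -/
noncomputable def toModPi {A : Type u} (B : Type u) [CommRing A] [CommRing B] [Algebra A B]
    (π : A) : .of B ⟶ modPi B π :=
  CommRingCat.ofHom (Ideal.Quotient.mk (Ideal.span {algebraMap A B π}))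

end TameSite
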