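import Pool.Agent.Lib_helper87.Tame.Defs

set_option linter.style.haveILetI false
set_option linter.unusedVariables false

namespace TameSite.ValAux

open Polynomial

section general

variable {K Ω : Type*} [Field K] [Field Ω] [Algebra K Ω]

theorem mem_of_isIntegral {v : ValuationSubring K} {b : Ω} (hb : b ∈ integralClosure v Ω)
    (V : ValuationSubring Ω) (hV : ∀ a ∈ v, algebraMap K Ω a ∈ V) : b ∈ V := by
  have h1 : IsIntegral v b := hb
  let f : v →+* V := (algebraMap v Ω).codRestrict V.toSubring (fun a => hV a a.2)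
  have h2 : IsIntegral V b := h1.map_of_comp_eq f (RingHom.id Ω) rfl
  obtain ⟨y, hy⟩ := (IsIntegrallyClosed.isIntegral_iff (R := V) (K := Ω)).mp h2
  rw [← hy]
  exact y.2

theorem mem_integralClosure_of_forall {v : ValuationSubring K} {b : Ω}
    (hb : ∀ V : ValuationSubring Ω, (∀ a ∈ v, algebraMap K Ω a ∈ V) → b ∈ V) :
    b ∈ integralClosure v Ω := by
  have h1 := Subring.eq_iInf_of_isIntegrallyClosedIn (R := (integralClosure v Ω).toSubring)
  change b ∈ (integralClosure v Ω).toSubring
  rw [h1, Subring.mem_iInf]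
  rintro ⟨V, hV⟩
  apply hb V
  intro a ha
  apply hV
  exact (integralClosure v Ω).algebraMap_mem ⟨a, ha⟩

/-- Every element of a valuation ring `W` of `Ω` is a fraction of elements integral over
`W ∩ K`, the denominator being a unit of `W`. -/
theorem exists_mul_eq [Algebra.IsAlgebraic K Ω] (W : ValuationSubring Ω) {v : ValuationSubring K}
    (hv : W.comap (algebraMap K Ω) = v) {w : Ω} (hw : w ∈ W) :
    ∃ b ∈ integralClosure v Ω, ∃ s ∈ integralClosure v Ω, W.valuation s = 1 ∧ w * s = b := by
  classical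
  rcases eq_or_ne w 0 with rfl | hw0
  · exact ⟨0, zero_mem _, 1, one_mem _, map_one _, by simp⟩
  obtain ⟨p₀, hp₀, hpw₀⟩ := Algebra.IsAlgebraic.isAlgebraic (R := K) w
  set u : K → W.ValueGroup := fun a => W.valuation (algebraMap K Ω a) with hu
  have hu1 : ∀ a : K, u a ≤ 1 ↔ a ∈ v := by
    intro a
    rw [← hv, ValuationSubring.mem_comap, ← ValuationSubring.valuation_le_one_iff]
  obtain ⟨m, hm, hmax⟩ := Finset.exists_max_image p₀.support (fun i => u (p₀.coeff i))
    (Polynomial.support_nonempty.mpr hp₀)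
  have hcm : p₀.coeff m ≠ 0 := Polynomial.mem_support_iff.mp hm
  set c := p₀.coeff m with hc
  set p := C c⁻¹ * p₀ with hp
  have hpw : aeval w p = 0 := by rw [hp, map_mul, hpw₀, mul_zero]
  have hcoeff : ∀ i, p.coeff i = c⁻¹ * p₀.coeff i := fun i => by rw [hp, coeff_C_mul]
  have hle : ∀ i, u (p.coeff i) ≤ 1 := by
    intro i
    by_cases hi : i ∈ p₀.support
    · have h1 := hmax i hi
      simp only [hu] at h1 ⊢
      rw [hcoeff, map_mul, map_mul, map_inv₀, map_inv₀]
      have h2 : W.valuation (algebraMap K Ω c) ≠ 0 := by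
        rw [Valuation.ne_zero_iff]
        exact (_root_.map_ne_zero _).mpr hcm
      calc (W.valuation (algebraMap K Ω c))⁻¹ * W.valuation (algebraMap K Ω (p₀.coeff i))
          ≤ (W.valuation (algebraMap K Ω c))⁻¹ * W.valuation (algebraMap K Ω c) :=
            mul_le_mul_right h1 _
        _ = 1 := inv_mul_cancel₀ h2
    · rw [Polynomial.mem_support_iff, not_not] at hi
      simp only [hu]
      rw [hcoeff, hi, mul_zero, map_zero, map_zero]
      exact zero_le_one
  have hum : u (p.coeff m) = 1 := by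
    simp only [hu]
    rw [hcoeff, ← hc, inv_mul_cancel₀ hcm, map_one, map_one]
  have hav : ∀ i, p.coeff i ∈ v := fun i => (hu1 _).mp (hle i)
  set n := p.natDegree with hn
  have hmn : m ≤ n := by
    apply le_natDegree_of_ne_zero
    intro h0
    rw [h0] at hum
    simp [hu] at hum
  obtain ⟨j, hj, hjmax⟩ := Finset.exists_max_image
    ((Finset.range (n + 1)).filter (fun i => u (p.coeff i) = 1)) (fun i => i)
    ⟨m, by rw [Finset.mem_filter, Finset.mem_range]; exact ⟨by omega, hum⟩⟩
  rw [Finset.mem_filter, Finset.mem_range] at hj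
  have hlt : ∀ i, j < i → u (p.coeff i) < 1 := by
    intro i hi
    refine lt_of_le_of_ne (hle i) (fun h => ?_)
    by_cases hin : i < n + 1
    · have := hjmax i (by rw [Finset.mem_filter, Finset.mem_range]; exact ⟨hin, h⟩)
      omega
    · rw [coeff_eq_zero_of_natDegree_lt (by omega)] at h
      simp [hu] at h
  set s : Ω := ∑ i ∈ Finset.Ico j (n + 1), algebraMap K Ω (p.coeff i) * w ^ (i - j) with hs
  set t : Ω := ∑ i ∈ Finset.range j, algebraMap K Ω (p.coeff i) * w⁻¹ ^ (j - 1 - i) with ht
  have hst : w * s = -t := by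
    rw [eq_neg_iff_add_eq_zero]
    have h1 : w ^ j * (w * s + t) = 0 := by
      have e1 : w ^ j * (w * s) = w * ∑ i ∈ Finset.Ico j (n + 1), algebraMap K Ω (p.coeff i) * w ^ i := by
        rw [mul_left_comm, hs, Finset.mul_sum]
        congr 1
        apply Finset.sum_congr rfl
        intro i hi
        rw [Finset.mem_Ico] at hi
        have : w ^ i = w ^ j * w ^ (i - j) := by rw [← pow_add]; congr 1; omega
        rw [this]
        ring
      have e2 : w ^ j * t = w * ∑ i ∈ Finset.range j, algebraMap K Ω (p.coeff i) * w ^ i := by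
        rw [ht, Finset.mul_sum, Finset.mul_sum]
        apply Finset.sum_congr rfl
        intro i hi
        rw [Finset.mem_range] at hi
        have : w ^ j = w ^ (i + 1) * w ^ (j - 1 - i) := by rw [← pow_add]; congr 1; omega
        rw [this, inv_pow]
        field_simp
        ring
      have e3 : ∑ i ∈ Finset.range (n + 1), algebraMap K Ω (p.coeff i) * w ^ i = 0 := by
        rw [← hpw, aeval_eq_sum_range]
        apply Finset.sum_congr rfl
        intro i _
        rw [Algebra.smul_def]
      rw [mul_add, e1, e2, ← mul_add, add_comm, Finset.sum_range_add_sum_Ico _ (by omega), e3,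
        mul_zero]
    exact (mul_eq_zero.mp h1).resolve_left (pow_ne_zero _ hw0)
  have hsV : ∀ V : ValuationSubring Ω, (∀ a ∈ v, algebraMap K Ω a ∈ V) → s ∈ V ∧ t ∈ V := by
    intro V hV
    rcases V.mem_or_inv_mem w with h | h
    · have h1 : s ∈ V := by
        apply sum_mem
        intro i _
        exact mul_mem (hV _ (hav i)) (pow_mem h _)
      refine ⟨h1, ?_⟩
      have : t = -(w * s) := by rw [hst, neg_neg]
      rw [this]
      exact neg_mem (mul_mem h h1)
    · have h1 : t ∈ V := by
        apply sum_mem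
        intro i _
        exact mul_mem (hV _ (hav i)) (pow_mem h _)
      refine ⟨?_, h1⟩
      have : s = w⁻¹ * (-t) := by rw [← hst, inv_mul_cancel_left₀ hw0]
      rw [this]
      exact mul_mem h (neg_mem h1)
  refine ⟨-t, neg_mem (mem_integralClosure_of_forall fun V hV => (hsV V hV).2), s,
    mem_integralClosure_of_forall fun V hV => (hsV V hV).1, ?_, hst⟩
  have hw1 : W.valuation w ≤ 1 := (W.valuation_le_one_iff w).mpr hw
  have e1 : s = algebraMap K Ω (p.coeff j) +
      ∑ i ∈ Finset.Ico (j + 1) (n + 1), algebraMap K Ω (p.coeff i) * w ^ (i - j) := by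
    rw [hs, Finset.sum_eq_sum_Ico_succ_bot (by omega)]
    simp
  have e2 : W.valuation (∑ i ∈ Finset.Ico (j + 1) (n + 1), algebraMap K Ω (p.coeff i) * w ^ (i - j)) < 1 := by
    apply Valuation.map_sum_lt _ one_ne_zero
    intro i hi
    rw [Finset.mem_Ico] at hi
    rw [map_mul, map_pow]
    calc W.valuation (algebraMap K Ω (p.coeff i)) * W.valuation w ^ (i - j)
        ≤ W.valuation (algebraMap K Ω (p.coeff i)) * 1 := by
          apply mul_le_mul_right
          exact pow_le_one₀ zero_le hw1
      _ < 1 := by rw [mul_one]; exact hlt i (by omega)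
  rw [e1]
  have e3 : W.valuation (algebraMap K Ω (p.coeff j)) = 1 := hj.2
  rw [Valuation.map_add_eq_of_lt_left, e3]
  rw [e3]; exact e2

end general

section action

variable {K Ω : Type*} [Field K] [Field Ω] [Algebra K Ω] (v : ValuationSubring K)

theorem map_mem (σ : Ω ≃ₐ[K] Ω) {b : Ω} (hb : b ∈ integralClosure v Ω) :
    σ b ∈ integralClosure v Ω := by
  have h1 : IsIntegral v b := hb
  exact h1.map_of_comp_eq (RingHom.id v) (σ : Ω →+* Ω) (RingHom.ext fun a => (σ.commutes a).symm)

/-- The Galois group acts on the integral closure of a valuation ring of `K`. -/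
@[implicit_reducible]
noncomputable def act : MulSemiringAction (Ω ≃ₐ[K] Ω) (integralClosure v Ω) where
  smul σ b := ⟨σ b, map_mem v σ b.2⟩
  one_smul b := rfl
  mul_smul σ τ b := rfl
  smul_zero σ := Subtype.ext (map_zero σ)
  smul_add σ a b := Subtype.ext (map_add σ _ _)
  smul_one σ := Subtype.ext (map_one σ)
  smul_mul σ a b := Subtype.ext (map_mul σ _ _)

theorem act_coe (σ : Ω ≃ₐ[K] Ω) (b : integralClosure v Ω) :
    letI := act (Ω := Ω) v
    ((σ • b : integralClosure v Ω) : Ω) = σ b := rfl

theorem act_comm : letI := act (Ω := Ω) v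
    SMulCommClass (Ω ≃ₐ[K] Ω) v (integralClosure v Ω) := by
  letI := act (Ω := Ω) v
  refine ⟨fun σ a b => Subtype.ext ?_⟩
  have e : ∀ c : integralClosure v Ω, ((a • c : integralClosure v Ω) : Ω) = algebraMap K Ω a * c :=
    fun c => by rw [Subalgebra.coe_smul, Algebra.smul_def]; rfl
  rw [e, act_coe, act_coe, e, map_mul, σ.commutes]

theorem act_inv [IsGalois K Ω] : letI := act (Ω := Ω) v
    Algebra.IsInvariant v (integralClosure v Ω) (Ω ≃ₐ[K] Ω) := by
  letI := act (Ω := Ω) v
  refine ⟨fun b hb => ?_⟩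
  have h1 : ∀ σ : Ω ≃ₐ[K] Ω, σ (b : Ω) = b := fun σ => congrArg Subtype.val (hb σ)
  obtain ⟨k, hk⟩ := (InfiniteGalois.mem_range_algebraMap_iff_fixed (k := K) (K := Ω) _).mpr h1
  have h2 : IsIntegral v (b : Ω) := b.2
  rw [← hk, isIntegral_algebraMap_iff (algebraMap K Ω).injective] at h2
  obtain ⟨a, ha⟩ := (IsIntegrallyClosed.isIntegral_iff (R := v) (K := K)).mp h2
  refine ⟨a, Subtype.ext ?_⟩
  rw [← hk, ← ha]
  rfl

theorem act_cont [Algebra.IsAlgebraic K Ω] : letI := act (Ω := Ω) v
    letI : TopologicalSpace (integralClosure v Ω) := ⊥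
    ContinuousSMul (Ω ≃ₐ[K] Ω) (integralClosure v Ω) := by
  letI := act (Ω := Ω) v
  letI : TopologicalSpace (integralClosure v Ω) := ⊥
  haveI : DiscreteTopology (integralClosure v Ω) := ⟨rfl⟩
  haveI : Algebra.IsIntegral K Ω := Algebra.IsAlgebraic.isIntegral
  rw [continuousSMul_iff_stabilizer_isOpen]
  intro b
  convert! stabilizer_isOpen_of_isIntegral (K := K) (L := Ω) (b : Ω)
  ext σ
  constructor
  · intro h; exact congrArg Subtype.val h
  · intro h; exact Subtype.ext h

end action

section conj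

variable {K Ω : Type*} [Field K] [Field Ω] [Algebra K Ω]

/-- The prime ideal of the integral closure under `W`. -/
def QQ (v : ValuationSubring K) (W : ValuationSubring Ω) (h : W.comap (algebraMap K Ω) = v) :
    Ideal (integralClosure v Ω) where
  carrier := {b | W.valuation (b : Ω) < 1}
  add_mem' {a b} ha hb := lt_of_le_of_lt (W.valuation.map_add _ _) (max_lt ha hb)
  zero_mem' := by
    change W.valuation ((0 : integralClosure v Ω) : Ω) < 1
    simp
  smul_mem' c b hb := by
    change W.valuation ((c : Ω) * b) < 1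
    rw [map_mul]
    have hc : (c : Ω) ∈ W := mem_of_isIntegral c.2 W (fun a ha => by
      rw [← h] at ha; exact ha)
    have hc1 := (W.valuation_le_one_iff _).mpr hc
    exact lt_of_le_of_lt (mul_le_of_le_one_left zero_le hc1) hb

theorem mem_QQ {v : ValuationSubring K} {W : ValuationSubring Ω}
    {h : W.comap (algebraMap K Ω) = v} {b : integralClosure v Ω} :
    b ∈ QQ v W h ↔ W.valuation (b : Ω) < 1 := Iff.rfl

theorem valuation_le {v : ValuationSubring K} {W : ValuationSubring Ω}
    (h : W.comap (algebraMap K Ω) = v) {b : Ω} (hb : b ∈ integralClosure v Ω) :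
    W.valuation b ≤ 1 := by
  rw [W.valuation_le_one_iff]
  exact mem_of_isIntegral hb W (fun a ha => by rw [← h] at ha; exact ha)

instance {v : ValuationSubring K} {W : ValuationSubring Ω}
    {h : W.comap (algebraMap K Ω) = v} : (QQ v W h).IsPrime := by
  constructor
  · rw [Ideal.ne_top_iff_one, mem_QQ]
    simp
  · intro a b hab
    rw [mem_QQ] at hab
    by_contra hcon
    push Not at hcon
    rw [mem_QQ, mem_QQ, not_lt, not_lt] at hcon
    have ha := le_antisymm (valuation_le h a.2) hcon.1
    have hb := le_antisymm (valuation_le h b.2) hcon.2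
    have : W.valuation ((a * b : integralClosure v Ω) : Ω) = 1 := by
      change W.valuation ((a : Ω) * b) = 1
      rw [map_mul, ha, hb, one_mul]
    rw [this] at hab
    exact lt_irrefl _ hab

theorem valuation_lt_iff {v : ValuationSubring K} {W : ValuationSubring Ω}
    (h : W.comap (algebraMap K Ω) = v) (a : K) :
    W.valuation (algebraMap K Ω a) < 1 ↔ (a = 0 ∨ a⁻¹ ∉ v) := by
  rcases eq_or_ne a 0 with rfl | ha
  · simp
  · have h1 : a⁻¹ ∈ v ↔ W.valuation (algebraMap K Ω a)⁻¹ ≤ 1 := by
      rw [← h, ValuationSubring.mem_comap, map_inv₀, W.valuation_le_one_iff]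
    rw [h1, map_inv₀]
    have h2 : W.valuation (algebraMap K Ω a) ≠ 0 := by
      rw [Valuation.ne_zero_iff]
      exact (_root_.map_ne_zero _).mpr ha
    rw [inv_le_one₀ (zero_lt_iff.mpr h2), not_le]
    simp [ha]

theorem under_eq {v : ValuationSubring K} {W₁ W₂ : ValuationSubring Ω}
    (h₁ : W₁.comap (algebraMap K Ω) = v) (h₂ : W₂.comap (algebraMap K Ω) = v) :
    (QQ v W₁ h₁).under v = (QQ v W₂ h₂).under v := by
  ext a
  change W₁.valuation (algebraMap K Ω a) < 1 ↔ W₂.valuation (algebraMap K Ω a) < 1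
  rw [valuation_lt_iff h₁, valuation_lt_iff h₂]

end conj

end TameSite.ValAux

namespace TameSite

open ValAux
open scoped Pointwise

/-- Conjugacy of the extensions of a valuation ring. -/
theorem exists_conj {K Ω : Type*} [Field K] [Field Ω] [Algebra K Ω] [IsGalois K Ω]
    (W₁ W₂ : ValuationSubring Ω)
    (h : W₁.comap (algebraMap K Ω) = W₂.comap (algebraMap K Ω)) :
    ∃ σ : Ω ≃ₐ[K] Ω, W₂.comap (σ : Ω →+* Ω) = W₁ := by
  set v : ValuationSubring K := W₂.comap (algebraMap K Ω) with hv
  have h2 : W₂.comap (algebraMap K Ω) = v := rfl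
  letI := act (Ω := Ω) v
  letI : TopologicalSpace (integralClosure v Ω) := ⊥
  haveI : DiscreteTopology (integralClosure v Ω) := ⟨rfl⟩
  haveI := act_comm (Ω := Ω) v
  haveI := act_inv (Ω := Ω) v
  haveI := act_cont (Ω := Ω) v
  obtain ⟨g, hg⟩ := Algebra.IsInvariant.exists_smul_of_under_eq_of_profinite (A := v)
    (G := Ω ≃ₐ[K] Ω) (QQ v W₁ h) (QQ v W₂ h2) (under_eq h h2)
  have hmem : ∀ b : integralClosure v Ω, W₁.valuation (b : Ω) < 1 ↔ W₂.valuation (g (b : Ω)) < 1 := by
    intro b
    have e1 : g • b ∈ QQ v W₂ h2 ↔ b ∈ QQ v W₁ h := by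
      rw [hg, Ideal.smul_mem_pointwise_smul_iff]
    rw [mem_QQ, mem_QQ] at e1
    exact e1.symm
  refine ⟨g, ?_⟩
  ext w
  rw [ValuationSubring.mem_comap]
  change g w ∈ W₂ ↔ w ∈ W₁
  have key : ∀ (U₁ U₂ : ValuationSubring Ω) (hU₁ : U₁.comap (algebraMap K Ω) = v)
      (hU₂ : U₂.comap (algebraMap K Ω) = v) (k : Ω ≃ₐ[K] Ω)
      (_ : ∀ b : integralClosure v Ω, U₁.valuation (b : Ω) < 1 ↔ U₂.valuation (k (b : Ω)) < 1)
      (x : Ω), x ∈ U₁ → k x ∈ U₂ := by
    intro U₁ U₂ hU₁ hU₂ k hk x hx
    obtain ⟨b, hb, s, hs, hs1, hxs⟩ := exists_mul_eq U₁ hU₁ hx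
    have h5 : U₂.valuation (k s) = 1 := by
      refine le_antisymm (valuation_le hU₂ (map_mem v k hs)) ?_
      rw [← not_lt]
      intro h6
      have := (hk ⟨s, hs⟩).mpr h6
      rw [hs1] at this
      exact lt_irrefl _ this
    rw [← U₂.valuation_le_one_iff]
    have h6 : U₂.valuation (k x) * U₂.valuation (k s) = U₂.valuation (k b) := by
      rw [← map_mul, ← map_mul, hxs]
    rw [h5, mul_one] at h6
    rw [h6]
    exact valuation_le hU₂ (map_mem v k hb)
  constructor
  · intro hw
    have := key W₂ W₁ h2 h g.symm (fun b => by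
      have := hmem ⟨g.symm b, map_mem v g.symm b.2⟩
      simp only [AlgEquiv.apply_symm_apply] at this
      exact this.symm) _ hw
    simpa using this
  · exact key W₁ W₂ h h2 g hmem w

end TameSite
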