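import Pool.Agent.Lib_helper87.Tame.ValConj

set_option linter.style.haveILetI false
set_option linter.unusedVariables false

namespace TameSite

universe u

open ValAux

/-- Extension of valuation rings. -/
theorem exists_extension {K Ω : Type*} [Field K] [Field Ω] (φ : K →+* Ω)
    (v : ValuationSubring K) : ∃ W : ValuationSubring Ω, W.comap φ = v := by
  obtain ⟨W, h, hloc⟩ := IsLocalRing.exists_factor_valuationRing (φ.comp (algebraMap v K))
  refine ⟨W, ?_⟩
  ext a
  rw [ValuationSubring.mem_comap]
  constructor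
  · intro ha
    by_contra hav
    have h1 : a⁻¹ ∈ v := (v.mem_or_inv_mem a).resolve_left hav
    have ha0 : a ≠ 0 := by
      rintro rfl
      exact hav v.zero_mem
    have h2 : IsUnit (((φ.comp (algebraMap v K)).codRestrict W.toSubring h) ⟨a⁻¹, h1⟩) := by
      rw [isUnit_iff_exists_inv]
      refine ⟨⟨φ a, ha⟩, Subtype.ext ?_⟩
      change φ a⁻¹ * φ a = 1
      rw [← map_mul, inv_mul_cancel₀ ha0, map_one]
    have h3 := hloc.map_nonunit _ h2
    rw [isUnit_iff_exists_inv] at h3
    obtain ⟨b, hb⟩ := h3
    have h4 : a⁻¹ * (b : K) = 1 := congrArg Subtype.val hb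
    have h5 : (b : K) = a := by
      rw [inv_mul_eq_iff_eq_mul₀ ha0, mul_one] at h4
      exact h4
    exact hav (h5 ▸ b.2)
  · intro ha
    exact h ⟨a, ha⟩

theorem valuation_lt_one_iff_inv {Ω : Type*} [Field Ω] (W : ValuationSubring Ω) (y : Ω) :
    W.valuation y < 1 ↔ (y = 0 ∨ y⁻¹ ∉ W) := by
  rcases eq_or_ne y 0 with rfl | hy
  · simp
  · rw [← W.valuation_le_one_iff, map_inv₀, inv_le_one₀ (zero_lt_iff.mpr
      ((Valuation.ne_zero_iff _).mpr hy)), not_le]
    simp [hy]

theorem comap_valuation_lt_one {A B : Type*} [Field A] [Field B] (f : A →+* B)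
    (W : ValuationSubring B) (y : A) :
    (W.comap f).valuation y < 1 ↔ W.valuation (f y) < 1 := by
  rw [valuation_lt_one_iff_inv, valuation_lt_one_iff_inv, ValuationSubring.mem_comap, map_inv₀,
    _root_.map_eq_zero]

/-- A tamely ramified extension is fixed by the ramification group. -/
theorem tame_lift {K L : Type u} {Ω : Type*} [Field K] [Field L] [Field Ω] [Algebra K L] [Algebra K Ω]
    [Algebra.IsSeparable K L] [Algebra.IsSeparable K Ω] [IsSepClosed Ω] (w : ValuationSubring L)
    (hw : IsTamelyRamified (algebraMap K L) w) (W : ValuationSubring Ω)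
    (hW : W.comap (algebraMap K Ω) = w.comap (algebraMap K L)) :
    ∃ ψ : L →ₐ[K] Ω, W.comap (ψ : L →+* Ω) = w ∧
      ∀ σ : Ω ≃ₐ[K] Ω, Wild W (σ : Ω ≃+* Ω) → ∀ y, σ (ψ y) = ψ y := by
  haveI : Algebra.IsSeparable K (SeparableClosure L) := Algebra.IsSeparable.trans K L _
  haveI : IsSepClosure K (SeparableClosure L) := ⟨inferInstance, inferInstance⟩
  haveI : IsSepClosure K Ω := ⟨inferInstance, inferInstance⟩
  let e : SeparableClosure L ≃ₐ[K] Ω := IsSepClosure.equiv K (SeparableClosure L) Ω
  obtain ⟨W0, hW0⟩ := exists_extension (algebraMap L (SeparableClosure L)) w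
  have hcomm : ∀ a : K, algebraMap K (SeparableClosure L) a =
      algebraMap L (SeparableClosure L) (algebraMap K L a) :=
    fun a => IsScalarTower.algebraMap_apply K L (SeparableClosure L) a
  have hcomap : W0.comap (algebraMap K (SeparableClosure L)) =
      (W.comap (e : SeparableClosure L →+* Ω)).comap (algebraMap K (SeparableClosure L)) := by
    ext a
    rw [ValuationSubring.mem_comap, ValuationSubring.mem_comap, ValuationSubring.mem_comap]
    have e1 : (e : SeparableClosure L →+* Ω) (algebraMap K (SeparableClosure L) a) =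
        algebraMap K Ω a := e.commutes a
    rw [e1, ← ValuationSubring.mem_comap (f := algebraMap K Ω), hW, ValuationSubring.mem_comap,
      hcomm, ← ValuationSubring.mem_comap (f := algebraMap L (SeparableClosure L)), hW0]
  obtain ⟨τ, hτ⟩ := exists_conj W0 (W.comap (e : SeparableClosure L →+* Ω)) hcomap
  have hmem : ∀ x : SeparableClosure L, e (τ x) ∈ W ↔ x ∈ W0 := by
    intro x
    rw [← hτ]
    rfl
  let ψ : L →ₐ[K] Ω :=
    { toRingHom := ((e : SeparableClosure L →+* Ω).comp (τ : SeparableClosure L →+* SeparableClosure L)).comp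
        (algebraMap L (SeparableClosure L))
      commutes' := fun a => by
        change e (τ (algebraMap L (SeparableClosure L) (algebraMap K L a))) = _
        rw [← hcomm, τ.commutes, e.commutes] }
  have hψ : ∀ y : L, ψ y = e (τ (algebraMap L (SeparableClosure L) y)) := fun y => rfl
  refine ⟨ψ, ?_, ?_⟩
  · ext y
    rw [ValuationSubring.mem_comap]
    change ψ y ∈ W ↔ _
    rw [hψ, hmem, ← ValuationSubring.mem_comap (f := algebraMap L (SeparableClosure L)), hW0]
  · intro σ hσ y
    let ρ : SeparableClosure L ≃ₐ[K] SeparableClosure L := ((τ.trans e).trans σ).trans (τ.trans e).symm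
    have hρ : ∀ x, e (τ (ρ x)) = σ (e (τ x)) := by
      intro x
      change (τ.trans e) ((τ.trans e).symm (σ ((τ.trans e) x))) = _
      rw [AlgEquiv.apply_symm_apply]
      rfl
    have hW0' : W0 = W.comap ((τ.trans e : SeparableClosure L ≃ₐ[K] Ω) : SeparableClosure L →+* Ω) := by
      ext x
      rw [ValuationSubring.mem_comap]
      exact (hmem x).symm
    have hwild : Wild W0 (ρ : SeparableClosure L ≃+* SeparableClosure L) := by
      intro x hx
      rw [hW0', comap_valuation_lt_one]
      have e1 : ((τ.trans e : SeparableClosure L ≃ₐ[K] Ω) : SeparableClosure L →+* Ω)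
          ((ρ : SeparableClosure L ≃+* SeparableClosure L) x / x - 1) =
          σ (e (τ x)) / e (τ x) - 1 := by
        rw [map_sub, map_div₀, map_one, ← hρ]
        rfl
      rw [e1]
      exact hσ _ (by
        rw [Ne, map_eq_zero_iff _ e.injective, map_eq_zero_iff _ τ.injective]
        exact hx)
    have hfix := hw W0 hW0 (ρ : SeparableClosure L ≃+* SeparableClosure L) (fun a => by
      rw [← hcomm]
      exact ρ.commutes a) hwild y
    rw [hψ, ← hρ]
    have h5 : ρ (algebraMap L (SeparableClosure L) y) = algebraMap L (SeparableClosure L) y := hfix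
    rw [h5]

end TameSite
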